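import Pool.Agent.NSH.RedB

/-!
MODULE TriFam (difficulty 2).  A graph which is a union of edge-disjoint triangles.
-/

open Finset
open scoped Classical

namespace Pool.NSH

variable {V : Type*}

/-- the graph with the edges `{a i, b i}` -/
def ed {I : Type*} (a b : I → V) : SimpleGraph V :=
  SimpleGraph.fromRel fun x y => ∃ i, x = a i ∧ y = b i

theorem triFam {I : Type*} [Fintype I] (a b c : I → V)
    (h : ∀ i, a i ≠ b i ∧ b i ≠ c i ∧ a i ≠ c i)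
    (hd : ∀ i j, i ≠ j → ∀ x y, x ≠ y → x ∈ ({a i, b i, c i} : Finset V) →
      y ∈ ({a i, b i, c i} : Finset V) → x ∈ ({a j, b j, c j} : Finset V) →
      y ∈ ({a j, b j, c j} : Finset V) → False) :
    HasDec (ed a b ⊔ ed b c ⊔ ed a c) := by
  have key : ∀ x y, (ed a b ⊔ ed b c ⊔ ed a c).Adj x y →
      ∃ i, x ∈ ({a i, b i, c i} : Finset V) ∧ y ∈ ({a i, b i, c i} : Finset V) := by
    intro x y hxy
    simp only [SimpleGraph.sup_adj, ed, SimpleGraph.fromRel_adj] at hxy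
    rcases hxy with (⟨_, ⟨i, hx, hy⟩ | ⟨i, hx, hy⟩⟩ | ⟨_, ⟨i, hx, hy⟩ | ⟨i, hx, hy⟩⟩) |
      ⟨_, ⟨i, hx, hy⟩ | ⟨i, hx, hy⟩⟩ <;> exact ⟨i, by simp [hx, hy], by simp [hx, hy]⟩
  refine ⟨univ.image fun i => ({a i, b i, c i} : Finset V), ⟨?_, ?_⟩, ?_⟩
  · intro T hT
    obtain ⟨i, _, rfl⟩ := Finset.mem_image.1 hT
    obtain ⟨h1, h2, h3⟩ := h i
    rw [SimpleGraph.is3Clique_triple_iff]
    refine ⟨?_, ?_, ?_⟩
    · exact Or.inl (Or.inl ((SimpleGraph.fromRel_adj _ _ _).2 ⟨h1, Or.inl ⟨i, rfl, rfl⟩⟩))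
    · exact Or.inr ((SimpleGraph.fromRel_adj _ _ _).2 ⟨h3, Or.inl ⟨i, rfl, rfl⟩⟩)
    · exact Or.inl (Or.inr ((SimpleGraph.fromRel_adj _ _ _).2 ⟨h2, Or.inl ⟨i, rfl, rfl⟩⟩))
  · intro T hT T' hT' x y hxy hx hy hx' hy'
    obtain ⟨i, _, rfl⟩ := Finset.mem_image.1 hT
    obtain ⟨j, _, rfl⟩ := Finset.mem_image.1 hT'
    by_cases hij : i = j
    · rw [hij]
    · exact (hd i j hij x y hxy hx hy hx' hy').elim
  · ext x y
    simp only [SimpleGraph.bot_adj, false_iff]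
    rintro ⟨hxy, hn⟩
    obtain ⟨i, hx, hy⟩ := key x y hxy
    exact hn _ (Finset.mem_image.2 ⟨i, Finset.mem_univ i, rfl⟩) ⟨hx, hy⟩

end Pool.NSH
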