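import Pool.Agent.NSH.AbsE
import Pool.Agent.NSH.TriFam

/-!
MODULE AbsT (difficulty 4).  The absorber of a closed trail `v` of length `3 s`.

RECIPE: `z, y` from `absE` (`a + 1` is the successor, written `v⁺ i = v (i + 1)`).  Five graphs:
`Ev = ed v v⁺`, `K = ed z v ⊔ ed z v⁺`, `Ez = ed z z⁺`, `K' = ed y z ⊔ ed y z⁺`, `Ey = ed y y⁺`; `A = K ⊔ Ez ⊔ K' ⊔ Ey`, `Nw = image z ∪ image y`.
`triFam` (index `ZMod (3 s)`, up to the order of the three maps and `ed a b = ed b a`):
* `Ev ⊔ K` : triangles `{v i, v⁺ i, z i}`; a common pair of two of them contains `z i = z j` (then `i = j`) or is `{v i, v⁺ i}` (`hinj`).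
* `K ⊔ Ez` : `{z i, v⁺ i, z⁺ i}`; common pair `{z i, z⁺ i} = {z j, z⁺ j}` gives `i = j` (or `j = i + 1`, `j + 1 = i`: impossible as `3 s ≥ 3`);
  common pair `{z, v⁺}`: `z i = z⁺ j`, `v⁺ i = v⁺ j` with `i = j + 1`: `v (j+2) = v (j+1)`, not adjacent: impossible.
* `Ez ⊔ K'` : `{z i, z⁺ i, y i}`; common pair `{z, y}`: `y i = y j`, `z⁺ i = z j` i.e. `j = i + 1`: then `y i = y (i+1)`, impossible (residues mod 3; adjacent).
* `K' ⊔ Ey` : `{y i, z⁺ i, y⁺ i}`; common pair with `z`: `z⁺ i = z⁺ j`, `i = j`; common pair `{y i, y⁺ i} = {y j, y⁺ j}`: classes mod 3 force `i = j`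
  (each such pair contains a `y` with index not `≡ 0`, which determines its index; then look at residues).
* `Ey` : triangles `{y (3j), y (3j+1), y (3j+2)}`, `j : Fin s`; `Ey = ed .. ⊔ ed .. ⊔ ed ..` over `Fin s`.
The five graphs are pairwise disjoint (`K`: one end in `z`, other in `v`-values, which are in `Fb`; `Ez`: both ends `z`; `K'`: `z` and `y`; `Ey`: both `y`; `Ev`: both ends in `Fb`).
`HasDec A`: `(K ⊔ Ez) ⊔ (K' ⊔ Ey)`; `HasDec (A ⊔ Ev)`: `(Ev ⊔ K) ⊔ (Ez ⊔ K') ⊔ Ey` (`hasDec_sup`).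
-/

open Finset
open scoped Classical

namespace Pool.NSH

section
variable {V : Type*}

theorem absT_adj {I : Type*} {a b : I → V} {x y : V} :
    (ed a b).Adj x y ↔ x ≠ y ∧ ∃ i, (x = a i ∧ y = b i) ∨ (x = b i ∧ y = a i) := by
  unfold ed
  rw [SimpleGraph.fromRel_adj]
  constructor
  · rintro ⟨h1, ⟨i, h2, h3⟩ | ⟨i, h2, h3⟩⟩
    · exact ⟨h1, i, Or.inl ⟨h2, h3⟩⟩
    · exact ⟨h1, i, Or.inr ⟨h3, h2⟩⟩
  · rintro ⟨h1, i, ⟨h2, h3⟩ | ⟨h2, h3⟩⟩
    · exact ⟨h1, Or.inl ⟨i, h2, h3⟩⟩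
    · exact ⟨h1, Or.inr ⟨i, h3, h2⟩⟩

theorem absT_comm {I : Type*} (a b : I → V) : ed a b = ed b a := by
  ext x y
  rw [absT_adj, absT_adj]
  constructor
  · rintro ⟨h1, i, h2⟩
    exact ⟨h1, i, h2.symm⟩
  · rintro ⟨h1, i, h2⟩
    exact ⟨h1, i, h2.symm⟩

theorem absT_shift {m : ℕ} (a b : ZMod m → V) :
    ed (fun i => a (i + 1)) (fun i => b (i + 1)) = ed a b := by
  ext x y
  rw [absT_adj, absT_adj]
  constructor
  · rintro ⟨h1, i, h2⟩
    exact ⟨h1, i + 1, h2⟩
  · rintro ⟨h1, i, h2⟩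
    refine ⟨h1, i - 1, ?_⟩
    rw [sub_add_cancel]
    exact h2

theorem absT_disj {G₁ G₂ : SimpleGraph V} (h : ∀ x y, G₁.Adj x y → ¬ G₂.Adj x y) : Disjoint G₁ G₂ := by
  rw [disjoint_iff_inf_le]
  intro x y hxy
  exact absurd hxy.2 (h x y hxy.1)

theorem absT_pair {x x' a b c d : V} (hne : x ≠ x') (h1 : x = a ∨ x = b) (h2 : x' = a ∨ x' = b)
    (h3 : x = c ∨ x = d) (h4 : x' = c ∨ x' = d) : (a = c ∧ b = d) ∨ (a = d ∧ b = c) := by
  rcases h1 with h1 | h1 <;> rcases h2 with h2 | h2 <;> rcases h3 with h3 | h3 <;>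
    rcases h4 with h4 | h4
  all_goals first
    | exact absurd (h1.trans h2.symm) hne
    | exact absurd (h3.trans h4.symm) hne
    | exact Or.inl ⟨h1.symm.trans h3, h2.symm.trans h4⟩
    | exact Or.inr ⟨h1.symm.trans h3, h2.symm.trans h4⟩
    | exact Or.inl ⟨h2.symm.trans h4, h1.symm.trans h3⟩
    | exact Or.inr ⟨h2.symm.trans h4, h1.symm.trans h3⟩

/-- the data -/
structure AbsTD (Fb : Finset V) {m : ℕ} (r : ZMod m →+* ZMod 3) (v z y : ZMod m → V) : Prop where
  vne : ∀ i, v i ≠ v (i + 1)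
  vinj : ∀ i j, s(v i, v (i + 1)) = s(v j, v (j + 1)) → i = j
  vF : ∀ i, v i ∈ Fb
  zinj : Function.Injective z
  yeq : ∀ i j, y i = y j ↔ i = j ∨ (r i = 0 ∧ r j = 0)
  zy : ∀ i j, z i ≠ y j
  zF : ∀ i, z i ∉ Fb
  yF : ∀ i, y i ∉ Fb

theorem absT_r1 {m : ℕ} (r : ZMod m →+* ZMod 3) {i j : ZMod m} (h1 : i = j + 1) (h2 : j = i + 1) :
    False := by
  have e1 : r i = r j + 1 := by rw [h1, map_add, map_one]
  have e2 : r j = r i + 1 := by
    have := congrArg r h2
    rwa [map_add, map_one] at this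
  rw [e2] at e1
  revert e1
  generalize r i = a
  revert a
  decide

theorem absT_r2 {m : ℕ} (r : ZMod m →+* ZMod 3) {i : ZMod m} (h1 : r i = 0) (h2 : r (i + 1) = 0) :
    False := by
  rw [map_add, map_one, h1] at h2
  revert h2
  decide

theorem AbsTD.yne {Fb : Finset V} {m : ℕ} {r : ZMod m →+* ZMod 3} {v z y : ZMod m → V}
    (h : AbsTD Fb r v z y) (i : ZMod m) : y i ≠ y (i + 1) := by
  intro e
  rcases (h.yeq _ _).mp e with e | ⟨e1, e2⟩
  · have e1 : r i = r i + 1 := by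
      have := congrArg r e
      rwa [map_add, map_one] at this
    revert e1
    generalize r i = a
    revert a
    decide
  · exact absT_r2 r e1 e2

theorem AbsTD.zne {Fb : Finset V} {m : ℕ} {r : ZMod m →+* ZMod 3} {v z y : ZMod m → V}
    (h : AbsTD Fb r v z y) (i : ZMod m) : z i ≠ z (i + 1) := by
  intro e
  have e := h.zinj e
  have e1 : r i = r i + 1 := by
    have := congrArg r e
    rwa [map_add, map_one] at this
  revert e1
  generalize r i = a
  revert a
  decide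

/-- the triangles `v i, v (i+1), z i` -/
theorem absT_1 {Fb : Finset V} {m : ℕ} [NeZero m] {r : ZMod m →+* ZMod 3} {v z y : ZMod m → V}
    (h : AbsTD Fb r v z y) : HasDec (ed v (fun i => v (i + 1)) ⊔ ed (fun i => v (i + 1)) z ⊔ ed v z) := by
  have hvz : ∀ i j, v i ≠ z j := fun i j e => h.zF j (e ▸ h.vF i)
  apply triFam v (fun i => v (i + 1)) z
  · intro i
    exact ⟨h.vne i, hvz _ _, hvz _ _⟩
  · intro i j hij
    have key : ∀ x, x ∈ ({v i, v (i + 1), z i} : Finset V) → x ∈ ({v j, v (j + 1), z j} : Finset V) →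
        (x = v i ∨ x = v (i + 1)) ∧ (x = v j ∨ x = v (j + 1)) := by
      intro x hx hx'
      rw [mem_insert, mem_insert, mem_singleton] at hx hx'
      rcases hx with hx | hx | hx
      · refine ⟨Or.inl hx, ?_⟩
        rcases hx' with hx' | hx' | hx'
        · exact Or.inl hx'
        · exact Or.inr hx'
        · exact absurd (hx.symm.trans hx') (hvz _ _)
      · refine ⟨Or.inr hx, ?_⟩
        rcases hx' with hx' | hx' | hx'
        · exact Or.inl hx'
        · exact Or.inr hx'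
        · exact absurd (hx.symm.trans hx') (hvz _ _)
      · exfalso
        rcases hx' with hx' | hx' | hx'
        · exact hvz _ _ (hx'.symm.trans hx)
        · exact hvz _ _ (hx'.symm.trans hx)
        · exact hij (h.zinj (hx.symm.trans hx'))
    intro x x' hne hx hx' hy hy'
    obtain ⟨a1, a2⟩ := key x hx hy
    obtain ⟨b1, b2⟩ := key x' hx' hy'
    apply hij
    apply h.vinj
    rw [Sym2.eq_iff]
    exact absT_pair hne a1 b1 a2 b2

/-- the triangles `z i, z (i+1), t i` where `t i ≠ t (i+1)` -/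
theorem absT_2 {Fb : Finset V} {m : ℕ} [NeZero m] {r : ZMod m →+* ZMod 3} {v z y : ZMod m → V}
    (h : AbsTD Fb r v z y) (t : ZMod m → V) (ht : ∀ i j, z i ≠ t j) (ht' : ∀ i, t i ≠ t (i + 1)) :
    HasDec (ed z (fun i => z (i + 1)) ⊔ ed (fun i => z (i + 1)) t ⊔ ed z t) := by
  apply triFam z (fun i => z (i + 1)) t
  · intro i
    exact ⟨h.zne i, ht _ _, ht _ _⟩
  · intro i j hij
    have key : ∀ x, x ∈ ({z i, z (i + 1), t i} : Finset V) → x ∈ ({z j, z (j + 1), t j} : Finset V) →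
        (x = t i ∧ t i = t j) ∨ (x = z i ∧ i = j + 1) ∨ (x = z j ∧ j = i + 1) := by
      intro x hx hx'
      rw [mem_insert, mem_insert, mem_singleton] at hx hx'
      rcases hx with hx | hx | hx
      · rcases hx' with hx' | hx' | hx'
        · exact absurd (h.zinj (hx.symm.trans hx')) hij
        · exact Or.inr (Or.inl ⟨hx, h.zinj (hx.symm.trans hx')⟩)
        · exact absurd (hx.symm.trans hx') (ht _ _)
      · rcases hx' with hx' | hx' | hx'
        · exact Or.inr (Or.inr ⟨hx', (h.zinj (hx.symm.trans hx')).symm⟩)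
        · exact absurd (add_right_cancel (h.zinj (hx.symm.trans hx'))) hij
        · exact absurd (hx.symm.trans hx') (ht _ _)
      · rcases hx' with hx' | hx' | hx'
        · exact absurd (hx'.symm.trans hx) (ht _ _)
        · exact absurd (hx'.symm.trans hx) (ht _ _)
        · exact Or.inl ⟨hx, hx.symm.trans hx'⟩
    intro x x' hne hx hx' hy hy'
    rcases key x hx hy with ⟨a1, a2⟩ | ⟨a1, a2⟩ | ⟨a1, a2⟩ <;>
      rcases key x' hx' hy' with ⟨b1, b2⟩ | ⟨b1, b2⟩ | ⟨b1, b2⟩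
    · exact hne (a1.trans b1.symm)
    · rw [b2] at a2
      exact ht' _ a2.symm
    · rw [b2] at a2
      exact ht' _ a2
    · rw [a2] at b2
      exact ht' _ b2.symm
    · exact hne (a1.trans b1.symm)
    · exact absT_r1 r a2 b2
    · rw [a2] at b2
      exact ht' _ b2
    · exact absT_r1 r b2 a2
    · exact hne (a1.trans b1.symm)

/-- the triangles `y i, z (i+1), y (i+1)` -/
theorem absT_4 {Fb : Finset V} {m : ℕ} [NeZero m] {r : ZMod m →+* ZMod 3} {v z y : ZMod m → V}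
    (h : AbsTD Fb r v z y) :
    HasDec (ed y (fun i => z (i + 1)) ⊔ ed (fun i => z (i + 1)) (fun i => y (i + 1)) ⊔
      ed y (fun i => y (i + 1))) := by
  apply triFam y (fun i => z (i + 1)) (fun i => y (i + 1))
  · intro i
    exact ⟨(h.zy _ _).symm, h.zy _ _, h.yne i⟩
  · intro i j hij
    have key : ∀ x, x ∈ ({y i, z (i + 1), y (i + 1)} : Finset V) →
        x ∈ ({y j, z (j + 1), y (j + 1)} : Finset V) →
        (x = y i ∨ x = y (i + 1)) ∧ (x = y j ∨ x = y (j + 1)) := by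
      intro x hx hx'
      rw [mem_insert, mem_insert, mem_singleton] at hx hx'
      rcases hx with hx | hx | hx
      · refine ⟨Or.inl hx, ?_⟩
        rcases hx' with hx' | hx' | hx'
        · exact Or.inl hx'
        · exact absurd (hx'.symm.trans hx) (h.zy _ _)
        · exact Or.inr hx'
      · exfalso
        rcases hx' with hx' | hx' | hx'
        · exact h.zy _ _ (hx.symm.trans hx')
        · exact hij (add_right_cancel (h.zinj (hx.symm.trans hx')))
        · exact h.zy _ _ (hx.symm.trans hx')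
      · refine ⟨Or.inr hx, ?_⟩
        rcases hx' with hx' | hx' | hx'
        · exact Or.inl hx'
        · exact absurd (hx'.symm.trans hx) (h.zy _ _)
        · exact Or.inr hx'
    intro x x' hne hx hx' hy hy'
    obtain ⟨a1, a2⟩ := key x hx hy
    obtain ⟨b1, b2⟩ := key x' hx' hy'
    rcases absT_pair hne a1 b1 a2 b2 with ⟨e1, e2⟩ | ⟨e1, e2⟩
    · rcases (h.yeq _ _).mp e1 with e | ⟨e3, _⟩
      · exact hij e
      · rcases (h.yeq _ _).mp e2 with e | ⟨e4, _⟩
        · exact hij (add_right_cancel e)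
        · exact absT_r2 r e3 e4
    · rcases (h.yeq _ _).mp e1 with e | ⟨e3, e3'⟩
      · rcases (h.yeq _ _).mp e2 with e' | ⟨e4, e4'⟩
        · exact absT_r1 r e e'.symm
        · rw [e, map_add, map_add, map_one, e4'] at e4
          revert e4
          decide
      · rcases (h.yeq _ _).mp e2 with e' | ⟨e4, e4'⟩
        · rw [← e', map_add, map_add, map_one, e3] at e3'
          revert e3'
          decide
        · exact absT_r2 r e3 e4

/-- the triangles `y (3j), y (3j+1), y (3j+2)` -/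
theorem absT_5 {Fb : Finset V} {m : ℕ} [NeZero m] {r : ZMod m →+* ZMod 3} {v z y : ZMod m → V}
    (h : AbsTD Fb r v z y) : HasDec (ed y (fun i => y (i + 1))) := by
  have hr1 : ∀ i : {i : ZMod m // r i = 0}, r (i.1 + 1) = 1 := by
    intro i
    rw [map_add, map_one, i.2, zero_add]
  have hr2 : ∀ i : {i : ZMod m // r i = 0}, r (i.1 + 1 + 1) = 2 := by
    intro i
    rw [map_add, map_one, hr1]
    decide
  have h10 : (1 : ZMod 3) ≠ 0 := by decide
  have h20 : (2 : ZMod 3) ≠ 0 := by decide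
  have h12 : (1 : ZMod 3) ≠ 2 := by decide
  have h01 : ∀ i : {i : ZMod m // r i = 0}, y i.1 ≠ y (i.1 + 1) := fun i => h.yne _
  have h02 : ∀ i : {i : ZMod m // r i = 0}, y i.1 ≠ y (i.1 + 1 + 1) := by
    intro i e
    rcases (h.yeq _ _).mp e with e | ⟨_, e2⟩
    · have := hr2 i
      rw [← e, i.2] at this
      exact h20 this.symm
    · rw [hr2] at e2
      exact h20 e2
  have key0 := triFam (I := {i : ZMod m // r i = 0}) (fun i => y i.1) (fun i => y (i.1 + 1))
    (fun i => y (i.1 + 1 + 1)) (fun i => ⟨h01 i, h.yne _, h02 i⟩) (by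
      intro i j hij
      have hij' : i.1 ≠ j.1 := fun e => hij (Subtype.ext e)
      have key : ∀ x, x ∈ ({y i.1, y (i.1 + 1), y (i.1 + 1 + 1)} : Finset V) →
          x ∈ ({y j.1, y (j.1 + 1), y (j.1 + 1 + 1)} : Finset V) → x = y i.1 := by
        intro x hx hx'
        rw [mem_insert, mem_insert, mem_singleton] at hx hx'
        rcases hx with hx | hx | hx
        · exact hx
        · exfalso
          rcases hx' with hx' | hx' | hx'
          · rcases (h.yeq _ _).mp (hx.symm.trans hx') with e | ⟨e, _⟩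
            · have := hr1 i
              rw [e, j.2] at this
              exact h10 this.symm
            · rw [hr1] at e
              exact h10 e
          · rcases (h.yeq _ _).mp (hx.symm.trans hx') with e | ⟨e, _⟩
            · exact hij' (add_right_cancel e)
            · rw [hr1] at e
              exact h10 e
          · rcases (h.yeq _ _).mp (hx.symm.trans hx') with e | ⟨e, _⟩
            · have := hr1 i
              rw [e, hr2] at this
              exact h12 this.symm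
            · rw [hr1] at e
              exact h10 e
        · exfalso
          rcases hx' with hx' | hx' | hx'
          · rcases (h.yeq _ _).mp (hx.symm.trans hx') with e | ⟨e, _⟩
            · have := hr2 i
              rw [e, j.2] at this
              exact h20 this.symm
            · rw [hr2] at e
              exact h20 e
          · rcases (h.yeq _ _).mp (hx.symm.trans hx') with e | ⟨e, _⟩
            · have := hr2 i
              rw [e, hr1] at this
              exact h12 this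
            · rw [hr2] at e
              exact h20 e
          · rcases (h.yeq _ _).mp (hx.symm.trans hx') with e | ⟨e, _⟩
            · exact hij' (add_right_cancel (add_right_cancel e))
            · rw [hr2] at e
              exact h20 e
      intro x x' hne hx hx' hy hy'
      exact hne ((key x hx hy).trans (key x' hx' hy').symm))
  have he : ed y (fun i => y (i + 1)) = ed (fun i : {i : ZMod m // r i = 0} => y i.1) (fun i => y (i.1 + 1)) ⊔
      ed (fun i : {i : ZMod m // r i = 0} => y (i.1 + 1)) (fun i => y (i.1 + 1 + 1)) ⊔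
      ed (fun i : {i : ZMod m // r i = 0} => y i.1) (fun i => y (i.1 + 1 + 1)) := by
    -- `y (i + 3) = y i` for the indices of residue `0`
    have h3 : ∀ i : ZMod m, r i = 0 → y (i + 1 + 1 + 1) = y i := by
      intro i hi
      rw [h.yeq]
      right
      refine ⟨?_, hi⟩
      rw [map_add, map_add, map_add, map_one, hi]
      decide
    ext x x'
    rw [SimpleGraph.sup_adj, SimpleGraph.sup_adj, absT_adj, absT_adj, absT_adj, absT_adj]
    constructor
    · rintro ⟨hne, i, hi⟩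
      have hcase : ∀ a : ZMod 3, a = 0 ∨ a = 1 ∨ a = 2 := by decide
      rcases hcase (r i) with hr | hr | hr
      · exact Or.inl (Or.inl ⟨hne, ⟨i, hr⟩, hi⟩)
      · have hr' : r (i - 1) = 0 := by rw [map_sub, map_one, hr, sub_self]
        refine Or.inl (Or.inr ⟨hne, ⟨i - 1, hr'⟩, ?_⟩)
        show (x = y (i - 1 + 1) ∧ x' = y (i - 1 + 1 + 1)) ∨ (x = y (i - 1 + 1 + 1) ∧ x' = y (i - 1 + 1))
        rw [sub_add_cancel]
        exact hi
      · have hr' : r (i - 1 - 1) = 0 := by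
          rw [map_sub, map_sub, map_one, hr]
          decide
        refine Or.inr ⟨hne, ⟨i - 1 - 1, hr'⟩, ?_⟩
        show (x = y (i - 1 - 1) ∧ x' = y (i - 1 - 1 + 1 + 1)) ∨ (x = y (i - 1 - 1 + 1 + 1) ∧ x' = y (i - 1 - 1))
        have e1 := h3 (i - 1 - 1) hr'
        rw [sub_add_cancel, sub_add_cancel] at e1 ⊢
        rw [← e1]
        exact hi.symm
    · rintro ((⟨hne, i, hi⟩ | ⟨hne, i, hi⟩) | ⟨hne, i, hi⟩)
      · exact ⟨hne, i.1, hi⟩
      · exact ⟨hne, i.1 + 1, hi⟩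
      · refine ⟨hne, i.1 + 1 + 1, ?_⟩
        rw [h3 i.1 i.2]
        exact hi.symm
  rw [he]
  exact key0

end

theorem absTrail {V : Type*} [Fintype V] (G : SimpleGraph V) (Fb : Finset V) (s : ℕ) (hs : 0 < s)
    (v : ZMod (3 * s) → V) (hv : ∀ i, G.Adj (v i) (v (i + 1)))
    (hinj : ∀ i j, s(v i, v (i + 1)) = s(v j, v (j + 1)) → i = j) (hFb : ∀ i, v i ∈ Fb)
    (hcn : ∀ S : Finset V, S.card ≤ 4 →
      Fb.card + 6 * s < (univ.filter fun v => ∀ s ∈ S, G.Adj s v).card) :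
    ∃ (A : SimpleGraph V) (Nw : Finset V), A ≤ G ∧ Nw.card ≤ 6 * s ∧ Disjoint Nw Fb ∧
      (∀ x y, A.Adj x y → (x ∈ Nw ∨ y ∈ Nw) ∧ (x ∈ Nw ∨ ∃ i, x = v i) ∧
        (y ∈ Nw ∨ ∃ i, y = v i)) ∧
      HasDec A ∧ HasDec (A ⊔ ed v (fun i => v (i + 1))) := by
  have : NeZero (3 * s) := ⟨by omega⟩
  obtain ⟨z, y, hzi, hyeq, hzy, hzyF, hadj⟩ := absE G Fb s hs v hcn
  -- residues
  let r : ZMod (3 * s) →+* ZMod 3 := ZMod.castHom (dvd_mul_right 3 s) (ZMod 3)
  have hr : ∀ i : ZMod (3 * s), i.val % 3 = 0 ↔ r i = 0 := by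
    intro i
    have e1 : r i = ((i.val : ℕ) : ZMod 3) := by
      show (i.cast : ZMod 3) = _
      rw [ZMod.natCast_val]
    rw [e1, ZMod.natCast_eq_zero_iff]
    omega
  have hD : AbsTD Fb r v z y := by
    refine ⟨fun i => (hv i).ne, hinj, hFb, hzi, ?_, hzy, fun i => (hzyF i).1, fun i => (hzyF i).2⟩
    intro i j
    rw [hyeq, hr, hr]
  have hvz : ∀ i j, v i ≠ z j := fun i j e => hD.zF j (e ▸ hD.vF i)
  have hvy : ∀ i j, v i ≠ y j := fun i j e => hD.yF j (e ▸ hD.vF i)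
  set Ev := ed v (fun i => v (i + 1)) with hEv
  set K := ed z v ⊔ ed z (fun i => v (i + 1)) with hK
  set Ez := ed z (fun i => z (i + 1)) with hEz
  set K' := ed y z ⊔ ed y (fun i => z (i + 1)) with hK'
  set Ey := ed y (fun i => y (i + 1)) with hEy
  have d1 : HasDec (Ev ⊔ K) := by
    have := absT_1 hD
    rw [absT_comm (fun i => v (i + 1)) z, absT_comm v z, sup_assoc,
      sup_comm (ed z fun i => v (i + 1)) (ed z v)] at this
    exact this
  have d2 : HasDec (K ⊔ Ez) := by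
    have := absT_2 hD (fun i => v (i + 1)) (fun i j => (hvz _ _).symm) (fun i => hD.vne _)
    rw [absT_shift z v, sup_assoc, sup_comm] at this
    exact this
  have d3 : HasDec (Ez ⊔ K') := by
    have := absT_2 hD y (fun i j => hD.zy i j) (fun i => hD.yne i)
    rw [absT_comm (fun i => z (i + 1)) y, absT_comm z y, sup_assoc,
      sup_comm (ed y fun i => z (i + 1)) (ed y z)] at this
    exact this
  have d4 : HasDec (K' ⊔ Ey) := by
    have := absT_4 hD
    rw [absT_shift z y, absT_comm z y, sup_comm (ed y fun i => z (i + 1)) (ed y z)] at this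
    exact this
  have d5 : HasDec Ey := absT_5 hD
  -- endpoints
  have pK : ∀ x x', K.Adj x x' → (∃ i j, x = z i ∧ x' = v j) ∨ (∃ i j, x = v j ∧ x' = z i) := by
    intro x x' hx
    rw [hK, SimpleGraph.sup_adj, absT_adj, absT_adj] at hx
    rcases hx with ⟨_, i, ⟨a, b⟩ | ⟨a, b⟩⟩ | ⟨_, i, ⟨a, b⟩ | ⟨a, b⟩⟩
    · exact Or.inl ⟨i, i, a, b⟩
    · exact Or.inr ⟨i, i, a, b⟩
    · exact Or.inl ⟨i, i + 1, a, b⟩
    · exact Or.inr ⟨i, i + 1, a, b⟩
  have pK' : ∀ x x', K'.Adj x x' → (∃ i j, x = y i ∧ x' = z j) ∨ (∃ i j, x = z j ∧ x' = y i) := by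
    intro x x' hx
    rw [hK', SimpleGraph.sup_adj, absT_adj, absT_adj] at hx
    rcases hx with ⟨_, i, ⟨a, b⟩ | ⟨a, b⟩⟩ | ⟨_, i, ⟨a, b⟩ | ⟨a, b⟩⟩
    · exact Or.inl ⟨i, i, a, b⟩
    · exact Or.inr ⟨i, i, a, b⟩
    · exact Or.inl ⟨i, i + 1, a, b⟩
    · exact Or.inr ⟨i, i + 1, a, b⟩
  have pEv : ∀ x x', Ev.Adj x x' → ∃ i j, x = v i ∧ x' = v j := by
    intro x x' hx
    rw [hEv, absT_adj] at hx
    rcases hx with ⟨_, i, ⟨a, b⟩ | ⟨a, b⟩⟩
    · exact ⟨i, i + 1, a, b⟩
    · exact ⟨i + 1, i, a, b⟩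
  have pEz : ∀ x x', Ez.Adj x x' → ∃ i j, x = z i ∧ x' = z j := by
    intro x x' hx
    rw [hEz, absT_adj] at hx
    rcases hx with ⟨_, i, ⟨a, b⟩ | ⟨a, b⟩⟩
    · exact ⟨i, i + 1, a, b⟩
    · exact ⟨i + 1, i, a, b⟩
  have pEy : ∀ x x', Ey.Adj x x' → ∃ i j, x = y i ∧ x' = y j := by
    intro x x' hx
    rw [hEy, absT_adj] at hx
    rcases hx with ⟨_, i, ⟨a, b⟩ | ⟨a, b⟩⟩
    · exact ⟨i, i + 1, a, b⟩
    · exact ⟨i + 1, i, a, b⟩
  -- disjointness
  have dis1 : Disjoint (K ⊔ Ez) (K' ⊔ Ey) := by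
    apply absT_disj
    intro x x' hx hx'
    have h1 : (∀ i, x ≠ y i) ∧ ∀ i, x' ≠ y i := by
      rcases (SimpleGraph.sup_adj _ _ _ _).mp hx with hx | hx
      · rcases pK _ _ hx with ⟨i, j, a, b⟩ | ⟨i, j, a, b⟩
        · exact ⟨fun k e => hzy _ _ (a.symm.trans e), fun k e => hvy _ _ (b.symm.trans e)⟩
        · exact ⟨fun k e => hvy _ _ (a.symm.trans e), fun k e => hzy _ _ (b.symm.trans e)⟩
      · obtain ⟨i, j, a, b⟩ := pEz _ _ hx
        exact ⟨fun k e => hzy _ _ (a.symm.trans e), fun k e => hzy _ _ (b.symm.trans e)⟩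
    rcases (SimpleGraph.sup_adj _ _ _ _).mp hx' with hx' | hx'
    · rcases pK' _ _ hx' with ⟨i, j, a, b⟩ | ⟨i, j, a, b⟩
      · exact h1.1 _ a
      · exact h1.2 _ b
    · obtain ⟨i, j, a, b⟩ := pEy _ _ hx'
      exact h1.1 _ a
  have dis2 : Disjoint (Ev ⊔ K) (Ez ⊔ K') := by
    apply absT_disj
    intro x x' hx hx'
    have h1 : (∀ i, x ≠ v i) ∧ ∀ i, x' ≠ v i := by
      rcases (SimpleGraph.sup_adj _ _ _ _).mp hx' with hx | hx
      · obtain ⟨i, j, a, b⟩ := pEz _ _ hx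
        exact ⟨fun k e => hvz _ _ (e.symm.trans a), fun k e => hvz _ _ (e.symm.trans b)⟩
      · rcases pK' _ _ hx with ⟨i, j, a, b⟩ | ⟨i, j, a, b⟩
        · exact ⟨fun k e => hvy _ _ (e.symm.trans a), fun k e => hvz _ _ (e.symm.trans b)⟩
        · exact ⟨fun k e => hvz _ _ (e.symm.trans a), fun k e => hvy _ _ (e.symm.trans b)⟩
    rcases (SimpleGraph.sup_adj _ _ _ _).mp hx with hx | hx
    · obtain ⟨i, j, a, b⟩ := pEv _ _ hx
      exact h1.1 _ a
    · rcases pK _ _ hx with ⟨i, j, a, b⟩ | ⟨i, j, a, b⟩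
      · exact h1.2 _ b
      · exact h1.1 _ a
  have dis3 : Disjoint ((Ev ⊔ K) ⊔ (Ez ⊔ K')) Ey := by
    apply absT_disj
    intro x x' hx hx'
    obtain ⟨i, j, a, b⟩ := pEy _ _ hx'
    rcases (SimpleGraph.sup_adj _ _ _ _).mp hx with hx | hx
    · rcases (SimpleGraph.sup_adj _ _ _ _).mp hx with hx | hx
      · obtain ⟨k, l, c, d⟩ := pEv _ _ hx
        exact hvy _ _ (c.symm.trans a)
      · rcases pK _ _ hx with ⟨k, l, c, d⟩ | ⟨k, l, c, d⟩
        · exact hzy _ _ (c.symm.trans a)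
        · exact hvy _ _ (c.symm.trans a)
    · rcases (SimpleGraph.sup_adj _ _ _ _).mp hx with hx | hx
      · obtain ⟨k, l, c, d⟩ := pEz _ _ hx
        exact hzy _ _ (c.symm.trans a)
      · rcases pK' _ _ hx with ⟨k, l, c, d⟩ | ⟨k, l, c, d⟩
        · exact hzy _ _ (d.symm.trans b)
        · exact hzy _ _ (c.symm.trans a)
  -- the absorber
  have zN : ∀ i, z i ∈ univ.image z ∪ univ.image y := fun i =>
    mem_union_left _ (mem_image_of_mem z (mem_univ i))
  have yN : ∀ i, y i ∈ univ.image z ∪ univ.image y := fun i =>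
    mem_union_right _ (mem_image_of_mem y (mem_univ i))
  refine ⟨(K ⊔ Ez) ⊔ (K' ⊔ Ey), univ.image z ∪ univ.image y, ?_, ?_, ?_, ?_, hasDec_sup dis1 d2 d4, ?_⟩
  · intro x x' hx
    rcases (SimpleGraph.sup_adj _ _ _ _).mp hx with hx | hx
    · rcases (SimpleGraph.sup_adj _ _ _ _).mp hx with hx | hx
      · rw [hK, SimpleGraph.sup_adj, absT_adj, absT_adj] at hx
        rcases hx with ⟨_, i, ⟨a, b⟩ | ⟨a, b⟩⟩ | ⟨_, i, ⟨a, b⟩ | ⟨a, b⟩⟩
        · rw [a, b]
          exact (hadj i).1.symm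
        · rw [a, b]
          exact (hadj i).1
        · rw [a, b]
          exact (hadj i).2.1.symm
        · rw [a, b]
          exact (hadj i).2.1
      · rw [hEz, absT_adj] at hx
        rcases hx with ⟨_, i, ⟨a, b⟩ | ⟨a, b⟩⟩
        · rw [a, b]
          exact (hadj i).2.2.1
        · rw [a, b]
          exact (hadj i).2.2.1.symm
    · rcases (SimpleGraph.sup_adj _ _ _ _).mp hx with hx | hx
      · rw [hK', SimpleGraph.sup_adj, absT_adj, absT_adj] at hx
        rcases hx with ⟨_, i, ⟨a, b⟩ | ⟨a, b⟩⟩ | ⟨_, i, ⟨a, b⟩ | ⟨a, b⟩⟩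
        · rw [a, b]
          exact (hadj i).2.2.2.1.symm
        · rw [a, b]
          exact (hadj i).2.2.2.1
        · rw [a, b]
          exact (hadj i).2.2.2.2.1.symm
        · rw [a, b]
          exact (hadj i).2.2.2.2.1
      · rw [hEy, absT_adj] at hx
        rcases hx with ⟨_, i, ⟨a, b⟩ | ⟨a, b⟩⟩
        · rw [a, b]
          exact (hadj i).2.2.2.2.2
        · rw [a, b]
          exact (hadj i).2.2.2.2.2.symm
  · refine (card_union_le _ _).trans ?_
    have h1 : (univ.image z).card ≤ 3 * s := by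
      refine card_image_le.trans ?_
      rw [card_univ, ZMod.card]
    have h2 : (univ.image y).card ≤ 3 * s := by
      refine card_image_le.trans ?_
      rw [card_univ, ZMod.card]
    omega
  · rw [Finset.disjoint_left]
    intro x hx
    rw [mem_union, mem_image, mem_image] at hx
    rcases hx with ⟨i, _, rfl⟩ | ⟨i, _, rfl⟩
    · exact hD.zF i
    · exact hD.yF i
  · intro x x' hx
    rcases (SimpleGraph.sup_adj _ _ _ _).mp hx with hx | hx
    · rcases (SimpleGraph.sup_adj _ _ _ _).mp hx with hx | hx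
      · rcases pK _ _ hx with ⟨i, j, rfl, rfl⟩ | ⟨i, j, rfl, rfl⟩
        · exact ⟨Or.inl (zN i), Or.inl (zN i), Or.inr ⟨j, rfl⟩⟩
        · exact ⟨Or.inr (zN i), Or.inr ⟨j, rfl⟩, Or.inl (zN i)⟩
      · obtain ⟨i, j, rfl, rfl⟩ := pEz _ _ hx
        exact ⟨Or.inl (zN i), Or.inl (zN i), Or.inl (zN j)⟩
    · rcases (SimpleGraph.sup_adj _ _ _ _).mp hx with hx | hx
      · rcases pK' _ _ hx with ⟨i, j, rfl, rfl⟩ | ⟨i, j, rfl, rfl⟩
        · exact ⟨Or.inl (yN i), Or.inl (yN i), Or.inl (zN j)⟩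
        · exact ⟨Or.inl (zN j), Or.inl (zN j), Or.inl (yN i)⟩
      · obtain ⟨i, j, rfl, rfl⟩ := pEy _ _ hx
        exact ⟨Or.inl (yN i), Or.inl (yN i), Or.inl (yN j)⟩
  · have h1 := hasDec_sup dis3 (hasDec_sup dis2 d1 d3) d5
    have h2 : (Ev ⊔ K) ⊔ (Ez ⊔ K') ⊔ Ey = (K ⊔ Ez) ⊔ (K' ⊔ Ey) ⊔ Ev := by
      ext a b
      simp only [SimpleGraph.sup_adj]
      tauto
    rw [h2] at h1
    exact h1

end Pool.NSH
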