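import Pool.Agent.NSH.Defs2

/-!
MODULE Euler (difficulty 4).  Existence of a closed Euler trail.

RECIPE: take a trail `c : L.Walk a b` (any `a, b`) of maximal length (lengths of trails are bounded by the number of edges; one exists by `hne`).
1. `a = b`: otherwise the number of edges of `c` at `b` is odd (`SimpleGraph.Walk.IsTrail.even_countP_edges_iff`), so, the degree of `b` being
   even, some edge at `b` is not in `c`: append it (`Walk.concat`), a longer trail.
2. Every edge `xy` of `L` is in `c`: first, if some edge at a vertex `w ∈ c.support` is not in `c`, rotate `c` to `w` (`Walk.rotate`,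
   `IsTrail.rotate`) and append the edge: longer.  So all edges at vertices of the support are in `c`, hence the support is closed under
   adjacency; with `hconn` (`z0` reaches every vertex with an edge; `a` has an edge, so `z0` reaches `a`, hence everything with an edge is
   reachable from `a`), every edge has its ends in the support, so it is in `c`.
3. `m = c.length`, `v i = c.getVert i.val`: `getVert (i.val + 1)`, and `getVert m = a = getVert 0` for the last index.  The edges
   `s(getVert j, getVert (j+1))`, `j < m`, are the list `c.edges`, without duplicates (`IsTrail`), so `m =` number of edges, `2 m = ec L`.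
-/

open Finset
open scoped Classical

namespace Pool.NSH

/-- extend a trail by a new edge -/
theorem euler_concat {V : Type*} {L : SimpleGraph V} {a b y : V} {c : L.Walk a b} (hc : c.IsTrail) (h : L.Adj b y)
    (hn : s(b, y) ∉ c.edges) : (c.concat h).IsTrail := by
  rw [SimpleGraph.Walk.isTrail_def, SimpleGraph.Walk.edges_concat, List.concat_eq_append, List.nodup_append]
  refine ⟨hc.edges_nodup, by simp, ?_⟩
  intro e he e' he' heq
  rw [List.mem_singleton] at he'
  rw [heq, he'] at he
  exact hn he

theorem euler_ec {V : Type*} [Fintype V] (L : SimpleGraph V) : ec L = 2 * L.edgeFinset.card := by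
  rw [← SimpleGraph.sum_degrees_eq_twice_card_edges]
  unfold ec
  rw [Finset.card_filter, Fintype.sum_prod_type]
  apply Finset.sum_congr rfl
  intro x _
  rw [← Finset.card_filter, SimpleGraph.degree]
  congr 1
  ext y
  simp

theorem euler {V : Type*} [Fintype V] (L : SimpleGraph V) (hev : ∀ v, Even (nb L univ v).card)
    (z0 : V) (hconn : ∀ x y, L.Adj x y → L.Reachable z0 x) (hne : ∃ x y, L.Adj x y) :
    ∃ (m : ℕ) (v : ZMod m → V), 0 < m ∧ 2 * m = ec L ∧ (∀ i, L.Adj (v i) (v (i + 1))) ∧
      (∀ i j, s(v i, v (i + 1)) = s(v j, v (j + 1)) → i = j) ∧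
      ∀ x y, L.Adj x y → ∃ i, s(x, y) = s(v i, v (i + 1)) := by
  obtain ⟨x₀, y₀, hxy₀⟩ := hne
  haveI : Nonempty V := ⟨x₀⟩
  obtain ⟨a, b, c, hc, hmax⟩ := SimpleGraph.Walk.exists_isTrail_forall_isTrail_length_le_length L
  have hlen : 1 ≤ c.length := by
    have h1 : (SimpleGraph.Walk.cons hxy₀ SimpleGraph.Walk.nil : L.Walk x₀ y₀).IsTrail := by
      rw [SimpleGraph.Walk.isTrail_cons]
      simp
    have h2 := hmax _ _ _ h1
    simpa using h2
  -- every edge at the end is used
  have hend : ∀ (a' b' : V) (c' : L.Walk a' b'), c'.IsTrail → c.length ≤ c'.length → ∀ y, L.Adj b' y → s(b', y) ∈ c'.edges := by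
    intro a' b' c' hc' hle y hy
    by_contra hn
    have h1 := hmax _ _ _ (euler_concat hc' hy hn)
    rw [SimpleGraph.Walk.length_concat] at h1
    omega
  have hab : a = b := by
    by_contra hab
    have h1 := (hc.even_countP_edges_iff b).not.2 (fun h => (h hab).2 rfl)
    apply h1
    have h2 : (c.edges.countP fun e => b ∈ e) = (nb L univ b).card := by
      rw [List.countP_eq_length_filter, ← List.toFinset_card_of_nodup (hc.edges_nodup.filter _)]
      rw [← Finset.card_image_of_injective (nb L univ b) (f := fun y => s(b, y)) (fun y y' h => by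
        have h3 : s(b, y) = s(b, y') := h
        exact Sym2.congr_right.1 h3)]
      congr 1
      ext e
      rw [List.mem_toFinset, List.mem_filter, Finset.mem_image]
      constructor
      · rintro ⟨he, hb⟩
        rw [decide_eq_true_eq] at hb
        obtain ⟨y, rfl⟩ := Sym2.mem_iff_exists.1 hb
        refine ⟨y, ?_, rfl⟩
        unfold nb
        exact Finset.mem_filter.2 ⟨Finset.mem_univ _, c.adj_of_mem_edges he⟩
      · rintro ⟨y, hy, rfl⟩
        unfold nb at hy
        refine ⟨hend _ _ c hc le_rfl y (Finset.mem_filter.1 hy).2, ?_⟩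
        rw [decide_eq_true_eq]
        exact Sym2.mem_mk_left _ _
    rw [h2]
    exact hev b
  subst hab
  have hall : ∀ w ∈ c.support, ∀ y, L.Adj w y → s(w, y) ∈ c.edges := by
    intro w hw y hy
    have h1 := hend _ _ (c.rotate w hw) ((SimpleGraph.Walk.isTrail_rotate hw).2 hc)
      (by rw [SimpleGraph.Walk.length_rotate]) y hy
    exact (c.rotate_edges w hw).mem_iff.1 h1
  have hclosed : ∀ w w', L.Reachable w w' → w ∈ c.support → w' ∈ c.support := by
    intro w w' hr hw
    obtain ⟨p⟩ := hr
    induction p with
    | nil => exact hw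
    | cons hadj p ih =>
      exact ih (c.snd_mem_support_of_mem_edges (hall _ hw _ hadj))
  have ha : a ∈ c.support := c.start_mem_support
  have haz : L.Reachable z0 a := by
    have h1 := c.adj_getVert_succ (i := 0) (by omega)
    rw [SimpleGraph.Walk.getVert_zero] at h1
    exact hconn _ _ h1
  have hcover : ∀ x y, L.Adj x y → s(x, y) ∈ c.edges := by
    intro x y hxy
    have h1 : x ∈ c.support := hclosed a x (haz.symm.trans (hconn x y hxy)) ha
    exact hall x h1 y hxy
  haveI : NeZero c.length := ⟨by omega⟩
  have hv : ∀ i : ZMod c.length, c.getVert (i + 1).val = c.getVert (i.val + 1) := by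
    intro i
    have h1 : (i + 1).val = (i.val + 1) % c.length := by
      rw [ZMod.val_add, ZMod.val_one_eq_one_mod, Nat.add_mod_mod]
    rw [h1]
    have h2 := ZMod.val_lt i
    rcases Nat.lt_or_ge (i.val + 1) c.length with h3 | h3
    · rw [Nat.mod_eq_of_lt h3]
    · have h4 : i.val + 1 = c.length := by omega
      rw [h4, Nat.mod_self, SimpleGraph.Walk.getVert_zero, SimpleGraph.Walk.getVert_length]
  have hedge : ∀ i : ZMod c.length, ∃ hi : i.val < c.edges.length, c.edges[i.val] = s(c.getVert i.val, c.getVert (i + 1).val) := by
    intro i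
    have hi : i.val < c.edges.length := by
      rw [SimpleGraph.Walk.length_edges]
      exact ZMod.val_lt i
    refine ⟨hi, ?_⟩
    rw [SimpleGraph.Walk.getElem_edges, hv]
  refine ⟨c.length, fun i => c.getVert i.val, by omega, ?_, ?_, ?_, ?_⟩
  · rw [euler_ec, ← SimpleGraph.Walk.length_edges, ← List.toFinset_card_of_nodup hc.edges_nodup]
    congr 2
    ext e
    rw [List.mem_toFinset, SimpleGraph.mem_edgeFinset]
    constructor
    · intro he
      exact c.edges_subset_edgeSet he
    · intro he
      induction e using Sym2.ind with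
      | _ x y => exact hcover x y he
  · intro i
    show L.Adj (c.getVert i.val) (c.getVert (i + 1).val)
    rw [hv]
    exact c.adj_getVert_succ (ZMod.val_lt i)
  · intro i j hij
    obtain ⟨hi, hi'⟩ := hedge i
    obtain ⟨hj, hj'⟩ := hedge j
    have h1 : c.edges[i.val] = c.edges[j.val] := by
      rw [hi', hj']
      exact hij
    have h2 := (hc.edges_nodup.getElem_inj_iff).1 h1
    exact ZMod.val_injective _ h2
  · intro x y hxy
    obtain ⟨n, hn, hn'⟩ := List.mem_iff_getElem.1 (hcover x y hxy)
    have hn2 : n < c.length := by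
      rw [← SimpleGraph.Walk.length_edges]
      exact hn
    have hval : ((n : ℕ) : ZMod c.length).val = n := by
      rw [ZMod.val_natCast, Nat.mod_eq_of_lt hn2]
    refine ⟨(n : ZMod c.length), ?_⟩
    show s(x, y) = s(c.getVert (n : ZMod c.length).val, c.getVert ((n : ZMod c.length) + 1).val)
    rw [hv, hval, ← hn', SimpleGraph.Walk.getElem_edges]

end Pool.NSH
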