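import Pool.Agent.NSH.Bow
import Pool.Agent.NSH.Euler
import Pool.Agent.NSH.AbsT

/-!
MODULE Abs1 (difficulty 3).  The absorber of one graph `L` on `Z`.

RECIPE: if `Z.card < 2` then `L = ⊥`: `A = ⊥`, `Nw = ∅` (`hasDec_bot`).  Otherwise take `z0 ∈ Z`, `bow` gives `W, N₁`; `L' = L ⊔ W`.  `euler` gives `m, v` with
`2 m = ec L'`; `3 ∣ ec L' = 2 m` so `3 ∣ m`, `m = 3 s`, `0 < s` (`subst`).  `absTrail` with `Fb₁ = Fb ∪ N₁` (it contains all `v i`: these are in `Z ∪ N₁`) gives `A', N₂`,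
`6 s = 2 m = ec L' ≤ |Z| ^ 2 + 12 |Z|`.  `ed v v⁺ = L'`.  `A = A' ⊔ W`, `Nw = N₁ ∪ N₂`.  `HasDec A`: `A'` and `W` are disjoint (an edge of `A'` has an end in `N₂`,
disjoint from `Fb₁`, while `W` lives on `Z ∪ N₁`).  `A ⊔ L = A' ⊔ L'`.
-/

open Finset
open scoped Classical

namespace Pool.NSH

theorem abs1_ed {V : Type*} {m : ℕ} {L : SimpleGraph V} {v : ZMod m → V} (h1 : ∀ i, L.Adj (v i) (v (i + 1)))
    (h2 : ∀ x y, L.Adj x y → ∃ i, s(x, y) = s(v i, v (i + 1))) : ed v (fun i => v (i + 1)) = L := by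
  ext x y
  unfold ed
  rw [SimpleGraph.fromRel_adj]
  constructor
  · rintro ⟨-, ⟨i, rfl, rfl⟩ | ⟨i, rfl, rfl⟩⟩
    · exact h1 i
    · exact (h1 i).symm
  · intro h
    refine ⟨h.ne, ?_⟩
    obtain ⟨i, hi⟩ := h2 x y h
    rcases Sym2.eq_iff.1 hi with ⟨rfl, rfl⟩ | ⟨rfl, rfl⟩
    · exact Or.inl ⟨i, rfl, rfl⟩
    · exact Or.inr ⟨i, rfl, rfl⟩

theorem abs1 {V : Type*} [Fintype V] (G : SimpleGraph V) (Z Fb : Finset V) (hZ : Z ⊆ Fb)
    (L : SimpleGraph V) (hL : L ≤ G) (hLZ : On L Z)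
    (hev : ∀ v, Even (nb L univ v).card) (h3 : 3 ∣ ec L)
    (hcn : ∀ S : Finset V, S.card ≤ 4 →
      Fb.card + (Z.card ^ 2 + 16 * Z.card) < (univ.filter fun v => ∀ s ∈ S, G.Adj s v).card) :
    ∃ (A : SimpleGraph V) (Nw : Finset V), A ≤ G ∧ Nw.card ≤ Z.card ^ 2 + 16 * Z.card ∧
      Disjoint Nw Fb ∧
      (∀ x y, A.Adj x y → (x ∈ Nw ∨ y ∈ Nw) ∧ (x ∈ Nw ∨ x ∈ Z) ∧ (y ∈ Nw ∨ y ∈ Z)) ∧
      HasDec A ∧ HasDec (A ⊔ L) := by
  rcases Nat.lt_or_ge Z.card 2 with hZ2 | hZ2
  · have hLbot : L = ⊥ := by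
      ext x y
      simp only [SimpleGraph.bot_adj, iff_false]
      intro h
      have h1 := hLZ x y h
      have h2 : 1 < Z.card := Finset.one_lt_card.2 ⟨x, h1.1, y, h1.2, h.ne⟩
      omega
    refine ⟨⊥, ∅, bot_le, by simp, Finset.disjoint_empty_left _, ?_, hasDec_bot, ?_⟩
    · intro x y h
      exact absurd h (by simp)
    · rw [hLbot, sup_idem]
      exact hasDec_bot
  · have hZne : Z.Nonempty := Finset.card_pos.1 (by omega)
    obtain ⟨z0, hz0⟩ := hZne
    obtain ⟨W, N₁, hWG, hN₁, hN₁Fb, hWadj, hWd, hev', h3', hec, hconn, hne⟩ :=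
      bow G Z Fb hZ hZ2 z0 hz0 L hL hLZ hev h3 (by
        intro S hS
        have := hcn S hS
        omega)
    obtain ⟨m, v, hm, hmec, hvadj, hvinj, hvcov⟩ := euler (L ⊔ W) hev' z0 hconn hne
    have h3m : 3 ∣ m := by
      rw [← hmec] at h3'
      exact (Nat.Coprime.dvd_mul_left (by norm_num)).1 h3'
    obtain ⟨s, rfl⟩ := h3m
    have hs : 0 < s := by omega
    have hvN : ∀ i, v i ∈ N₁ ∨ v i ∈ Z := by
      intro i
      rcases hvadj i with h | h
      · exact Or.inr (hLZ _ _ h).1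
      · exact (hWadj _ _ h).2.1
    have hcu : (Fb ∪ N₁).card ≤ Fb.card + 3 * Z.card := (Finset.card_union_le _ _).trans (by omega)
    obtain ⟨A', N₂, hA'G, hN₂, hN₂Fb, hA'adj, hA'd, hA'e⟩ := absTrail G (Fb ∪ N₁) s hs v
      (by
        intro i
        rcases hvadj i with h | h
        · exact hL h
        · exact hWG h)
      hvinj
      (by
        intro i
        rcases hvN i with h | h
        · exact Finset.mem_union_right _ h
        · exact Finset.mem_union_left _ (hZ h))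
      (by
        intro S hS
        have := hcn S hS
        omega)
    rw [abs1_ed hvadj hvcov] at hA'e
    have hdisj : Disjoint A' W := by
      rw [SimpleGraph.disjoint_left]
      intro x y hA hW
      have h1 := (hA'adj x y hA).1
      have h2 := hWadj x y hW
      rw [Finset.disjoint_left] at hN₂Fb
      rcases h1 with h1 | h1
      · apply hN₂Fb h1
        rcases h2.2.1 with h | h
        · exact Finset.mem_union_right _ h
        · exact Finset.mem_union_left _ (hZ h)
      · apply hN₂Fb h1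
        rcases h2.2.2 with h | h
        · exact Finset.mem_union_right _ h
        · exact Finset.mem_union_left _ (hZ h)
    refine ⟨A' ⊔ W, N₁ ∪ N₂, sup_le hA'G hWG, ?_, ?_, ?_, hasDec_sup hdisj hA'd hWd, ?_⟩
    · refine (Finset.card_union_le _ _).trans ?_
      omega
    · rw [Finset.disjoint_union_left]
      exact ⟨hN₁Fb, hN₂Fb.mono_right Finset.subset_union_left⟩
    · intro x y h
      rcases h with h | h
      · obtain ⟨h1, h2, h3⟩ := hA'adj x y h
        refine ⟨?_, ?_, ?_⟩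
        · rcases h1 with h1 | h1
          · exact Or.inl (Finset.mem_union_right _ h1)
          · exact Or.inr (Finset.mem_union_right _ h1)
        · rcases h2 with h2 | ⟨i, rfl⟩
          · exact Or.inl (Finset.mem_union_right _ h2)
          · rcases hvN i with h | h
            · exact Or.inl (Finset.mem_union_left _ h)
            · exact Or.inr h
        · rcases h3 with h3 | ⟨i, rfl⟩
          · exact Or.inl (Finset.mem_union_right _ h3)
          · rcases hvN i with h | h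
            · exact Or.inl (Finset.mem_union_left _ h)
            · exact Or.inr h
      · obtain ⟨h1, h2, h3⟩ := hWadj x y h
        exact ⟨h1.imp (fun h => Finset.mem_union_left _ h) (fun h => Finset.mem_union_left _ h),
          h2.imp (fun h => Finset.mem_union_left _ h) id, h3.imp (fun h => Finset.mem_union_left _ h) id⟩
    · have e : A' ⊔ W ⊔ L = A' ⊔ (L ⊔ W) := by
        rw [sup_assoc, sup_comm W L]
      rw [e]
      exact hA'e

end Pool.NSH
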