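import Pool.Agent.NSH.Emb

/-!
MODULE AbsE (difficulty 4).  Embedding the absorber of a closed trail.

RECIPE: `emb` with `R = ZMod (3 s)`, `ρ = v`, `N = Unit ⊕ ZMod (3 s) ⊕ (Fin s × Bool)` (`5 s + 1 ≤ 6 s` elements): `h`, `z i`, `a j`, `b j`.
Ranks: `h : 0`, `z i : 1 + i.val`, `a j : 3 s + 1`, `b j : 3 s + 2`.
Back sets: `h`: none.  `z i`: `v i`, `v (i+1)`, `z (i-1)` if `i.val ≠ 0`, `z 0` if `i.val = 3 s - 1` (and `s`.. `3 s - 1 ≥ 2`), `h` if `i.val % 3 ≠ 2`
(at most `4`: for `i.val = 3 s - 1` one has `i.val % 3 = 2`, no `h`).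
`a j`: `z (3j+1)`, `z (3j+2)`, `h`.  `b j`: `z (3j+2)`, `z (3j+3)`, `h`, `a j`.
`y i = h` if `i.val % 3 = 0`, `a (i.val / 3)` if `i.val % 3 = 1`, `b (i.val / 3)` if `i.val % 3 = 2`.
Check: `z i ~ y i`: `i ≡ 0`: `h` (in the back set of `z i`), `i ≡ 1`: `a`, `i ≡ 2`: `b`.  `z (i+1) ~ y i`: `i ≡ 0`: `z (i+1) ~ h` as `(i+1).val % 3 = 1`; `i ≡ 1`: `a j ~ z (3j+2)`;
`i ≡ 2`: `b j ~ z (3j+3)` (`= z 0` for the last `j`, as `(i + 1).val = 0`).  `y i ~ y (i+1)`: `h ~ a`, `a ~ b`, `b ~ h`.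
(`(i + 1).val = i.val + 1` if `i.val + 1 < 3 s` and `= 0` otherwise, and `3 ∣ 3 s`, so residues mod 3 go `0 → 1 → 2 → 0`.)
-/

open Finset
open scoped Classical

namespace Pool.NSH

/-- the new vertices: `h`, `z i`, and `a j`, `b j` -/
abbrev absE_N (s : ℕ) : Type := Unit ⊕ ZMod (3 * s) ⊕ (Fin s × Bool)

/-- the back neighbours -/
noncomputable def absE_back (s : ℕ) : absE_N s → Finset (ZMod (3 * s) ⊕ absE_N s)
  | Sum.inl _ => ∅
  | Sum.inr (Sum.inl i) => ({Sum.inl i, Sum.inl (i + 1)} : Finset (ZMod (3 * s) ⊕ absE_N s)) ∪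
      (if i.val = 0 then ∅ else {Sum.inr (Sum.inr (Sum.inl (i - 1)))}) ∪
      (if i.val + 1 = 3 * s then {Sum.inr (Sum.inr (Sum.inl 0))}
        else if i.val % 3 = 2 then ∅ else {Sum.inr (Sum.inl ())})
  | Sum.inr (Sum.inr (j, false)) => {Sum.inr (Sum.inr (Sum.inl ((3 * j.val + 1 : ℕ) : ZMod (3 * s)))),
      Sum.inr (Sum.inr (Sum.inl ((3 * j.val + 2 : ℕ) : ZMod (3 * s)))), Sum.inr (Sum.inl ())}
  | Sum.inr (Sum.inr (j, true)) => {Sum.inr (Sum.inr (Sum.inl ((3 * j.val + 2 : ℕ) : ZMod (3 * s)))),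
      Sum.inr (Sum.inr (Sum.inl ((3 * j.val + 3 : ℕ) : ZMod (3 * s)))), Sum.inr (Sum.inl ()),
      Sum.inr (Sum.inr (Sum.inr (j, false)))}

/-- the rank -/
def absE_rk (s : ℕ) : absE_N s → ℕ
  | Sum.inl _ => 0
  | Sum.inr (Sum.inl i) => 1 + i.val
  | Sum.inr (Sum.inr (_, false)) => 3 * s + 1
  | Sum.inr (Sum.inr (_, true)) => 3 * s + 2

theorem absE_card (s : ℕ) (i : absE_N s) : (absE_back s i).card ≤ 4 := by
  rcases i with u | i | ⟨j, b⟩
  · show (∅ : Finset (ZMod (3 * s) ⊕ absE_N s)).card ≤ 4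
    simp
  · show (({Sum.inl i, Sum.inl (i + 1)} : Finset (ZMod (3 * s) ⊕ absE_N s)) ∪
      (if i.val = 0 then ∅ else {Sum.inr (Sum.inr (Sum.inl (i - 1)))}) ∪
      (if i.val + 1 = 3 * s then {Sum.inr (Sum.inr (Sum.inl 0))}
        else if i.val % 3 = 2 then ∅ else {Sum.inr (Sum.inl ())})).card ≤ 4
    refine (card_union_le _ _).trans ?_
    have h1 := card_union_le ({Sum.inl i, Sum.inl (i + 1)} : Finset (ZMod (3 * s) ⊕ absE_N s))
      (if i.val = 0 then ∅ else {Sum.inr (Sum.inr (Sum.inl (i - 1)))})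
    have h2 : ({Sum.inl i, Sum.inl (i + 1)} : Finset (ZMod (3 * s) ⊕ absE_N s)).card ≤ 2 := card_le_two
    have h3 : (if i.val = 0 then (∅ : Finset (ZMod (3 * s) ⊕ absE_N s)) else
        {Sum.inr (Sum.inr (Sum.inl (i - 1)))}).card ≤ 1 := by
      split_ifs <;> simp
    have h4 : (if i.val + 1 = 3 * s then ({Sum.inr (Sum.inr (Sum.inl 0))} :
        Finset (ZMod (3 * s) ⊕ absE_N s))
        else if i.val % 3 = 2 then ∅ else {Sum.inr (Sum.inl ())}).card ≤ 1 := by
      split_ifs <;> simp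
    omega
  · cases b
    · exact card_le_three.trans (by norm_num)
    · exact card_le_four

theorem absE_val {s : ℕ} (hs : 0 < s) (i : ZMod (3 * s)) :
    (i.val + 1 < 3 * s ∧ (i + 1).val = i.val + 1) ∨ (i.val + 1 = 3 * s ∧ (i + 1).val = 0) := by
  have : NeZero (3 * s) := ⟨by omega⟩
  have h1 : (i + 1).val = (i.val + 1 % (3 * s)) % (3 * s) := by
    rw [ZMod.val_add, ZMod.val_one_eq_one_mod]
  have h2 : 1 % (3 * s) = 1 := Nat.mod_eq_of_lt (by omega)
  rw [h2] at h1
  have h3 := ZMod.val_lt i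
  rcases Nat.lt_or_ge (i.val + 1) (3 * s) with h | h
  · left
    exact ⟨h, by rw [h1, Nat.mod_eq_of_lt h]⟩
  · right
    have h4 : i.val + 1 = 3 * s := by omega
    exact ⟨h4, by rw [h1, h4, Nat.mod_self]⟩

theorem absE_pred {s : ℕ} (hs : 0 < s) (i : ZMod (3 * s)) (hi : i.val ≠ 0) :
    (i - 1).val + 1 = i.val := by
  rcases absE_val hs (i - 1) with h | h
  · rw [sub_add_cancel] at h
    exact h.2.symm
  · rw [sub_add_cancel] at h
    exact absurd h.2 hi

theorem absE_hrk {s : ℕ} (hs : 0 < s) (i j : absE_N s) (h : Sum.inr j ∈ absE_back s i) :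
    absE_rk s j < absE_rk s i := by
  have : NeZero (3 * s) := ⟨by omega⟩
  rcases i with u | i | ⟨l, b⟩
  · exact absurd h (notMem_empty _)
  · have h1 : Sum.inr j ∈ (({Sum.inl i, Sum.inl (i + 1)} : Finset (ZMod (3 * s) ⊕ absE_N s)) ∪
      (if i.val = 0 then ∅ else {Sum.inr (Sum.inr (Sum.inl (i - 1)))}) ∪
      (if i.val + 1 = 3 * s then {Sum.inr (Sum.inr (Sum.inl 0))}
        else if i.val % 3 = 2 then ∅ else {Sum.inr (Sum.inl ())})) := h
    rw [mem_union, mem_union] at h1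
    rcases h1 with (h1 | h1) | h1
    · simp at h1
    · split_ifs at h1 with h2
      · exact absurd h1 (notMem_empty _)
      · rw [mem_singleton] at h1
        have h3 := Sum.inr.inj h1
        subst h3
        show 1 + (i - 1).val < 1 + i.val
        have := absE_pred hs i h2
        omega
    · split_ifs at h1 with h2 h3
      · rw [mem_singleton] at h1
        have h3 := Sum.inr.inj h1
        subst h3
        show 1 + (0 : ZMod (3 * s)).val < 1 + i.val
        rw [ZMod.val_zero]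
        omega
      · exact absurd h1 (notMem_empty _)
      · rw [mem_singleton] at h1
        have h3 := Sum.inr.inj h1
        subst h3
        show 0 < 1 + i.val
        omega
  · cases b
    · have h1 : (Sum.inr j : ZMod (3 * s) ⊕ absE_N s) ∈ ({Sum.inr (Sum.inr (Sum.inl ((3 * l.val + 1 : ℕ) : ZMod (3 * s)))),
        Sum.inr (Sum.inr (Sum.inl ((3 * l.val + 2 : ℕ) : ZMod (3 * s)))), Sum.inr (Sum.inl ())} :
          Finset (ZMod (3 * s) ⊕ absE_N s)) := h
      simp only [mem_insert, mem_singleton, Sum.inr.injEq] at h1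
      rcases h1 with h1 | h1 | h1
      · subst h1
        show 1 + ZMod.val _ < 3 * s + 1
        have := ZMod.val_lt (((3 * l.val + 1 : ℕ) : ZMod (3 * s)))
        omega
      · subst h1
        show 1 + ZMod.val _ < 3 * s + 1
        have := ZMod.val_lt (((3 * l.val + 2 : ℕ) : ZMod (3 * s)))
        omega
      · subst h1
        show 0 < 3 * s + 1
        omega
    · have h1 : (Sum.inr j : ZMod (3 * s) ⊕ absE_N s) ∈ ({Sum.inr (Sum.inr (Sum.inl ((3 * l.val + 2 : ℕ) : ZMod (3 * s)))),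
        Sum.inr (Sum.inr (Sum.inl ((3 * l.val + 3 : ℕ) : ZMod (3 * s)))), Sum.inr (Sum.inl ()),
        Sum.inr (Sum.inr (Sum.inr (l, false)))} :
          Finset (ZMod (3 * s) ⊕ absE_N s)) := h
      simp only [mem_insert, mem_singleton, Sum.inr.injEq] at h1
      rcases h1 with h1 | h1 | h1 | h1
      · subst h1
        show 1 + ZMod.val _ < 3 * s + 2
        have := ZMod.val_lt (((3 * l.val + 2 : ℕ) : ZMod (3 * s)))
        omega
      · subst h1
        show 1 + ZMod.val _ < 3 * s + 2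
        have := ZMod.val_lt (((3 * l.val + 3 : ℕ) : ZMod (3 * s)))
        omega
      · subst h1
        show 0 < 3 * s + 2
        omega
      · subst h1
        show 3 * s + 1 < 3 * s + 2
        omega

/-- the vertex `y i` -/
noncomputable def absE_Y {s : ℕ} (hs : 0 < s) (i : ZMod (3 * s)) : absE_N s :=
  if i.val % 3 = 0 then Sum.inl ()
  else if i.val % 3 = 1 then Sum.inr (Sum.inr (⟨i.val / 3 % s, Nat.mod_lt _ hs⟩, false))
  else Sum.inr (Sum.inr (⟨i.val / 3 % s, Nat.mod_lt _ hs⟩, true))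

theorem absE_Y0 {s : ℕ} (hs : 0 < s) (i : ZMod (3 * s)) (h : i.val % 3 = 0) :
    absE_Y hs i = Sum.inl () := if_pos h

theorem absE_div {s : ℕ} (hs : 0 < s) (i : ZMod (3 * s)) : i.val / 3 < s := by
  have : NeZero (3 * s) := ⟨by omega⟩
  have := ZMod.val_lt i
  omega

theorem absE_Y1 {s : ℕ} (hs : 0 < s) (i : ZMod (3 * s)) (h : i.val % 3 = 1) :
    absE_Y hs i = Sum.inr (Sum.inr (⟨i.val / 3, absE_div hs i⟩, false)) := by
  unfold absE_Y
  rw [if_neg (by omega), if_pos h]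
  have h1 : i.val / 3 % s = i.val / 3 := Nat.mod_eq_of_lt (absE_div hs i)
  simp only [h1]

theorem absE_Y2 {s : ℕ} (hs : 0 < s) (i : ZMod (3 * s)) (h : i.val % 3 = 2) :
    absE_Y hs i = Sum.inr (Sum.inr (⟨i.val / 3, absE_div hs i⟩, true)) := by
  unfold absE_Y
  rw [if_neg (by omega), if_neg (by omega)]
  have h1 : i.val / 3 % s = i.val / 3 := Nat.mod_eq_of_lt (absE_div hs i)
  simp only [h1]

theorem absE_Yiff {s : ℕ} (hs : 0 < s) (i j : ZMod (3 * s)) :
    absE_Y hs i = absE_Y hs j ↔ i = j ∨ (i.val % 3 = 0 ∧ j.val % 3 = 0) := by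
  have : NeZero (3 * s) := ⟨by omega⟩
  constructor
  · intro h
    have hi : i.val % 3 = 0 ∨ i.val % 3 = 1 ∨ i.val % 3 = 2 := by omega
    have hj : j.val % 3 = 0 ∨ j.val % 3 = 1 ∨ j.val % 3 = 2 := by omega
    rcases hi with hi | hi | hi <;> rcases hj with hj | hj | hj
    · exact Or.inr ⟨hi, hj⟩
    · rw [absE_Y0 hs i hi, absE_Y1 hs j hj] at h
      exact absurd h Sum.inl_ne_inr
    · rw [absE_Y0 hs i hi, absE_Y2 hs j hj] at h
      exact absurd h Sum.inl_ne_inr
    · rw [absE_Y1 hs i hi, absE_Y0 hs j hj] at h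
      exact absurd h Sum.inr_ne_inl
    · rw [absE_Y1 hs i hi, absE_Y1 hs j hj] at h
      simp only [Sum.inr.injEq, Prod.mk.injEq, Fin.mk.injEq, and_true] at h
      left
      apply ZMod.val_injective
      omega
    · rw [absE_Y1 hs i hi, absE_Y2 hs j hj] at h
      simp at h
    · rw [absE_Y2 hs i hi, absE_Y0 hs j hj] at h
      exact absurd h Sum.inr_ne_inl
    · rw [absE_Y2 hs i hi, absE_Y1 hs j hj] at h
      simp at h
    · rw [absE_Y2 hs i hi, absE_Y2 hs j hj] at h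
      simp only [Sum.inr.injEq, Prod.mk.injEq, Fin.mk.injEq, and_true] at h
      left
      apply ZMod.val_injective
      omega
  · rintro (h | ⟨h, h'⟩)
    · rw [h]
    · rw [absE_Y0 hs i h, absE_Y0 hs j h']

theorem absE_cast {s : ℕ} (hs : 0 < s) (i : ZMod (3 * s)) (r : ℕ) (h : i.val % 3 = r) :
    ((3 * (i.val / 3) + r : ℕ) : ZMod (3 * s)) = i := by
  have : NeZero (3 * s) := ⟨by omega⟩
  have h1 : 3 * (i.val / 3) + r = i.val := by omega
  rw [h1, ZMod.natCast_zmod_val]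

theorem absE {V : Type*} [Fintype V] (G : SimpleGraph V) (Fb : Finset V) (s : ℕ) (hs : 0 < s)
    (v : ZMod (3 * s) → V)
    (hcn : ∀ S : Finset V, S.card ≤ 4 →
      Fb.card + 6 * s < (univ.filter fun v => ∀ s ∈ S, G.Adj s v).card) :
    ∃ z y : ZMod (3 * s) → V, Function.Injective z ∧
      (∀ i j, y i = y j ↔ i = j ∨ (i.val % 3 = 0 ∧ j.val % 3 = 0)) ∧ (∀ i j, z i ≠ y j) ∧
      (∀ i, z i ∉ Fb ∧ y i ∉ Fb) ∧
      ∀ i, G.Adj (v i) (z i) ∧ G.Adj (v (i + 1)) (z i) ∧ G.Adj (z i) (z (i + 1)) ∧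
        G.Adj (z i) (y i) ∧ G.Adj (z (i + 1)) (y i) ∧ G.Adj (y i) (y (i + 1)) := by
  have : NeZero (3 * s) := ⟨by omega⟩
  have hcardN : Fintype.card (absE_N s) ≤ 6 * s := by
    simp only [Fintype.card_sum, Fintype.card_unit, ZMod.card, Fintype.card_prod, Fintype.card_fin,
      Fintype.card_bool]
    omega
  obtain ⟨φ, hφ, hφF, hφb⟩ := emb G Fb v (absE_back s) (absE_rk s) (absE_card s)
    (fun i j h => absE_hrk hs i j h) (fun S hS => lt_of_le_of_lt (by omega) (hcn S hS))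
  -- adjacency facts
  have adjh : ∀ i : ZMod (3 * s), i.val % 3 ≠ 2 →
      G.Adj (φ (Sum.inl ())) (φ (Sum.inr (Sum.inl i))) := by
    intro i hi
    refine hφb (Sum.inr (Sum.inl i)) (Sum.inr (Sum.inl ())) ?_
    refine mem_union_right _ ?_
    rw [if_neg (by omega), if_neg hi]
    exact mem_singleton_self _
  have adja : ∀ j : Fin s, G.Adj (φ (Sum.inr (Sum.inl ((3 * j.val + 1 : ℕ) : ZMod (3 * s)))))
        (φ (Sum.inr (Sum.inr (j, false)))) ∧
      G.Adj (φ (Sum.inr (Sum.inl ((3 * j.val + 2 : ℕ) : ZMod (3 * s)))))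
        (φ (Sum.inr (Sum.inr (j, false)))) ∧
      G.Adj (φ (Sum.inl ())) (φ (Sum.inr (Sum.inr (j, false)))) := by
    intro j
    have h := hφb (Sum.inr (Sum.inr (j, false)))
    refine ⟨h (Sum.inr (Sum.inr (Sum.inl ((3 * j.val + 1 : ℕ) : ZMod (3 * s))))) ?_,
      h (Sum.inr (Sum.inr (Sum.inl ((3 * j.val + 2 : ℕ) : ZMod (3 * s))))) ?_,
      h (Sum.inr (Sum.inl ())) ?_⟩
    · exact mem_insert_self _ _
    · exact mem_insert_of_mem (mem_insert_self _ _)
    · exact mem_insert_of_mem (mem_insert_of_mem (mem_singleton_self _))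
  have adjb : ∀ j : Fin s, G.Adj (φ (Sum.inr (Sum.inl ((3 * j.val + 2 : ℕ) : ZMod (3 * s)))))
        (φ (Sum.inr (Sum.inr (j, true)))) ∧
      G.Adj (φ (Sum.inr (Sum.inl ((3 * j.val + 3 : ℕ) : ZMod (3 * s)))))
        (φ (Sum.inr (Sum.inr (j, true)))) ∧
      G.Adj (φ (Sum.inl ())) (φ (Sum.inr (Sum.inr (j, true)))) ∧
      G.Adj (φ (Sum.inr (Sum.inr (j, false)))) (φ (Sum.inr (Sum.inr (j, true)))) := by
    intro j
    have h := hφb (Sum.inr (Sum.inr (j, true)))
    refine ⟨h (Sum.inr (Sum.inr (Sum.inl ((3 * j.val + 2 : ℕ) : ZMod (3 * s))))) ?_,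
      h (Sum.inr (Sum.inr (Sum.inl ((3 * j.val + 3 : ℕ) : ZMod (3 * s))))) ?_,
      h (Sum.inr (Sum.inl ())) ?_, h (Sum.inr (Sum.inr (Sum.inr (j, false)))) ?_⟩
    · exact mem_insert_self _ _
    · exact mem_insert_of_mem (mem_insert_self _ _)
    · exact mem_insert_of_mem (mem_insert_of_mem (mem_insert_self _ _))
    · exact mem_insert_of_mem (mem_insert_of_mem (mem_insert_of_mem (mem_singleton_self _)))
  refine ⟨fun i => φ (Sum.inr (Sum.inl i)), fun i => φ (absE_Y hs i), ?_, ?_, ?_, ?_, ?_⟩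
  · intro i j h
    exact Sum.inl.inj (Sum.inr.inj (hφ h))
  · intro i j
    rw [← absE_Yiff hs i j]
    exact ⟨fun h => hφ h, fun h => congrArg φ h⟩
  · intro i j h
    have h1 := hφ h
    have hj : j.val % 3 = 0 ∨ j.val % 3 = 1 ∨ j.val % 3 = 2 := by omega
    rcases hj with hj | hj | hj
    · rw [absE_Y0 hs j hj] at h1
      exact absurd h1 Sum.inr_ne_inl
    · rw [absE_Y1 hs j hj] at h1
      exact absurd (Sum.inr.inj h1) Sum.inl_ne_inr
    · rw [absE_Y2 hs j hj] at h1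
      exact absurd (Sum.inr.inj h1) Sum.inl_ne_inr
  · intro i
    exact ⟨hφF _, hφF _⟩
  · intro i
    have hv := absE_val hs i
    refine ⟨hφb (Sum.inr (Sum.inl i)) (Sum.inl i) ?_, hφb (Sum.inr (Sum.inl i)) (Sum.inl (i + 1)) ?_,
      ?_, ?_, ?_, ?_⟩
    · exact mem_union_left _ (mem_union_left _ (mem_insert_self _ _))
    · exact mem_union_left _ (mem_union_left _ (mem_insert_of_mem (mem_singleton_self _)))
    · rcases hv with hv | hv
      · refine hφb (Sum.inr (Sum.inl (i + 1))) (Sum.inr (Sum.inr (Sum.inl i))) ?_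
        refine mem_union_left _ (mem_union_right _ ?_)
        rw [if_neg (by omega), add_sub_cancel_right]
        exact mem_singleton_self _
      · have h0 : i + 1 = 0 := (ZMod.val_eq_zero _).mp hv.2
        show G.Adj (φ (Sum.inr (Sum.inl i))) (φ (Sum.inr (Sum.inl (i + 1))))
        rw [h0]
        refine (hφb (Sum.inr (Sum.inl i)) (Sum.inr (Sum.inr (Sum.inl 0))) ?_).symm
        refine mem_union_right _ ?_
        rw [if_pos hv.1]
        exact mem_singleton_self _
    · have hi : i.val % 3 = 0 ∨ i.val % 3 = 1 ∨ i.val % 3 = 2 := by omega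
      show G.Adj (φ (Sum.inr (Sum.inl i))) (φ (absE_Y hs i))
      rcases hi with hi | hi | hi
      · rw [absE_Y0 hs i hi]
        exact (adjh i (by omega)).symm
      · rw [absE_Y1 hs i hi]
        have := (adja ⟨i.val / 3, absE_div hs i⟩).1
        rw [absE_cast hs i 1 hi] at this
        exact this
      · rw [absE_Y2 hs i hi]
        have := (adjb ⟨i.val / 3, absE_div hs i⟩).1
        rw [absE_cast hs i 2 hi] at this
        exact this
    · have hi : i.val % 3 = 0 ∨ i.val % 3 = 1 ∨ i.val % 3 = 2 := by omega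
      show G.Adj (φ (Sum.inr (Sum.inl (i + 1)))) (φ (absE_Y hs i))
      rcases hi with hi | hi | hi
      · rw [absE_Y0 hs i hi]
        refine (adjh (i + 1) ?_).symm
        rcases hv with hv | hv
        · omega
        · omega
      · rw [absE_Y1 hs i hi]
        have := (adja ⟨i.val / 3, absE_div hs i⟩).2.1
        have e : ((3 * (i.val / 3) + 2 : ℕ) : ZMod (3 * s)) = i + 1 := by
          have := absE_cast hs i 1 hi
          rw [show 3 * (i.val / 3) + 2 = 3 * (i.val / 3) + 1 + 1 from rfl, Nat.cast_add, this,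
            Nat.cast_one]
        rw [e] at this
        exact this
      · rw [absE_Y2 hs i hi]
        have := (adjb ⟨i.val / 3, absE_div hs i⟩).2.1
        have e : ((3 * (i.val / 3) + 3 : ℕ) : ZMod (3 * s)) = i + 1 := by
          have := absE_cast hs i 2 hi
          rw [show 3 * (i.val / 3) + 3 = 3 * (i.val / 3) + 2 + 1 from rfl, Nat.cast_add, this,
            Nat.cast_one]
        rw [e] at this
        exact this
    · have hi : i.val % 3 = 0 ∨ i.val % 3 = 1 ∨ i.val % 3 = 2 := by omega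
      show G.Adj (φ (absE_Y hs i)) (φ (absE_Y hs (i + 1)))
      rcases hi with hi | hi | hi
      · rw [absE_Y0 hs i hi, absE_Y1 hs (i + 1) (by rcases hv with hv | hv <;> omega)]
        exact (adja _).2.2
      · have h2 : (i + 1).val % 3 = 2 := by rcases hv with hv | hv <;> omega
        rw [absE_Y1 hs i hi, absE_Y2 hs (i + 1) h2]
        have h3 : (i + 1).val / 3 = i.val / 3 := by rcases hv with hv | hv <;> omega
        have := (adjb ⟨i.val / 3, absE_div hs i⟩).2.2.2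
        simp only [h3]
        exact this
      · rw [absE_Y2 hs i hi, absE_Y0 hs (i + 1) (by rcases hv with hv | hv <;> omega)]
        exact (adjb _).2.2.1.symm

end Pool.NSH
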