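import Pool.Agent.NSH.Abs1

/-!
MODULE AbsF (difficulty 3).  One absorber for all graphs on `Z`.

RECIPE: let `𝓛` be the finite set of the graphs `L ≤ G` with `On L Z`, all degrees even and `3 ∣ ec L`; `#𝓛 ≤ 2 ^ (|Z| ^ 2)` (`L ↦ {(x,y) ∈ Z × Z : L.Adj x y}` is
injective).  Induction over finite sets `D ⊆ 𝓛` (`Finset.induction_on`): there are `A, Nw` with `A ≤ G`, `Nw.card ≤ #D * (|Z| ^ 2 + 16 |Z|)`, `Disjoint Nw Fb`, the edge condition,
`HasDec A` and `HasDec (A ⊔ L)` for all `L ∈ D`.  Step: `abs1` for the new `L₁` with `Fb' = Fb ∪ Nw` gives `A₁, N₁`; `A ⊔ A₁`, `Nw ∪ N₁`.  `A` and `A₁` are disjoint (an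
edge of `A₁` has an end in `N₁`, which is disjoint from `Nw ∪ Z`).  For `L ∈ D`: `(A ⊔ A₁) ⊔ L = (A ⊔ L) ⊔ A₁`; for `L₁`: `A ⊔ (A₁ ⊔ L₁)`: `A` is disjoint from `L₁`
(an edge of `A` has an end in `Nw`, disjoint from `Z ⊆ Fb`).  All by `hasDec_sup`.
-/

open Finset
open scoped Classical

namespace Pool.NSH

theorem absf_disj {V : Type*} {A B : SimpleGraph V} (h : ∀ x y, A.Adj x y → B.Adj x y → False) :
    Disjoint A B := by
  rw [SimpleGraph.disjoint_left]
  intro x y hA hB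
  exact h x y hA hB

theorem absf_count {V : Type*} (Z : Finset V) (D : Finset (SimpleGraph V))
    (hD : ∀ L ∈ D, On L Z) : D.card ≤ 2 ^ (Z.card ^ 2) := by
  have h1 : D.card ≤ ((Z ×ˢ Z).powerset).card := by
    apply card_le_card_of_injOn (fun L => (Z ×ˢ Z).filter (fun p => L.Adj p.1 p.2))
    · intro L _
      exact mem_coe.2 (mem_powerset.2 (filter_subset _ _))
    · intro L hL L' hL' h
      have hLL : (Z ×ˢ Z).filter (fun p => L.Adj p.1 p.2) =
        (Z ×ˢ Z).filter (fun p => L'.Adj p.1 p.2) := h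
      ext x y
      constructor
      · intro hxy
        have h2 := hD L (mem_coe.1 hL) x y hxy
        have h3 : (x, y) ∈ (Z ×ˢ Z).filter (fun p => L.Adj p.1 p.2) :=
          mem_filter.2 ⟨mem_product.2 h2, hxy⟩
        rw [hLL] at h3
        exact (mem_filter.1 h3).2
      · intro hxy
        have h2 := hD L' (mem_coe.1 hL') x y hxy
        have h3 : (x, y) ∈ (Z ×ˢ Z).filter (fun p => L'.Adj p.1 p.2) :=
          mem_filter.2 ⟨mem_product.2 h2, hxy⟩
        rw [← hLL] at h3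
        exact (mem_filter.1 h3).2
  rw [card_powerset, card_product] at h1
  rw [pow_two]
  exact h1

theorem absf_step {V : Type*} [Fintype V] (G : SimpleGraph V) (Z Fb : Finset V) (hZ : Z ⊆ Fb)
    (hcn : ∀ S : Finset V, S.card ≤ 4 →
      Fb.card + 2 ^ (Z.card ^ 2) * (Z.card ^ 2 + 16 * Z.card)
        < (univ.filter fun v => ∀ s ∈ S, G.Adj s v).card) (D : Finset (SimpleGraph V)) :
    (∀ L ∈ D, L ≤ G ∧ On L Z ∧ (∀ v, Even (nb L univ v).card) ∧ 3 ∣ ec L) →
    ∃ (A : SimpleGraph V) (Nw : Finset V), A ≤ G ∧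
      Nw.card ≤ D.card * (Z.card ^ 2 + 16 * Z.card) ∧ Disjoint Nw Fb ∧
      (∀ x y, A.Adj x y → (x ∈ Nw ∨ y ∈ Nw) ∧ (x ∈ Nw ∨ x ∈ Z) ∧ (y ∈ Nw ∨ y ∈ Z)) ∧
      HasDec A ∧ ∀ L ∈ D, HasDec (A ⊔ L) := by
  induction D using Finset.induction_on with
  | empty =>
    intro _
    refine ⟨⊥, ∅, bot_le, by simp, disjoint_empty_left _, ?_, hasDec_bot, ?_⟩
    · intro x y hxy
      exact absurd hxy (by simp)
    · intro L hL
      exact absurd hL (notMem_empty L)
  | insert L1 D hL1 ih =>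
    intro hD
    obtain ⟨A, Nw, hA, hNc, hNF, hAe, hAD, hAL⟩ := ih (fun L hL => hD L (mem_insert_of_mem hL))
    obtain ⟨hL1G, hL1Z, hL1e, hL13⟩ := hD L1 (mem_insert_self _ _)
    have hcard : (insert L1 D).card = D.card + 1 := card_insert_of_notMem hL1
    have hK : (insert L1 D).card ≤ 2 ^ (Z.card ^ 2) := absf_count Z _ (fun L hL => (hD L hL).2.1)
    rw [hcard] at hK
    set c := Z.card ^ 2 + 16 * Z.card with hc
    have hmul : (D.card + 1) * c ≤ 2 ^ (Z.card ^ 2) * c := Nat.mul_le_mul_right c hK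
    have hexp : (D.card + 1) * c = D.card * c + c := by ring
    obtain ⟨A1, N1, hA1, hN1c, hN1F, hA1e, hA1D, hA1L⟩ := abs1 G Z (Fb ∪ Nw)
      (hZ.trans subset_union_left) L1 hL1G hL1Z hL1e hL13 (by
        intro S hS
        have h1 := hcn S hS
        have h2 := card_union_le Fb Nw
        rw [← hc]
        omega)
    have hN1Fb : Disjoint N1 Fb := disjoint_of_subset_right subset_union_left hN1F
    have hN1N : Disjoint N1 Nw := disjoint_of_subset_right subset_union_right hN1F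
    have hnotZ : ∀ x, x ∈ N1 → x ∉ Z := fun x hx hxZ => (disjoint_left.1 hN1Fb hx) (hZ hxZ)
    have hnotN : ∀ x, x ∈ N1 → x ∉ Nw := fun x hx hxZ => (disjoint_left.1 hN1N hx) hxZ
    have hnotZ' : ∀ x, x ∈ Nw → x ∉ Z := fun x hx hxZ => (disjoint_left.1 hNF hx) (hZ hxZ)
    have hAA1 : Disjoint A A1 := by
      apply absf_disj
      intro x y h1 h2
      obtain ⟨_, h3, h4⟩ := hAe x y h1
      obtain ⟨h5, _, _⟩ := hA1e x y h2
      rcases h5 with h5 | h5
      · rcases h3 with h3 | h3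
        · exact hnotN x h5 h3
        · exact hnotZ x h5 h3
      · rcases h4 with h4 | h4
        · exact hnotN y h5 h4
        · exact hnotZ y h5 h4
    have hLA1 : ∀ L, On L Z → ∀ x y, L.Adj x y → A1.Adj x y → False := by
      intro L hL x y h1 h2
      obtain ⟨h3, h4⟩ := hL x y h1
      obtain ⟨h5, _, _⟩ := hA1e x y h2
      rcases h5 with h5 | h5
      · exact hnotZ x h5 h3
      · exact hnotZ y h5 h4
    have hLA : ∀ L, On L Z → ∀ x y, L.Adj x y → A.Adj x y → False := by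
      intro L hL x y h1 h2
      obtain ⟨h3, h4⟩ := hL x y h1
      obtain ⟨h5, _, _⟩ := hAe x y h2
      rcases h5 with h5 | h5
      · exact hnotZ' x h5 h3
      · exact hnotZ' y h5 h4
    refine ⟨A ⊔ A1, Nw ∪ N1, sup_le hA hA1, ?_, ?_, ?_, hasDec_sup hAA1 hAD hA1D, ?_⟩
    · rw [hcard]
      have h2 := card_union_le Nw N1
      omega
    · exact disjoint_union_left.2 ⟨hNF, hN1Fb⟩
    · intro x y hxy
      rcases hxy with h | h
      · obtain ⟨h1, h2, h3⟩ := hAe x y h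
        refine ⟨h1.imp (mem_union_left _) (mem_union_left _), h2.imp (mem_union_left _) id,
          h3.imp (mem_union_left _) id⟩
      · obtain ⟨h1, h2, h3⟩ := hA1e x y h
        refine ⟨h1.imp (mem_union_right _) (mem_union_right _), h2.imp (mem_union_right _) id,
          h3.imp (mem_union_right _) id⟩
    · intro L hL
      rcases mem_insert.1 hL with h | h
      · subst h
        rw [sup_assoc]
        apply hasDec_sup _ hAD hA1L
        apply absf_disj
        intro x y h1 h2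
        rcases h2 with h2 | h2
        · exact SimpleGraph.disjoint_left.1 hAA1 x y h1 h2
        · exact hLA L hL1Z x y h2 h1
      · rw [sup_assoc, sup_comm A1 L, ← sup_assoc]
        apply hasDec_sup _ (hAL L h) hA1D
        apply absf_disj
        intro x y h1 h2
        rcases h1 with h1 | h1
        · exact SimpleGraph.disjoint_left.1 hAA1 x y h1 h2
        · exact hLA1 L (hD L (mem_insert_of_mem h)).2.1 x y h1 h2

theorem absF {V : Type*} [Fintype V] (G : SimpleGraph V) (Z Fb : Finset V) (hZ : Z ⊆ Fb)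
    (hcn : ∀ S : Finset V, S.card ≤ 4 →
      Fb.card + 2 ^ (Z.card ^ 2) * (Z.card ^ 2 + 16 * Z.card)
        < (univ.filter fun v => ∀ s ∈ S, G.Adj s v).card) :
    ∃ (A : SimpleGraph V) (Nw : Finset V), A ≤ G ∧
      Nw.card ≤ 2 ^ (Z.card ^ 2) * (Z.card ^ 2 + 16 * Z.card) ∧ Disjoint Nw Fb ∧
      (∀ x y, A.Adj x y → (x ∈ Nw ∨ y ∈ Nw) ∧ (x ∈ Nw ∨ x ∈ Z) ∧ (y ∈ Nw ∨ y ∈ Z)) ∧
      HasDec A ∧
      ∀ L : SimpleGraph V, L ≤ G → On L Z → (∀ v, Even (nb L univ v).card) → 3 ∣ ec L →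
        HasDec (A ⊔ L) := by
  have hfin : (Set.univ : Set (SimpleGraph V)).Finite := Set.toFinite _
  set D : Finset (SimpleGraph V) := hfin.toFinset.filter
    (fun L => L ≤ G ∧ On L Z ∧ (∀ v, Even (nb L univ v).card) ∧ 3 ∣ ec L) with hD
  have hDp : ∀ L ∈ D, L ≤ G ∧ On L Z ∧ (∀ v, Even (nb L univ v).card) ∧ 3 ∣ ec L :=
    fun L hL => (mem_filter.1 hL).2
  obtain ⟨A, Nw, h1, h2, h3, h4, h5, h6⟩ := absf_step G Z Fb hZ hcn D hDp
  refine ⟨A, Nw, h1, h2.trans (Nat.mul_le_mul_right _ (absf_count Z D (fun L hL => (hDp L hL).2.1))),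
    h3, h4, h5, ?_⟩
  intro L hL1 hL2 hL3 hL4
  exact h6 L (mem_filter.2 ⟨hfin.mem_toFinset.2 (Set.mem_univ L), hL1, hL2, hL3, hL4⟩)


end Pool.NSH
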