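import Pool.Agent.NSH.Defs

/-!
MODULE Dirac (difficulty 3).  Perfect matchings from large minimum degree.

A matching is given by an involution: `m v` is the partner of `v`.

RECIPE: consider the pairs `(T, m)` with `T ⊆ S` and `m : V → V` such that `m v ∈ T`, `m (m v) = v`,
`G.Adj v (m v)` for `v ∈ T` (for example `T = ∅`).  Take one with `T.card` maximal.  `T.card` is even
(`m` is a fixed point free involution of `T`: `Finset.card_involution`-style lemma, e.g. `Finset.even_card_of_involution`
or `Finset.sum_involution` in `ZMod 2`).  If `T ≠ S` there are (parity) two different `x, y ∈ S \ T`.  They are not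
adjacent, more generally `S \ T` contains no edge (otherwise enlarge `T`).  So all neighbours of `x` and `y` in `S` are
in `T`.  For `v ∈ T` it is impossible that `G.Adj x v ∧ G.Adj y (m v)` (otherwise match `x - v`, `y - m v`: larger `T`).
So `v ↦ m v` maps `nb G T x` injectively into `T \ nb G T y`, hence `|nb x| + |nb y| ≤ |T| ≤ |S| - 2`, but both are
`≥ |S| / 2`: contradiction.  Hence `T = S`.
-/

open Finset
open scoped Classical

namespace Pool.NSH

/-- a partial matching on `T` -/
def dirac_M {V : Type*} (G : SimpleGraph V) (T : Finset V) (m : V → V) : Prop :=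
  ∀ v ∈ T, m v ∈ T ∧ m (m v) = v ∧ G.Adj v (m v)

theorem dirac_even {V : Type*} {G : SimpleGraph V} {T : Finset V} {m : V → V} (h : dirac_M G T m) :
    Even T.card := by
  have h1 : ∑ v ∈ T, (1 : ZMod 2) = 0 := by
    apply Finset.sum_involution (fun v _ => m v)
    · intro a _
      decide
    · intro a ha _ h2
      have := (h a ha).2.2
      rw [h2] at this
      exact G.loopless.irrefl _ this
    · intro a ha
      exact (h a ha).1
    · intro a ha
      exact (h a ha).2.1
  rw [Finset.sum_const, nsmul_eq_mul, mul_one] at h1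
  exact (ZMod.natCast_eq_zero_iff_even).mp h1

theorem dirac_ext1 {V : Type*} {G : SimpleGraph V} {T : Finset V} {m : V → V} (h : dirac_M G T m)
    {x y : V} (hx : x ∉ T) (hy : y ∉ T) (hxy : G.Adj x y) :
    ∃ m', dirac_M G (insert x (insert y T)) m' := by
  have hne : x ≠ y := hxy.ne
  refine ⟨fun v => if v = x then y else if v = y then x else m v, ?_⟩
  intro v hv
  rw [mem_insert, mem_insert] at hv
  rcases hv with rfl | rfl | hv
  · simp only [if_true, if_neg hne.symm]
    exact ⟨by simp, trivial, hxy⟩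
  · simp only [if_neg hne.symm, if_true]
    exact ⟨by simp, trivial, hxy.symm⟩
  · obtain ⟨h1, h2, h3⟩ := h v hv
    have e1 : v ≠ x := fun e => hx (e ▸ hv)
    have e2 : v ≠ y := fun e => hy (e ▸ hv)
    have e3 : m v ≠ x := fun e => hx (e ▸ h1)
    have e4 : m v ≠ y := fun e => hy (e ▸ h1)
    simp only [if_neg e1, if_neg e2, if_neg e3, if_neg e4]
    exact ⟨by simp [h1], h2, h3⟩

theorem dirac_ext2 {V : Type*} {G : SimpleGraph V} {T : Finset V} {m : V → V} (h : dirac_M G T m)
    {x y v₀ : V} (hx : x ∉ T) (hy : y ∉ T) (hne : x ≠ y) (hv₀ : v₀ ∈ T) (hxv : G.Adj x v₀)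
    (hyv : G.Adj y (m v₀)) : ∃ m', dirac_M G (insert x (insert y T)) m' := by
  obtain ⟨a1, a2, a3⟩ := h v₀ hv₀
  have b1 : v₀ ≠ x := fun e => hx (e ▸ hv₀)
  have b2 : v₀ ≠ y := fun e => hy (e ▸ hv₀)
  have b3 : m v₀ ≠ x := fun e => hx (e ▸ a1)
  have b4 : m v₀ ≠ y := fun e => hy (e ▸ a1)
  have b5 : m v₀ ≠ v₀ := a3.ne.symm
  refine ⟨fun v => if v = x then v₀ else if v = v₀ then x else if v = y then m v₀ else
    if v = m v₀ then y else m v, ?_⟩
  intro v hv
  rw [mem_insert, mem_insert] at hv
  rcases hv with rfl | rfl | hv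
  · simp only [if_true, if_neg b1]
    exact ⟨by simp [hv₀], trivial, hxv⟩
  · simp only [if_neg hne.symm, if_neg b2.symm, if_true, if_neg b3, if_neg b5, if_neg b4]
    exact ⟨by simp [a1], trivial, hyv⟩
  · have e1 : v ≠ x := fun e => hx (e ▸ hv)
    have e2 : v ≠ y := fun e => hy (e ▸ hv)
    obtain ⟨h1, h2, h3⟩ := h v hv
    have e3 : m v ≠ x := fun e => hx (e ▸ h1)
    have e4 : m v ≠ y := fun e => hy (e ▸ h1)
    by_cases c1 : v = v₀
    · subst c1
      simp only [if_neg e1, if_true]
      exact ⟨by simp, trivial, hxv.symm⟩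
    · by_cases c2 : v = m v₀
      · subst c2
        simp only [if_neg e1, if_neg c1, if_neg e2, if_true, if_neg hne.symm, if_neg b2.symm]
        exact ⟨by simp, trivial, hyv.symm⟩
      · have c3 : m v ≠ v₀ := by
          intro e
          apply c2
          rw [← e, h2]
        have c4 : m v ≠ m v₀ := by
          intro e
          apply c1
          rw [← h2, e, a2]
        simp only [if_neg e1, if_neg c1, if_neg e2, if_neg c2, if_neg e3, if_neg c3, if_neg e4, if_neg c4]
        exact ⟨by simp [h1], h2, h3⟩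

theorem dirac {V : Type*} (G : SimpleGraph V) (S : Finset V) (hS : Even S.card)
    (h : ∀ v ∈ S, S.card ≤ 2 * (nb G S v).card) :
    ∃ m : V → V, ∀ v ∈ S, m v ∈ S ∧ m (m v) = v ∧ G.Adj v (m v) := by
  have hne : (S.powerset.filter fun T => ∃ m, dirac_M G T m).Nonempty := by
    refine ⟨∅, ?_⟩
    rw [mem_filter, mem_powerset]
    exact ⟨empty_subset _, id, fun v hv => absurd hv (notMem_empty _)⟩
  obtain ⟨T, hT, hmax⟩ := Finset.exists_max_image _ card hne
  rw [mem_filter, mem_powerset] at hT
  obtain ⟨hTS, m, hm⟩ := hT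
  by_cases hTe : T = S
  · rw [hTe] at hm
    exact ⟨m, hm⟩
  exfalso
  have hTev := dirac_even hm
  have hcard : (S \ T).card = S.card - T.card := card_sdiff_of_subset hTS
  have hlt : T.card < S.card := card_lt_card (hTS.ssubset_of_ne hTe)
  have h2 : 1 < (S \ T).card := by
    rw [hcard]
    obtain ⟨a, ha⟩ := hS
    obtain ⟨b, hb⟩ := hTev
    omega
  obtain ⟨x, hx, y, hy, hxy⟩ := Finset.one_lt_card.mp h2
  rw [mem_sdiff] at hx hy
  have hbig : ∀ x y, x ∈ S → x ∉ T → y ∈ S → y ∉ T → x ≠ y →
      ¬ ∃ m', dirac_M G (insert x (insert y T)) m' := by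
    intro x y hxS hxT hyS hyT hxy hex
    have hmem : insert x (insert y T) ∈ S.powerset.filter fun T => ∃ m, dirac_M G T m := by
      rw [mem_filter, mem_powerset]
      refine ⟨?_, hex⟩
      intro v hv
      rw [mem_insert, mem_insert] at hv
      rcases hv with rfl | rfl | hv
      · exact hxS
      · exact hyS
      · exact hTS hv
    have h3 := hmax _ hmem
    have h4 : (insert x (insert y T)).card = T.card + 2 := by
      rw [card_insert_of_notMem, card_insert_of_notMem hyT]
      rw [mem_insert]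
      push Not
      exact ⟨hxy, hxT⟩
    omega
  have hnbT : ∀ x ∈ S, x ∉ T → nb G S x ⊆ T := by
    intro x hxS hxT v hv
    rw [nb, mem_filter] at hv
    by_contra hvT
    exact hbig x v hxS hxT hv.1 hvT hv.2.ne (dirac_ext1 hm hxT hvT hv.2)
  have hx1 := hnbT x hx.1 hx.2
  have hy1 := hnbT y hy.1 hy.2
  have hmap : (nb G S x).card ≤ (T \ nb G S y).card := by
    apply Finset.card_le_card_of_injOn m
    · intro v hv
      have hvT : v ∈ T := hx1 hv
      have hv' : v ∈ nb G S x := hv
      rw [nb, mem_filter] at hv'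
      rw [mem_coe, mem_sdiff]
      refine ⟨(hm v hvT).1, fun hn => ?_⟩
      rw [nb, mem_filter] at hn
      exact hbig x y hx.1 hx.2 hy.1 hy.2 hxy (dirac_ext2 hm hx.2 hy.2 hxy hvT hv'.2 hn.2)
    · intro u hu v hv huv
      have h3 := (hm u (hx1 hu)).2.1
      have h4 := (hm v (hx1 hv)).2.1
      have huv' : m u = m v := huv
      rw [← h3, huv', h4]
  rw [card_sdiff_of_subset hy1] at hmap
  have h5 := h x hx.1
  have h6 := h y hy.1
  have h7 : (nb G S y).card ≤ T.card := card_le_card hy1
  omega

end Pool.NSH
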