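import Pool.Agent.NSH.RedB
import Pool.Agent.NSH.Dirac

/-!
MODULE Apex (difficulty 4).  Greedy perfect matchings in the neighbourhoods of the apexes `x ∈ X`.

RECIPE: induction on `X` (`Finset.induction_on`, generalising nothing but keeping the bound with `X.card`; for the
subset `X'` of `X = insert x X'` the hypothesis `(N y).card + 2 * X'.card ≤ ..` follows).  Let `P'` be the packing for `X'`, and
`F'` the graph of the edges of `F` which are in no member of `P'`.  For `u ∈ N x`: each `T ∈ P'` containing `u` is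
`{y, v, v'}` with `y ∈ X'`, so it contains exactly one `F`-edge at `u` inside `Q` (`y ∉ Q`); hence
`|nb F' (N x) u| ≥ |nb F (N x) u| - |X'|` and `2 |nb F' (N x) u| ≥ |N x|`.  `dirac` for `F'` and `N x` gives the involution `m`.
`P = P' ∪ {{x, u, m u} : u ∈ N x}` (image of `N x`).  The new triangles are pairwise edge-disjoint: the pairs `x u` determine the
triangle (`u` and `m u` give the same one), the pairs `u, m u` too (`m` involution).  They are disjoint from `P'`: a common pair is
either `x u` (`x ∉ X'`, `x ∉ Q`, so `x` is in no `T ∈ P'`) or `u, m u`, an edge of `F'`.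
The number of `T ∋ u` grows by at most one.
-/

open Finset
open scoped Classical

namespace Pool.NSH

theorem apex_eq {V : Type*} {x : V} {m : V → V} {u c : V} (hm : m (m u) = u)
    (hc : c ∈ ({x, u, m u} : Finset V)) (hcx : c ≠ x) :
    ({x, u, m u} : Finset V) = {x, c, m c} := by
  rw [mem_insert, mem_insert, mem_singleton] at hc
  rcases hc with h | h | h
  · exact absurd h hcx
  · rw [h]
  · rw [h, hm]
    ext z
    simp only [mem_insert, mem_singleton]
    tauto

theorem apex_deg {V : Type*} (F : SimpleGraph V) (X Q : Finset V) (N : V → Finset V)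
    (hXQ : Disjoint X Q) (hN : ∀ x ∈ X, N x ⊆ Q) (P : Finset (Finset V))
    (hP : ∀ T ∈ P, ∃ x ∈ X, ∃ u ∈ N x, ∃ u' ∈ N x, F.Adj u u' ∧ T = {x, u, u'})
    (u : V) (hu : u ∈ Q) (hc : (P.filter fun T => u ∈ T).card ≤ X.card) (S : Finset V)
    (hS : S ⊆ Q) : (nb F S u).card ≤ (nb (unc F P) S u).card + X.card := by
  have h1 : (nb F S u).card ≤ (nb (unc F P) S u).card +
      (nb F S u \ nb (unc F P) S u).card := by
    have := card_sdiff_add_card (nb F S u) (nb (unc F P) S u)
    have h2 : (nb F S u).card ≤ (nb F S u ∪ nb (unc F P) S u).card :=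
      card_le_card subset_union_left
    omega
  have h3 : ∀ b ∈ nb F S u \ nb (unc F P) S u, ∃ T, T ∈ P ∧ u ∈ T ∧ b ∈ T := by
    intro b hb
    rw [mem_sdiff] at hb
    unfold nb at hb
    simp only [mem_filter, not_and] at hb
    have h4 := hb.2 hb.1.1
    have h5 : ¬ (F.Adj u b ∧ ∀ T ∈ P, ¬ (u ∈ T ∧ b ∈ T)) := h4
    push Not at h5
    obtain ⟨T, hT, h6⟩ := h5 hb.1.2
    exact ⟨T, hT, h6.1, h6.2⟩
  choose! t ht using h3
  have h7 : (nb F S u \ nb (unc F P) S u).card ≤ (P.filter fun T => u ∈ T).card := by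
    refine card_le_card_of_injOn t ?_ ?_
    · intro b hb
      have := ht b hb
      exact mem_coe.mpr (mem_filter.mpr ⟨this.1, this.2.1⟩)
    · intro b hb b' hb' hbb
      have k1 := ht b (mem_coe.mp hb)
      have k2 := ht b' (mem_coe.mp hb')
      rw [← hbb] at k2
      obtain ⟨y, hy, v, hv, v', hv', -, hT⟩ := hP _ k1.1
      have hbS : b ∈ S ∧ F.Adj u b := by
        have := (mem_sdiff.mp (mem_coe.mp hb)).1
        exact mem_filter.mp this
      have hbS' : b' ∈ S ∧ F.Adj u b' := by
        have := (mem_sdiff.mp (mem_coe.mp hb')).1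
        exact mem_filter.mp this
      have hyQ : y ∉ Q := fun h => disjoint_left.mp hXQ hy h
      have e1 : u ≠ y := fun h => hyQ (h ▸ hu)
      have e2 : b ≠ y := fun h => hyQ (h ▸ hS hbS.1)
      have e3 : b' ≠ y := fun h => hyQ (h ▸ hS hbS'.1)
      have e4 : u ≠ b := F.ne_of_adj hbS.2
      have e5 : u ≠ b' := F.ne_of_adj hbS'.2
      have f1 := k1.2.1
      have f2 := k1.2.2
      have f3 := k2.2.2
      rw [hT] at f1 f2 f3
      simp only [mem_insert, mem_singleton] at f1 f2 f3
      rcases f1 with f1 | f1 | f1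
      · exact absurd f1 e1
      · rcases f2 with f2 | f2 | f2
        · exact absurd f2 e2
        · exact absurd (f1.trans f2.symm) e4
        · rcases f3 with f3 | f3 | f3
          · exact absurd f3 e3
          · exact absurd (f1.trans f3.symm) e5
          · rw [f2, f3]
      · rcases f2 with f2 | f2 | f2
        · exact absurd f2 e2
        · rcases f3 with f3 | f3 | f3
          · exact absurd f3 e3
          · rw [f2, f3]
          · exact absurd (f1.trans f3.symm) e5
        · exact absurd (f1.trans f2.symm) e4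
  omega

theorem apex {V : Type*} (G F : SimpleGraph V) (X Q : Finset V) (N : V → Finset V)
    (hXQ : Disjoint X Q) (hF : F ≤ G) (hN : ∀ x ∈ X, N x ⊆ Q)
    (hadj : ∀ x ∈ X, ∀ u ∈ N x, G.Adj x u) (hev : ∀ x ∈ X, Even (N x).card)
    (hdeg : ∀ x ∈ X, ∀ u ∈ N x, (N x).card + 2 * X.card ≤ 2 * (nb F (N x) u).card) :
    ∃ P : Finset (Finset V), IsPacking G P ∧
      (∀ T ∈ P, ∃ x ∈ X, ∃ u ∈ N x, ∃ u' ∈ N x, F.Adj u u' ∧ T = {x, u, u'}) ∧
      (∀ x ∈ X, ∀ u ∈ N x, ∃ T ∈ P, x ∈ T ∧ u ∈ T) ∧
      (∀ u, u ∉ X → (P.filter fun T => u ∈ T).card ≤ X.card) := by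
  induction X using Finset.induction_on with
  | empty =>
    refine ⟨∅, ⟨by simp, by simp⟩, by simp, by simp, by simp⟩
  | insert x X' hx ih =>
    have hsub : ∀ y ∈ X', y ∈ insert x X' := fun y hy => mem_insert_of_mem hy
    have hxX : x ∈ insert x X' := mem_insert_self x X'
    have hcard : (insert x X').card = X'.card + 1 := card_insert_of_notMem hx
    have hX'Q : Disjoint X' Q := disjoint_of_subset_left (subset_insert x X') hXQ
    have hxQ : x ∉ Q := fun h => disjoint_left.mp hXQ hxX h
    obtain ⟨P', hP', hP'1, hP'2, hP'3⟩ := ih hX'Q (fun y hy => hN y (hsub y hy))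
      (fun y hy => hadj y (hsub y hy)) (fun y hy => hev y (hsub y hy))
      (fun y hy u hu => by
        have := hdeg y (hsub y hy) u hu
        rw [hcard] at this
        omega)
    obtain ⟨m, hm⟩ := dirac (unc F P') (N x) (hev x hxX) (fun v hv => by
      have h1 := hdeg x hxX v hv
      have hvQ : v ∈ Q := hN x hxX hv
      have h2 := apex_deg F X' Q N hX'Q (fun y hy => hN y (hsub y hy)) P' hP'1 v hvQ
        (hP'3 v (fun h => disjoint_left.mp hX'Q h hvQ)) (N x) (hN x hxX)
      rw [hcard] at h1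
      omega)
    have hmF : ∀ v ∈ N x, F.Adj v (m v) := fun v hv => (hm v hv).2.2.1
    have hxP : ∀ T ∈ P', x ∉ T := by
      intro T hT hxT
      obtain ⟨y, hy, v, hv, v', hv', -, rfl⟩ := hP'1 T hT
      simp only [mem_insert, mem_singleton] at hxT
      rcases hxT with h | h | h
      · exact hx (h ▸ hy)
      · exact hxQ (h ▸ hN y (hsub y hy) hv)
      · exact hxQ (h ▸ hN y (hsub y hy) hv')
    let Pn : Finset (Finset V) := (N x).image (fun u => ({x, u, m u} : Finset V))
    have hPn : ∀ T ∈ Pn, ∃ u ∈ N x, T = {x, u, m u} := by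
      intro T hT
      obtain ⟨u, hu, rfl⟩ := mem_image.mp hT
      exact ⟨u, hu, rfl⟩
    have hPnc : ∀ T ∈ Pn, ∀ c ∈ T, c ≠ x → T = {x, c, m c} := by
      intro T hT c hc hcx
      obtain ⟨u, hu, rfl⟩ := hPn T hT
      exact apex_eq (hm u hu).2.1 hc hcx
    have hpk : IsPacking G Pn := by
      refine ⟨?_, ?_⟩
      · intro T hT
        obtain ⟨u, hu, rfl⟩ := hPn T hT
        rw [SimpleGraph.is3Clique_triple_iff]
        exact ⟨hadj x hxX u hu, hadj x hxX _ (hm u hu).1, hF (hmF u hu)⟩
      · intro T hT T' hT' a b hab ha hb ha' hb'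
        by_cases hax : a = x
        · have hbx : b ≠ x := fun h => hab (hax.trans h.symm)
          rw [hPnc T hT b hb hbx, hPnc T' hT' b hb' hbx]
        · rw [hPnc T hT a ha hax, hPnc T' hT' a ha' hax]
    refine ⟨P' ∪ Pn, hP'.union hpk ?_, ?_, ?_, ?_⟩
    · intro T hT T' hT' a b hab ha hb ha' hb'
      have hax : a ≠ x := fun h => hxP T hT (h ▸ ha)
      have hbx : b ≠ x := fun h => hxP T hT (h ▸ hb)
      obtain ⟨u, hu, rfl⟩ := hPn T' hT'
      have hno : ¬ (u ∈ T ∧ m u ∈ T) := (hm u hu).2.2.2 T hT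
      simp only [mem_insert, mem_singleton] at ha' hb'
      rcases ha' with h | h | h
      · exact hax h
      · rcases hb' with h' | h' | h'
        · exact hbx h'
        · exact hab (h.trans h'.symm)
        · exact hno ⟨h ▸ ha, h' ▸ hb⟩
      · rcases hb' with h' | h' | h'
        · exact hbx h'
        · exact hno ⟨h' ▸ hb, h ▸ ha⟩
        · exact hab (h.trans h'.symm)
    · intro T hT
      rcases mem_union.mp hT with h | h
      · obtain ⟨y, hy, v, hv, v', hv', h1, h2⟩ := hP'1 T h
        exact ⟨y, hsub y hy, v, hv, v', hv', h1, h2⟩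
      · obtain ⟨u, hu, rfl⟩ := hPn T h
        exact ⟨x, hxX, u, hu, m u, (hm u hu).1, hmF u hu, rfl⟩
    · intro y hy u hu
      rcases mem_insert.mp hy with h | h
      · subst h
        exact ⟨{y, u, m u}, mem_union_right _ (mem_image.mpr ⟨u, hu, rfl⟩), by simp, by simp⟩
      · obtain ⟨T, hT, h1, h2⟩ := hP'2 y h u hu
        exact ⟨T, mem_union_left _ hT, h1, h2⟩
    · intro u hu
      rw [mem_insert, not_or] at hu
      rw [hcard, filter_union]
      refine (card_union_le _ _).trans ?_
      have h1 := hP'3 u hu.2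
      have h2 : (Pn.filter fun T => u ∈ T).card ≤ 1 := by
        rw [card_le_one]
        intro T hT T' hT'
        rw [mem_filter] at hT hT'
        rw [hPnc T hT.1 u hT.2 hu.1, hPnc T' hT'.1 u hT'.2 hu.1]
      omega

end Pool.NSH
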