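import Pool.Agent.NSH.NIter

/-!
MODULE Nibble (difficulty 2).  The weighted Pippenger-Frankl-Rodl theorem.

RECIPE: `τ = log (4/γ)` (`γ ≤ 1` without loss, replace `γ` by `min γ 1`), `m = exp (-((k-1) τ))`, `B = exp ((k+2) τ / m)`,
`T` a natural number `≥ 1` with `τ / (m T) ≤ 1` and `k τ ^ 2 / (m ^ 2 T) ≤ γ / 4`, `α = τ / T`; then
`(1 + (k+2) α/m) ^ T ≤ B` (`1 + y ≤ exp y`).  `κ > 0` with `κ ≤ 1/2`, `B κ ≤ γ/4`, `T B 6 k ^ 2 √κ ≤ γ / 4`.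
Apply `niter` with `r = T`, `Y = univ`, `μ = 1`: `exp (-(α T)) = exp (-τ) = γ / 4`, `Err univ 1 ≤ κ |X|`
(`1 - κ ≤ Dg univ x ≤ 1`, `act univ = univ`).
-/

open Finset
open scoped Classical

namespace Pool.NSH

theorem nibble_const (k : ℕ) (hk : 2 ≤ k) {γ : ℝ} (hγ : 0 < γ) (hγ1 : γ ≤ 1) :
    ∃ (κ α m B : ℝ) (T : ℕ), 0 < κ ∧ κ ≤ 1 / 2 ∧ 0 ≤ α ∧ 0 < m ∧ α / m ≤ 1 ∧
      m ≤ Real.exp (-(((k : ℝ) - 1) * α * T)) ∧ Real.exp (-(α * T)) ≤ γ / 4 ∧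
      (1 + (k + 2) * (α / m)) ^ T ≤ B ∧ B * κ ≤ γ / 4 ∧
      T * (k * (α / m) ^ 2 + B * (6 * k ^ 2 * √κ)) ≤ γ / 2 := by
  have hk' : (2 : ℝ) ≤ k := by exact_mod_cast hk
  set τ : ℝ := Real.log (4 / γ) with hτ
  have h4 : 1 ≤ 4 / γ := by rw [le_div_iff₀ hγ]; linarith
  have hτ0 : 0 ≤ τ := Real.log_nonneg h4
  have heτ : Real.exp (-τ) = γ / 4 := by
    rw [Real.exp_neg, hτ, Real.exp_log (by positivity), inv_div]
  set m : ℝ := Real.exp (-(((k : ℝ) - 1) * τ)) with hm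
  have hm0 : 0 < m := Real.exp_pos _
  set B : ℝ := Real.exp ((k + 2) * τ / m) with hB
  have hB0 : 0 < B := Real.exp_pos _
  obtain ⟨T, hT⟩ := exists_nat_gt (max 1 (max (τ / m) (4 * (k * τ ^ 2 / m ^ 2) / γ)))
  have hT1 : (1 : ℝ) < T := lt_of_le_of_lt (le_max_left _ _) hT
  have hT2 : τ / m < T := lt_of_le_of_lt ((le_max_left _ _).trans (le_max_right _ _)) hT
  have hT3 : 4 * (k * τ ^ 2 / m ^ 2) / γ < T :=
    lt_of_le_of_lt ((le_max_right _ _).trans (le_max_right _ _)) hT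
  have hT0 : (0 : ℝ) < T := by linarith
  have hαT : τ / T * T = τ := by field_simp
  have hαm : τ / T / m = τ / m / T := by ring
  -- the choice of `κ`
  have hD : 0 < T * B * (6 * k ^ 2) := by positivity
  set κ : ℝ := min (1 / 2) (min (γ / 4 / B) ((γ / 4 / (T * B * (6 * k ^ 2))) ^ 2)) with hκ
  have hκ0 : 0 < κ := by
    rw [hκ]
    refine lt_min (by norm_num) (lt_min (by positivity) (by positivity))
  have hκ1 : κ ≤ 1 / 2 := min_le_left _ _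
  have hκ2 : κ ≤ γ / 4 / B := (min_le_right _ _).trans (min_le_left _ _)
  have hκ3 : κ ≤ (γ / 4 / (T * B * (6 * k ^ 2))) ^ 2 := (min_le_right _ _).trans (min_le_right _ _)
  have hsq : √κ ≤ γ / 4 / (T * B * (6 * k ^ 2)) := by
    rw [← Real.sqrt_sq (by positivity : (0 : ℝ) ≤ γ / 4 / (T * B * (6 * k ^ 2)))]
    exact Real.sqrt_le_sqrt hκ3
  refine ⟨κ, τ / T, m, B, T, hκ0, hκ1, by positivity, hm0, ?_, ?_, ?_, ?_, ?_, ?_⟩
  · rw [hαm, div_le_one hT0]; exact hT2.le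
  · rw [hm, mul_assoc, hαT]
  · rw [hαT, heτ]
  · rw [hB]
    have h5 : 1 + (k + 2) * (τ / T / m) ≤ Real.exp ((k + 2) * (τ / T / m)) := by
      have := Real.add_one_le_exp ((k + 2) * (τ / T / m))
      linarith
    have h6 : (0 : ℝ) ≤ 1 + (k + 2) * (τ / T / m) := by positivity
    refine (pow_le_pow_left₀ h6 h5 T).trans ?_
    rw [← Real.exp_nat_mul]
    refine Real.exp_le_exp.2 (le_of_eq ?_)
    field_simp
  · rw [le_div_iff₀ hB0] at hκ2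
    linarith
  · have h7 : T * (k * (τ / T / m) ^ 2) ≤ γ / 4 := by
      have h8 : T * (k * (τ / T / m) ^ 2) = (k * τ ^ 2 / m ^ 2) / T := by
        field_simp
      rw [h8, div_le_iff₀ hT0]
      rw [div_lt_iff₀ hγ] at hT3
      linarith
    have h9 : T * (B * (6 * k ^ 2 * √κ)) ≤ γ / 4 := by
      rw [le_div_iff₀ hD] at hsq
      linarith
    linarith [mul_add (T : ℝ) (k * (τ / T / m) ^ 2) (B * (6 * k ^ 2 * √κ))]

theorem nibble_le (k : ℕ) (hk : 2 ≤ k) {γ : ℝ} (hγ : 0 < γ) (hγ1 : γ ≤ 1) :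
    ∃ κ : ℝ, 0 < κ ∧ ∀ (X ι : Type) [Fintype X] [Fintype ι] (S : ι → Finset X) (w : ι → ℝ),
      (∀ i, (S i).card = k) → (∀ i, 0 ≤ w i) →
      (∀ x, 1 - κ ≤ ∑ i ∈ univ.filter (fun i => x ∈ S i), w i) →
      (∀ x, ∑ i ∈ univ.filter (fun i => x ∈ S i), w i ≤ 1) →
      (∀ x y, x ≠ y → ∑ i ∈ univ.filter (fun i => x ∈ S i ∧ y ∈ S i), w i ≤ κ) →
      ∃ M : Finset ι, (∀ i ∈ M, ∀ j ∈ M, i ≠ j → Disjoint (S i) (S j)) ∧
        (1 - γ) * Fintype.card X ≤ k * M.card := by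
  obtain ⟨κ, α, m, B, T, hκ, hκ1, hα, hm, hA, hmT, heT, hBT, hBκ, hfin⟩ :=
    nibble_const k hk hγ hγ1
  refine ⟨κ, hκ, ?_⟩
  intro X ι _ _ S w hS hw hlo hhi hcod
  have h : Hyp S w k κ := ⟨hk, hκ.le, hS, hw, hhi, hcod⟩
  obtain ⟨M, hM, hMd, hMc⟩ := niter h hα hm hA hκ.le hκ1 T univ 1 le_rfl (by rw [one_mul]; exact hmT)
  refine ⟨M, hMd, ?_⟩
  have hErr : Err S w univ 1 ≤ κ * Fintype.card X := by
    unfold Err
    have h1 : ∀ y ∈ (univ : Finset X), |Dg S w univ y - 1| ≤ κ := by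
      intro y _
      have h2 : Dg S w univ y = ∑ i ∈ univ.filter (fun i => y ∈ S i), w i := by
        unfold Dg thr act
        rw [Finset.filter_filter]
        refine Finset.sum_congr ?_ fun _ _ => rfl
        ext i
        simp
      rw [h2, abs_sub_comm, abs_of_nonneg (by linarith [hhi y])]
      linarith [hlo y]
    calc ∑ y ∈ (univ : Finset X), |Dg S w univ y - 1| ≤ ∑ _y ∈ (univ : Finset X), κ :=
          Finset.sum_le_sum h1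
      _ = κ * Fintype.card X := by
          rw [Finset.sum_const, nsmul_eq_mul, Finset.card_univ, mul_comm]
  rw [Finset.card_univ] at hMc
  set n : ℝ := (Fintype.card X : ℝ) with hn
  have hn0 : 0 ≤ n := Nat.cast_nonneg _
  set P : ℝ := (1 + (k + 2) * (α / m)) ^ T with hP
  have hP0 : 0 ≤ P := by rw [hP]; positivity
  have hB0 : 0 ≤ B := hP0.trans hBT
  have t1 : Real.exp (-(α * T)) * n ≤ γ / 4 * n := mul_le_mul_of_nonneg_right heT hn0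
  have t2 : P * Err S w univ 1 ≤ γ / 4 * n := by
    calc P * Err S w univ 1 ≤ P * (κ * n) := mul_le_mul_of_nonneg_left hErr hP0
      _ ≤ B * (κ * n) := mul_le_mul_of_nonneg_right hBT (by positivity)
      _ = (B * κ) * n := by ring
      _ ≤ γ / 4 * n := mul_le_mul_of_nonneg_right hBκ hn0
  have t3 : T * (k * (α / m) ^ 2 + P * (6 * k ^ 2 * √κ)) * n ≤ γ / 2 * n := by
    refine mul_le_mul_of_nonneg_right (le_trans ?_ hfin) hn0
    refine mul_le_mul_of_nonneg_left ?_ (Nat.cast_nonneg _)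
    have := mul_le_mul_of_nonneg_right hBT (by positivity : (0 : ℝ) ≤ 6 * k ^ 2 * √κ)
    linarith
  linarith

theorem nibble (k : ℕ) (hk : 2 ≤ k) {γ : ℝ} (hγ : 0 < γ) :
    ∃ κ : ℝ, 0 < κ ∧ ∀ (X ι : Type) [Fintype X] [Fintype ι] (S : ι → Finset X) (w : ι → ℝ),
      (∀ i, (S i).card = k) → (∀ i, 0 ≤ w i) →
      (∀ x, 1 - κ ≤ ∑ i ∈ univ.filter (fun i => x ∈ S i), w i) →
      (∀ x, ∑ i ∈ univ.filter (fun i => x ∈ S i), w i ≤ 1) →
      (∀ x y, x ≠ y → ∑ i ∈ univ.filter (fun i => x ∈ S i ∧ y ∈ S i), w i ≤ κ) →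
      ∃ M : Finset ι, (∀ i ∈ M, ∀ j ∈ M, i ≠ j → Disjoint (S i) (S j)) ∧
        (1 - γ) * Fintype.card X ≤ k * M.card := by
  obtain ⟨κ, hκ, H⟩ := nibble_le k hk (lt_min hγ one_pos) (min_le_right γ 1)
  refine ⟨κ, hκ, ?_⟩
  intro X ι _ _ S w h1 h2 h3 h4 h5
  obtain ⟨M, hM, hc⟩ := H X ι S w h1 h2 h3 h4 h5
  refine ⟨M, hM, le_trans ?_ hc⟩
  refine mul_le_mul_of_nonneg_right ?_ (Nat.cast_nonneg _)
  linarith [min_le_left γ 1]

end Pool.NSH
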