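import Pool.Agent.NSH.Samp
import Pool.Agent.NSH.Nibble

/-!
MODULE Approx (difficulty 3).  Almost all edges can be covered by edge-disjoint triangles.

RECIPE: `nibble` with `k = 3` and `γ` gives `κ`; `samp` with `η = κ` gives `C`; `n₀` with `C / n₀ ≤ κ`.
`X = {e : Sym2 V // e ∈ G.edgeSet}` (or the pairs in `G.edgeFinset`), `ι = {T : Finset V // G.IsNClique 3 T}`,
`S T = ` the three edges of `T` (`univ.filter fun e : X => e.1 ∈ T.1.sym2` or: both ends in `T`), `w T = w T.1`.
The sum over the `T` containing the edge `s(a,b)` is `cv w a b` (only 3-cliques have `w ≠ 0`), so it is in `[1 - κ, 1]`.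
Two different edges are together in at most one triangle (their union determines it), of weight `≤ C / n ≤ κ`.
`P = M.image Subtype.val`: a packing (disjoint edge sets).  The number of uncovered edges is `|X| - 3 |M| ≤ γ |X| ≤ γ n ^ 2 / 2`,
and `∑ a, |nb (unc G P) univ a| = 2 * (number of uncovered edges)` (or count ordered pairs).
-/

open Finset
open scoped Classical

namespace Pool.NSH

variable {V : Type} [Fintype V]

/-- the edges -/
abbrev approxX (G : SimpleGraph V) : Type := {e : Sym2 V // e ∈ G.edgeSet}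

/-- the triangles -/
abbrev approxI (G : SimpleGraph V) : Type := {T : Finset V // G.IsNClique 3 T}

/-- the edges of a triangle -/
noncomputable def approxS (G : SimpleGraph V) (T : approxI G) : Finset (approxX G) :=
  univ.filter fun e => ∀ a ∈ e.1, a ∈ T.1

lemma approx_mem (G : SimpleGraph V) (T : approxI G) (a b : V) (h : s(a, b) ∈ G.edgeSet) :
    (⟨s(a, b), h⟩ : approxX G) ∈ approxS G T ↔ a ∈ T.1 ∧ b ∈ T.1 := by
  unfold approxS
  rw [Finset.mem_filter]
  constructor
  · rintro ⟨_, h1⟩
    exact ⟨h1 a (Sym2.mem_mk_left a b), h1 b (Sym2.mem_mk_right a b)⟩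
  · rintro ⟨h1, h2⟩
    refine ⟨Finset.mem_univ _, fun c hc => ?_⟩
    rcases Sym2.mem_iff.1 hc with rfl | rfl
    · exact h1
    · exact h2

lemma approx_card (G : SimpleGraph V) (T : approxI G) : (approxS G T).card = 3 := by
  obtain ⟨T, hT⟩ := T
  obtain ⟨a, b, c, hab, hac, hbc, rfl⟩ := SimpleGraph.is3Clique_iff.1 hT
  have hab' := hab.ne
  have hac' := hac.ne
  have hbc' := hbc.ne
  have h1 : approxS G ⟨{a, b, c}, hT⟩
      = {⟨s(a, b), hab⟩, ⟨s(a, c), hac⟩, ⟨s(b, c), hbc⟩} := by
    ext e
    obtain ⟨e, he⟩ := e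
    induction e using Sym2.ind with
    | _ x y =>
      rw [approx_mem]
      have hxy : x ≠ y := SimpleGraph.Adj.ne (G := G) he
      simp only [Finset.mem_insert, Finset.mem_singleton, Subtype.mk.injEq, Sym2.eq_iff]
      constructor
      · rintro ⟨h2, h3⟩
        rcases h2 with rfl | rfl | rfl <;> rcases h3 with rfl | rfl | rfl <;> simp_all
      · rintro ((⟨rfl, rfl⟩ | ⟨rfl, rfl⟩) | (⟨rfl, rfl⟩ | ⟨rfl, rfl⟩) | ⟨rfl, rfl⟩ | ⟨rfl, rfl⟩) <;>
          simp
  rw [h1, Finset.card_insert_of_notMem, Finset.card_pair]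
  · intro h2
    rw [Subtype.mk.injEq, Sym2.eq_iff] at h2
    rcases h2 with h2 | h2
    · exact hab' h2.1
    · exact hac' h2.1
  · rw [Finset.mem_insert, Finset.mem_singleton, Subtype.mk.injEq, Subtype.mk.injEq, Sym2.eq_iff,
      Sym2.eq_iff]
    rintro ((h2 | h2) | h2 | h2)
    · exact hbc' h2.2
    · exact hab' h2.2.symm
    · exact hab' h2.1
    · exact hac' h2.1

lemma approx_sum (G : SimpleGraph V) (w : Finset V → ℝ) (hw : ∀ T, w T ≠ 0 → G.IsNClique 3 T)
    (a b : V) (h : s(a, b) ∈ G.edgeSet)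
    {inst : DecidablePred fun i : approxI G => (⟨s(a, b), h⟩ : approxX G) ∈ approxS G i} :
    ∑ i ∈ univ.filter (fun i : approxI G => (⟨s(a, b), h⟩ : approxX G) ∈ approxS G i), w i.1
      = cv w a b := by
  unfold cv
  have h1 : ∑ i ∈ univ.filter (fun i : approxI G => (⟨s(a, b), h⟩ : approxX G) ∈ approxS G i),
      w i.1 = ∑ i : approxI G, if a ∈ i.1 ∧ b ∈ i.1 then w i.1 else 0 := by
    rw [Finset.sum_filter]
    apply Finset.sum_congr rfl
    intro i _
    by_cases h2 : a ∈ i.1 ∧ b ∈ i.1
    · rw [if_pos h2, if_pos ((approx_mem G i a b h).2 h2)]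
    · rw [if_neg h2, if_neg (fun h3 => h2 ((approx_mem G i a b h).1 h3))]
  rw [h1]
  have h2 : ∑ T ∈ univ.filter (fun T : Finset V => G.IsNClique 3 T),
      (if a ∈ T ∧ b ∈ T then w T else 0) = ∑ i : approxI G, if a ∈ i.1 ∧ b ∈ i.1 then w i.1 else 0 :=
    Finset.sum_subtype (univ.filter fun T : Finset V => G.IsNClique 3 T)
      (p := fun T => G.IsNClique 3 T) (by simp)
      (fun T => if a ∈ T ∧ b ∈ T then w T else 0)
  rw [← h2, Finset.sum_filter, Finset.sum_filter]
  apply Finset.sum_congr rfl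
  intro T _
  by_cases h3 : G.IsNClique 3 T
  · rw [if_pos h3]
  · rw [if_neg h3]
    have h4 : w T = 0 := by
      by_contra h5
      exact h3 (hw T h5)
    rw [h4]
    simp

lemma approx_three {T : Finset V} (hT : T.card = 3) {a b c : V} (hab : a ≠ b) (hac : a ≠ c)
    (hbc : b ≠ c) (ha : a ∈ T) (hb : b ∈ T) (hc : c ∈ T) : T = {a, b, c} := by
  symm
  apply Finset.eq_of_subset_of_card_le
  · intro x hx
    simp only [Finset.mem_insert, Finset.mem_singleton] at hx
    rcases hx with rfl | rfl | rfl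
    · exact ha
    · exact hb
    · exact hc
  · rw [hT, Finset.card_insert_of_notMem, Finset.card_pair hbc]
    simp [hab, hac]

lemma approx_cod (G : SimpleGraph V) (x y : approxX G) (hxy : x ≠ y) (i j : approxI G)
    (hix : x ∈ approxS G i) (hiy : y ∈ approxS G i) (hjx : x ∈ approxS G j)
    (hjy : y ∈ approxS G j) : i = j := by
  obtain ⟨x, hx⟩ := x
  obtain ⟨y, hy⟩ := y
  induction x using Sym2.ind with
  | _ a b =>
    induction y using Sym2.ind with
    | _ c d =>
      rw [approx_mem] at hix hiy hjx hjy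
      have hab : a ≠ b := SimpleGraph.Adj.ne (G := G) hx
      have hcd : c ≠ d := SimpleGraph.Adj.ne (G := G) hy
      apply Subtype.ext
      have hi3 := i.2.card_eq
      have hj3 := j.2.card_eq
      have hne : ¬ (s(a, b) = s(c, d)) := fun h => hxy (Subtype.ext h)
      by_cases hc : a ≠ c ∧ b ≠ c
      · rw [approx_three hi3 hab hc.1 hc.2 hix.1 hix.2 hiy.1,
          approx_three hj3 hab hc.1 hc.2 hjx.1 hjx.2 hjy.1]
      · by_cases hd : a ≠ d ∧ b ≠ d
        · rw [approx_three hi3 hab hd.1 hd.2 hix.1 hix.2 hiy.2,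
            approx_three hj3 hab hd.1 hd.2 hjx.1 hjx.2 hjy.2]
        · exfalso
          apply hne
          rw [Sym2.eq_iff]
          by_cases h1 : a = c
          · left
            refine ⟨h1, ?_⟩
            by_contra h2
            exact hd ⟨fun h3 => hcd (h1.symm.trans h3), h2⟩
          · right
            have h2 : b = c := by
              by_contra h3
              exact hc ⟨h1, h3⟩
            refine ⟨?_, h2⟩
            by_contra h3
            exact hd ⟨h3, fun h4 => hcd (h2.symm.trans h4)⟩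

lemma approx_codsum (G : SimpleGraph V) (w : Finset V → ℝ) {κ : ℝ} (hκ : 0 ≤ κ)
    (hw : ∀ T, w T ≤ κ) (x y : approxX G) (hxy : x ≠ y)
    {inst : DecidablePred fun i : approxI G => x ∈ approxS G i ∧ y ∈ approxS G i} :
    ∑ i ∈ univ.filter (fun i : approxI G => x ∈ approxS G i ∧ y ∈ approxS G i), w i.1 ≤ κ := by
  have h1 : (univ.filter fun i : approxI G => x ∈ approxS G i ∧ y ∈ approxS G i).card ≤ 1 := by
    rw [Finset.card_le_one]
    intro i hi j hj
    have hi' := (Finset.mem_filter.1 hi).2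
    have hj' := (Finset.mem_filter.1 hj).2
    exact approx_cod G x y hxy i j hi'.1 hi'.2 hj'.1 hj'.2
  calc ∑ i ∈ univ.filter (fun i : approxI G => x ∈ approxS G i ∧ y ∈ approxS G i), w i.1
      ≤ ∑ _i ∈ univ.filter (fun i : approxI G => x ∈ approxS G i ∧ y ∈ approxS G i), κ :=
        Finset.sum_le_sum fun i _ => hw i.1
    _ = (univ.filter fun i : approxI G => x ∈ approxS G i ∧ y ∈ approxS G i).card * κ := by
        rw [Finset.sum_const, nsmul_eq_mul]
    _ ≤ 1 * κ := by
        apply mul_le_mul_of_nonneg_right _ hκ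
        exact_mod_cast h1
    _ = κ := one_mul κ

lemma approx_unc (G : SimpleGraph V) (M : Finset (approxI G))
    (hM : ∀ i ∈ M, ∀ j ∈ M, i ≠ j → Disjoint (approxS G i) (approxS G j)) :
    ∑ v, ((nb (unc G (M.image Subtype.val)) univ v).card : ℝ)
      = 2 * ((Fintype.card (approxX G) : ℝ) - 3 * M.card) := by
  set H := unc G (M.image Subtype.val) with hH
  have h1 : ∑ v, (nb H univ v).card = 2 * H.edgeFinset.card := by
    rw [← SimpleGraph.sum_degrees_eq_twice_card_edges]
    apply Finset.sum_congr rfl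
    intro v _
    rw [← SimpleGraph.card_neighborFinset_eq_degree]
    congr 1
    ext u
    unfold nb
    simp
  have h2 : (univ \ M.biUnion (approxS G)).image Subtype.val = H.edgeFinset := by
    ext e
    induction e using Sym2.ind with
    | _ a b =>
      rw [SimpleGraph.mem_edgeFinset, SimpleGraph.mem_edgeSet, Finset.mem_image]
      constructor
      · rintro ⟨⟨e, he⟩, h3, h4⟩
        simp only at h4
        subst h4
        refine ⟨he, fun T hT h5 => ?_⟩
        obtain ⟨i, hi, rfl⟩ := Finset.mem_image.1 hT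
        rw [Finset.mem_sdiff] at h3
        exact h3.2 (Finset.mem_biUnion.2 ⟨i, hi, (approx_mem G i a b he).2 h5⟩)
      · rintro ⟨h3, h4⟩
        refine ⟨⟨s(a, b), h3⟩, ?_, rfl⟩
        rw [Finset.mem_sdiff]
        refine ⟨Finset.mem_univ _, fun h5 => ?_⟩
        obtain ⟨i, hi, h6⟩ := Finset.mem_biUnion.1 h5
        exact h4 i.1 (Finset.mem_image_of_mem _ hi) ((approx_mem G i a b h3).1 h6)
  have h3 : (M.biUnion (approxS G)).card = 3 * M.card := by
    rw [Finset.card_biUnion hM, Finset.sum_congr rfl fun i _ => approx_card G i, Finset.sum_const,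
      smul_eq_mul, mul_comm]
  have h4 : H.edgeFinset.card + 3 * M.card = Fintype.card (approxX G) := by
    rw [← h2, Finset.card_image_of_injective _ Subtype.val_injective, ← h3,
      Finset.card_sdiff_add_card_eq_card (Finset.subset_univ _), Finset.card_univ]
  have h5 : (∑ v, ((nb H univ v).card : ℝ)) = 2 * (H.edgeFinset.card : ℝ) := by
    exact_mod_cast h1
  have h6 : (H.edgeFinset.card : ℝ) + 3 * M.card = Fintype.card (approxX G) := by
    exact_mod_cast h4
  rw [h5, ← h6]
  ring

lemma approx_cardX (G : SimpleGraph V) :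
    2 * (Fintype.card (approxX G) : ℝ) ≤ (Fintype.card V : ℝ) ^ 2 := by
  have h1 : Fintype.card (approxX G) = G.edgeFinset.card := by
    rw [← Finset.card_univ, ← Finset.card_image_of_injective _ Subtype.val_injective]
    congr 1
    ext e
    simp
  have h2 := G.card_edgeFinset_le_card_choose_two
  rw [← h1, Nat.choose_two_right] at h2
  have h3 : 2 * Fintype.card (approxX G) ≤ Fintype.card V * (Fintype.card V - 1) := by
    have := Nat.div_mul_le_self (Fintype.card V * (Fintype.card V - 1)) 2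
    omega
  have h4 : 2 * Fintype.card (approxX G) ≤ Fintype.card V ^ 2 := by
    rw [sq]
    exact h3.trans (Nat.mul_le_mul_left _ (Nat.sub_le _ _))
  exact_mod_cast h4

theorem approx {ε γ : ℝ} (hε : 0 < ε) (hγ : 0 < γ) :
    ∃ n₀ : ℕ, ∀ (V : Type) [Fintype V] (G : SimpleGraph V), n₀ ≤ Fintype.card V →
      (∀ v, (3 / 4 + ε) * Fintype.card V ≤ ((nb G univ v).card : ℝ)) →
      ∃ P : Finset (Finset V), IsPacking G P ∧
        ∑ v, ((nb (unc G P) univ v).card : ℝ) ≤ γ * (Fintype.card V : ℝ) ^ 2 := by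
  obtain ⟨κ, hκ, hnib⟩ := nibble 3 (by norm_num) hγ
  obtain ⟨C, hC, hsamp⟩ := samp hε hκ
  refine ⟨⌈C / κ⌉₊ + 1, fun V _ G hn hdeg => ?_⟩
  obtain ⟨w, hw0, hwC, hwc, hwcv⟩ := hsamp V G hdeg
  have hn1 : (0 : ℝ) < Fintype.card V := by
    have : 0 < Fintype.card V := by omega
    exact_mod_cast this
  have hCn : C / Fintype.card V ≤ κ := by
    rw [div_le_iff₀ hn1]
    have h1 : C / κ ≤ Fintype.card V := by
      refine (Nat.le_ceil _).trans ?_
      have : ⌈C / κ⌉₊ ≤ Fintype.card V := by omega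
      exact_mod_cast this
    rw [div_le_iff₀ hκ] at h1
    linarith
  obtain ⟨M, hM1, hM2⟩ := hnib (approxX G) (approxI G) (approxS G) (fun i => w i.1)
    (approx_card G) (fun i => hw0 i.1)
    (by
      rintro ⟨x, hx⟩
      induction x using Sym2.ind with
      | _ a b =>
        exact (hwcv a b hx).1.trans_eq (approx_sum G w hwc a b hx).symm)
    (by
      rintro ⟨x, hx⟩
      induction x using Sym2.ind with
      | _ a b =>
        exact (approx_sum G w hwc a b hx).trans_le (hwcv a b hx).2)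
    (fun x y hxy => approx_codsum G w hκ.le (fun T => (hwC T).trans hCn) x y hxy)
  refine ⟨M.image Subtype.val, ⟨?_, ?_⟩, ?_⟩
  · intro T hT
    obtain ⟨i, _, rfl⟩ := Finset.mem_image.1 hT
    exact i.2
  · intro T hT T' hT' a b hab ha hb ha' hb'
    obtain ⟨i, hi, rfl⟩ := Finset.mem_image.1 hT
    obtain ⟨j, hj, rfl⟩ := Finset.mem_image.1 hT'
    by_contra hne
    have hij : i ≠ j := fun h => hne (by rw [h])
    have hadj : G.Adj a b := i.2.1 ha hb hab
    exact Finset.disjoint_left.1 (hM1 i hi j hj hij) ((approx_mem G i a b hadj).2 ⟨ha, hb⟩)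
      ((approx_mem G j a b hadj).2 ⟨ha', hb'⟩)
  · rw [approx_unc G M hM1]
    have h1 := approx_cardX G
    have h2 : (1 - γ) * (Fintype.card (approxX G) : ℝ) ≤ 3 * M.card := by
      exact_mod_cast hM2
    have h3 := mul_le_mul_of_nonneg_left h1 hγ.le
    linarith

end Pool.NSH
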