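import Pool.Agent.NSH.RedB

/-!
MODULE RedPar (difficulty 2).  Degrees modulo 2 and number of edges modulo 3.

RECIPE: `H = unc G P`.  The neighbours of `v` in `G` are the neighbours in `H` and, disjointly, the two other vertices of each
`T ∈ P` with `v ∈ T` (different `T` give disjoint pairs): `deg_G v = deg_H v + 2 * #{T ∈ P : v ∈ T}`.
Ordered pairs: `ec G = ec H + 6 * #P` (each `T` has `6` ordered pairs, `Finset.offDiag` of a 3-set; different `T` give disjoint
sets), and `ec` is even, so `3 ∣ ec G ↔ 3 ∣ ec H`.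
-/

open Finset
open scoped Classical

namespace Pool.NSH

variable {V : Type*} [Fintype V] {G H : SimpleGraph V}

theorem Red.even (h : Red G H) (v : V) :
    Even (nb G univ v).card ↔ Even (nb H univ v).card := by
  obtain ⟨P, hP, rfl⟩ := h
  have h1 : nb G univ v = nb (unc G P) univ v ∪
      (P.filter fun T => v ∈ T).biUnion fun T => T.erase v := by
    ext b
    simp only [nb, mem_filter, mem_univ, true_and, mem_union, mem_biUnion, mem_erase, redB_unc_adj]
    constructor
    · intro h2
      by_cases h3 : ∃ T ∈ P, v ∈ T ∧ b ∈ T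
      · obtain ⟨T, hT, hv, hb⟩ := h3
        exact Or.inr ⟨T, ⟨hT, hv⟩, h2.ne', hb⟩
      · push Not at h3
        exact Or.inl ⟨h2, fun T hT h4 => h3 T hT h4.1 h4.2⟩
    · rintro (⟨h2, -⟩ | ⟨T, ⟨hT, hv⟩, hne, hb⟩)
      · exact h2
      · exact redB_adj hP hT hv hb (Ne.symm hne)
  have h2 : Disjoint (nb (unc G P) univ v)
      ((P.filter fun T => v ∈ T).biUnion fun T => T.erase v) := by
    rw [disjoint_left]
    intro b hb hb'
    simp only [nb, mem_filter, mem_univ, true_and, redB_unc_adj] at hb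
    simp only [mem_biUnion, mem_filter, mem_erase] at hb'
    obtain ⟨T, ⟨hT, hv⟩, -, hb'⟩ := hb'
    exact hb.2 T hT ⟨hv, hb'⟩
  have h3 : ((P.filter fun T => v ∈ T).biUnion fun T => T.erase v).card =
      2 * (P.filter fun T => v ∈ T).card := by
    rw [card_biUnion]
    · have h4 : ∀ T ∈ P.filter (fun T => v ∈ T), (T.erase v).card = 2 := by
        intro T hT
        rw [mem_filter] at hT
        rw [card_erase_of_mem hT.2, (hP.clique T hT.1).card_eq]
      rw [sum_congr rfl h4, sum_const, smul_eq_mul, mul_comm]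
    · intro T hT T' hT' hne
      rw [Function.onFun, disjoint_left]
      intro b hb hb'
      rw [mem_erase] at hb hb'
      rw [mem_coe, mem_filter] at hT hT'
      exact hne (hP.disj T hT.1 T' hT'.1 v b (Ne.symm hb.1) hT.2 hb.2 hT'.2 hb'.2)
  rw [h1, card_union_of_disjoint h2, h3, Nat.even_add]
  have h4 : Even (2 * (P.filter fun T => v ∈ T).card) := even_two_mul _
  tauto

theorem Red.dvd (h : Red G H) : 3 ∣ ec G ↔ 3 ∣ ec H := by
  obtain ⟨P, hP, rfl⟩ := h
  have h1 : (univ.filter fun p : V × V => G.Adj p.1 p.2) =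
      (univ.filter fun p : V × V => (unc G P).Adj p.1 p.2) ∪ P.biUnion fun T => T.offDiag := by
    ext ⟨a, b⟩
    simp only [mem_filter, mem_univ, true_and, mem_union, mem_biUnion, mem_offDiag, redB_unc_adj]
    constructor
    · intro h2
      by_cases h3 : ∃ T ∈ P, a ∈ T ∧ b ∈ T
      · obtain ⟨T, hT, ha, hb⟩ := h3
        exact Or.inr ⟨T, hT, ha, hb, h2.ne⟩
      · push Not at h3
        exact Or.inl ⟨h2, fun T hT h4 => h3 T hT h4.1 h4.2⟩
    · rintro (⟨h2, -⟩ | ⟨T, hT, ha, hb, hne⟩)
      · exact h2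
      · exact redB_adj hP hT ha hb hne
  have h2 : Disjoint (univ.filter fun p : V × V => (unc G P).Adj p.1 p.2)
      (P.biUnion fun T => T.offDiag) := by
    rw [disjoint_left]
    rintro ⟨a, b⟩ hb hb'
    simp only [mem_filter, mem_univ, true_and, redB_unc_adj] at hb
    simp only [mem_biUnion, mem_offDiag] at hb'
    obtain ⟨T, hT, ha, hb', -⟩ := hb'
    exact hb.2 T hT ⟨ha, hb'⟩
  have h3 : (P.biUnion fun T => T.offDiag).card = 6 * P.card := by
    rw [card_biUnion]
    · have h4 : ∀ T ∈ P, (T.offDiag).card = 6 := by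
        intro T hT
        rw [offDiag_card, (hP.clique T hT).card_eq]
      rw [sum_congr rfl h4, sum_const, smul_eq_mul, mul_comm]
    · intro T hT T' hT' hne
      rw [Function.onFun, disjoint_left]
      rintro ⟨a, b⟩ hb hb'
      rw [mem_offDiag] at hb hb'
      exact hne (hP.disj T hT T' hT' a b hb.2.2 hb.1 hb.2.1 hb'.1 hb'.2.1)
  unfold ec
  rw [h1, card_union_of_disjoint h2, h3]
  omega

end Pool.NSH
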