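import Pool.Agent.NSH.Emb
import Pool.Agent.NSH.TriFam
import Pool.Agent.NSH.RedPar

/-!
MODULE Bow (difficulty 3).  Making the graph connected by adding triangles.

RECIPE: `emb` with `R = V`, `ρ = id`, `N = {z // z ∈ Z ∧ z ≠ z0} × Fin 3`: for each `z` new vertices `t = (z,0)`, `s = (z,1)`, `s' = (z,2)`;
`t ~ z, z0`; `s ~ z, t`; `s' ~ z0, t` (rank `0` for `t`, `1` for `s, s'`).  `W` = union of the triangles `{z, t, s}`, `{z0, t, s'}`
(`triFam` with index `{z // ..} × Bool`; they are edge-disjoint: every pair contains a new vertex; a pair in two triangles: `t`, `s` determine `z`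
and the pair determines which one).  `HasDec W`.  `L` and `W` are disjoint (`L` has no new vertex: `On L Z`, `Z ⊆ Fb`), so `Red (L ⊔ W) L`
(`Red.of_sdiff`), which gives the parity and the divisibility (`Red.even`, `Red.dvd`).  Connected: every `z ∈ Z` is joined to `z0` by `z, t, z0`; every vertex with an edge
is in `Z` or new, and new vertices are adjacent to `z` or `z0` or `t`.  Since `2 ≤ Z.card`, there is a `z ≠ z0` and so an edge.
-/

open Finset
open scoped Classical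

namespace Pool.NSH

theorem bow_ed {V I : Type*} (a b : I → V) (x y : V) : (ed a b).Adj x y ↔
    x ≠ y ∧ ((∃ i, x = a i ∧ y = b i) ∨ (∃ i, y = a i ∧ x = b i)) := by
  unfold ed
  rw [SimpleGraph.fromRel_adj]

theorem bow_tri {V I : Type*} (a b c : I → V) (x y : V)
    (h : (ed a b ⊔ ed b c ⊔ ed a c).Adj x y) :
    ∃ i, x ≠ y ∧ (x = a i ∨ x = b i ∨ x = c i) ∧ (y = a i ∨ y = b i ∨ y = c i) := by
  rcases h with (h | h) | h
  · obtain ⟨h1, ⟨i, h2, h3⟩ | ⟨i, h2, h3⟩⟩ := (bow_ed _ _ _ _).1 h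
    · exact ⟨i, h1, Or.inl h2, Or.inr (Or.inl h3)⟩
    · exact ⟨i, h1, Or.inr (Or.inl h3), Or.inl h2⟩
  · obtain ⟨h1, ⟨i, h2, h3⟩ | ⟨i, h2, h3⟩⟩ := (bow_ed _ _ _ _).1 h
    · exact ⟨i, h1, Or.inr (Or.inl h2), Or.inr (Or.inr h3)⟩
    · exact ⟨i, h1, Or.inr (Or.inr h3), Or.inr (Or.inl h2)⟩
  · obtain ⟨h1, ⟨i, h2, h3⟩ | ⟨i, h2, h3⟩⟩ := (bow_ed _ _ _ _).1 h
    · exact ⟨i, h1, Or.inl h2, Or.inr (Or.inr h3)⟩
    · exact ⟨i, h1, Or.inr (Or.inr h3), Or.inl h2⟩

theorem bow_ab {V I : Type*} (a b c : I → V) (i : I) (h : a i ≠ b i) :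
    (ed a b ⊔ ed b c ⊔ ed a c).Adj (a i) (b i) :=
  Or.inl (Or.inl ((bow_ed _ _ _ _).2 ⟨h, Or.inl ⟨i, rfl, rfl⟩⟩))

theorem bow_bc {V I : Type*} (a b c : I → V) (i : I) (h : b i ≠ c i) :
    (ed a b ⊔ ed b c ⊔ ed a c).Adj (b i) (c i) :=
  Or.inl (Or.inr ((bow_ed _ _ _ _).2 ⟨h, Or.inl ⟨i, rfl, rfl⟩⟩))

theorem bow_ec {V I : Type*} [Fintype V] [Fintype I] (Z : Finset V) (L : SimpleGraph V)
    (hLZ : On L Z) (a b c : I → V) :
    ec (L ⊔ (ed a b ⊔ ed b c ⊔ ed a c)) ≤ Z.card ^ 2 + 6 * Fintype.card I := by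
  obtain ⟨K, hK⟩ : ∃ K, K = L ⊔ (ed a b ⊔ ed b c ⊔ ed a c) := ⟨_, rfl⟩
  rw [← hK]
  have hsub : (univ.filter fun p : V × V => K.Adj p.1 p.2) ⊆
      (Z ×ˢ Z) ∪ (univ : Finset I).biUnion (fun i => ({a i, b i, c i} : Finset V).offDiag) := by
    rintro ⟨x, y⟩ hp
    have hp' := (mem_filter.1 hp).2
    rw [hK] at hp'
    rcases hp' with h | h
    · exact mem_union_left _ (mem_product.2 (hLZ x y h))
    · obtain ⟨i, h1, h2, h3⟩ := bow_tri a b c x y h
      refine mem_union_right _ (mem_biUnion.2 ⟨i, mem_univ _, ?_⟩)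
      rw [mem_offDiag]
      refine ⟨?_, ?_, h1⟩
      · simpa using h2
      · simpa using h3
  have h6 : ∀ i ∈ (univ : Finset I), (({a i, b i, c i} : Finset V).offDiag).card ≤ 6 := by
    intro i _
    rw [offDiag_card]
    have h3 : ({a i, b i, c i} : Finset V).card ≤ 3 := card_le_three
    set k := ({a i, b i, c i} : Finset V).card
    interval_cases k <;> simp
  have h7 := (card_biUnion_le (s := (univ : Finset I))
    (t := fun i => ({a i, b i, c i} : Finset V).offDiag)).trans (sum_le_sum h6)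
  rw [sum_const, card_univ, smul_eq_mul] at h7
  unfold ec
  refine (card_le_card hsub).trans ((card_union_le _ _).trans ?_)
  rw [card_product]
  have h9 : Z.card * Z.card = Z.card ^ 2 := by ring
  omega

/-- back neighbours of the new vertices -/
noncomputable def bowBack {V : Type*} (Z : Finset V) (z0 : V) (i : {z // z ∈ Z ∧ z ≠ z0} × Fin 3) :
    Finset (V ⊕ ({z // z ∈ Z ∧ z ≠ z0} × Fin 3)) :=
  if i.2 = 0 then {Sum.inl i.1.1, Sum.inl z0}
  else if i.2 = 1 then {Sum.inl i.1.1, Sum.inr (i.1, 0)}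
  else {Sum.inl z0, Sum.inr (i.1, 0)}

theorem bow_aux {V : Type*} [Fintype V] (G : SimpleGraph V) (Z Fb : Finset V) (hZ : Z ⊆ Fb)
    (hZ2 : 2 ≤ Z.card) (z0 : V) (hz0 : z0 ∈ Z) (L : SimpleGraph V) (hLZ : On L Z)
    (hev : ∀ v, Even (nb L univ v).card) (h3 : 3 ∣ ec L)
    {I : Type*} [Fintype I] (zz : I → V) (hzZ : ∀ i, zz i ∈ Z) (hzz0 : ∀ i, zz i ≠ z0)
    (hcov : ∀ z ∈ Z, z ≠ z0 → ∃ i, zz i = z) (hIcard : Fintype.card I ≤ Z.card)
    (φ : I × Fin 3 → V) (hφ : Function.Injective φ) (hφF : ∀ i, φ i ∉ Fb)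
    (a1 : ∀ z : I, G.Adj (zz z) (φ (z, 0)))
    (a2 : ∀ z : I, G.Adj z0 (φ (z, 0)))
    (a3 : ∀ z : I, G.Adj (zz z) (φ (z, 1)))
    (a4 : ∀ z : I, G.Adj (φ (z, 0)) (φ (z, 1)))
    (a5 : ∀ z : I, G.Adj z0 (φ (z, 2)))
    (a6 : ∀ z : I, G.Adj (φ (z, 0)) (φ (z, 2))) :
    ∃ (W : SimpleGraph V) (Nw : Finset V), W ≤ G ∧ Nw.card ≤ 3 * Z.card ∧ Disjoint Nw Fb ∧
      (∀ x y, W.Adj x y → (x ∈ Nw ∨ y ∈ Nw) ∧ (x ∈ Nw ∨ x ∈ Z) ∧ (y ∈ Nw ∨ y ∈ Z)) ∧
      HasDec W ∧ (∀ v, Even (nb (L ⊔ W) univ v).card) ∧ 3 ∣ ec (L ⊔ W) ∧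
      ec (L ⊔ W) ≤ Z.card ^ 2 + 12 * Z.card ∧
      (∀ x y, (L ⊔ W).Adj x y → (L ⊔ W).Reachable z0 x) ∧ ∃ x y, (L ⊔ W).Adj x y := by
  obtain ⟨a, ha⟩ : ∃ a : I × Bool → V, ∀ i, a i = if i.2 then zz i.1 else z0 := ⟨_, fun _ => rfl⟩
  obtain ⟨b, hb⟩ : ∃ b : I × Bool → V, ∀ i, b i = φ (i.1, 0) := ⟨_, fun _ => rfl⟩
  obtain ⟨c, hc⟩ : ∃ c : I × Bool → V, ∀ i, c i = φ (i.1, if i.2 then 1 else 2) :=
    ⟨_, fun _ => rfl⟩
  have haZ : ∀ i, a i ∈ Z := by
    rintro ⟨z, β⟩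
    rw [ha]
    cases β
    · simpa using hz0
    · simpa using hzZ z
  have gab : ∀ i, G.Adj (a i) (b i) := by
    rintro ⟨z, β⟩
    rw [ha, hb]
    cases β
    · simpa using a2 z
    · simpa using a1 z
  have gbc : ∀ i, G.Adj (b i) (c i) := by
    rintro ⟨z, β⟩
    rw [hb, hc]
    cases β
    · simpa using a6 z
    · simpa using a4 z
  have gac : ∀ i, G.Adj (a i) (c i) := by
    rintro ⟨z, β⟩
    rw [ha, hc]
    cases β
    · simpa using a5 z
    · simpa using a3 z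
  have hbF : ∀ i, b i ∉ Fb := fun i => by rw [hb]; exact hφF _
  have hcF : ∀ i, c i ∉ Fb := fun i => by rw [hc]; exact hφF _
  have haF : ∀ i, a i ∈ Fb := fun i => hZ (haZ i)
  have hbc : ∀ i j, b i ≠ c j := by
    rintro ⟨z, β⟩ ⟨z', β'⟩ h
    rw [hb, hc] at h
    have h1 := (Prod.ext_iff.1 (hφ h)).2
    cases β' <;> simp at h1
  have hbb : ∀ i j, b i = b j → i.1 = j.1 := by
    intro i j h
    rw [hb, hb] at h
    exact (Prod.ext_iff.1 (hφ h)).1
  have hcc : ∀ i j, c i = c j → i = j := by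
    rintro ⟨z, β⟩ ⟨z', β'⟩ h
    rw [hc, hc] at h
    obtain ⟨h1, h2⟩ := Prod.ext_iff.1 (hφ h)
    simp only at h1 h2
    subst h1
    cases β <;> cases β' <;> simp at h2 ⊢
  have haa : ∀ i j, i.1 = j.1 → a i = a j → i = j := by
    rintro ⟨z, β⟩ ⟨z', β'⟩ h1 h2
    simp only at h1
    subst h1
    rw [ha, ha] at h2
    cases β <;> cases β' <;> simp at h2 ⊢
    · exact hzz0 z h2.symm
    · exact hzz0 z h2
  -- no two triangles share a pair
  have hkey : ∀ i j, i ≠ j → ∀ x y, x ≠ y → (x = b i ∨ x = c i) → (y = a i ∨ y = b i ∨ y = c i) →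
      (x = a j ∨ x = b j ∨ x = c j) → (y = a j ∨ y = b j ∨ y = c j) → False := by
    intro i j hij x y hxy hx hy hx' hy'
    have hxF : x ∉ Fb := by
      rcases hx with h | h
      · rw [h]; exact hbF i
      · rw [h]; exact hcF i
    have hx'' : x = b j ∨ x = c j := by
      rcases hx' with h | h
      · exact absurd (h ▸ haF j) hxF
      · exact h
    rcases hx with hx | hx
    · rcases hx'' with h | h
      · have h1 : i.1 = j.1 := hbb i j (hx.symm.trans h)
        rcases hy with hy | hy | hy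
        · rcases hy' with h2 | h2 | h2
          · exact hij (haa i j h1 (hy.symm.trans h2))
          · exact hbF j (by rw [← h2, hy]; exact haF i)
          · exact hcF j (by rw [← h2, hy]; exact haF i)
        · exact hxy (hx.trans hy.symm)
        · rcases hy' with h2 | h2 | h2
          · exact hcF i (by rw [← hy, h2]; exact haF j)
          · exact hbc j i (h2.symm.trans hy)
          · exact hij (hcc i j (hy.symm.trans h2))
      · exact hbc i j (hx.symm.trans h)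
    · rcases hx'' with h | h
      · exact hbc j i (h.symm.trans hx)
      · exact hij (hcc i j (hx.symm.trans h))
  have hdist : ∀ i, a i ≠ b i ∧ b i ≠ c i ∧ a i ≠ c i := fun i =>
    ⟨(gab i).ne, (gbc i).ne, (gac i).ne⟩
  have hdec : HasDec (ed a b ⊔ ed b c ⊔ ed a c) := by
    apply triFam a b c hdist
    intro i j hij x y hxy hx hy hx' hy'
    simp only [mem_insert, mem_singleton] at hx hy hx' hy'
    rcases hx with h | h
    · rcases hy with h2 | h2
      · exact hxy (h.trans h2.symm)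
      · exact hkey i j hij y x hxy.symm h2 (Or.inl h) hy' hx'
    · exact hkey i j hij x y hxy h hy hx' hy'
  set W := ed a b ⊔ ed b c ⊔ ed a c with hW
  have hWG : W ≤ G := by
    intro x y h
    obtain ⟨i, h1, h2, h3⟩ := bow_tri a b c x y h
    rcases h2 with h2 | h2 | h2 <;> rcases h3 with h3 | h3 | h3 <;> rw [h2, h3] <;>
      rw [h2, h3] at h1
    · exact absurd rfl h1
    · exact gab i
    · exact gac i
    · exact (gab i).symm
    · exact absurd rfl h1
    · exact gbc i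
    · exact (gac i).symm
    · exact (gbc i).symm
    · exact absurd rfl h1
  have hNb : ∀ i, b i ∈ univ.image φ := fun i => by
    rw [hb]; exact mem_image_of_mem _ (mem_univ _)
  have hNc : ∀ i, c i ∈ univ.image φ := fun i => by
    rw [hc]; exact mem_image_of_mem _ (mem_univ _)
  have hWe : ∀ x y, W.Adj x y → (x ∈ univ.image φ ∨ y ∈ univ.image φ) ∧
      (x ∈ univ.image φ ∨ x ∈ Z) ∧ (y ∈ univ.image φ ∨ y ∈ Z) := by
    intro x y h
    obtain ⟨i, h1, h2, h3⟩ := bow_tri a b c x y h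
    have hall : ∀ w, (w = a i ∨ w = b i ∨ w = c i) → w ∈ univ.image φ ∨ w ∈ Z := by
      intro w hw
      rcases hw with hw | hw | hw
      · right; rw [hw]; exact haZ i
      · left; rw [hw]; exact hNb i
      · left; rw [hw]; exact hNc i
    refine ⟨?_, hall x h2, hall y h3⟩
    rcases h2 with h2 | h2 | h2
    · rcases h3 with h3 | h3 | h3
      · exact absurd (h2.trans h3.symm) h1
      · right; rw [h3]; exact hNb i
      · right; rw [h3]; exact hNc i
    · left; rw [h2]; exact hNb i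
    · left; rw [h2]; exact hNc i
  have hNF : Disjoint (univ.image φ) Fb := by
    rw [disjoint_left]
    intro x hx
    obtain ⟨i, _, rfl⟩ := mem_image.1 hx
    exact hφF i
  have hLW : Disjoint L W := by
    rw [SimpleGraph.disjoint_left]
    intro x y h1 h2
    obtain ⟨h4, h5⟩ := hLZ x y h1
    rcases (hWe x y h2).1 with h6 | h6
    · exact (disjoint_left.1 hNF h6) (hZ h4)
    · exact (disjoint_left.1 hNF h6) (hZ h5)
  have hred : Red (L ⊔ W) L := by
    apply Red.of_sdiff le_sup_left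
    rw [hLW.sup_sdiff_cancel_left]
    exact hdec
  obtain ⟨z1, hz1, hz10⟩ := exists_mem_ne (by omega : 1 < Z.card) z0
  have hz0b : ∀ z : I, (L ⊔ W).Adj z0 (φ (z, 0)) := by
    intro z
    have h1 : W.Adj (a (z, false)) (b (z, false)) := bow_ab a b c (z, false) (hdist _).1
    rw [ha, hb] at h1
    exact Or.inr h1
  have hzb : ∀ z : I, (L ⊔ W).Adj (zz z) (φ (z, 0)) := by
    intro z
    have h1 : W.Adj (a (z, true)) (b (z, true)) := bow_ab a b c (z, true) (hdist _).1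
    rw [ha, hb] at h1
    exact Or.inr h1
  have hreachZ : ∀ z ∈ Z, (L ⊔ W).Reachable z0 z := by
    intro z hz
    by_cases h : z = z0
    · rw [h]
    · obtain ⟨i, hi⟩ := hcov z hz h
      rw [← hi]
      exact (hz0b i).reachable.trans (hzb i).symm.reachable
  have hreachN : ∀ i, (L ⊔ W).Reachable z0 (b i) := by
    intro i
    rw [hb]
    exact (hz0b i.1).reachable
  have hreachC : ∀ i, (L ⊔ W).Reachable z0 (c i) := by
    intro i
    refine (hreachN i).trans ?_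
    have h1 : (L ⊔ W).Adj (b i) (c i) := Or.inr (bow_bc a b c i (hdist _).2.1)
    exact h1.reachable
  obtain ⟨i1, _⟩ := hcov z1 hz1 hz10
  refine ⟨W, univ.image φ, hWG, ?_, hNF, hWe, hdec, ?_, ?_, ?_, ?_, z0, φ (i1, 0), hz0b _⟩
  · refine card_image_le.trans ?_
    rw [card_univ, Fintype.card_prod, Fintype.card_fin]
    omega
  · intro v
    exact (Red.even hred v).2 (hev v)
  · exact (Red.dvd hred).2 h3
  · refine (bow_ec Z L hLZ a b c).trans ?_
    rw [Fintype.card_prod, Fintype.card_bool]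
    omega
  · intro x y h
    rcases h with h | h
    · exact hreachZ x (hLZ x y h).1
    · obtain ⟨i, h1, h2, h3⟩ := bow_tri a b c x y h
      rcases h2 with h2 | h2 | h2
      · rw [h2]; exact hreachZ _ (haZ i)
      · rw [h2]; exact hreachN i
      · rw [h2]; exact hreachC i

theorem bow {V : Type*} [Fintype V] (G : SimpleGraph V) (Z Fb : Finset V) (hZ : Z ⊆ Fb)
    (hZ2 : 2 ≤ Z.card) (z0 : V) (hz0 : z0 ∈ Z) (L : SimpleGraph V) (hL : L ≤ G) (hLZ : On L Z)
    (hev : ∀ v, Even (nb L univ v).card) (h3 : 3 ∣ ec L)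
    (hcn : ∀ S : Finset V, S.card ≤ 4 →
      Fb.card + 3 * Z.card < (univ.filter fun v => ∀ s ∈ S, G.Adj s v).card) :
    ∃ (W : SimpleGraph V) (Nw : Finset V), W ≤ G ∧ Nw.card ≤ 3 * Z.card ∧ Disjoint Nw Fb ∧
      (∀ x y, W.Adj x y → (x ∈ Nw ∨ y ∈ Nw) ∧ (x ∈ Nw ∨ x ∈ Z) ∧ (y ∈ Nw ∨ y ∈ Z)) ∧
      HasDec W ∧ (∀ v, Even (nb (L ⊔ W) univ v).card) ∧ 3 ∣ ec (L ⊔ W) ∧
      ec (L ⊔ W) ≤ Z.card ^ 2 + 12 * Z.card ∧
      (∀ x y, (L ⊔ W).Adj x y → (L ⊔ W).Reachable z0 x) ∧ ∃ x y, (L ⊔ W).Adj x y := by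
  have hIcard : Fintype.card {z // z ∈ Z ∧ z ≠ z0} ≤ Z.card := by
    rw [Fintype.card_subtype]
    apply card_le_card
    intro z hz
    exact (mem_filter.1 hz).2.1
  obtain ⟨φ, h1, h2, h4⟩ := emb (R := V) (N := {z // z ∈ Z ∧ z ≠ z0} × Fin 3) G Fb id
    (bowBack Z z0) (fun i => if i.2 = 0 then 0 else 1)
    (by
      intro i
      unfold bowBack
      split_ifs
      · exact card_le_two.trans (by norm_num)
      · exact card_le_two.trans (by norm_num)
      · exact card_le_two.trans (by norm_num))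
    (by
      intro i j hij
      unfold bowBack at hij
      by_cases hi : i.2 = 0
      · rw [if_pos hi] at hij
        simp at hij
      · rw [if_neg hi] at hij
        have hj : j = (i.1, 0) := by
          by_cases hi1 : i.2 = 1
          · rw [if_pos hi1] at hij
            simpa using hij
          · rw [if_neg hi1] at hij
            simpa using hij
        rw [hj, if_neg hi]
        simp)
    (by
      intro S hS
      have h5 := hcn S hS
      rw [Fintype.card_prod, Fintype.card_fin]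
      omega)
  have e1 : ∀ z : {z // z ∈ Z ∧ z ≠ z0}, G.Adj z.1 (φ (z, 0)) := by
    intro z
    have := h4 (z, 0) (Sum.inl z.1) (by simp [bowBack])
    simpa using this
  have e2 : ∀ z : {z // z ∈ Z ∧ z ≠ z0}, G.Adj z0 (φ (z, 0)) := by
    intro z
    have := h4 (z, 0) (Sum.inl z0) (by simp [bowBack])
    simpa using this
  have e3 : ∀ z : {z // z ∈ Z ∧ z ≠ z0}, G.Adj z.1 (φ (z, 1)) := by
    intro z
    have := h4 (z, 1) (Sum.inl z.1) (by simp [bowBack])
    simpa using this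
  have e4 : ∀ z : {z // z ∈ Z ∧ z ≠ z0}, G.Adj (φ (z, 0)) (φ (z, 1)) := by
    intro z
    have := h4 (z, 1) (Sum.inr (z, 0)) (by simp [bowBack])
    simpa using this
  have e5 : ∀ z : {z // z ∈ Z ∧ z ≠ z0}, G.Adj z0 (φ (z, 2)) := by
    intro z
    have := h4 (z, 2) (Sum.inl z0) (by simp [bowBack])
    simpa using this
  have e6 : ∀ z : {z // z ∈ Z ∧ z ≠ z0}, G.Adj (φ (z, 0)) (φ (z, 2)) := by
    intro z
    have := h4 (z, 2) (Sum.inr (z, 0)) (by simp [bowBack])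
    simpa using this
  exact bow_aux G Z Fb hZ hZ2 z0 hz0 L hLZ hev h3 (I := {z // z ∈ Z ∧ z ≠ z0}) (fun z => z.1)
    (fun z => z.2.1) (fun z => z.2.2) (fun z hz h => ⟨⟨z, hz, h⟩, rfl⟩) hIcard φ h1 h2 e1 e2 e3 e4 e5 e6


end Pool.NSH
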