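import Pool.Agent.NSH.FrB
import Pool.Agent.NSH.Apex

/-!
MODULE StB2 (difficulty 4).  Covering the `gd`-edges at the bad vertices.

RECIPE.  For each `i : Fin K` apply `apex` with `X = B`, `Q = (Vi i) \ B`, `F =` the graph of the edges of `G` with both ends in `Q`,
and `N b =` the set `nb gd Q b` if its cardinality is even, otherwise this set minus one vertex.
The final `P` is the union over `i` (`IsPacking.biUnion`).
-/

open Finset
open scoped Classical

namespace Pool.NSH

/-- every finite set has a subset of even size missing at most one element -/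
theorem stB2_even {V : Type*} (S : Finset V) :
    ∃ N : Finset V, N ⊆ S ∧ Even N.card ∧ (S \ N).card ≤ 1 ∧ S.card ≤ N.card + 1 := by
  rcases Nat.even_or_odd S.card with h | h
  · exact ⟨S, Finset.Subset.refl _, h, by simp, by omega⟩
  · have hne : S.Nonempty := by
      rw [Finset.nonempty_iff_ne_empty]
      rintro rfl
      simp at h
    obtain ⟨a, ha⟩ := hne
    refine ⟨S.erase a, Finset.erase_subset _ _, ?_, ?_, ?_⟩
    · rw [Finset.card_erase_of_mem ha]
      exact Nat.Odd.sub_odd h odd_one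
    · have : S \ S.erase a ⊆ {a} := by
        intro x hx
        simp only [Finset.mem_sdiff, Finset.mem_erase, not_and, Finset.mem_singleton] at hx ⊢
        by_contra hne
        exact hx.2 hne hx.1
      exact (Finset.card_le_card this).trans (by simp)
    · rw [Finset.card_erase_of_mem ha]
      omega

/-- the graph of the edges of `G` inside `Q` -/
def stB2_F {V : Type*} (G : SimpleGraph V) (Q : Finset V) : SimpleGraph V where
  Adj a b := G.Adj a b ∧ a ∈ Q ∧ b ∈ Q
  symm := ⟨fun _ _ h => ⟨h.1.symm, h.2.2, h.2.1⟩⟩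
  loopless := ⟨fun _ h => G.loopless.irrefl _ h.1⟩

/-- the number of non-neighbours in a set -/
theorem stB2_non {V : Type*} [Fintype V] (G : SimpleGraph V) (A : Finset V) (v : V) {ε : ℝ}
    (hε : 0 < ε) (h : (3 / 4 + ε / 2) * (A.card : ℝ) ≤ (nb G A v).card) :
    ((A.filter fun r => ¬ G.Adj v r).card : ℝ) ≤ A.card / 4 := by
  have h1 : (nb G A v).card + (A.filter fun r => ¬ G.Adj v r).card = A.card := by
    unfold nb
    exact Finset.card_filter_add_card_filter_not (fun r => G.Adj v r)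
  have h2 : ((nb G A v).card : ℝ) + ((A.filter fun r => ¬ G.Adj v r).card : ℝ) = A.card := by
    exact_mod_cast h1
  have h3 : (0 : ℝ) ≤ (A.card : ℝ) := Nat.cast_nonneg _
  nlinarith

theorem stB2 {V : Type*} [Fintype V] {G : SimpleGraph V} {U U' : Finset V} {q K : ℕ} {ε η β : ℝ}
    [Fact q.Prime] (fr : Frame G U U' q K ε η) (hε : 0 < ε) (hK : 0 < K) (hq : 64 ≤ q)
    (hβ : β ≤ 1 / (64 * K)) (hn : 32 * K ≤ Fintype.card V) (B : Finset V)
    (hB : (B.card : ℝ) ≤ β * Fintype.card V) :
    ∃ P : Finset (Finset V), IsPacking G P ∧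
      (∀ T ∈ P, ∃ b ∈ B, ∃ x x', x ∉ U ∧ x ∉ B ∧ x' ∉ U ∧ x' ∉ B ∧ fr.ix x = fr.ix x' ∧
        fr.gd.Adj b x ∧ fr.gd.Adj b x' ∧ G.Adj x x' ∧ T = {b, x, x'}) ∧
      ∀ b ∈ B, ∀ i, ((fr.Vi i).filter fun x => x ∉ B ∧ fr.gd.Adj b x ∧
        ∀ T ∈ P, ¬ (b ∈ T ∧ x ∈ T)).card ≤ 1 := by
  have hVi : ∀ i x, x ∈ fr.Vi i ↔ x ∉ U ∧ fr.ix x = i := by
    intro i x; simp [Frame.Vi]
  choose N hNsub hNev hN1 hNc using fun (i : Fin K) (b : V) =>
    stB2_even (nb fr.gd (fr.Vi i \ B) b)
  have hNm : ∀ i b x, x ∈ N i b → x ∉ U ∧ fr.ix x = i ∧ x ∉ B ∧ fr.gd.Adj b x := by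
    intro i b x hx
    have := hNsub i b hx
    simp only [nb, Finset.mem_filter, Finset.mem_sdiff, hVi] at this
    exact ⟨this.1.1.1, this.1.1.2, this.1.2, this.2⟩
  have hKr : (0 : ℝ) < K := by exact_mod_cast hK
  have hqr : (64 : ℝ) ≤ q := by exact_mod_cast hq
  have hnr : 32 * (K : ℝ) ≤ Fintype.card V := by exact_mod_cast hn
  have key : ∀ i : Fin K, ∃ P : Finset (Finset V), IsPacking G P ∧
      (∀ T ∈ P, ∃ x ∈ B, ∃ u ∈ N i x, ∃ u' ∈ N i x, (stB2_F G (fr.Vi i \ B)).Adj u u' ∧
        T = {x, u, u'}) ∧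
      (∀ x ∈ B, ∀ u ∈ N i x, ∃ T ∈ P, x ∈ T ∧ u ∈ T) := by
    intro i
    obtain ⟨P, hP, hPT, hPc, -⟩ := apex G (stB2_F G (fr.Vi i \ B)) B (fr.Vi i \ B) (N i)
      (Finset.disjoint_sdiff) (fun a b h => h.1)
      (fun x _ => (hNsub i x).trans (Finset.filter_subset _ _))
      (fun x _ u hu => (hNm i x u hu).2.2.2.1) (fun x _ => hNev i x) (by
        intro b hb u hu
        have hu' := hNm i b u hu
        have hbi : b ∉ U → fr.ix b ≠ i := by
          intro hbU hbi
          exact hu'.2.2.2.2.2.2.2 ⟨hbU, hu'.1, hbi.trans hu'.2.1.symm⟩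
        -- lower bound for nb gd Q b
        have hsub1 : nb G (fr.Vi i) b ⊆ nb fr.gd (fr.Vi i \ B) b ∪
            (B ∪ (fr.Vi i).filter fun x => fr.R x b) := by
          intro x hx
          simp only [nb, Finset.mem_filter] at hx
          have hx' := (hVi i x).1 hx.1
          by_cases c1 : x ∈ B
          · simp [c1]
          by_cases c2 : fr.R x b
          · have : x ∈ (fr.Vi i).filter fun x => fr.R x b := by simp [hx.1, c2]
            simp [this]
          apply Finset.mem_union_left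
          simp only [nb, Finset.mem_filter, Finset.mem_sdiff]
          refine ⟨⟨hx.1, c1⟩, hx.2, fun h => hx'.1 h.2, fun h => hx'.1 h.2.1,
            fun h => c2 h.2.2, fun h => hbi h.1 (h.2.2.trans hx'.2)⟩
        have hc1 : (nb G (fr.Vi i) b).card ≤ (nb fr.gd (fr.Vi i \ B) b).card +
            (B.card + ((fr.Vi i).filter fun x => fr.R x b).card) :=
          (Finset.card_le_card hsub1).trans ((Finset.card_union_le _ _).trans
            (Nat.add_le_add_left (Finset.card_union_le _ _) _))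
        have hc1' : ((nb G (fr.Vi i) b).card : ℝ) ≤ (nb fr.gd (fr.Vi i \ B) b).card +
            (B.card + ((fr.Vi i).filter fun x => fr.R x b).card) := by
          exact_mod_cast hc1
        have hc2 : ((nb fr.gd (fr.Vi i \ B) b).card : ℝ) ≤ (N i b).card + 1 := by
          exact_mod_cast hNc i b
        have hc3 := fr.throughV b i
        have hc4 := fr.degV i b
        have hc4' : (3 / 4 + ε / 2) * ((fr.Vi i).card : ℝ) ≤ (nb G (fr.Vi i) b).card := hc4
        -- upper bound for the non-neighbours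
        have hsub2 : N i b ⊆ nb (stB2_F G (fr.Vi i \ B)) (N i b) u ∪
            (fr.Vi i).filter fun x => ¬ G.Adj u x := by
          intro x hx
          have hx' := hNm i b x hx
          have hxV : x ∈ fr.Vi i := (hVi i x).2 ⟨hx'.1, hx'.2.1⟩
          have huV : u ∈ fr.Vi i := (hVi i u).2 ⟨hu'.1, hu'.2.1⟩
          by_cases c : G.Adj u x
          · apply Finset.mem_union_left
            simp only [nb, Finset.mem_filter]
            exact ⟨hx, c, Finset.mem_sdiff.2 ⟨huV, hu'.2.2.1⟩, Finset.mem_sdiff.2 ⟨hxV, hx'.2.2.1⟩⟩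
          · apply Finset.mem_union_right
            simp [hxV, c]
        have hc5 : (N i b).card ≤ (nb (stB2_F G (fr.Vi i \ B)) (N i b) u).card +
            ((fr.Vi i).filter fun x => ¬ G.Adj u x).card :=
          (Finset.card_le_card hsub2).trans (Finset.card_union_le _ _)
        have hc5' : ((N i b).card : ℝ) ≤ (nb (stB2_F G (fr.Vi i \ B)) (N i b) u).card +
            ((fr.Vi i).filter fun x => ¬ G.Adj u x).card := by
          exact_mod_cast hc5
        have hc6 := stB2_non G (fr.Vi i) u hε (fr.degV i u)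
        have hc7 : (Fintype.card V : ℝ) / (2 * K) ≤ (fr.Vi i).card := fr.sizeV1 i
        have hv0 : (0 : ℝ) ≤ ((fr.Vi i).card : ℝ) := Nat.cast_nonneg _
        have hc8 : (4 : ℝ) / q * (fr.Vi i).card ≤ 1 / 16 * (fr.Vi i).card := by
          apply mul_le_mul_of_nonneg_right _ hv0
          rw [div_le_div_iff₀ (by linarith) (by norm_num)]
          linarith
        have hnn : (0 : ℝ) ≤ (Fintype.card V : ℝ) := Nat.cast_nonneg _
        have hc9 : (B.card : ℝ) ≤ (Fintype.card V : ℝ) / (64 * K) := by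
          refine hB.trans ?_
          calc β * (Fintype.card V : ℝ) ≤ 1 / (64 * K) * (Fintype.card V : ℝ) :=
                mul_le_mul_of_nonneg_right hβ hnn
            _ = (Fintype.card V : ℝ) / (64 * K) := by ring
        -- put x = n / (64 K)
        set y : ℝ := (Fintype.card V : ℝ) / (64 * K) with hy
        have hy1 : (Fintype.card V : ℝ) / (2 * K) = 32 * y := by
          rw [hy]; field_simp; ring
        have hy2 : 1 / 2 ≤ y := by
          rw [hy, le_div_iff₀ (by positivity)]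
          linarith
        rw [hy1] at hc7
        have hεv : 0 ≤ ε / 2 * ((fr.Vi i).card : ℝ) := by positivity
        have hfin : ((N i b).card : ℝ) + 2 * B.card ≤
            2 * (nb (stB2_F G (fr.Vi i \ B)) (N i b) u).card := by
          nlinarith
        exact_mod_cast hfin)
    exact ⟨P, hP, hPT, hPc⟩
  choose P hP hPT hPc using key
  -- facts on the triangles
  have hT : ∀ i, ∀ T ∈ P i, ∃ b ∈ B, ∃ x x', x ∈ N i b ∧ x' ∈ N i b ∧ G.Adj x x' ∧
      T = {b, x, x'} := by
    intro i T hTP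
    obtain ⟨b, hb, x, hx, x', hx', hF, rfl⟩ := hPT i T hTP
    exact ⟨b, hb, x, x', hx, hx', hF.1, rfl⟩
  have hmem : ∀ i, ∀ T ∈ P i, ∀ c ∈ T, c ∈ B ∨ (c ∉ U ∧ c ∉ B ∧ fr.ix c = i) := by
    intro i T hTP c hc
    obtain ⟨b, hb, x, x', hx, hx', -, rfl⟩ := hT i T hTP
    have h1 := hNm i b x hx
    have h2 := hNm i b x' hx'
    simp only [Finset.mem_insert, Finset.mem_singleton] at hc
    rcases hc with rfl | rfl | rfl
    · exact Or.inl hb
    · exact Or.inr ⟨h1.1, h1.2.2.1, h1.2.1⟩
    · exact Or.inr ⟨h2.1, h2.2.2.1, h2.2.1⟩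
  have honeB : ∀ i, ∀ T ∈ P i, ∀ a b, a ∈ T → b ∈ T → a ∈ B → b ∈ B → a = b := by
    intro i T hTP a b ha hb haB hbB
    obtain ⟨c, hc, x, x', hx, hx', -, rfl⟩ := hT i T hTP
    have h1 := (hNm i c x hx).2.2.1
    have h2 := (hNm i c x' hx').2.2.1
    have : ∀ z, z ∈ ({c, x, x'} : Finset V) → z ∈ B → z = c := by
      intro z hz hzB
      simp only [Finset.mem_insert, Finset.mem_singleton] at hz
      rcases hz with h | h | h
      · exact h
      · exact absurd (h ▸ hzB) h1
      · exact absurd (h ▸ hzB) h2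
    exact (this a ha haB).trans (this b hb hbB).symm
  refine ⟨univ.biUnion P, IsPacking.biUnion univ P (fun i _ => hP i) ?_, ?_, ?_⟩
  · intro i _ j _ hij T hTP T' hTP' a b hab haT hbT haT' hbT'
    have : ∀ c, c ∈ T → c ∈ T' → c ∈ B := by
      intro c h1 h2
      rcases hmem i T hTP c h1 with h | h
      · exact h
      · rcases hmem j T' hTP' c h2 with h' | h'
        · exact h'
        · exact absurd (h.2.2.symm.trans h'.2.2) hij
    exact hab (honeB i T hTP a b haT hbT (this a haT haT') (this b hbT hbT'))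
  · intro T hTP
    rw [Finset.mem_biUnion] at hTP
    obtain ⟨i, -, hTP⟩ := hTP
    obtain ⟨b, hb, x, x', hx, hx', hadj, rfl⟩ := hT i T hTP
    have h1 := hNm i b x hx
    have h2 := hNm i b x' hx'
    exact ⟨b, hb, x, x', h1.1, h1.2.2.1, h2.1, h2.2.2.1, h1.2.1.trans h2.2.1.symm, h1.2.2.2,
      h2.2.2.2, hadj, rfl⟩
  · intro b hb i
    refine (Finset.card_le_card ?_).trans (hN1 i b)
    intro x hx
    simp only [Finset.mem_filter] at hx
    obtain ⟨hxV, hxB, hadj, hunc⟩ := hx
    rw [Finset.mem_sdiff]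
    refine ⟨?_, fun hxN => ?_⟩
    · simp only [nb, Finset.mem_filter, Finset.mem_sdiff]
      exact ⟨⟨hxV, hxB⟩, hadj⟩
    · obtain ⟨T, hTP, h1, h2⟩ := hPc i b hb x hxN
      exact hunc T (Finset.mem_biUnion.2 ⟨i, Finset.mem_univ _, hTP⟩) ⟨h1, h2⟩

end Pool.NSH
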