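import Pool.Agent.NSH.StB1
import Pool.Agent.NSH.StB2

/-!
MODULE Prep (difficulty 3).  The state before the cover-down.

RECIPE.  `P₁, B` from `stB1`, `P₂` from `stB2`; `n₀` also `≥ 32 K` and `≥ K / β`.  `P₁` is a packing of `G` (`gd ≤ G`).
`P₁ ∪ P₂` is a packing of `G`: `T₁ ∈ P₁` contains no vertex of `B` and has only `gd`-edges, `T₂ = {b, x, x'}` has `b ∈ B` and the pair `x x'` inside a
`Vi`, not a `gd`-edge.  `G₂ = unc G (P₁ ∪ P₂)`.
(1) `x ∉ U`: neighbours of `x` in `G₂` outside `U`.  If `x ∉ B`: those in `Vi (ix x)` (`≤ 2 n / K`), the others are `gd`-neighbours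
not covered by `P₁`: `≤ 3 β n`.  If `x ∈ B`: those in `B` (`≤ β n`), in `Vi (ix x)`, and for every `i` at most one (`stB2`): `K ≤ β n`.
(2) `e ∈ U`, `x ∉ U`, `G₂.Adj e x`, `¬ R x e`: `gd.Adj e x`; if `e ∉ B`: `≤ 3 β n`; if `e ∈ B`: `x ∈ B` or one of at most `K`.
(3) `x ∉ U`, `x ∉ B`: `≤ 3 β n`, uncovered `gd`-edges.
(4) reserved edges and edges inside `U` are not `gd`-edges and not inside a `Vi`: in no triangle.
(5) `b ∈ B \ U`, `u ∈ U`: not in a `T₁`; a `T₂ = {b', x, x'}` containing `b, u` has `x, x' ∉ U ∪ B`, so `b = b' = u`: impossible.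
-/

open Finset
open scoped Classical

namespace Pool.NSH

theorem prep_gd {V : Type*} [Fintype V] {G : SimpleGraph V} {U U' : Finset V} {q K : ℕ} {ε η : ℝ}
    (fr : Frame G U U' q K ε η) {a b : V} : fr.gd.Adj a b ↔ (G.Adj a b ∧ ¬ (a ∈ U ∧ b ∈ U) ∧
    ¬ (a ∉ U ∧ b ∈ U ∧ fr.R a b) ∧ ¬ (b ∉ U ∧ a ∈ U ∧ fr.R b a) ∧
    ¬ (a ∉ U ∧ b ∉ U ∧ fr.ix a = fr.ix b)) := Iff.rfl

theorem prep_unc {V : Type*} {G : SimpleGraph V} {P : Finset (Finset V)} {a b : V} :
    (unc G P).Adj a b ↔ (G.Adj a b ∧ ∀ T ∈ P, ¬ (a ∈ T ∧ b ∈ T)) := Iff.rfl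

theorem prep_adj {V : Type*} {G : SimpleGraph V} {T : Finset V} (h : G.IsNClique 3 T)
    {a b : V} (ha : a ∈ T) (hb : b ∈ T) (hab : a ≠ b) : G.Adj a b :=
  h.isClique ha hb hab

theorem prep {q K : ℕ} [Fact q.Prime] (hK : 0 < K) (hq : 64 ≤ q) {ε η β : ℝ} (hε : 0 < ε)
    (hβ : 0 < β) (hβ1 : β ≤ 1 / (64 * K)) (h1 : η + 2 / q ≤ ε / 2)
    (h2 : 2 * η / q + 2 / K ≤ ε / 2) :
    ∃ n₀ : ℕ, ∀ (V : Type) [Fintype V] (G : SimpleGraph V) (U U' : Finset V)
      (fr : Frame G U U' q K ε η), n₀ ≤ Fintype.card V → U.card ≤ η * Fintype.card V →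
      (∀ v, (3 / 4 + ε) * Fintype.card V ≤ ((nb G univ v).card : ℝ)) →
      ∃ (G₂ : SimpleGraph V) (B : Finset V), Red G G₂ ∧ (B.card : ℝ) ≤ β * Fintype.card V ∧
        (∀ x, x ∉ U → ((nb G₂ Uᶜ x).card : ℝ) ≤ (3 * β + 2 / K) * Fintype.card V) ∧
        (∀ e ∈ U, ((Uᶜ.filter fun x => G₂.Adj e x ∧ ¬ fr.R x e).card : ℝ)
          ≤ 3 * β * Fintype.card V) ∧
        (∀ x, x ∉ U → x ∉ B → ((U.filter fun e => G₂.Adj x e ∧ ¬ fr.R x e).card : ℝ)
          ≤ 3 * β * Fintype.card V) ∧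
        (∀ x, x ∉ U → ∀ u ∈ U, G.Adj x u → fr.R x u → G₂.Adj x u) ∧
        (∀ u ∈ U, ∀ u' ∈ U, G.Adj u u' → G₂.Adj u u') ∧
        (∀ b ∈ B, b ∉ U → ∀ u ∈ U, G.Adj b u → G₂.Adj b u) := by
  classical
  obtain ⟨n1, hn1⟩ := stB1 (q := q) (K := K) hK hε hβ h1 h2
  refine ⟨max n1 (max (32 * K) ⌈(K : ℝ) / β⌉₊), ?_⟩
  intro V _ G U U' fr hn hU hdeg
  have hna : n1 ≤ Fintype.card V := (le_max_left _ _).trans hn
  have hnb : 32 * K ≤ Fintype.card V := ((le_max_left _ _).trans (le_max_right _ _)).trans hn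
  have hnc : (K : ℝ) ≤ β * Fintype.card V := by
    have h3 : ⌈(K : ℝ) / β⌉₊ ≤ Fintype.card V := ((le_max_right _ _).trans (le_max_right _ _)).trans hn
    have h4 := Nat.le_ceil ((K : ℝ) / β)
    have h5 : ((⌈(K : ℝ) / β⌉₊ : ℕ) : ℝ) ≤ (Fintype.card V : ℝ) := by exact_mod_cast h3
    have h6 := h4.trans h5
    rw [div_le_iff₀ hβ] at h6
    linarith
  obtain ⟨P₁, B, hP1, hB, hP1B, hun⟩ := hn1 V G U U' fr hna hU hdeg
  obtain ⟨P₂, hP2, hP2T, hP2c⟩ := stB2 fr hε hK hq hβ1 hnb B hB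
  have hKpos : (0 : ℝ) < K := by exact_mod_cast hK
  have hn0 : (0 : ℝ) ≤ Fintype.card V := Nat.cast_nonneg _
  have hβn : 0 ≤ β * Fintype.card V := by positivity
  have gdle : ∀ {a b}, fr.gd.Adj a b → G.Adj a b := fun h => ((prep_gd fr).mp h).1
  -- cross pairs
  have hcross : ∀ T ∈ P₁, ∀ T' ∈ P₂, ∀ a b, a ≠ b → a ∈ T → b ∈ T → a ∈ T' → b ∈ T' → False := by
    intro T hT T' hT' a b hab ha hb ha' hb'
    obtain ⟨b0, hb0, x, x', hxU, hxB, hx'U, hx'B, hix, h3, h4, h5, rfl⟩ := hP2T T' hT'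
    have h6 : ∀ z ∈ T, z ∈ ({b0, x, x'} : Finset V) → z = x ∨ z = x' := by
      intro z hz hz'
      simp only [Finset.mem_insert, Finset.mem_singleton] at hz'
      rcases hz' with rfl | h | h
      · exact absurd hz (hP1B T hT z hb0)
      · exact Or.inl h
      · exact Or.inr h
    have h7 : fr.gd.Adj a b := prep_adj (hP1.clique T hT) ha hb hab
    have h8 := ((prep_gd fr).mp h7).2.2.2.2
    rcases h6 a ha ha' with rfl | rfl
    · rcases h6 b hb hb' with rfl | rfl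
      · exact hab rfl
      · exact h8 ⟨hxU, hx'U, hix⟩
    · rcases h6 b hb hb' with rfl | rfl
      · exact h8 ⟨hx'U, hxU, hix.symm⟩
      · exact hab rfl
  have hpack : IsPacking G (P₁ ∪ P₂) := by
    constructor
    · intro T hT
      rw [Finset.mem_union] at hT
      rcases hT with hT | hT
      · have := hP1.clique T hT
        exact ⟨fun a ha b hb hab => gdle (this.isClique ha hb hab), this.card_eq⟩
      · exact hP2.clique T hT
    · intro T hT T' hT' a b hab ha hb ha' hb'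
      rw [Finset.mem_union] at hT hT'
      rcases hT with hT | hT <;> rcases hT' with hT' | hT'
      · exact hP1.disj T hT T' hT' a b hab ha hb ha' hb'
      · exact (hcross T hT T' hT' a b hab ha hb ha' hb').elim
      · exact (hcross T' hT' T hT a b hab ha' hb' ha hb).elim
      · exact hP2.disj T hT T' hT' a b hab ha hb ha' hb'
  have hG2 : ∀ {a b}, (unc G (P₁ ∪ P₂)).Adj a b → G.Adj a b ∧ (∀ T ∈ P₁, ¬ (a ∈ T ∧ b ∈ T)) ∧
      ∀ T ∈ P₂, ¬ (a ∈ T ∧ b ∈ T) := by
    intro a b h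
    rw [prep_unc] at h
    exact ⟨h.1, fun T hT => h.2 T (Finset.mem_union_left _ hT),
      fun T hT => h.2 T (Finset.mem_union_right _ hT)⟩
  have hunmem : ∀ a b, fr.gd.Adj a b → (∀ T ∈ P₁, ¬ (a ∈ T ∧ b ∈ T)) →
      b ∈ nb (unc fr.gd P₁) univ a := by
    intro a b h h'
    unfold nb
    rw [Finset.mem_filter]
    exact ⟨Finset.mem_univ _, h, h'⟩
  -- the uncovered neighbours of a bad vertex
  have hbadc : ∀ b ∈ B, ((univ.biUnion fun i : Fin K => (fr.Vi i).filter fun x => x ∉ B ∧ fr.gd.Adj b x ∧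
        ∀ T ∈ P₂, ¬ (b ∈ T ∧ x ∈ T)).card : ℝ) ≤ K := by
    intro b hb
    have h3 : (univ.biUnion fun i : Fin K => (fr.Vi i).filter fun x => x ∉ B ∧ fr.gd.Adj b x ∧
        ∀ T ∈ P₂, ¬ (b ∈ T ∧ x ∈ T)).card ≤ (univ : Finset (Fin K)).card * 1 :=
      Finset.card_biUnion_le_card_mul _ _ _ (fun i _ => hP2c b hb i)
    rw [Finset.card_univ, Fintype.card_fin, mul_one] at h3
    exact_mod_cast h3
  refine ⟨unc G (P₁ ∪ P₂), B, ⟨P₁ ∪ P₂, hpack, rfl⟩, hB, ?_, ?_, ?_, ?_, ?_, ?_⟩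
  · intro x hx
    have hV2 : (((fr.Vi (fr.ix x))).card : ℝ) ≤ 2 * Fintype.card V / K := fr.sizeV2 (fr.ix x)
    have hgd : ∀ y, y ∉ U → G.Adj x y → fr.ix y ≠ fr.ix x → fr.gd.Adj x y := by
      intro y hy hxy hix
      rw [prep_gd]
      exact ⟨hxy, fun h => hx h.1, fun h => hy h.2.1, fun h => hx h.2.1, fun h => hix h.2.2.symm⟩
    by_cases hxB : x ∈ B
    · have hsub : nb (unc G (P₁ ∪ P₂)) Uᶜ x ⊆ (B ∪ fr.Vi (fr.ix x)) ∪
          (univ.biUnion fun i : Fin K => (fr.Vi i).filter fun y => y ∉ B ∧ fr.gd.Adj x y ∧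
            ∀ T ∈ P₂, ¬ (x ∈ T ∧ y ∈ T)) := by
        intro y hy
        unfold nb at hy
        rw [Finset.mem_filter, Finset.mem_compl] at hy
        obtain ⟨hyU, hxy⟩ := hy
        obtain ⟨hxy, hq1, hq2⟩ := hG2 hxy
        rw [Finset.mem_union, Finset.mem_union]
        by_cases hyB : y ∈ B
        · exact Or.inl (Or.inl hyB)
        · by_cases hix : fr.ix y = fr.ix x
          · refine Or.inl (Or.inr ?_)
            unfold Frame.Vi
            rw [Finset.mem_filter, Finset.mem_compl]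
            exact ⟨hyU, hix⟩
          · refine Or.inr ?_
            rw [Finset.mem_biUnion]
            refine ⟨fr.ix y, Finset.mem_univ _, ?_⟩
            rw [Finset.mem_filter]
            refine ⟨?_, hyB, hgd y hyU hxy hix, hq2⟩
            unfold Frame.Vi
            rw [Finset.mem_filter, Finset.mem_compl]
            exact ⟨hyU, rfl⟩
      have h3 := Finset.card_le_card hsub
      have h4 := h3.trans (Finset.card_union_le _ _)
      have h5 := Finset.card_union_le B (fr.Vi (fr.ix x))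
      have h6 : ((nb (unc G (P₁ ∪ P₂)) Uᶜ x).card : ℝ) ≤ (B.card + (fr.Vi (fr.ix x)).card : ℝ) +
          ((univ.biUnion fun i : Fin K => (fr.Vi i).filter fun y => y ∉ B ∧ fr.gd.Adj x y ∧
            ∀ T ∈ P₂, ¬ (x ∈ T ∧ y ∈ T)).card : ℝ) := by
        have : (nb (unc G (P₁ ∪ P₂)) Uᶜ x).card ≤ (B.card + (fr.Vi (fr.ix x)).card) +
          (univ.biUnion fun i : Fin K => (fr.Vi i).filter fun y => y ∉ B ∧ fr.gd.Adj x y ∧
            ∀ T ∈ P₂, ¬ (x ∈ T ∧ y ∈ T)).card := by omega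
        exact_mod_cast this
      have h7 := hbadc x hxB
      have h8 : (3 * β + 2 / K) * Fintype.card V = 3 * (β * Fintype.card V) + 2 * Fintype.card V / K := by
        ring
      rw [h8]
      linarith
    · have hsub : nb (unc G (P₁ ∪ P₂)) Uᶜ x ⊆ fr.Vi (fr.ix x) ∪ nb (unc fr.gd P₁) univ x := by
        intro y hy
        unfold nb at hy
        rw [Finset.mem_filter, Finset.mem_compl] at hy
        obtain ⟨hyU, hxy⟩ := hy
        obtain ⟨hxy, hq1, hq2⟩ := hG2 hxy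
        rw [Finset.mem_union]
        by_cases hix : fr.ix y = fr.ix x
        · refine Or.inl ?_
          unfold Frame.Vi
          rw [Finset.mem_filter, Finset.mem_compl]
          exact ⟨hyU, hix⟩
        · exact Or.inr (hunmem x y (hgd y hyU hxy hix) hq1)
      have h3 := (Finset.card_le_card hsub).trans (Finset.card_union_le _ _)
      have h4 : ((nb (unc G (P₁ ∪ P₂)) Uᶜ x).card : ℝ) ≤ ((fr.Vi (fr.ix x)).card : ℝ) +
          ((nb (unc fr.gd P₁) univ x).card : ℝ) := by exact_mod_cast h3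
      have h5 := hun x hxB
      have h8 : (3 * β + 2 / K) * Fintype.card V = 3 * β * Fintype.card V + 2 * Fintype.card V / K := by
        ring
      rw [h8]
      linarith
  · intro e he
    have hgd : ∀ x, x ∉ U → G.Adj e x → ¬ fr.R x e → fr.gd.Adj e x := by
      intro x hx hex hR
      rw [prep_gd]
      exact ⟨hex, fun h => hx h.2, fun h => h.1 he, fun h => hR h.2.2, fun h => h.1 he⟩
    by_cases heB : e ∈ B
    · have hsub : (Uᶜ.filter fun x => (unc G (P₁ ∪ P₂)).Adj e x ∧ ¬ fr.R x e) ⊆ B ∪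
          (univ.biUnion fun i : Fin K => (fr.Vi i).filter fun y => y ∉ B ∧ fr.gd.Adj e y ∧
            ∀ T ∈ P₂, ¬ (e ∈ T ∧ y ∈ T)) := by
        intro y hy
        rw [Finset.mem_filter, Finset.mem_compl] at hy
        obtain ⟨hyU, hey, hR⟩ := hy
        obtain ⟨hey, hq1, hq2⟩ := hG2 hey
        rw [Finset.mem_union]
        by_cases hyB : y ∈ B
        · exact Or.inl hyB
        · refine Or.inr ?_
          rw [Finset.mem_biUnion]
          refine ⟨fr.ix y, Finset.mem_univ _, ?_⟩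
          rw [Finset.mem_filter]
          refine ⟨?_, hyB, hgd y hyU hey hR, hq2⟩
          unfold Frame.Vi
          rw [Finset.mem_filter, Finset.mem_compl]
          exact ⟨hyU, rfl⟩
      have h3 := (Finset.card_le_card hsub).trans (Finset.card_union_le _ _)
      have h4 : ((Uᶜ.filter fun x => (unc G (P₁ ∪ P₂)).Adj e x ∧ ¬ fr.R x e).card : ℝ) ≤ (B.card : ℝ) +
          ((univ.biUnion fun i : Fin K => (fr.Vi i).filter fun y => y ∉ B ∧ fr.gd.Adj e y ∧
            ∀ T ∈ P₂, ¬ (e ∈ T ∧ y ∈ T)).card : ℝ) := by exact_mod_cast h3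
      have h7 := hbadc e heB
      linarith
    · have hsub : (Uᶜ.filter fun x => (unc G (P₁ ∪ P₂)).Adj e x ∧ ¬ fr.R x e) ⊆
          nb (unc fr.gd P₁) univ e := by
        intro y hy
        rw [Finset.mem_filter, Finset.mem_compl] at hy
        obtain ⟨hyU, hey, hR⟩ := hy
        obtain ⟨hey, hq1, hq2⟩ := hG2 hey
        exact hunmem e y (hgd y hyU hey hR) hq1
      have h3 : ((Uᶜ.filter fun x => (unc G (P₁ ∪ P₂)).Adj e x ∧ ¬ fr.R x e).card : ℝ) ≤
          ((nb (unc fr.gd P₁) univ e).card : ℝ) := by exact_mod_cast Finset.card_le_card hsub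
      exact h3.trans (hun e heB)
  · intro x hx hxB
    have hgd : ∀ e, e ∈ U → G.Adj x e → ¬ fr.R x e → fr.gd.Adj x e := by
      intro e he hex hR
      rw [prep_gd]
      exact ⟨hex, fun h => hx h.1, fun h => hR h.2.2, fun h => h.1 he, fun h => h.2.1 he⟩
    have hsub : (U.filter fun e => (unc G (P₁ ∪ P₂)).Adj x e ∧ ¬ fr.R x e) ⊆
        nb (unc fr.gd P₁) univ x := by
      intro y hy
      rw [Finset.mem_filter] at hy
      obtain ⟨hyU, hxy, hR⟩ := hy
      obtain ⟨hxy, hq1, hq2⟩ := hG2 hxy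
      exact hunmem x y (hgd y hyU hxy hR) hq1
    have h3 : ((U.filter fun e => (unc G (P₁ ∪ P₂)).Adj x e ∧ ¬ fr.R x e).card : ℝ) ≤
        ((nb (unc fr.gd P₁) univ x).card : ℝ) := by exact_mod_cast Finset.card_le_card hsub
    exact h3.trans (hun x hxB)
  · intro x hx u hu hxu hR
    rw [prep_unc]
    refine ⟨hxu, fun T hT hc => ?_⟩
    have hne : x ≠ u := fun h => hx (h ▸ hu)
    rw [Finset.mem_union] at hT
    rcases hT with hT | hT
    · have h3 : fr.gd.Adj x u := prep_adj (hP1.clique T hT) hc.1 hc.2 hne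
      exact ((prep_gd fr).mp h3).2.2.1 ⟨hx, hu, hR⟩
    · obtain ⟨b0, hb0, y, y', hyU, hyB, hy'U, hy'B, hix, h3, h4, h5, rfl⟩ := hP2T T hT
      simp only [Finset.mem_insert, Finset.mem_singleton] at hc
      obtain ⟨hc1, hc2⟩ := hc
      have hub : u = b0 := by
        rcases hc2 with h | h | h
        · exact h
        · exact absurd (h ▸ hu) hyU
        · exact absurd (h ▸ hu) hy'U
      subst hub
      rcases hc1 with h | h | h
      · exact hne h
      · subst h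
        exact ((prep_gd fr).mp h3).2.2.2.1 ⟨hx, hu, hR⟩
      · subst h
        exact ((prep_gd fr).mp h4).2.2.2.1 ⟨hx, hu, hR⟩
  · intro u hu u' hu' huu
    rw [prep_unc]
    refine ⟨huu, fun T hT hc => ?_⟩
    have hne : u ≠ u' := huu.ne
    rw [Finset.mem_union] at hT
    rcases hT with hT | hT
    · have h3 : fr.gd.Adj u u' := prep_adj (hP1.clique T hT) hc.1 hc.2 hne
      exact ((prep_gd fr).mp h3).2.1 ⟨hu, hu'⟩
    · obtain ⟨b0, hb0, y, y', hyU, hyB, hy'U, hy'B, hix, h3, h4, h5, rfl⟩ := hP2T T hT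
      simp only [Finset.mem_insert, Finset.mem_singleton] at hc
      obtain ⟨hc1, hc2⟩ := hc
      have hub : u = b0 := by
        rcases hc1 with h | h | h
        · exact h
        · exact absurd (h ▸ hu) hyU
        · exact absurd (h ▸ hu) hy'U
      have hub' : u' = b0 := by
        rcases hc2 with h | h | h
        · exact h
        · exact absurd (h ▸ hu') hyU
        · exact absurd (h ▸ hu') hy'U
      exact hne (hub.trans hub'.symm)
  · intro b hb hbU u hu hbu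
    rw [prep_unc]
    refine ⟨hbu, fun T hT hc => ?_⟩
    rw [Finset.mem_union] at hT
    rcases hT with hT | hT
    · exact hP1B T hT b hb hc.1
    · obtain ⟨b0, hb0, y, y', hyU, hyB, hy'U, hy'B, hix, h3, h4, h5, rfl⟩ := hP2T T hT
      simp only [Finset.mem_insert, Finset.mem_singleton] at hc
      obtain ⟨hc1, hc2⟩ := hc
      have hub : u = b0 := by
        rcases hc2 with h | h | h
        · exact h
        · exact absurd (h ▸ hu) hyU
        · exact absurd (h ▸ hu) hy'U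
      have hbb : b = b0 := by
        rcases hc1 with h | h | h
        · exact h
        · exact absurd (h ▸ hb) hyB
        · exact absurd (h ▸ hb) hy'B
      exact hbu.ne (hbb.trans hub.symm)

end Pool.NSH
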