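import Pool.Agent.NSH.Defs2

/-!
MODULE ListCol (difficulty 3).  Greedy list edge colouring.
-/

open Finset
open scoped Classical

namespace Pool.NSH

theorem listcol_deg {V : Type*} [Fintype V] (H : SimpleGraph V) (Δ : ℕ)
    (hΔ : ∀ x, (nb H univ x).card ≤ Δ) (E : Finset (Sym2 V)) (hE : ∀ e ∈ E, e ∈ H.edgeSet) (x : V) :
    (E.filter fun e => x ∈ e).card ≤ Δ := by
  refine le_trans (Finset.card_le_card (t := (nb H univ x).image fun z => s(x, z)) ?_)
    (Finset.card_image_le.trans (hΔ x))
  intro e he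
  obtain ⟨he1, he2⟩ := Finset.mem_filter.1 he
  obtain ⟨z, rfl⟩ := he2
  have hadj : H.Adj x z := hE _ he1
  exact Finset.mem_image.2 ⟨z, Finset.mem_filter.2 ⟨Finset.mem_univ _, hadj⟩, rfl⟩

theorem listCol {V C : Type*} [Fintype V] [Nonempty C] (H : SimpleGraph V) (L : V → V → Finset C)
    (hsym : ∀ x y, L x y = L y x) (Δ : ℕ) (hΔ : ∀ x, (nb H univ x).card ≤ Δ)
    (hL : ∀ x y, H.Adj x y → 2 * Δ < (L x y).card) :
    ∃ c : V → V → C, (∀ x y, c x y = c y x) ∧ (∀ x y, H.Adj x y → c x y ∈ L x y) ∧
      ∀ x y z, H.Adj x y → H.Adj x z → y ≠ z → c x y ≠ c x z := by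
  set L' : Sym2 V → Finset C := Sym2.lift ⟨L, hsym⟩ with hL'
  have key : ∀ E : Finset (Sym2 V), (∀ e ∈ E, e ∈ H.edgeSet) → ∃ c : Sym2 V → C,
      (∀ e ∈ E, c e ∈ L' e) ∧ ∀ e ∈ E, ∀ e' ∈ E, e ≠ e' → (∃ v, v ∈ e ∧ v ∈ e') → c e ≠ c e' := by
    intro E
    induction E using Finset.induction_on with
    | empty =>
      intro _
      exact ⟨fun _ => Classical.arbitrary C, by simp, by simp⟩
    | insert e E he ih =>
      intro hE
      obtain ⟨c, hc1, hc2⟩ := ih fun e' he' => hE e' (Finset.mem_insert_of_mem he')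
      have heH : e ∈ H.edgeSet := hE e (Finset.mem_insert_self _ _)
      have hE' : ∀ e' ∈ E, e' ∈ H.edgeSet := fun e' he' => hE e' (Finset.mem_insert_of_mem he')
      obtain ⟨a, ha1, ha2⟩ : ∃ a ∈ L' e, ∀ e' ∈ E, (∃ v, v ∈ e ∧ v ∈ e') → a ≠ c e' := by
        induction e using Sym2.ind with
        | _ x y =>
          have hcard : (((E.filter fun e' => x ∈ e') ∪ (E.filter fun e' => y ∈ e')).image c).card <
              (L' s(x, y)).card := by
            have h1 := listcol_deg H Δ hΔ E hE' x
            have h2 := listcol_deg H Δ hΔ E hE' y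
            have h3 : L' s(x, y) = L x y := rfl
            rw [h3]
            calc _ ≤ ((E.filter fun e' => x ∈ e') ∪ (E.filter fun e' => y ∈ e')).card :=
                  Finset.card_image_le
              _ ≤ (E.filter fun e' => x ∈ e').card + (E.filter fun e' => y ∈ e').card :=
                  Finset.card_union_le _ _
              _ ≤ 2 * Δ := by omega
              _ < _ := hL x y heH
          obtain ⟨a, ha, ha'⟩ := Finset.exists_mem_notMem_of_card_lt_card hcard
          refine ⟨a, ha, fun e' he' hv hac => ha' ?_⟩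
          obtain ⟨v, hv1, hv2⟩ := hv
          refine Finset.mem_image.2 ⟨e', ?_, hac.symm⟩
          rw [Finset.mem_union, Finset.mem_filter, Finset.mem_filter]
          rcases Sym2.mem_iff.1 hv1 with rfl | rfl
          · exact Or.inl ⟨he', hv2⟩
          · exact Or.inr ⟨he', hv2⟩
      refine ⟨Function.update c e a, ?_, ?_⟩
      · intro e' he'
        rcases Finset.mem_insert.1 he' with rfl | he''
        · rw [Function.update_self]; exact ha1
        · rw [Function.update_of_ne (ne_of_mem_of_not_mem he'' he)]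
          exact hc1 e' he''
      · intro e1 h1 e2 h2 hne hv
        rcases Finset.mem_insert.1 h1 with h1e | h1' <;> rcases Finset.mem_insert.1 h2 with h2e | h2'
        · exact absurd (h1e.trans h2e.symm) hne
        · subst h1e
          rw [Function.update_self, Function.update_of_ne (ne_of_mem_of_not_mem h2' he)]
          exact ha2 e2 h2' hv
        · subst h2e
          rw [Function.update_self, Function.update_of_ne (ne_of_mem_of_not_mem h1' he)]
          obtain ⟨v, hv1, hv2⟩ := hv
          exact (ha2 e1 h1' ⟨v, hv2, hv1⟩).symm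
        · rw [Function.update_of_ne (ne_of_mem_of_not_mem h1' he), Function.update_of_ne (ne_of_mem_of_not_mem h2' he)]
          exact hc2 e1 h1' e2 h2' hne hv
  obtain ⟨c, hc1, hc2⟩ := key (univ.filter fun e => e ∈ H.edgeSet) (fun e he => (Finset.mem_filter.1 he).2)
  have hm : ∀ x y, H.Adj x y → s(x, y) ∈ univ.filter fun e => e ∈ H.edgeSet := fun x y h =>
    Finset.mem_filter.2 ⟨Finset.mem_univ _, h⟩
  refine ⟨fun x y => c s(x, y), fun x y => ?_, fun x y h => hc1 _ (hm x y h), fun x y z hxy hxz hyz => ?_⟩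
  · show c s(x, y) = c s(y, x)
    rw [Sym2.eq_swap]
  · refine hc2 _ (hm x y hxy) _ (hm x z hxz) ?_ ⟨x, Sym2.mem_mk_left _ _, Sym2.mem_mk_left _ _⟩
    intro h
    rw [Sym2.eq_iff] at h
    rcases h with h | h
    · exact hyz h.2
    · exact hyz (h.2.trans h.1)

end Pool.NSH
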