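import Pool.Agent.NSH.RedB
import Pool.Agent.NSH.ListCol

/-!
MODULE StepC (difficulty 3).  Covering the edges inside `W` by triangles with the third vertex in `U`.

RECIPE: `listCol` for the graph `Hw` of the edges of `G` with both ends in `W` and the lists `L` (if there is no such
edge take `P = ∅`; otherwise `V` is nonempty), giving `c x y ∈ L x y`.  `P = {{x, y, c x y} : x, y ∈ W, G.Adj x y}`
(image of a finset of pairs).  Edge-disjoint: a triangle `{x, y, u}` has `x, y ∈ W`, `u ∈ U`; a common pair inside `W` means the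
same `{x, y}`, hence the same triangle (`c` symmetric); a common pair `x u` means `c x y = u = c x z`, so `y = z`.
The triangles containing `x ∈ W` correspond to the neighbours of `x` in `W`: at most `Δ`.
-/

open Finset
open scoped Classical

namespace Pool.NSH

theorem stepC {V : Type*} [Fintype V] (G : SimpleGraph V) (W U : Finset V) (hWU : Disjoint W U)
    (L : V → V → Finset V) (hsym : ∀ x y, L x y = L y x) (Δ : ℕ)
    (hΔ : ∀ x ∈ W, (nb G W x).card ≤ Δ)
    (hL : ∀ x ∈ W, ∀ y ∈ W, G.Adj x y → L x y ⊆ U ∧ (∀ u ∈ L x y, G.Adj x u ∧ G.Adj y u) ∧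
      2 * Δ < (L x y).card) :
    ∃ P : Finset (Finset V), IsPacking G P ∧
      (∀ T ∈ P, ∃ x ∈ W, ∃ y ∈ W, ∃ u ∈ L x y, G.Adj x y ∧ T = {x, y, u}) ∧
      (∀ x ∈ W, ∀ y ∈ W, G.Adj x y → ∃ T ∈ P, x ∈ T ∧ y ∈ T) ∧
      (∀ x ∈ W, (P.filter fun T => x ∈ T).card ≤ Δ) := by
  by_cases hne : Nonempty V
  swap
  · refine ⟨∅, ⟨by simp, by simp⟩, by simp, ?_, ?_⟩
    · intro x _
      exact (hne ⟨x⟩).elim
    · intro x _
      exact (hne ⟨x⟩).elim
  have := hne
  let Hw : SimpleGraph V :=
    { Adj := fun x y => x ∈ W ∧ y ∈ W ∧ G.Adj x y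
      symm := ⟨fun _ _ h => ⟨h.2.1, h.1, h.2.2.symm⟩⟩
      loopless := ⟨fun _ h => G.loopless.irrefl _ h.2.2⟩ }
  have hHw : ∀ x y, Hw.Adj x y ↔ (x ∈ W ∧ y ∈ W ∧ G.Adj x y) := fun x y => Iff.rfl
  have hΔ' : ∀ x, (nb Hw univ x).card ≤ Δ := by
    intro x
    by_cases hx : x ∈ W
    · refine le_trans (card_le_card ?_) (hΔ x hx)
      intro y hy
      simp only [nb, mem_filter, mem_univ, true_and, hHw] at hy ⊢
      exact ⟨hy.2.1, hy.2.2⟩
    · have : nb Hw univ x = ∅ := by
        apply Finset.eq_empty_of_forall_notMem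
        intro y hy
        simp only [nb, mem_filter, mem_univ, true_and, hHw] at hy
        exact hx hy.1
      rw [this]
      simp
  obtain ⟨c, hcs, hcL, hcd⟩ := listCol Hw L hsym Δ hΔ' (fun x y hxy => (hL x hxy.1 y hxy.2.1 hxy.2.2).2.2)
  have hcU : ∀ x y, Hw.Adj x y → c x y ∈ U := fun x y hxy =>
    (hL x hxy.1 y hxy.2.1 hxy.2.2).1 (hcL x y hxy)
  have hWU' : ∀ v, v ∈ W → v ∈ U → False := fun v h1 h2 => (Finset.disjoint_left.mp hWU h1) h2
  -- the family
  let P : Finset (Finset V) :=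
    ((univ : Finset (V × V)).filter fun p => Hw.Adj p.1 p.2).image
      fun p => ({p.1, p.2, c p.1 p.2} : Finset V)
  have hP : ∀ T, T ∈ P ↔ ∃ x y, Hw.Adj x y ∧ T = {x, y, c x y} := by
    intro T
    simp only [P, mem_image, mem_filter, mem_univ, true_and, Prod.exists]
    constructor
    · rintro ⟨x, y, h, rfl⟩
      exact ⟨x, y, h, rfl⟩
    · rintro ⟨x, y, h, rfl⟩
      exact ⟨x, y, h, rfl⟩
  -- a member containing `x ∈ W` has the form `{x, y, c x y}`
  have key : ∀ T ∈ P, ∀ x ∈ W, x ∈ T → ∃ y, Hw.Adj x y ∧ T = {x, y, c x y} := by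
    intro T hT x hx hxT
    obtain ⟨a, b, hab, rfl⟩ := (hP T).1 hT
    simp only [mem_insert, mem_singleton] at hxT
    rcases hxT with rfl | rfl | rfl
    · exact ⟨b, hab, rfl⟩
    · refine ⟨a, hab.symm, ?_⟩
      rw [hcs x a]
      ext v
      simp only [mem_insert, mem_singleton]
      tauto
    · exact (hWU' _ hx (hcU _ _ hab)).elim
  -- two members with the same `W` pair
  refine ⟨P, ⟨?_, ?_⟩, ?_, ?_, ?_⟩
  · intro T hT
    obtain ⟨x, y, hxy, rfl⟩ := (hP T).1 hT
    have h := hL x hxy.1 y hxy.2.1 hxy.2.2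
    have h2 := h.2.1 _ (hcL x y hxy)
    rw [SimpleGraph.is3Clique_triple_iff]
    exact ⟨hxy.2.2, h2.1, h2.2⟩
  · -- disjointness
    have main : ∀ T ∈ P, ∀ T' ∈ P, ∀ a b, a ≠ b → a ∈ W → a ∈ T → b ∈ T → a ∈ T' → b ∈ T' →
        T = T' := by
      intro T hT T' hT' a b hab haW haT hbT haT' hbT'
      obtain ⟨y, hy, rfl⟩ := key T hT a haW haT
      obtain ⟨y', hy', rfl⟩ := key T' hT' a haW haT'
      have hyy : y = y' := by
        by_contra hne
        have hc := hcd a y y' hy hy' hne
        simp only [mem_insert, mem_singleton] at hbT hbT'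
        rcases hbT with h | h | h
        · exact hab h.symm
        · subst h
          rcases hbT' with h | h | h
          · exact hab h.symm
          · exact hne h
          · exact hWU' b hy.2.1 (h ▸ hcU _ _ hy')
        · rcases hbT' with h' | h' | h'
          · exact hab h'.symm
          · subst h'
            exact hWU' b hy'.2.1 (h ▸ hcU _ _ hy)
          · exact hc (h.symm.trans h')
      rw [hyy]
    intro T hT T' hT' a b hab haT hbT haT' hbT'
    by_cases haW : a ∈ W
    · exact main T hT T' hT' a b hab haW haT hbT haT' hbT'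
    · by_cases hbW : b ∈ W
      · exact main T hT T' hT' b a hab.symm hbW hbT haT hbT' haT'
      · exfalso
        obtain ⟨x, y, hxy, rfl⟩ := (hP T).1 hT
        simp only [mem_insert, mem_singleton] at haT hbT
        have h1 : a = c x y := by
          rcases haT with h | h | h
          · exact (haW (h ▸ hxy.1)).elim
          · exact (haW (h ▸ hxy.2.1)).elim
          · exact h
        have h2 : b = c x y := by
          rcases hbT with h | h | h
          · exact (hbW (h ▸ hxy.1)).elim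
          · exact (hbW (h ▸ hxy.2.1)).elim
          · exact h
        exact hab (h1.trans h2.symm)
  · intro T hT
    obtain ⟨x, y, hxy, rfl⟩ := (hP T).1 hT
    exact ⟨x, hxy.1, y, hxy.2.1, c x y, hcL x y hxy, hxy.2.2, rfl⟩
  · intro x hx y hy hxy
    exact ⟨{x, y, c x y}, (hP _).2 ⟨x, y, ⟨hx, hy, hxy⟩, rfl⟩, by simp, by simp⟩
  · intro x hx
    refine le_trans ?_ (hΔ x hx)
    have hsub : (P.filter fun T => x ∈ T) ⊆ (nb G W x).image fun y => ({x, y, c x y} : Finset V) := by
      intro T hT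
      rw [mem_filter] at hT
      obtain ⟨y, hy, rfl⟩ := key T hT.1 x hx hT.2
      rw [mem_image]
      exact ⟨y, by simp only [nb, mem_filter]; exact ⟨hy.2.1, hy.2.2⟩, rfl⟩
    exact le_trans (card_le_card hsub) card_image_le

end Pool.NSH
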