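import Pool.Agent.NSH.FrB
import Pool.Agent.NSH.StepC

/-!
MODULE StC (difficulty 3).  Covering the edges outside `U` with reserved pairs.

RECIPE: `stepC` for the graph `H`, `W = Uᶜ`, `L x y = U.filter (R x u ∧ R y u ∧ G.Adj x u ∧ G.Adj y u)` (symmetric; all these pairs are
`H`-edges by `h2`).  Size: let `p` be a common point of `ln x` and `ln y` (`Inc.meet`), `U_p = U.filter (pt = p)`; `L x y` contains
`nb G U_p x ∩ nb G U_p y`, of size `≥ 2 (3/4) |U_p| - |U_p| = |U_p| / 2 ≥ u / (4 q (q + 1)) > 2 Δ` (`degU`, `sizeU1`).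
`H' = unc H P`.  The triangles are `{x, y, u}` with `x, y ∉ U`, `u ∈ U`, `R x u`, `R y u`: pairs inside `U` and non-reserved pairs are
not touched; a lost pair `x u` (`x ∉ U`, `u ∈ U`) is in a `T ∋ x`, and each `T ∋ x` contains only one vertex of `U`: `|ls H H' U x| ≤ Δ`.
-/

open Finset
open scoped Classical

namespace Pool.NSH

theorem stC {V : Type*} [Fintype V] {G : SimpleGraph V} {U U' : Finset V} {q K : ℕ} {ε η : ℝ}
    [Fact q.Prime] (fr : Frame G U U' q K ε η) (hε : 0 < ε) (H : SimpleGraph V) (hH : H ≤ G)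
    (Δ : ℕ) (h1 : ∀ x, x ∉ U → (nb H Uᶜ x).card ≤ Δ)
    (h2 : ∀ x, x ∉ U → ∀ u ∈ U, G.Adj x u → fr.R x u → H.Adj x u)
    (hΔ : 2 * (Δ : ℝ) < U.card / (4 * (q * (q + 1)))) :
    ∃ H' : SimpleGraph V, Red H H' ∧ (∀ x y, x ∉ U → y ∉ U → ¬ H'.Adj x y) ∧
      (∀ x, x ∉ U → (ls H H' U x).card ≤ Δ) ∧
      (∀ x, x ∉ U → ∀ u ∈ U, ¬ fr.R x u → H.Adj x u → H'.Adj x u) ∧
      (∀ u ∈ U, ∀ u' ∈ U, H.Adj u u' → H'.Adj u u') := by
  let L : V → V → Finset V := fun x y =>
    U.filter fun u => (fr.R x u ∧ fr.R y u) ∧ (G.Adj x u ∧ G.Adj y u)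
  have hLmem : ∀ x y u, u ∈ L x y ↔ (u ∈ U ∧ (fr.R x u ∧ fr.R y u) ∧ (G.Adj x u ∧ G.Adj y u)) := by
    intro x y u
    simp only [L, mem_filter]
  have hsym : ∀ x y, L x y = L y x := by
    intro x y
    ext u
    rw [hLmem, hLmem]
    tauto
  have hq : (0 : ℝ) < q := by
    have : 0 < q := (Fact.out : q.Prime).pos
    exact_mod_cast this
  have hsize : ∀ x y, 2 * Δ < (L x y).card := by
    intro x y
    obtain ⟨p, hp1, hp2⟩ := Inc.meet (fr.ln x) (fr.ln y)
    have hd1 := fr.degU p x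
    have hd2 := fr.degU p y
    have hs := fr.sizeU1 p
    set Up := U.filter fun v => fr.pt v = p with hUp
    have hsub : nb G Up x ∩ nb G Up y ⊆ L x y := by
      intro u hu
      rw [mem_inter] at hu
      simp only [nb, mem_filter, hUp] at hu
      rw [hLmem]
      refine ⟨hu.1.1.1, ⟨?_, ?_⟩, hu.1.2, hu.2.2⟩
      · show Inc (fr.pt u) (fr.ln x)
        rw [hu.1.1.2]
        exact hp1
      · show Inc (fr.pt u) (fr.ln y)
        rw [hu.1.1.2]
        exact hp2
    have hun : nb G Up x ∪ nb G Up y ⊆ Up := by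
      intro u hu
      rw [mem_union] at hu
      simp only [nb] at hu
      rcases hu with hu | hu
      · exact (mem_filter.1 hu).1
      · exact (mem_filter.1 hu).1
    have hc := card_union_add_card_inter (nb G Up x) (nb G Up y)
    have hc1 := card_le_card hun
    have hc2 := card_le_card hsub
    have hc' : ((nb G Up x ∪ nb G Up y).card : ℝ) + (nb G Up x ∩ nb G Up y).card
        = (nb G Up x).card + (nb G Up y).card := by exact_mod_cast hc
    have hc1' : ((nb G Up x ∪ nb G Up y).card : ℝ) ≤ Up.card := by exact_mod_cast hc1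
    have hc2' : ((nb G Up x ∩ nb G Up y).card : ℝ) ≤ (L x y).card := by exact_mod_cast hc2
    have hUp0 : (0 : ℝ) ≤ Up.card := by positivity
    have hεU : 0 ≤ ε * (Up.card : ℝ) := by positivity
    have hquart : (U.card : ℝ) / (4 * (q * (q + 1))) = (U.card : ℝ) / (2 * (q * (q + 1))) / 2 := by
      field_simp
      norm_num
    have hfin : (2 * (Δ : ℝ)) < (L x y).card := by
      rw [hquart] at hΔ
      nlinarith
    exact_mod_cast hfin
  obtain ⟨P, hP, hPT, hPc, hPd⟩ := stepC H Uᶜ U (by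
      rw [Finset.disjoint_left]
      intro a ha
      exact (mem_compl.1 ha)) L hsym Δ (fun x hx => h1 x (mem_compl.1 hx)) (by
      intro x hx y hy hxy
      refine ⟨?_, ?_, hsize x y⟩
      · intro u hu
        exact ((hLmem x y u).1 hu).1
      · intro u hu
        obtain ⟨hu0, ⟨hu1, hu2⟩, hu3, hu4⟩ := (hLmem x y u).1 hu
        exact ⟨h2 x (mem_compl.1 hx) u hu0 hu3 hu1, h2 y (mem_compl.1 hy) u hu0 hu4 hu2⟩)
  refine ⟨unc H P, ⟨P, hP, rfl⟩, ?_, ?_, ?_, ?_⟩
  · intro x y hx hy hxy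
    obtain ⟨T, hT, hxT, hyT⟩ := hPc x (mem_compl.2 hx) y (mem_compl.2 hy) hxy.1
    exact hxy.2 T hT ⟨hxT, hyT⟩
  · intro x hx
    refine le_trans ?_ (hPd x (mem_compl.2 hx))
    -- each lost `u` determines a member containing `x`, with `T ∩ U = {u}`
    have hex : ∀ u ∈ ls H (unc H P) U x, ∃ T ∈ P, x ∈ T ∧ u ∈ T := by
      intro u hu
      simp only [ls, mem_filter] at hu
      obtain ⟨huU, hu1, hu2⟩ := hu
      by_contra hcon
      push Not at hcon
      exact hu2 ⟨hu1, fun T hT h => hcon T hT h.1 h.2⟩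
    have honly : ∀ T ∈ P, ∀ u u', u ∈ U → u' ∈ U → u ∈ T → u' ∈ T → u = u' := by
      intro T hT u u' hu hu' huT hu'T
      obtain ⟨a, ha, b, hb, w, hw, hab, rfl⟩ := hPT T hT
      simp only [mem_insert, mem_singleton] at huT hu'T
      have e1 : u = w := by
        rcases huT with h | h | h
        · exact (mem_compl.1 ha (h ▸ hu)).elim
        · exact (mem_compl.1 hb (h ▸ hu)).elim
        · exact h
      have e2 : u' = w := by
        rcases hu'T with h | h | h
        · exact (mem_compl.1 ha (h ▸ hu')).elim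
        · exact (mem_compl.1 hb (h ▸ hu')).elim
        · exact h
      rw [e1, e2]
    choose! f hf1 hf2 hf3 using hex
    refine card_le_card_of_injOn f ?_ ?_
    · intro u hu
      rw [mem_coe] at hu
      simp only [coe_filter, Set.mem_setOf_eq]
      exact ⟨hf1 u hu, hf2 u hu⟩
    · intro u hu u' hu' huu
      rw [mem_coe] at hu hu'
      refine honly (f u) (hf1 u hu) u u' (mem_filter.1 hu).1 (mem_filter.1 hu').1 (hf3 u hu) ?_
      have := hf3 u' hu'
      rw [← huu] at this
      exact this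
  · intro x hx u hu hR hxu
    refine ⟨hxu, ?_⟩
    rintro T hT ⟨hxT, huT⟩
    obtain ⟨a, ha, b, hb, w, hw, hab, rfl⟩ := hPT T hT
    obtain ⟨hw0, ⟨hw1, hw2⟩, hw3, hw4⟩ := (hLmem a b w).1 hw
    simp only [mem_insert, mem_singleton] at hxT huT
    have e1 : u = w := by
      rcases huT with h | h | h
      · exact (mem_compl.1 ha (h ▸ hu)).elim
      · exact (mem_compl.1 hb (h ▸ hu)).elim
      · exact h
    rcases hxT with h | h | h
    · subst h; subst e1; exact hR hw1
    · subst h; subst e1; exact hR hw2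
    · subst h; exact hx hw0
  · intro u hu u' hu' huu
    refine ⟨huu, ?_⟩
    rintro T hT ⟨huT, hu'T⟩
    obtain ⟨a, ha, b, hb, w, hw, hab, rfl⟩ := hPT T hT
    simp only [mem_insert, mem_singleton] at huT hu'T
    have e1 : u = w := by
      rcases huT with h | h | h
      · exact (mem_compl.1 ha (h ▸ hu)).elim
      · exact (mem_compl.1 hb (h ▸ hu)).elim
      · exact h
    have e2 : u' = w := by
      rcases hu'T with h | h | h
      · exact (mem_compl.1 ha (h ▸ hu')).elim
      · exact (mem_compl.1 hb (h ▸ hu')).elim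
      · exact h
    exact huu.ne (e1.trans e2.symm)

end Pool.NSH
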