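import Pool.Agent.NSH.RedB
import Pool.Agent.NSH.Apex

/-!
MODULE StD0 (difficulty 3).  The bad vertices outside `U`.

RECIPE: `apex` for the graph `H`, `X = Bw`, `Q = U`, `N b = nb H U b` (`= nb H univ b` by `hW`, so even), `F =` the graph of the edges of `H`
with both ends in `U` and not both in `U'`.  `|N b| ≥ |nb G U b| - Δ ≥ (3/4) u - Δ` (`hloss`).  For `v ∈ N b`: the elements of `N b` which
are not `F`-neighbours of `v` are not `G`-neighbours of `v` (at most `u / 4` elements of `U`, by `hdeg` and `hUU`) or are in `U'`: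
`|nb F (N b) v| ≥ |N b| - u / 4 - u / 16`.  So `2 |nb F (N b) v| - |N b| ≥ |N b| - 5 u / 8 ≥ u / 8 - Δ ≥ 2 |Bw|`.
`H' = unc H P`.  Every `H`-neighbour of `b` is in `N b`, covered.  The triangles are `{b, v, v'}`, `F.Adj v v'`: only edges at `Bw` and
`F`-edges are lost; `u ∈ U` is in at most `|Bw|` triangles and each contains one other vertex of `U`.
-/

open Finset
open scoped Classical

namespace Pool.NSH

/-- the edges of `H` inside `U` which are not inside `U'` -/
def stD0_F {V : Type*} (H : SimpleGraph V) (U U' : Finset V) : SimpleGraph V where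
  Adj a b := H.Adj a b ∧ a ∈ U ∧ b ∈ U ∧ ¬ (a ∈ U' ∧ b ∈ U')
  symm := ⟨fun _ _ h => ⟨h.1.symm, h.2.2.1, h.2.1, fun h' => h.2.2.2 ⟨h'.2, h'.1⟩⟩⟩
  loopless := ⟨fun _ h => H.loopless.irrefl _ h.1⟩

theorem stD0 {V : Type*} [Fintype V] (G H : SimpleGraph V) (U U' Bw : Finset V) (hU'U : U' ⊆ U)
    (hH : H ≤ G) (hBw : ∀ b ∈ Bw, b ∉ U) (Δ : ℕ) (hW : ∀ x y, x ∉ U → y ∉ U → ¬ H.Adj x y)
    (hUU : ∀ u ∈ U, ∀ u' ∈ U, G.Adj u u' → H.Adj u u')
    (hloss : ∀ b ∈ Bw, (ls G H U b).card ≤ Δ) (hpar : ∀ b ∈ Bw, Even (nb H univ b).card)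
    (hdeg : ∀ v, 3 / 4 * (U.card : ℝ) ≤ (nb G U v).card) (hU' : (U'.card : ℝ) ≤ U.card / 16)
    (hnum : (Δ : ℝ) + 2 * Bw.card ≤ U.card / 8) :
    ∃ H' : SimpleGraph V, Red H H' ∧ (∀ b ∈ Bw, ∀ v, ¬ H'.Adj b v) ∧
      (∀ x, x ∉ U → x ∉ Bw → ∀ v, H.Adj x v → H'.Adj x v) ∧
      (∀ u ∈ U', ∀ u' ∈ U', H.Adj u u' → H'.Adj u u') ∧
      (∀ u ∈ U, (ls H H' U u).card ≤ Bw.card) := by
  have hsub : ∀ b ∈ Bw, nb H univ b = nb H U b := by
    intro b hb
    unfold nb
    ext v
    rw [Finset.mem_filter, Finset.mem_filter]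
    constructor
    · rintro ⟨_, h⟩
      refine ⟨?_, h⟩
      by_contra hv
      exact hW b v (hBw b hb) hv h
    · rintro ⟨_, h⟩
      exact ⟨Finset.mem_univ _, h⟩
  have hdegN : ∀ b ∈ Bw, ∀ v ∈ nb H U b, (nb H U b).card + 2 * Bw.card ≤
      2 * (nb (stD0_F H U U') (nb H U b) v).card := by
    intro b hb v hv
    have hvU : v ∈ U := (Finset.mem_filter.1 hv).1
    have h1 : nb H U b ⊆ nb (stD0_F H U U') (nb H U b) v ∪ ((U \ nb G U v) ∪ U') := by
      intro w hw
      have hwU : w ∈ U := (Finset.mem_filter.1 hw).1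
      rw [Finset.mem_union, Finset.mem_union]
      by_cases h2 : w ∈ U'
      · exact Or.inr (Or.inr h2)
      · by_cases h3 : G.Adj v w
        · left
          exact Finset.mem_filter.2 ⟨hw, hUU v hvU w hwU h3, hvU, hwU, fun h => h2 h.2⟩
        · right
          left
          exact Finset.mem_sdiff.2 ⟨hwU, fun h => h3 (Finset.mem_filter.1 h).2⟩
    have h4 : (nb H U b).card ≤ (nb (stD0_F H U U') (nb H U b) v).card +
        ((U \ nb G U v).card + U'.card) :=
      (Finset.card_le_card h1).trans ((Finset.card_union_le _ _).trans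
        (Nat.add_le_add_left (Finset.card_union_le _ _) _))
    have h5 : (U \ nb G U v).card + (nb G U v).card = U.card :=
      Finset.card_sdiff_add_card_eq_card (Finset.filter_subset _ _)
    have h6 : nb G U b ⊆ nb H U b ∪ ls G H U b := by
      intro w hw
      obtain ⟨hwU, hwG⟩ := Finset.mem_filter.1 hw
      rw [Finset.mem_union]
      by_cases h7 : H.Adj b w
      · exact Or.inl (Finset.mem_filter.2 ⟨hwU, h7⟩)
      · exact Or.inr (Finset.mem_filter.2 ⟨hwU, hwG, h7⟩)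
    have h8 : (nb G U b).card ≤ (nb H U b).card + Δ :=
      (Finset.card_le_card h6).trans ((Finset.card_union_le _ _).trans
        (Nat.add_le_add_left (hloss b hb) _))
    have h9 := hdeg v
    have h10 := hdeg b
    have h4' : ((nb H U b).card : ℝ) ≤ (nb (stD0_F H U U') (nb H U b) v).card +
        ((U \ nb G U v).card + U'.card) := by exact_mod_cast h4
    have h5' : ((U \ nb G U v).card : ℝ) + (nb G U v).card = U.card := by exact_mod_cast h5
    have h8' : ((nb G U b).card : ℝ) ≤ (nb H U b).card + Δ := by exact_mod_cast h8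
    have h11 : ((nb H U b).card : ℝ) + 2 * Bw.card ≤
        2 * (nb (stD0_F H U U') (nb H U b) v).card := by linarith
    exact_mod_cast h11
  obtain ⟨P, hP, hPT, hPc, hPn⟩ := apex H (stD0_F H U U') Bw U (fun b => nb H U b)
    (Finset.disjoint_left.2 hBw) (fun _ _ h => h.1) (fun b _ => Finset.filter_subset _ _)
    (fun b _ u hu => (Finset.mem_filter.1 hu).2)
    (fun b hb => by
      have := hpar b hb
      rw [hsub b hb] at this
      exact this) hdegN
  have hTU : ∀ T ∈ P, ∃ u u', (stD0_F H U U').Adj u u' ∧ ∀ w ∈ T, w ∈ U → w = u ∨ w = u' := by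
    intro T hT
    obtain ⟨x, hx, u, _, u', _, hF, rfl⟩ := hPT T hT
    refine ⟨u, u', hF, fun w hw hwU => ?_⟩
    rw [Finset.mem_insert, Finset.mem_insert, Finset.mem_singleton] at hw
    rcases hw with hw | hw | hw
    · exact absurd hwU (hw ▸ hBw x hx)
    · exact Or.inl hw
    · exact Or.inr hw
  refine ⟨unc H P, ⟨P, hP, rfl⟩, ?_, ?_, ?_, ?_⟩
  · intro b hb v hv
    have hvU : v ∈ U := by
      by_contra h
      exact hW b v (hBw b hb) h hv.1
    obtain ⟨T, hT, h1, h2⟩ := hPc b hb v (Finset.mem_filter.2 ⟨hvU, hv.1⟩)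
    exact hv.2 T hT ⟨h1, h2⟩
  · intro x hxU hxB v hxv
    refine ⟨hxv, fun T hT h => ?_⟩
    obtain ⟨y, hy, u, hu, u', hu', _, rfl⟩ := hPT T hT
    have hx := h.1
    rw [Finset.mem_insert, Finset.mem_insert, Finset.mem_singleton] at hx
    rcases hx with hx | hx | hx
    · exact hxB (hx ▸ hy)
    · exact hxU (hx ▸ (Finset.mem_filter.1 hu).1)
    · exact hxU (hx ▸ (Finset.mem_filter.1 hu').1)
  · intro u hu u' hu' huu
    refine ⟨huu, fun T hT h => ?_⟩
    obtain ⟨w, w', hF, hw⟩ := hTU T hT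
    have hne : u ≠ u' := huu.ne
    rcases hw u h.1 (hU'U hu) with h1 | h1
    · rcases hw u' h.2 (hU'U hu') with h2 | h2
      · exact hne (h1.trans h2.symm)
      · exact hF.2.2.2 ⟨h1 ▸ hu, h2 ▸ hu'⟩
    · rcases hw u' h.2 (hU'U hu') with h2 | h2
      · exact hF.2.2.2 ⟨h2 ▸ hu', h1 ▸ hu⟩
      · exact hne (h1.trans h2.symm)
  · intro u hu
    have huB : u ∉ Bw := fun h => hBw u h hu
    refine le_trans ?_ (hPn u huB)
    have key : ∀ w ∈ ls H (unc H P) U u, ∃ T ∈ P, u ∈ T ∧ w ∈ T := by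
      intro w hw
      obtain ⟨_, h1, h2⟩ := Finset.mem_filter.1 hw
      by_contra hne
      refine h2 ⟨h1, fun T hT h => hne ⟨T, hT, h⟩⟩
    choose! f hf1 hf2 hf3 using key
    refine Finset.card_le_card_of_injOn f (fun w hw => ?_) ?_
    · exact Finset.mem_coe.2 (Finset.mem_filter.2 ⟨hf1 w hw, hf2 w hw⟩)
    · intro w hw w' hw' hww
      obtain ⟨x, y, _, hxy⟩ := hTU (f w) (hf1 w hw)
      have hwU := (Finset.mem_filter.1 hw).1
      have hwU' := (Finset.mem_filter.1 hw').1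
      have hne : u ≠ w := (Finset.mem_filter.1 hw).2.1.ne
      have hne' : u ≠ w' := (Finset.mem_filter.1 hw').2.1.ne
      have h3 : w' ∈ f w := hww ▸ hf3 w' hw'
      rcases hxy u (hf2 w hw) hu with h1 | h1 <;> rcases hxy w (hf3 w hw) hwU with h2 | h2 <;>
        rcases hxy w' h3 hwU' with h4 | h4
      · exact absurd (h1.trans h2.symm) hne
      · exact absurd (h1.trans h2.symm) hne
      · exact absurd (h1.trans h4.symm) hne'
      · exact h2.trans h4.symm
      · exact h2.trans h4.symm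
      · exact absurd (h1.trans h4.symm) hne'
      · exact absurd (h1.trans h2.symm) hne
      · exact absurd (h1.trans h2.symm) hne

end Pool.NSH
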