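import Pool.Agent.NSH.Defs2

/-!
MODULE Partner (difficulty 3).  Greedy assignment with bounded load.
-/

open Finset
open scoped Classical

namespace Pool.NSH

theorem partner {V : Type*} [Fintype V] (D : Finset (V × V)) (Cd : V × V → Finset V)
    (s1 s2 s3 Lam : ℕ) (hLam : 0 < Lam) (h1 : ∀ x, (D.filter fun p => p.1 = x).card ≤ s1)
    (h2 : ∀ e, (D.filter fun p => p.2 = e).card ≤ s2) (h3 : D.card ≤ Lam * s3)
    (hC : ∀ p ∈ D, s1 + s2 + s3 + Lam < (Cd p).card) :
    ∃ r : V × V → V, (∀ p ∈ D, r p ∈ Cd p) ∧
      (∀ p ∈ D, ∀ p' ∈ D, p ≠ p' → p.1 = p'.1 → r p ≠ r p') ∧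
      (∀ p ∈ D, ∀ p' ∈ D, p ≠ p' → s(p.2, r p) ≠ s(p'.2, r p')) ∧
      (∀ v, (D.filter fun p => r p = v).card ≤ Lam) := by
  have key : ∀ D' : Finset (V × V), D' ⊆ D → ∃ r : V × V → V, (∀ p ∈ D', r p ∈ Cd p) ∧
      (∀ p ∈ D', ∀ p' ∈ D', p ≠ p' → p.1 = p'.1 → r p ≠ r p') ∧
      (∀ p ∈ D', ∀ p' ∈ D', p ≠ p' → s(p.2, r p) ≠ s(p'.2, r p')) ∧
      (∀ v, (D'.filter fun p => r p = v).card ≤ Lam) := by
    intro D'
    induction D' using Finset.induction_on with
    | empty => intro _; exact ⟨fun p => p.1, by simp, by simp, by simp, by simp⟩
    | insert p D' hp ih =>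
      intro hD
      have hD' : D' ⊆ D := (Finset.subset_insert _ _).trans hD
      have hpD : p ∈ D := hD (Finset.mem_insert_self _ _)
      obtain ⟨r, r1, r2, r3, r4⟩ := ih hD'
      have c1 : ((D'.filter fun q => q.1 = p.1).image r).card ≤ s1 :=
        Finset.card_image_le.trans
          ((Finset.card_le_card (Finset.filter_subset_filter _ hD')).trans (h1 p.1))
      have c2 : ((D'.filter fun q => q.2 = p.2).image r).card ≤ s2 :=
        Finset.card_image_le.trans
          ((Finset.card_le_card (Finset.filter_subset_filter _ hD')).trans (h2 p.2))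
      have c3 : ((D'.filter fun q => r q = p.2).image Prod.snd).card ≤ Lam :=
        Finset.card_image_le.trans (r4 p.2)
      have c4 : (univ.filter fun v => Lam ≤ (D'.filter fun q => r q = v).card).card ≤ s3 := by
        have e1 : Lam * (univ.filter fun v => Lam ≤ (D'.filter fun q => r q = v).card).card ≤
            ∑ v ∈ univ.filter (fun v => Lam ≤ (D'.filter fun q => r q = v).card),
              (D'.filter fun q => r q = v).card := by
          rw [mul_comm, ← smul_eq_mul, ← Finset.sum_const]
          exact Finset.sum_le_sum fun v hv => (Finset.mem_filter.1 hv).2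
        have e2 : ∑ v ∈ univ.filter (fun v => Lam ≤ (D'.filter fun q => r q = v).card),
              (D'.filter fun q => r q = v).card ≤ ∑ v, (D'.filter fun q => r q = v).card :=
          Finset.sum_le_sum_of_subset (Finset.filter_subset _ _)
        have e3 : ∑ v, (D'.filter fun q => r q = v).card = D'.card :=
          (Finset.card_eq_sum_card_fiberwise (f := r) (s := D') (t := univ)
            (fun x _ => Finset.mem_coe.2 (Finset.mem_univ _))).symm
        have e4 : D'.card ≤ D.card := Finset.card_le_card hD'
        exact Nat.le_of_mul_le_mul_left (by omega) hLam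
      set X : Finset V := ((D'.filter fun q => q.1 = p.1).image r) ∪ ((D'.filter fun q => q.2 = p.2).image r) ∪
        ((D'.filter fun q => r q = p.2).image Prod.snd) ∪
        (univ.filter fun v => Lam ≤ (D'.filter fun q => r q = v).card) with hX
      have hXc : X.card < (Cd p).card := by
        have e1 : X.card ≤ ((D'.filter fun q => q.1 = p.1).image r).card +
            ((D'.filter fun q => q.2 = p.2).image r).card +
            ((D'.filter fun q => r q = p.2).image Prod.snd).card +
            (univ.filter fun v => Lam ≤ (D'.filter fun q => r q = v).card).card := by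
          refine (Finset.card_union_le _ _).trans (Nat.add_le_add_right ?_ _)
          refine (Finset.card_union_le _ _).trans (Nat.add_le_add_right ?_ _)
          exact Finset.card_union_le _ _
        have := hC p hpD
        omega
      obtain ⟨a, ha, haX⟩ := Finset.exists_mem_notMem_of_card_lt_card hXc
      have a1 : ∀ q ∈ D', q.1 = p.1 → a ≠ r q := by
        intro q hq hqp haq
        apply haX
        simp only [hX, Finset.mem_union]
        exact Or.inl (Or.inl (Or.inl (Finset.mem_image.2 ⟨q, Finset.mem_filter.2 ⟨hq, hqp⟩, haq.symm⟩)))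
      have a2 : ∀ q ∈ D', q.2 = p.2 → a ≠ r q := by
        intro q hq hqp haq
        apply haX
        simp only [hX, Finset.mem_union]
        exact Or.inl (Or.inl (Or.inr (Finset.mem_image.2 ⟨q, Finset.mem_filter.2 ⟨hq, hqp⟩, haq.symm⟩)))
      have a3 : ∀ q ∈ D', r q = p.2 → a ≠ q.2 := by
        intro q hq hqp haq
        apply haX
        simp only [hX, Finset.mem_union]
        exact Or.inl (Or.inr (Finset.mem_image.2 ⟨q, Finset.mem_filter.2 ⟨hq, hqp⟩, haq.symm⟩))
      have a4 : (D'.filter fun q => r q = a).card < Lam := by
        by_contra hcon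
        apply haX
        simp only [hX, Finset.mem_union]
        exact Or.inr (Finset.mem_filter.2 ⟨Finset.mem_univ _, not_lt.1 hcon⟩)
      have hs3 : ∀ q ∈ D', s(p.2, a) ≠ s(q.2, r q) := by
        intro q hq he
        rw [Sym2.eq_iff] at he
        rcases he with he | he
        · exact a2 q hq he.1.symm he.2
        · exact a3 q hq he.1.symm he.2
      have hu : ∀ q ∈ D', Function.update r p a q = r q := fun q hq =>
        Function.update_of_ne (ne_of_mem_of_not_mem hq hp) _ _
      refine ⟨Function.update r p a, ?_, ?_, ?_, ?_⟩
      · intro q hq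
        rcases Finset.mem_insert.1 hq with rfl | hq'
        · rw [Function.update_self]; exact ha
        · rw [hu q hq']; exact r1 q hq'
      · intro q hq q' hq' hne h11
        rcases Finset.mem_insert.1 hq with hqe | hqd <;> rcases Finset.mem_insert.1 hq' with hqe' | hqd'
        · exact absurd (hqe.trans hqe'.symm) hne
        · subst hqe
          rw [Function.update_self, hu q' hqd']
          exact a1 q' hqd' h11.symm
        · subst hqe'
          rw [Function.update_self, hu q hqd]
          exact (a1 q hqd h11).symm
        · rw [hu q hqd, hu q' hqd']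
          exact r2 q hqd q' hqd' hne h11
      · intro q hq q' hq' hne
        rcases Finset.mem_insert.1 hq with hqe | hqd <;> rcases Finset.mem_insert.1 hq' with hqe' | hqd'
        · exact absurd (hqe.trans hqe'.symm) hne
        · subst hqe
          rw [Function.update_self, hu q' hqd']
          exact hs3 q' hqd'
        · subst hqe'
          rw [Function.update_self, hu q hqd]
          exact (hs3 q hqd).symm
        · rw [hu q hqd, hu q' hqd']
          exact r3 q hqd q' hqd' hne
      · intro v
        rw [Finset.filter_insert, Function.update_self]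
        have hf : (D'.filter fun q => Function.update r p a q = v) = D'.filter fun q => r q = v :=
          Finset.filter_congr fun q hq => by rw [hu q hq]
        rw [hf]
        split_ifs with hav
        · refine (Finset.card_insert_le _ _).trans ?_
          subst hav
          omega
        · exact r4 v
  exact key D subset_rfl

end Pool.NSH
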