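import Pool.Agent.NSH.RedB
import Pool.Agent.NSH.Partner

/-!
MODULE StepP (difficulty 3).  Covering prescribed pairs `(x, e)` by edge-disjoint triangles `{x, e, r}`.

RECIPE: `partner` gives `r`; `P = {{p.1, p.2, r p} : p ∈ D}`.  `p.1 ∈ X`, `p.2, r p ∈ U`, `p.2 ≠ r p` (adjacent).
Common pairs of two of them (`p ≠ p'`): in `U`: `s(p.2, r p) = s(p'.2, r p')`, excluded; with `x = p.1 = p'.1`: `p.2 = p'.2` (then
`p = p'`), `r p = r p'` (excluded), or `p.2 = r p'`: then `(x, r p') ∈ D`, excluded by `hC`.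
`x ∈ X` is in at most `s1` of them; `u ∈ U` in at most `s2 + Lam`.
-/

open Finset
open scoped Classical

namespace Pool.NSH

theorem stepp_key {V : Type*} {X U : Finset V} (hXU : Disjoint X U) {D : Finset (V × V)}
    {r : V × V → V} (hD : ∀ p ∈ D, p.1 ∈ X ∧ p.2 ∈ U) (hrU : ∀ p ∈ D, r p ∈ U)
    (hrD : ∀ p ∈ D, (p.1, r p) ∉ D)
    (hr1 : ∀ p ∈ D, ∀ p' ∈ D, p ≠ p' → p.1 = p'.1 → r p ≠ r p')
    (hr2 : ∀ p ∈ D, ∀ p' ∈ D, p ≠ p' → s(p.2, r p) ≠ s(p'.2, r p'))
    {p p' : V × V} (hp : p ∈ D) (hp' : p' ∈ D) (hne : p ≠ p') {a b : V} (hab : a ≠ b)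
    (ha : a = p.1 ∨ a = p.2 ∨ a = r p) (hb : b = p.1 ∨ b = p.2 ∨ b = r p)
    (ha' : a = p'.1 ∨ a = p'.2 ∨ a = r p') (hb' : b = p'.1 ∨ b = p'.2 ∨ b = r p') : False := by
  have hX : ∀ x ∈ X, ∀ u ∈ U, x ≠ u := fun x hx u hu h =>
    (disjoint_left.1 hXU hx) (h ▸ hu)
  -- the case of a common vertex in `X`
  have hcase : ∀ c : V, (c = p.2 ∨ c = r p) → (c = p'.2 ∨ c = r p') → p.1 = p'.1 → False := by
    intro c hc hc' h1
    rcases hc with hc | hc
    · rcases hc' with hc' | hc'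
      · exact hne (Prod.ext h1 (hc.symm.trans hc'))
      · apply hrD p' hp'
        have : (p'.1, r p') = p := Prod.ext h1.symm (hc'.symm.trans hc)
        rw [this]
        exact hp
    · rcases hc' with hc' | hc'
      · apply hrD p hp
        have : (p.1, r p) = p' := Prod.ext h1 (hc.symm.trans hc')
        rw [this]
        exact hp'
      · exact hr1 p hp p' hp' hne h1 (hc.symm.trans hc')
  have hpX := (hD p hp).1
  have hpU := (hD p hp).2
  have hpX' := (hD p' hp').1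
  have hpU' := (hD p' hp').2
  have hrp := hrU p hp
  have hrp' := hrU p' hp'
  -- an element of the triple which is in `X` is the first one
  have hf : ∀ c, (c = p.1 ∨ c = p.2 ∨ c = r p) → (c = p'.1 ∨ c = p'.2 ∨ c = r p') →
      (c = p.1 ∧ c = p'.1) ∨ ((c = p.2 ∨ c = r p) ∧ (c = p'.2 ∨ c = r p')) := by
    intro c hc hc'
    rcases hc with hc | hc
    · rcases hc' with hc' | hc' | hc'
      · exact Or.inl ⟨hc, hc'⟩
      · exact absurd (hc.symm.trans hc') (hX _ hpX _ hpU')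
      · exact absurd (hc.symm.trans hc') (hX _ hpX _ hrp')
    · rcases hc' with hc' | hc'
      · exfalso
        rcases hc with hc | hc
        · exact (hX _ hpX' _ hpU) (hc'.symm.trans hc)
        · exact (hX _ hpX' _ hrp) (hc'.symm.trans hc)
      · exact Or.inr ⟨hc, hc'⟩
  rcases hf a ha ha' with ⟨h1, h2⟩ | ⟨h1, h2⟩
  · rcases hf b hb hb' with ⟨h3, h4⟩ | ⟨h3, h4⟩
    · exact hab (h1.trans h3.symm)
    · exact hcase b h3 h4 (h1.symm.trans h2)
  · rcases hf b hb hb' with ⟨h3, h4⟩ | ⟨h3, h4⟩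
    · exact hcase a h1 h2 (h3.symm.trans h4)
    · apply hr2 p hp p' hp' hne
      have e1 : s(a, b) = s(p.2, r p) := by
        rcases h1 with h1 | h1
        · rcases h3 with h3 | h3
          · exact absurd (h1.trans h3.symm) hab
          · rw [h1, h3]
        · rcases h3 with h3 | h3
          · rw [h1, h3, Sym2.eq_swap]
          · exact absurd (h1.trans h3.symm) hab
      have e2 : s(a, b) = s(p'.2, r p') := by
        rcases h2 with h1 | h1
        · rcases h4 with h3 | h3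
          · exact absurd (h1.trans h3.symm) hab
          · rw [h1, h3]
        · rcases h4 with h3 | h3
          · rw [h1, h3, Sym2.eq_swap]
          · exact absurd (h1.trans h3.symm) hab
      exact e1.symm.trans e2

theorem stepP {V : Type*} [Fintype V] (G : SimpleGraph V) (X U : Finset V) (hXU : Disjoint X U)
    (D : Finset (V × V)) (Cd : V × V → Finset V) (s1 s2 s3 Lam : ℕ) (hLam : 0 < Lam)
    (hD : ∀ p ∈ D, p.1 ∈ X ∧ p.2 ∈ U ∧ G.Adj p.1 p.2)
    (h1 : ∀ x, (D.filter fun p => p.1 = x).card ≤ s1)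
    (h2 : ∀ e, (D.filter fun p => p.2 = e).card ≤ s2) (h3 : D.card ≤ Lam * s3)
    (hC : ∀ p ∈ D, Cd p ⊆ U ∧ (∀ r ∈ Cd p, G.Adj p.1 r ∧ G.Adj p.2 r ∧ (p.1, r) ∉ D) ∧
      s1 + s2 + s3 + Lam < (Cd p).card) :
    ∃ P : Finset (Finset V), IsPacking G P ∧
      (∀ T ∈ P, ∃ p ∈ D, ∃ r ∈ Cd p, T = {p.1, p.2, r}) ∧
      (∀ p ∈ D, ∃ T ∈ P, p.1 ∈ T ∧ p.2 ∈ T) ∧
      (∀ x ∈ X, (P.filter fun T => x ∈ T).card ≤ s1) ∧
      (∀ u ∈ U, (P.filter fun T => u ∈ T).card ≤ s2 + Lam) := by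
  obtain ⟨r, hr0, hr1, hr2, hr3⟩ := partner D Cd s1 s2 s3 Lam hLam h1 h2 h3
    (fun p hp => (hC p hp).2.2)
  have hrU : ∀ p ∈ D, r p ∈ U := fun p hp => (hC p hp).1 (hr0 p hp)
  have hX : ∀ x ∈ X, ∀ u ∈ U, x ≠ u := fun x hx u hu h =>
    (disjoint_left.1 hXU hx) (h ▸ hu)
  have hmem : ∀ (p : V × V) (a : V), a ∈ ({p.1, p.2, r p} : Finset V) →
      a = p.1 ∨ a = p.2 ∨ a = r p := by
    intro p a ha
    simpa using ha
  refine ⟨D.image (fun p => {p.1, p.2, r p}), ⟨?_, ?_⟩, ?_, ?_, ?_, ?_⟩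
  · intro T hT
    obtain ⟨p, hp, rfl⟩ := mem_image.1 hT
    rw [SimpleGraph.is3Clique_iff]
    have h4 := (hC p hp).2.1 (r p) (hr0 p hp)
    exact ⟨p.1, p.2, r p, (hD p hp).2.2, h4.1, h4.2.1, rfl⟩
  · intro T hT T' hT' a b hab ha hb ha' hb'
    obtain ⟨p, hp, rfl⟩ := mem_image.1 hT
    obtain ⟨p', hp', rfl⟩ := mem_image.1 hT'
    by_cases hne : p = p'
    · rw [hne]
    · exact absurd (stepp_key hXU (fun p hp => ⟨(hD p hp).1, (hD p hp).2.1⟩) hrU
        (fun p hp => ((hC p hp).2.1 (r p) (hr0 p hp)).2.2) hr1 hr2 hp hp' hne hab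
        (hmem p a ha) (hmem p b hb) (hmem p' a ha') (hmem p' b hb')) id
  · intro T hT
    obtain ⟨p, hp, rfl⟩ := mem_image.1 hT
    exact ⟨p, hp, r p, hr0 p hp, rfl⟩
  · intro p hp
    exact ⟨_, mem_image_of_mem _ hp, by simp, by simp⟩
  · intro x hx
    have hsub : ((D.image (fun p => ({p.1, p.2, r p} : Finset V))).filter fun T => x ∈ T) ⊆
        (D.filter fun p => p.1 = x).image (fun p => ({p.1, p.2, r p} : Finset V)) := by
      intro T hT
      obtain ⟨hT1, hT2⟩ := mem_filter.1 hT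
      obtain ⟨p, hp, rfl⟩ := mem_image.1 hT1
      rcases hmem p x hT2 with h4 | h4 | h4
      · exact mem_image_of_mem _ (mem_filter.2 ⟨hp, h4.symm⟩)
      · exact absurd h4 (hX x hx _ (hD p hp).2.1)
      · exact absurd h4 (hX x hx _ (hrU p hp))
    exact (card_le_card hsub).trans (card_image_le.trans (h1 x))
  · intro u hu
    have hsub : ((D.image (fun p => ({p.1, p.2, r p} : Finset V))).filter fun T => u ∈ T) ⊆
        ((D.filter fun p => p.2 = u) ∪ (D.filter fun p => r p = u)).image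
          (fun p => ({p.1, p.2, r p} : Finset V)) := by
      intro T hT
      obtain ⟨hT1, hT2⟩ := mem_filter.1 hT
      obtain ⟨p, hp, rfl⟩ := mem_image.1 hT1
      rcases hmem p u hT2 with h4 | h4 | h4
      · exact absurd h4.symm (hX _ (hD p hp).1 u hu)
      · exact mem_image_of_mem _ (mem_union_left _ (mem_filter.2 ⟨hp, h4.symm⟩))
      · exact mem_image_of_mem _ (mem_union_right _ (mem_filter.2 ⟨hp, h4.symm⟩))
    refine (card_le_card hsub).trans (card_image_le.trans ((card_union_le _ _).trans ?_))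
    exact Nat.add_le_add (h2 u) (hr3 u)


end Pool.NSH
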