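import Pool.Agent.NSH.FrB
import Pool.Agent.NSH.StepP

/-!
MODULE StD1 (difficulty 4).  The non-reserved edges between `V \ U` and `U`.

RECIPE: `stepP` for `H`, `X = Uᶜ`, `D = {(x, e) : x ∉ U, e ∈ U, H.Adj x e, ¬ R x e}` (then `x ∉ Bw` by `hB`), `s2 = s1`,
`Cd (x, e) = (Ul (ln x)).filter (r ∉ U' ∧ H.Adj x r ∧ H.Adj e r)`; for `r ∈ Ul (ln x)` one has `R x r`, so `(x, r) ∉ D`.
`D.card ≤ n * s1 ≤ Lam * s3`.  With `A = Ul (ln x)`: the elements of `A` not in `Cd` are in `U'` (`≤ 4 η |A| ≤ |A| / 16`), or no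
`G`-neighbours of `x` (`≤ |A| / 4`, `deg_ul`), or lost at `x` (`≤ Δ`), or no `G`-neighbours of `e` (`≤ |A| / 4`), or lost at `e` (`≤ bb`).
So `|Cd| ≥ (7/16) |A| - Δ - bb ≥ u / (8 q) - Δ - bb > 2 s1 + s3 + Lam` (`|A| ≥ u / (2 q)`).
`H' = unc H P`; the triangles are `{x, e, r}` with `x ∉ U`, `e, r ∈ U`, `r ∉ U'`.
-/

open Finset
open scoped Classical

namespace Pool.NSH

/-- the number of non-neighbours in a set -/
theorem stD1_non {V : Type*} [Fintype V] (G : SimpleGraph V) (A : Finset V) (v : V) {ε : ℝ}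
    (hε : 0 < ε) (h : (3 / 4 + ε / 2) * (A.card : ℝ) ≤ (nb G A v).card) :
    ((A.filter fun r => ¬ G.Adj v r).card : ℝ) ≤ A.card / 4 := by
  have h1 : (nb G A v).card + (A.filter fun r => ¬ G.Adj v r).card = A.card := by
    unfold nb
    exact Finset.card_filter_add_card_filter_not (fun r => G.Adj v r)
  have h2 : ((nb G A v).card : ℝ) + ((A.filter fun r => ¬ G.Adj v r).card : ℝ) = A.card := by
    exact_mod_cast h1
  have h3 : (0 : ℝ) ≤ (A.card : ℝ) := Nat.cast_nonneg _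
  nlinarith

theorem stD1 {V : Type*} [Fintype V] {G : SimpleGraph V} {U U' : Finset V} {q K : ℕ} {ε η : ℝ}
    [Fact q.Prime] (fr : Frame G U U' q K ε η) (hε : 0 < ε) (hη : η ≤ 1 / 64) (hU'U : U' ⊆ U)
    (H : SimpleGraph V) (hH : H ≤ G) (Bw : Finset V) (s1 s3 Lam Δ bb : ℕ) (hLam : 0 < Lam)
    (hB : ∀ b ∈ Bw, ∀ v, ¬ H.Adj b v)
    (h1 : ∀ x, x ∉ U → x ∉ Bw → (U.filter fun e => H.Adj x e ∧ ¬ fr.R x e).card ≤ s1)
    (h2 : ∀ e ∈ U, (Uᶜ.filter fun x => H.Adj e x ∧ ¬ fr.R x e).card ≤ s1)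
    (h3 : Fintype.card V * s1 ≤ Lam * s3)
    (h4 : ∀ x, x ∉ U → x ∉ Bw → (ls G H (fr.Ul (fr.ln x)) x).card ≤ Δ)
    (h5 : ∀ u ∈ U, (ls G H U u).card ≤ bb)
    (hnum : 2 * (s1 : ℝ) + s3 + Lam + Δ + bb < U.card / (8 * q)) :
    ∃ H' : SimpleGraph V, Red H H' ∧ (∀ x, x ∉ U → ∀ u ∈ U, ¬ fr.R x u → ¬ H'.Adj x u) ∧
      (∀ x, x ∉ U → x ∉ Bw → (ls G H' (fr.Ul (fr.ln x)) x).card ≤ Δ + s1) ∧
      (∀ u ∈ U, (ls G H' U u).card ≤ bb + s1 + Lam) ∧
      (∀ u ∈ U', ∀ u' ∈ U', H.Adj u u' → H'.Adj u u') := by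
  let D : Finset (V × V) :=
    univ.filter fun p => p.1 ∉ U ∧ p.2 ∈ U ∧ H.Adj p.1 p.2 ∧ ¬ fr.R p.1 p.2
  have hDm : ∀ p, p ∈ D ↔ p.1 ∉ U ∧ p.2 ∈ U ∧ H.Adj p.1 p.2 ∧ ¬ fr.R p.1 p.2 := by
    intro p; simp [D]
  let Cd : V × V → Finset V := fun p =>
    (fr.Ul (fr.ln p.1)).filter fun r => r ∉ U' ∧ H.Adj p.1 r ∧ H.Adj p.2 r
  have hUl : ∀ l u, u ∈ fr.Ul l ↔ u ∈ U ∧ Inc (fr.pt u) l := by
    intro l u; simp [Frame.Ul]
  have hCm : ∀ p r, r ∈ Cd p ↔ (r ∈ U ∧ Inc (fr.pt r) (fr.ln p.1)) ∧ r ∉ U' ∧ H.Adj p.1 r ∧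
      H.Adj p.2 r := by
    intro p r
    simp only [Cd, Finset.mem_filter, hUl]
  have hDB : ∀ p ∈ D, p.1 ∉ Bw := fun p hp hb => hB _ hb _ ((hDm p).1 hp).2.2.1
  have hD1 : ∀ x, (D.filter fun p => p.1 = x).card ≤ s1 := by
    intro x
    by_cases hx : x ∈ U
    · have : (D.filter fun p => p.1 = x) = ∅ := by
        rw [Finset.filter_eq_empty_iff]
        rintro p hp rfl
        exact ((hDm p).1 hp).1 hx
      rw [this]; simp
    by_cases hxB : x ∈ Bw
    · have : (D.filter fun p => p.1 = x) = ∅ := by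
        rw [Finset.filter_eq_empty_iff]
        rintro p hp rfl
        exact hDB p hp hxB
      rw [this]; simp
    refine le_trans (Finset.card_le_card_of_injOn (fun p => p.2) ?_ ?_) (h1 x hx hxB)
    · intro p hp
      rw [Finset.mem_coe, Finset.mem_filter] at hp
      obtain ⟨hp, rfl⟩ := hp
      rw [Finset.mem_coe, Finset.mem_filter]
      have := (hDm p).1 hp
      exact ⟨this.2.1, this.2.2.1, this.2.2.2⟩
    · intro p hp p' hp' h
      rw [Finset.mem_coe, Finset.mem_filter] at hp hp'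
      exact Prod.ext (hp.2.trans hp'.2.symm) h
  have hD2 : ∀ e, (D.filter fun p => p.2 = e).card ≤ s1 := by
    intro e
    by_cases he : e ∈ U
    · refine le_trans (Finset.card_le_card_of_injOn (fun p => p.1) ?_ ?_) (h2 e he)
      · intro p hp
        rw [Finset.mem_coe, Finset.mem_filter] at hp
        obtain ⟨hp, rfl⟩ := hp
        rw [Finset.mem_coe, Finset.mem_filter, Finset.mem_compl]
        have := (hDm p).1 hp
        exact ⟨this.1, this.2.2.1.symm, this.2.2.2⟩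
      · intro p hp p' hp' h
        rw [Finset.mem_coe, Finset.mem_filter] at hp hp'
        exact Prod.ext h (hp.2.trans hp'.2.symm)
    · have : (D.filter fun p => p.2 = e) = ∅ := by
        rw [Finset.filter_eq_empty_iff]
        rintro p hp rfl
        exact he ((hDm p).1 hp).2.1
      rw [this]; simp
  have hD3 : D.card ≤ Lam * s3 := by
    refine le_trans ?_ h3
    rw [Finset.card_eq_sum_card_fiberwise (f := Prod.fst) (t := (univ : Finset V))
      (fun p _ => by simp)]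
    refine (Finset.sum_le_card_nsmul _ _ s1 fun x _ => hD1 x).trans ?_
    simp
  have hqpos : (0 : ℝ) < q := by exact_mod_cast (Fact.out : q.Prime).pos
  have hC : ∀ p ∈ D, Cd p ⊆ U ∧ (∀ r ∈ Cd p, H.Adj p.1 r ∧ H.Adj p.2 r ∧ (p.1, r) ∉ D) ∧
      s1 + s1 + s3 + Lam < (Cd p).card := by
    intro p hp
    have hp' := (hDm p).1 hp
    refine ⟨fun r hr => ((hCm p r).1 hr).1.1, fun r hr => ?_, ?_⟩
    · have hr' := (hCm p r).1 hr
      refine ⟨hr'.2.2.1, hr'.2.2.2, fun hd => ?_⟩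
      exact ((hDm _).1 hd).2.2.2 hr'.1.2
    · have hsub : fr.Ul (fr.ln p.1) ⊆ Cd p ∪ ((U' ∩ fr.Ul (fr.ln p.1)) ∪
          (((fr.Ul (fr.ln p.1)).filter fun r => ¬ G.Adj p.1 r) ∪
          (ls G H (fr.Ul (fr.ln p.1)) p.1 ∪
          (((fr.Ul (fr.ln p.1)).filter fun r => ¬ G.Adj p.2 r) ∪ ls G H U p.2)))) := by
        intro r hr
        have hr' := (hUl _ _).1 hr
        by_cases c1 : r ∈ U'
        · simp [c1, hr]
        by_cases c2 : G.Adj p.1 r
        · by_cases c3 : H.Adj p.1 r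
          · by_cases c4 : G.Adj p.2 r
            · by_cases c5 : H.Adj p.2 r
              · exact Finset.mem_union_left _ ((hCm p r).2 ⟨hr', c1, c3, c5⟩)
              · have : r ∈ ls G H U p.2 := by simp [ls, hr'.1, c4, c5]
                simp [this]
            · have : r ∈ ((fr.Ul (fr.ln p.1)).filter fun r => ¬ G.Adj p.2 r) := by
                simp [hr, c4]
              simp [this]
          · have : r ∈ ls G H (fr.Ul (fr.ln p.1)) p.1 := by simp [ls, hr, c2, c3]
            simp [this]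
        · have : r ∈ ((fr.Ul (fr.ln p.1)).filter fun r => ¬ G.Adj p.1 r) := by
            simp [hr, c2]
          simp [this]
      have hcard : (fr.Ul (fr.ln p.1)).card ≤ (Cd p).card + ((U' ∩ fr.Ul (fr.ln p.1)).card +
          (((fr.Ul (fr.ln p.1)).filter fun r => ¬ G.Adj p.1 r).card +
          ((ls G H (fr.Ul (fr.ln p.1)) p.1).card +
          (((fr.Ul (fr.ln p.1)).filter fun r => ¬ G.Adj p.2 r).card + (ls G H U p.2).card)))) := by
        refine (Finset.card_le_card hsub).trans ?_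
        refine (Finset.card_union_le _ _).trans (Nat.add_le_add_left ?_ _)
        refine (Finset.card_union_le _ _).trans (Nat.add_le_add_left ?_ _)
        refine (Finset.card_union_le _ _).trans (Nat.add_le_add_left ?_ _)
        refine (Finset.card_union_le _ _).trans (Nat.add_le_add_left ?_ _)
        exact Finset.card_union_le _ _
      have hcard' : ((fr.Ul (fr.ln p.1)).card : ℝ) ≤ (Cd p).card +
          ((U' ∩ fr.Ul (fr.ln p.1)).card +
          (((fr.Ul (fr.ln p.1)).filter fun r => ¬ G.Adj p.1 r).card +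
          ((ls G H (fr.Ul (fr.ln p.1)) p.1).card +
          (((fr.Ul (fr.ln p.1)).filter fun r => ¬ G.Adj p.2 r).card +
            (ls G H U p.2).card)))) := by
        exact_mod_cast hcard
      have e1 := fr.ul' (fr.ln p.1)
      have e2 := stD1_non G (fr.Ul (fr.ln p.1)) p.1 hε (fr.deg_ul (fr.ln p.1) p.1)
      have e3 := stD1_non G (fr.Ul (fr.ln p.1)) p.2 hε (fr.deg_ul (fr.ln p.1) p.2)
      have e4 : ((ls G H (fr.Ul (fr.ln p.1)) p.1).card : ℝ) ≤ Δ := by
        exact_mod_cast h4 p.1 hp'.1 (hDB p hp)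
      have e5 : ((ls G H U p.2).card : ℝ) ≤ bb := by
        exact_mod_cast h5 p.2 hp'.2.1
      have e6 := fr.ul_ge (fr.ln p.1)
      have e7 : (0 : ℝ) ≤ ((fr.Ul (fr.ln p.1)).card : ℝ) := Nat.cast_nonneg _
      have e8 : 4 * η * ((fr.Ul (fr.ln p.1)).card : ℝ) ≤ (fr.Ul (fr.ln p.1)).card / 16 := by
        nlinarith
      have e9 : (U.card : ℝ) / (8 * q) ≤ (7 / 16) * (U.card / (2 * q)) := by
        have : (7 / 16 : ℝ) * (U.card / (2 * q)) = (7 / 4) * (U.card / (8 * q)) := by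
          field_simp
          ring
        rw [this]
        have : (0 : ℝ) ≤ U.card / (8 * q) := by positivity
        linarith
      have : (s1 : ℝ) + s1 + s3 + Lam < (Cd p).card := by linarith
      exact_mod_cast this
  obtain ⟨P, hP, hPT, hPD, hPX, hPU⟩ := stepP H Uᶜ U
    (disjoint_compl_left) D Cd s1 s1 s3 Lam hLam
    (fun p hp => by
      have := (hDm p).1 hp
      exact ⟨by simpa using this.1, this.2.1, this.2.2.1⟩) hD1 hD2 hD3 hC
  -- shape of the triangles
  have hT : ∀ T ∈ P, ∃ x e r, x ∉ U ∧ e ∈ U ∧ ¬ fr.R x e ∧ r ∈ U ∧ r ∉ U' ∧ T = {x, e, r} := by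
    intro T hTP
    obtain ⟨p, hp, r, hr, rfl⟩ := hPT T hTP
    have hp' := (hDm p).1 hp
    have hr' := (hCm p r).1 hr
    exact ⟨p.1, p.2, r, hp'.1, hp'.2.1, hp'.2.2.2, hr'.1.1, hr'.2.1, rfl⟩
  refine ⟨unc H P, ⟨P, hP, rfl⟩, ?_, ?_, ?_, ?_⟩
  · intro x hx u hu hR hadj
    obtain ⟨T, hTP, h6, h7⟩ := hPD (x, u) ((hDm _).2 ⟨hx, hu, hadj.1, hR⟩)
    exact hadj.2 T hTP ⟨h6, h7⟩
  · intro x hx hxB
    have hsub : ls G (unc H P) (fr.Ul (fr.ln x)) x ⊆ ls G H (fr.Ul (fr.ln x)) x ∪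
        ((fr.Ul (fr.ln x)).filter fun b => H.Adj x b ∧ ∃ T ∈ P, x ∈ T ∧ b ∈ T) := by
      intro b hb
      simp only [ls, Finset.mem_filter, Finset.mem_union, unc] at hb ⊢
      by_cases hHb : H.Adj x b
      · right
        refine ⟨hb.1, hHb, ?_⟩
        by_contra hcon
        push Not at hcon
        exact hb.2.2 ⟨hHb, fun T hTP hh => hcon T hTP hh.1 hh.2⟩
      · left
        exact ⟨hb.1, hb.2.1, hHb⟩
    refine (Finset.card_le_card hsub).trans ((Finset.card_union_le _ _).trans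
      (Nat.add_le_add (h4 x hx hxB) ?_))
    refine le_trans ?_ (hPX x (by simpa using hx))
    apply Finset.card_le_card_of_forall_subsingleton (fun b T => b ∈ T)
    · intro b hb
      rw [Finset.mem_filter] at hb
      obtain ⟨hb1, hb2, T, hTP, hxT, hbT⟩ := hb
      exact ⟨T, Finset.mem_filter.2 ⟨hTP, hxT⟩, hbT⟩
    · intro T hTP b hb b' hb'
      rw [Finset.mem_filter] at hTP
      obtain ⟨hTP, hxT⟩ := hTP
      simp only [Set.mem_ofPred_eq, Finset.mem_filter] at hb hb'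
      obtain ⟨x', e, r, hx', he, hR, hr, hrU', rfl⟩ := hT T hTP
      have hxx' : x = x' := by
        simp only [Finset.mem_insert, Finset.mem_singleton] at hxT
        rcases hxT with h | h | h
        · exact h
        · exact absurd (h ▸ he) hx
        · exact absurd (h ▸ hr) hx
      subst hxx'
      have key : ∀ c, c ∈ fr.Ul (fr.ln x) → c ∈ ({x, e, r} : Finset V) → c = r := by
        intro c hc hcT
        simp only [Finset.mem_insert, Finset.mem_singleton] at hcT
        have hc' := (hUl _ _).1 hc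
        rcases hcT with h | h | h
        · exact absurd (h ▸ hc'.1) hx
        · subst h
          exact absurd hc'.2 hR
        · exact h
      rw [key b hb.1.1 hb.2, key b' hb'.1.1 hb'.2]
  · intro u hu
    have hsub : ls G (unc H P) U u ⊆ ls G H U u ∪
        (U.filter fun b => H.Adj u b ∧ ∃ T ∈ P, u ∈ T ∧ b ∈ T) := by
      intro b hb
      simp only [ls, Finset.mem_filter, Finset.mem_union, unc] at hb ⊢
      by_cases hHb : H.Adj u b
      · right
        refine ⟨hb.1, hHb, ?_⟩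
        by_contra hcon
        push Not at hcon
        exact hb.2.2 ⟨hHb, fun T hTP hh => hcon T hTP hh.1 hh.2⟩
      · left
        exact ⟨hb.1, hb.2.1, hHb⟩
    rw [add_assoc]
    refine (Finset.card_le_card hsub).trans ((Finset.card_union_le _ _).trans
      (Nat.add_le_add (h5 u hu) ?_))
    refine le_trans ?_ (hPU u hu)
    apply Finset.card_le_card_of_forall_subsingleton (fun b T => b ∈ T)
    · intro b hb
      rw [Finset.mem_filter] at hb
      obtain ⟨hb1, hb2, T, hTP, hxT, hbT⟩ := hb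
      exact ⟨T, Finset.mem_filter.2 ⟨hTP, hxT⟩, hbT⟩
    · intro T hTP b hb b' hb'
      rw [Finset.mem_filter] at hTP
      obtain ⟨hTP, huT⟩ := hTP
      simp only [Set.mem_ofPred_eq, Finset.mem_filter] at hb hb'
      obtain ⟨x', e, r, hx', he, hR, hr, hrU', rfl⟩ := hT T hTP
      obtain ⟨⟨hbU, hub, -⟩, hbT⟩ := hb
      obtain ⟨⟨hbU', hub', -⟩, hbT'⟩ := hb'
      have key : ∀ c, c ∈ U → c ∈ ({x', e, r} : Finset V) → c = e ∨ c = r := by
        intro c hc hcT
        simp only [Finset.mem_insert, Finset.mem_singleton] at hcT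
        rcases hcT with h | h | h
        · exact absurd (h ▸ hc) hx'
        · exact Or.inl h
        · exact Or.inr h
      have hub1 := hub.ne
      have hub2 := hub'.ne
      rcases key u hu huT with h | h <;> rcases key b hbU hbT with h' | h' <;>
        rcases key b' hbU' hbT' with h'' | h'' <;> subst h <;> subst h' <;> subst h'' <;>
        first
          | rfl
          | exact absurd rfl hub1
          | exact absurd rfl hub2
  · intro u hu u' hu' hadj
    refine ⟨hadj, ?_⟩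
    rintro T hTP ⟨huT, huT'⟩
    obtain ⟨x', e, r, hx', he, hR, hr, hrU', rfl⟩ := hT T hTP
    have key : ∀ c, c ∈ U' → c ∈ ({x', e, r} : Finset V) → c = e := by
      intro c hc hcT
      simp only [Finset.mem_insert, Finset.mem_singleton] at hcT
      rcases hcT with h | h | h
      · exact absurd (h ▸ hU'U hc) hx'
      · exact h
      · exact absurd (h ▸ hc) hrU'
    exact hadj.ne ((key u hu huT).trans (key u' hu' huT').symm)

end Pool.NSH
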