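import Pool.Agent.NSH.FrB
import Pool.Agent.NSH.Apex

/-!
MODULE StD2 (difficulty 4).  Line by line: the reserved edges.

RECIPE: for each line `l` apply `apex` to `H` with `X = Wl l \ Bw`, `Q = A = Ul l`, `N x = nb H univ x` and `F_l =` the graph of the edges
`u u'` of `H` with `u, u' ∈ A`, `pt u ≠ pt u'`, not both in `U'`.  For `x ∈ X`: an `H`-neighbour of `x` is in `U` (`hW`) and reserved (`hR`), so in
`A`; `|N x|` is even (`hpar`), `|N x| ≥ (3/4) |A| - Δ` (`deg_ul`, `h4`).  For `u ∈ N x` the elements of `N x` which are no `F_l`-neighbours of `u`: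
no `G`-neighbours (`≤ |A| / 4`), lost (`≤ bb`), in the part of `pt u` (`≤ (4/q) |A|`, `up_le`), in `U' ∩ A` (`≤ 4 η |A|`).  So
`2 |nb F_l (N x) u| - |N x| ≥ |N x| - |A| / 2 - 8 |A| / q - 8 η |A| - 2 bb ≥ |A| (1/4 - 1/16 - 1/16) - Δ - 2 bb = |A| / 8 - Δ - 2 bb
≥ 2 |Wl l|` by `hnum` (`|A| ≥ u / (2 q)`, `2 |Wl l| ≤ 4 n / q ^ 2`).
`P = ` union over the lines (`IsPacking.biUnion`): `{x, u, u'} ∈ P_l` and `{y, v, v'} ∈ P_l'` (`l ≠ l'`): `ln x = l ≠ l' = ln y`, so a common
pair would be `{u, u'} = {v, v'}` with `pt u ≠ pt u'` both on `l` and on `l'`: contradiction to `Inc.unique`.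
`H' = unc H P`: an edge with an end `x ∉ U` has `x ∉ Bw` (`hB`), and is covered by `P_(ln x)`.  `ls H H' U u`: every `T ∋ u` contains one other
element of `U`, and `T ∈ P_l` with `u ∈ Ul l`: at most `∑_{l ∋ pt u} |Wl l| ≤ 2 n / q` (`through`).
-/

open Finset
open scoped Classical

namespace Pool.NSH

/-- the structure of the triangles used for the line `l` -/
def Std2Tri {V : Type*} [Fintype V] {G : SimpleGraph V} {U U' : Finset V} {q K : ℕ} {ε η : ℝ}
    (fr : Frame G U U' q K ε η) (l : Ln q) (T : Finset V) : Prop :=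
  ∃ x u u', T = {x, u, u'} ∧ x ∉ U ∧ fr.ln x = l ∧ u ∈ U ∧ u' ∈ U ∧ Inc (fr.pt u) l ∧
    Inc (fr.pt u') l ∧ fr.pt u ≠ fr.pt u' ∧ ¬ (u ∈ U' ∧ u' ∈ U')

theorem std2_out {V : Type*} [Fintype V] {G : SimpleGraph V} {U U' : Finset V} {q K : ℕ}
    {ε η : ℝ} {fr : Frame G U U' q K ε η} {l : Ln q} {T : Finset V} (h : Std2Tri fr l T)
    {a : V} (ha : a ∈ T) (haU : a ∉ U) : fr.ln a = l := by
  obtain ⟨x, u, u', rfl, hx, hl, hu, hu', -⟩ := h
  simp only [mem_insert, mem_singleton] at ha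
  rcases ha with rfl | rfl | rfl
  · exact hl
  · exact absurd hu haU
  · exact absurd hu' haU

theorem std2_in {V : Type*} [Fintype V] {G : SimpleGraph V} {U U' : Finset V} {q K : ℕ}
    {ε η : ℝ} {fr : Frame G U U' q K ε η} {l : Ln q} {T : Finset V} (h : Std2Tri fr l T)
    {a : V} (ha : a ∈ T) (haU : a ∈ U) : Inc (fr.pt a) l := by
  obtain ⟨x, u, u', rfl, hx, hl, hu, hu', h1, h2, -⟩ := h
  simp only [mem_insert, mem_singleton] at ha
  rcases ha with rfl | rfl | rfl
  · exact absurd haU hx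
  · exact h1
  · exact h2

theorem std2_pair {V : Type*} [Fintype V] {G : SimpleGraph V} {U U' : Finset V} {q K : ℕ}
    {ε η : ℝ} {fr : Frame G U U' q K ε η} {l : Ln q} {T : Finset V} (h : Std2Tri fr l T)
    {a b : V} (ha : a ∈ T) (haU : a ∈ U) (hb : b ∈ T) (hbU : b ∈ U) (hab : a ≠ b) :
    fr.pt a ≠ fr.pt b ∧ ¬ (a ∈ U' ∧ b ∈ U') := by
  obtain ⟨x, u, u', rfl, hx, hl, hu, hu', h1, h2, h3, h4⟩ := h
  simp only [mem_insert, mem_singleton] at ha hb
  rcases ha with rfl | rfl | rfl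
  · exact absurd haU hx
  · rcases hb with rfl | rfl | rfl
    · exact absurd hbU hx
    · exact absurd rfl hab
    · exact ⟨h3, h4⟩
  · rcases hb with rfl | rfl | rfl
    · exact absurd hbU hx
    · exact ⟨fun h => h3 h.symm, fun h => h4 ⟨h.2, h.1⟩⟩
    · exact absurd rfl hab

/-- at most one other element of `U` -/
theorem std2_one {V : Type*} [Fintype V] {G : SimpleGraph V} {U U' : Finset V} {q K : ℕ}
    {ε η : ℝ} {fr : Frame G U U' q K ε η} {l : Ln q} {T : Finset V} (h : Std2Tri fr l T)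
    {a b c : V} (ha : a ∈ T) (haU : a ∈ U) (hb : b ∈ T) (hbU : b ∈ U) (hab : a ≠ b)
    (hc : c ∈ T) (hcU : c ∈ U) (hac : a ≠ c) : b = c := by
  obtain ⟨x, u, u', rfl, hx, hl, hu, hu', h1, h2, h3, h4⟩ := h
  simp only [mem_insert, mem_singleton] at ha hb hc
  rcases ha with rfl | rfl | rfl <;> rcases hb with rfl | rfl | rfl <;>
    rcases hc with rfl | rfl | rfl <;>
      first
        | rfl
        | exact absurd rfl hab
        | exact absurd rfl hac
        | exact absurd haU hx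
        | exact absurd hbU hx
        | exact absurd hcU hx

theorem stD2 {V : Type*} [Fintype V] {G : SimpleGraph V} {U U' : Finset V} {q K : ℕ} {ε η : ℝ}
    [Fact q.Prime] (fr : Frame G U U' q K ε η) (hε : 0 < ε) (hη : η ≤ 1 / 128) (hq : 128 ≤ q)
    (hU'U : U' ⊆ U)
    (H : SimpleGraph V) (hH : H ≤ G) (Bw : Finset V) (Δ bb : ℕ)
    (hW : ∀ x y, x ∉ U → y ∉ U → ¬ H.Adj x y) (hB : ∀ b ∈ Bw, ∀ v, ¬ H.Adj b v)
    (hR : ∀ x, x ∉ U → ∀ u ∈ U, ¬ fr.R x u → ¬ H.Adj x u)
    (h4 : ∀ x, x ∉ U → x ∉ Bw → (ls G H (fr.Ul (fr.ln x)) x).card ≤ Δ)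
    (h5 : ∀ u ∈ U, (ls G H U u).card ≤ bb) (hpar : ∀ x, x ∉ U → Even (nb H univ x).card)
    (hnum : (Δ : ℝ) + 2 * bb + 4 * Fintype.card V / (q : ℝ) ^ 2 ≤ U.card / (16 * q)) :
    ∃ H' : SimpleGraph V, Red H H' ∧ On H' U ∧
      (∀ u ∈ U', ∀ u' ∈ U', H.Adj u u' → H'.Adj u u') ∧
      (∀ u ∈ U, ((ls H H' U u).card : ℝ) ≤ 2 * Fintype.card V / q) := by
  have hq0 : (0 : ℝ) < q := by
    have : 0 < q := by omega
    exact_mod_cast this
  have hq128 : (128 : ℝ) ≤ q := by exact_mod_cast hq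
  have hUl : ∀ l v, v ∈ fr.Ul l ↔ v ∈ U ∧ Inc (fr.pt v) l := by
    intro l v
    simp [Frame.Ul]
  have hWl : ∀ l v, v ∈ fr.Wl l ↔ v ∉ U ∧ fr.ln v = l := by
    intro l v
    simp [Frame.Wl]
  -- the sets and graphs
  obtain ⟨X, hXdef⟩ : ∃ X : Ln q → Finset V, X = fun l => (fr.Wl l).filter fun x => x ∉ Bw :=
    ⟨_, rfl⟩
  have hX : ∀ l v, v ∈ X l ↔ (v ∉ U ∧ fr.ln v = l) ∧ v ∉ Bw := by
    intro l v
    simp only [hXdef, mem_filter, hWl]
  obtain ⟨F, hF⟩ : ∃ F : Ln q → SimpleGraph V, ∀ l a b, (F l).Adj a b ↔ H.Adj a b ∧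
      a ∈ fr.Ul l ∧ b ∈ fr.Ul l ∧ fr.pt a ≠ fr.pt b ∧ ¬ (a ∈ U' ∧ b ∈ U') :=
    ⟨fun l =>
      { Adj := fun a b => H.Adj a b ∧ a ∈ fr.Ul l ∧ b ∈ fr.Ul l ∧ fr.pt a ≠ fr.pt b ∧
          ¬ (a ∈ U' ∧ b ∈ U')
        symm := ⟨fun _ _ h => ⟨h.1.symm, h.2.2.1, h.2.1, fun h' => h.2.2.2.1 h'.symm,
          fun h' => h.2.2.2.2 ⟨h'.2, h'.1⟩⟩⟩
        loopless := ⟨fun _ h => H.loopless.irrefl _ h.1⟩ }, fun l a b => Iff.rfl⟩
  obtain ⟨N, hNdef⟩ : ∃ N : V → Finset V, N = fun x => nb H univ x := ⟨_, rfl⟩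
  have hN : ∀ x v, v ∈ N x ↔ H.Adj x v := by
    intro x v
    simp [hNdef, nb]
  have hNsub : ∀ l, ∀ x ∈ X l, N x ⊆ fr.Ul l := by
    intro l x hx v hv
    rw [hN] at hv
    rw [hX] at hx
    obtain ⟨⟨hxU, hxl⟩, hxB⟩ := hx
    have hvU : v ∈ U := by
      by_contra h
      exact hW x v hxU h hv
    rw [hUl]
    refine ⟨hvU, ?_⟩
    by_contra h
    refine hR x hxU v hvU ?_ hv
    unfold Frame.R
    rw [hxl]
    exact h
  have hdisj : ∀ l, Disjoint (X l) (fr.Ul l) := by
    intro l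
    rw [Finset.disjoint_left]
    intro x hx hx'
    rw [hX] at hx
    rw [hUl] at hx'
    exact hx.1.1 hx'.1
  -- the degree condition
  have hdeg : ∀ l, ∀ x ∈ X l, ∀ v ∈ N x,
      (N x).card + 2 * (X l).card ≤ 2 * (nb (F l) (N x) v).card := by
    intro l x hx v hv
    have hxX := (hX l x).1 hx
    obtain ⟨⟨hxU, hxl⟩, hxB⟩ := hxX
    obtain ⟨A, hA⟩ : ∃ A : Finset V, A = fr.Ul l := ⟨_, rfl⟩
    have hvA : v ∈ A := by rw [hA]; exact hNsub l x hx hv
    have hvU : v ∈ U := by rw [hA, hUl] at hvA; exact hvA.1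
    -- N x is large
    have h1 : (nb G A x).card ≤ (N x).card + (ls G H A x).card := by
      refine (card_le_card ?_).trans (card_union_le _ _)
      intro w hw
      unfold nb at hw
      rw [mem_filter] at hw
      rw [mem_union, hN]
      by_cases h : H.Adj x w
      · exact Or.inl h
      · right
        unfold ls
        rw [mem_filter]
        exact ⟨hw.1, hw.2, h⟩
    have h2 : (ls G H A x).card ≤ Δ := by
      have := h4 x hxU hxB
      rw [hxl] at this
      rw [hA]
      exact this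
    have h3 := fr.deg_ul l x
    have h3' := fr.deg_ul l v
    rw [← hA] at h3 h3'
    -- few non-neighbours
    have h5' : (N x).card ≤ (nb (F l) (N x) v).card + ((A.filter fun w => ¬ G.Adj v w).card +
        (ls G H U v).card + (U.filter fun w => fr.pt w = fr.pt v).card +
        (U' ∩ fr.Ul l).card) := by
      have hsub : N x ⊆ nb (F l) (N x) v ∪ ((((A.filter fun w => ¬ G.Adj v w) ∪
          ls G H U v) ∪ (U.filter fun w => fr.pt w = fr.pt v)) ∪ (U' ∩ fr.Ul l)) := by
        intro w hw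
        have hwA : w ∈ fr.Ul l := hNsub l x hx hw
        have hwU : w ∈ U := ((hUl l w).1 hwA).1
        simp only [mem_union]
        by_cases c1 : G.Adj v w
        · by_cases c2 : H.Adj v w
          · by_cases c3 : fr.pt w = fr.pt v
            · right; left; right
              rw [mem_filter]
              exact ⟨hwU, c3⟩
            · by_cases c4 : w ∈ U'
              · right; right
                rw [mem_inter]
                exact ⟨c4, hwA⟩
              · left
                unfold nb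
                rw [mem_filter, hF]
                exact ⟨hw, c2, by rw [hA] at hvA; exact hvA, hwA, fun h => c3 h.symm,
                  fun h => c4 h.2⟩
          · right; left; left; right
            unfold ls
            rw [mem_filter]
            exact ⟨hwU, c1, c2⟩
        · right; left; left; left
          rw [mem_filter, hA]
          exact ⟨hwA, c1⟩
      refine (card_le_card hsub).trans ?_
      refine (card_union_le _ _).trans ?_
      gcongr
      refine (card_union_le _ _).trans ?_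
      gcongr
      refine (card_union_le _ _).trans ?_
      gcongr
      exact card_union_le _ _
    have h6 : (nb G A v).card + (A.filter fun w => ¬ G.Adj v w).card = A.card := by
      unfold nb
      exact Finset.card_filter_add_card_filter_not (fun w => G.Adj v w)
    have h7 := h5 v hvU
    have h8 := fr.up_le l (fr.pt v)
    have h9 := fr.ul' l
    have h10 := fr.ul_ge l
    rw [← hA] at h8 h9 h10
    have h11 : ((X l).card : ℝ) ≤ 2 * Fintype.card V / (q : ℝ) ^ 2 := by
      refine le_trans ?_ (fr.sizeW l)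
      have : X l ⊆ Uᶜ.filter fun v => fr.ln v = l := by
        intro w hw
        rw [hX] at hw
        rw [mem_filter, mem_compl]
        exact hw.1
      exact_mod_cast card_le_card this
    have hA0 : (0 : ℝ) ≤ A.card := Nat.cast_nonneg _
    have h12 : 4 / (q : ℝ) * A.card ≤ A.card / 32 := by
      have : 4 / (q : ℝ) ≤ 1 / 32 := by
        rw [div_le_div_iff₀ hq0 (by norm_num)]
        linarith
      calc 4 / (q : ℝ) * A.card ≤ 1 / 32 * A.card := by gcongr
        _ = A.card / 32 := by ring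
    have h13 : 4 * η * (A.card : ℝ) ≤ A.card / 32 := by nlinarith
    have h1R : ((nb G A x).card : ℝ) ≤ (N x).card + (ls G H A x).card := by exact_mod_cast h1
    have h2R : ((ls G H A x).card : ℝ) ≤ Δ := by exact_mod_cast h2
    have h5R : ((N x).card : ℝ) ≤ (nb (F l) (N x) v).card + ((A.filter fun w => ¬ G.Adj v w).card +
        (ls G H U v).card + (U.filter fun w => fr.pt w = fr.pt v).card +
        (U' ∩ A).card) := by
      rw [hA]
      rw [hA] at h5'
      exact_mod_cast h5'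
    have h6R : ((nb G A v).card : ℝ) + (A.filter fun w => ¬ G.Adj v w).card = A.card := by
      exact_mod_cast h6
    have h7R : ((ls G H U v).card : ℝ) ≤ bb := by exact_mod_cast h7
    have h14 : (U.card : ℝ) / (16 * q) ≤ A.card / 8 := by
      have : (U.card : ℝ) / (16 * q) = U.card / (2 * q) / 8 := by
        rw [div_div]; ring_nf
      rw [this]
      linarith
    have h15 : 0 ≤ ε / 2 * (A.card : ℝ) := by positivity
    have h16 : 4 * (Fintype.card V : ℝ) / (q : ℝ) ^ 2 = 2 * (2 * Fintype.card V / (q : ℝ) ^ 2) := by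
      ring
    have h17 : ((N x).card : ℝ) + 2 * (X l).card ≤ 2 * (nb (F l) (N x) v).card := by
      nlinarith
    exact_mod_cast h17
  -- the packings
  have hap : ∀ l, ∃ P : Finset (Finset V), IsPacking H P ∧
      (∀ T ∈ P, ∃ x ∈ X l, ∃ u ∈ N x, ∃ u' ∈ N x, (F l).Adj u u' ∧ T = {x, u, u'}) ∧
      (∀ x ∈ X l, ∀ u ∈ N x, ∃ T ∈ P, x ∈ T ∧ u ∈ T) ∧
      (∀ u, u ∉ X l → (P.filter fun T => u ∈ T).card ≤ (X l).card) := by
    intro l
    refine apex H (F l) (X l) (fr.Ul l) N (hdisj l) ?_ (hNsub l) ?_ ?_ (hdeg l)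
    · intro a b h
      exact ((hF l a b).1 h).1
    · intro x _ v hv
      exact (hN x v).1 hv
    · intro x hx
      rw [hNdef]
      exact hpar x ((hX l x).1 hx).1.1
  choose P hP1 hP2 hP3 hP4 using hap
  have htri : ∀ l, ∀ T ∈ P l, Std2Tri fr l T := by
    intro l T hT
    obtain ⟨x, hx, v, hv, v', hv', hFv, rfl⟩ := hP2 l T hT
    have hx' := (hX l x).1 hx
    have hF' := (hF l v v').1 hFv
    have hv1 := (hUl l v).1 (hNsub l x hx hv)
    have hv2 := (hUl l v').1 (hNsub l x hx hv')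
    exact ⟨x, v, v', rfl, hx'.1.1, hx'.1.2, hv1.1, hv2.1, hv1.2, hv2.2, hF'.2.2.2.1,
      hF'.2.2.2.2⟩
  have hPk : IsPacking H ((univ : Finset (Ln q)).biUnion P) := by
    refine IsPacking.biUnion univ P (fun l _ => hP1 l) ?_
    intro l _ l' _ hll T hT T' hT' a b hab ha hb ha' hb'
    have t1 := htri l T hT
    have t2 := htri l' T' hT'
    by_cases haU : a ∈ U
    · by_cases hbU : b ∈ U
      · exact hll (Inc.unique (std2_pair t1 ha haU hb hbU hab).1 (std2_in t1 ha haU)
          (std2_in t1 hb hbU) (std2_in t2 ha' haU) (std2_in t2 hb' hbU))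
      · exact hll ((std2_out t1 hb hbU).symm.trans (std2_out t2 hb' hbU))
    · exact hll ((std2_out t1 ha haU).symm.trans (std2_out t2 ha' haU))
  have hmem : ∀ T ∈ (univ : Finset (Ln q)).biUnion P, ∃ l, T ∈ P l := by
    intro T hT
    rw [mem_biUnion] at hT
    obtain ⟨l, -, hl⟩ := hT
    exact ⟨l, hl⟩
  refine ⟨unc H ((univ : Finset (Ln q)).biUnion P), ⟨_, hPk, rfl⟩, ?_, ?_, ?_⟩
  · have key : ∀ a b, (unc H ((univ : Finset (Ln q)).biUnion P)).Adj a b → a ∈ U := by
      intro a b h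
      by_contra haU
      have hab : H.Adj a b := h.1
      by_cases haB : a ∈ Bw
      · exact hB a haB b hab
      · obtain ⟨T, hT, h1, h2⟩ := hP3 (fr.ln a) a ((hX _ a).2 ⟨⟨haU, rfl⟩, haB⟩) b
          ((hN a b).2 hab)
        exact h.2 T (mem_biUnion.2 ⟨fr.ln a, mem_univ _, hT⟩) ⟨h1, h2⟩
    intro a b h
    exact ⟨key a b h, key b a h.symm⟩
  · intro v hv v' hv' h
    refine ⟨h, ?_⟩
    intro T hT hTv
    obtain ⟨l, hl⟩ := hmem T hT
    exact (std2_pair (htri l T hl) hTv.1 (hU'U hv) hTv.2 (hU'U hv') h.ne).2 ⟨hv, hv'⟩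
  · intro v hv
    -- every lost neighbour is in a triangle of a line through the point of `v`
    have hch : ∀ w ∈ ls H (unc H ((univ : Finset (Ln q)).biUnion P)) U v,
        ∃ l T, T ∈ P l ∧ v ∈ T ∧ w ∈ T ∧ w ∈ U ∧ v ≠ w := by
      intro w hw
      unfold ls at hw
      rw [mem_filter] at hw
      obtain ⟨hwU, hvw, hn⟩ := hw
      by_contra hcon
      push Not at hcon
      apply hn
      refine ⟨hvw, ?_⟩
      intro T hT hTv
      obtain ⟨l, hl⟩ := hmem T hT
      exact hvw.ne (hcon l T hl hTv.1 hTv.2 hwU)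
    have hle : (ls H (unc H ((univ : Finset (Ln q)).biUnion P)) U v).card ≤
        ∑ l ∈ univ.filter (fun l => Inc (fr.pt v) l), ((P l).filter fun T => v ∈ T).card := by
      have hsub : ls H (unc H ((univ : Finset (Ln q)).biUnion P)) U v ⊆
          (univ.filter (fun l => Inc (fr.pt v) l)).biUnion fun l =>
            ((P l).filter fun T => v ∈ T).biUnion fun T => T.filter fun w => w ∈ U ∧ v ≠ w := by
        intro w hw
        obtain ⟨l, T, hT, h1, h2, h3, h4⟩ := hch w hw
        rw [mem_biUnion]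
        refine ⟨l, ?_, ?_⟩
        · rw [mem_filter]
          exact ⟨mem_univ _, std2_in (htri l T hT) h1 hv⟩
        · rw [mem_biUnion]
          refine ⟨T, ?_, ?_⟩
          · rw [mem_filter]
            exact ⟨hT, h1⟩
          · rw [mem_filter]
            exact ⟨h2, h3, h4⟩
      refine (card_le_card hsub).trans ?_
      refine card_biUnion_le.trans ?_
      refine sum_le_sum ?_
      intro l _
      refine card_biUnion_le.trans ?_
      rw [card_eq_sum_ones]
      refine sum_le_sum ?_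
      intro T hT
      rw [mem_filter] at hT
      rw [Finset.card_le_one]
      intro b hb c hc
      rw [mem_filter] at hb hc
      exact std2_one (htri l T hT.1) hT.2 hv hb.1 hb.2.1 hb.2.2 hc.1 hc.2.1 hc.2.2
    have hle2 : ∀ l, ((P l).filter fun T => v ∈ T).card ≤ (fr.Wl l).card := by
      intro l
      refine (hP4 l v ?_).trans (card_le_card ?_)
      swap
      · rw [hXdef]
        exact filter_subset _ _
      intro h
      exact ((hX l v).1 h).1.1 hv
    calc ((ls H (unc H ((univ : Finset (Ln q)).biUnion P)) U v).card : ℝ)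
        ≤ ((∑ l ∈ univ.filter (fun l => Inc (fr.pt v) l),
            ((P l).filter fun T => v ∈ T).card : ℕ) : ℝ) := by exact_mod_cast hle
      _ ≤ ((∑ l ∈ univ.filter (fun l => Inc (fr.pt v) l), (fr.Wl l).card : ℕ) : ℝ) := by
          exact_mod_cast sum_le_sum fun l _ => hle2 l
      _ = ∑ l ∈ univ.filter (fun l => Inc (fr.pt v) l), ((fr.Wl l).card : ℝ) := by
          push_cast; rfl
      _ ≤ 2 * Fintype.card V / q := fr.through v

end Pool.NSH
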