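import Pool.Agent.NSH.Fram
import Pool.Agent.NSH.Prep
import Pool.Agent.NSH.StC
import Pool.Agent.NSH.StD0
import Pool.Agent.NSH.StD1
import Pool.Agent.NSH.StD2
import Pool.Agent.NSH.RedPar

/-!
MODULE Cdl (difficulty 4).  The cover-down lemma.

RECIPE.  Parameters: a prime `q ≥ 128`, `q ≥ 16/ε`, `q ≥ 256/η`, `q ≥ 16/(μ η)`; `K ≥ 16/ε`, `K ≥ 128 q (q+1) / η`;
`β > 0` small: `β ≤ 1/(64 K)`, `√β ≤ η / (1000 q (q+1))` and `√β ≤ μ η / 100` suffice.  (`η ≤ ε/8 ≤ 1/128`.)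
`n₀`: from `exists_frame`, `prep`, and such that `1 ≤ β n`.  With `fr` the frame and `u = |U| ≥ η n / 2`:
1. `prep`: `G₂`, `B`.
2. `stC` with `H = G₂`, `Δ = ⌊(3 β + 2/K) n⌋`: `2 Δ ≤ (6 β + 4/K) n < η n / (8 q (q+1)) ≤ u / (4 q (q+1))`.  Get `H₁`.
3. `stD0` with `H = H₁`, `Bw = B.filter (· ∉ U)`: the edges of `G` inside `U` are in `G₂`, hence in `H₁`; for `b ∈ Bw` the `G`-edges to `U` are in `G₂`
   (last property of `prep`), so `ls G H₁ U b ⊆ ls G₂ H₁ U b`, `≤ Δ`; parity: `Red.even` for `Red G H₁`; `(3/4) u ≤ |nb G U v|`;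
   `|U'| ≤ η u ≤ u/16`; `Δ + 2 β n ≤ u / 8`.  Get `H₂`.
4. `stD1` with `H = H₂`, `s1 = ⌊3 β n⌋`, `Lam = ⌈√β n⌉`, `s3 = ⌈3 √β n⌉` (`n s1 ≤ 3 β n ^ 2 ≤ Lam s3`), `bb = ⌊β n⌋`:
   `h1, h2` since `H₂ ≤ H₁ ≤ G₂`; `h4`: for `x ∉ U`, `x ∉ Bw`, `r ∈ Ul (ln x)`: `R x r`, so `G.Adj x r → G₂.Adj x r`, and `H₂` has all edges of `H₁` at `x`:
   `ls G H₂ .. x ⊆ ls G₂ H₁ U x`; `h5`: `ls G H₂ U u ⊆ ls H₁ H₂ U u`, `≤ |Bw| ≤ bb`.  Get `H₃`.
5. `stD2` with `H = H₃`, `Δ' = Δ + s1`, `bb' = bb + s1 + Lam`: `hW, hB` since `H₃ ≤ H₂ ≤ H₁`; parity by `Red.even` for `Red G H₃`;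
   `Δ' + 2 bb' ≤ u / (32 q)` and `4 n / q ^ 2 ≤ u / (32 q)` (`q ≥ 256/η`).  Get `H₄ = H`.
`Red G H₄` by transitivity.  Edges inside `U'`: kept in every step.  `ls G H₄ U u ⊆ ls G H₃ U u ∪ ls H₃ H₄ U u`:
`≤ bb' + 2 n / q ≤ μ η n / 2 ≤ μ u`.
-/

open Finset
open scoped Classical

namespace Pool.NSH

/-- numerical parameters -/
theorem cdl_par {ε η μ : ℝ} (hη : 0 < η) (hμ : 0 < μ) :
    ∃ q K : ℕ, ∃ σ : ℝ, q.Prime ∧ 128 ≤ q ∧ 16 / ε ≤ (q : ℝ) ∧ 256 / η ≤ (q : ℝ) ∧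
      16 / (μ * η) ≤ (q : ℝ) ∧ 0 < K ∧ 16 / ε ≤ (K : ℝ) ∧
      128 * ((q : ℝ) * (q + 1)) / η ≤ K ∧ 0 < σ ∧ σ ≤ 1 / (64 * K) ∧
      σ ≤ η / (1000 * ((q : ℝ) * (q + 1))) ∧ σ ≤ μ * η / 100 := by
  obtain ⟨q, hq1, hq2⟩ := Nat.exists_infinite_primes
    (128 + ⌈16 / ε⌉₊ + ⌈256 / η⌉₊ + ⌈16 / (μ * η)⌉₊)
  have hqR : ((128 + ⌈16 / ε⌉₊ + ⌈256 / η⌉₊ + ⌈16 / (μ * η)⌉₊ : ℕ) : ℝ) ≤ q := by
    exact_mod_cast hq1
  push_cast at hqR
  have a1 := Nat.le_ceil (16 / ε)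
  have a2 := Nat.le_ceil (256 / η)
  have a3 := Nat.le_ceil (16 / (μ * η))
  have p1 : (0 : ℝ) ≤ ⌈16 / ε⌉₊ := Nat.cast_nonneg _
  have p2 : (0 : ℝ) ≤ ⌈256 / η⌉₊ := Nat.cast_nonneg _
  have p3 : (0 : ℝ) ≤ ⌈16 / (μ * η)⌉₊ := Nat.cast_nonneg _
  have hq0 : (0 : ℝ) < q := by linarith
  obtain ⟨K, hK⟩ : ∃ K : ℕ, K = 1 + ⌈16 / ε⌉₊ + ⌈128 * ((q : ℝ) * (q + 1)) / η⌉₊ := ⟨_, rfl⟩
  have hKR : (K : ℝ) = 1 + ⌈16 / ε⌉₊ + ⌈128 * ((q : ℝ) * (q + 1)) / η⌉₊ := by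
    rw [hK]; push_cast; ring
  have a4 := Nat.le_ceil (128 * ((q : ℝ) * (q + 1)) / η)
  have p4 : (0 : ℝ) ≤ ⌈128 * ((q : ℝ) * (q + 1)) / η⌉₊ := Nat.cast_nonneg _
  have hK0 : (0 : ℝ) < K := by rw [hKR]; linarith
  refine ⟨q, K, min (1 / (64 * (K : ℝ))) (min (η / (1000 * ((q : ℝ) * (q + 1)))) (μ * η / 100)),
    hq2, by omega, by linarith, by linarith, by linarith, by omega, by rw [hKR]; linarith,
    by rw [hKR]; linarith, ?_, min_le_left _ _, (min_le_right _ _).trans (min_le_left _ _),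
    (min_le_right _ _).trans (min_le_right _ _)⟩
  refine lt_min (by positivity) (lt_min (by positivity) (by positivity))

theorem cdl {ε η μ : ℝ} (hε : 0 < ε) (hε1 : ε ≤ 1 / 16) (hη : 0 < η) (hηε : η ≤ ε / 8)
    (hμ : 0 < μ) :
    ∃ n₀ : ℕ, ∀ (V : Type) [Fintype V] (G : SimpleGraph V) (U U' : Finset V),
      n₀ ≤ Fintype.card V → η / 2 * Fintype.card V ≤ U.card → U.card ≤ η * Fintype.card V →
      U' ⊆ U → U'.card ≤ η * U.card →
      (∀ v, (3 / 4 + ε) * Fintype.card V ≤ ((nb G univ v).card : ℝ)) →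
      (∀ v, (3 / 4 + ε) * U.card ≤ ((nb G U v).card : ℝ)) →
      (∀ v, v ∉ U → Even (nb G univ v).card) →
      ∃ H : SimpleGraph V, Red G H ∧ On H U ∧
        (∀ u ∈ U', ∀ u' ∈ U', G.Adj u u' → H.Adj u u') ∧
        (∀ u ∈ U, ((ls G H U u).card : ℝ) ≤ μ * U.card) := by
  obtain ⟨q, K, σ, hqp, hq128, hqε, hqη, hqμ, hK, hKε, hKq, hσ, hσK, hση, hσμ⟩ :=
    cdl_par (ε := ε) hη hμ
  have : Fact q.Prime := ⟨hqp⟩
  obtain ⟨β, hβdef⟩ : ∃ β : ℝ, β = σ ^ 2 := ⟨_, rfl⟩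
  have hq0 : (0 : ℝ) < q := by exact_mod_cast hqp.pos
  have hq128R : (128 : ℝ) ≤ q := by exact_mod_cast hq128
  have hK0 : (0 : ℝ) < K := by exact_mod_cast hK
  have hK1 : (1 : ℝ) ≤ K := by exact_mod_cast hK
  have hσ64 : σ ≤ 1 / 64 := by
    refine hσK.trans ?_
    rw [div_le_div_iff₀ (by positivity) (by norm_num)]
    linarith
  have hβ : 0 < β := by rw [hβdef]; positivity
  have hβσ : β ≤ σ / 64 := by rw [hβdef]; nlinarith
  have hβK : β ≤ 1 / (64 * K) := by linarith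
  have hη128 : η ≤ 1 / 128 := by linarith
  have h2q : 2 / (q : ℝ) ≤ ε / 8 := by
    rw [div_le_iff₀ hq0]
    rw [div_le_iff₀ hε] at hqε
    linarith
  have h2K : 2 / (K : ℝ) ≤ ε / 8 := by
    rw [div_le_iff₀ hK0]
    rw [div_le_iff₀ hε] at hKε
    linarith
  have h2ηq : 2 * η / (q : ℝ) ≤ ε / 8 := by
    have : 2 * η / (q : ℝ) ≤ 2 / q := by gcongr; linarith
    linarith
  obtain ⟨n₁, hn₁⟩ := exists_frame (q := q) hK hε (by linarith : ε ≤ 1 / 8) hη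
    (by linarith : η ≤ ε)
  obtain ⟨n₂, hn₂⟩ := prep (q := q) (ε := ε) (η := η) (β := β) hK (by omega) hε hβ hβK
    (by linarith) (by linarith)
  refine ⟨max (max n₁ n₂) (⌈1 / β⌉₊ + 1), ?_⟩
  intro V _ G U U' hn hU1 hU2 hU'U hU' hdeg hdegU hpar
  have hnn1 : n₁ ≤ Fintype.card V := le_trans (le_trans (le_max_left _ _) (le_max_left _ _)) hn
  have hnn2 : n₂ ≤ Fintype.card V := le_trans (le_trans (le_max_right _ _) (le_max_left _ _)) hn
  have hnn3 : ⌈1 / β⌉₊ + 1 ≤ Fintype.card V := le_trans (le_max_right _ _) hn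
  obtain ⟨n, hnV⟩ : ∃ n : ℝ, n = (Fintype.card V : ℝ) := ⟨_, rfl⟩
  obtain ⟨u, hu⟩ : ∃ u : ℝ, u = (U.card : ℝ) := ⟨_, rfl⟩
  have hnpos : (1 : ℝ) ≤ n := by
    rw [hnV]; exact_mod_cast (by omega : 1 ≤ Fintype.card V)
  have hβn : 1 ≤ β * n := by
    have h1 := Nat.le_ceil (1 / β)
    have h2 : ((⌈1 / β⌉₊ + 1 : ℕ) : ℝ) ≤ n := by rw [hnV]; exact_mod_cast hnn3
    push_cast at h2
    have h3 : 1 / β ≤ n := by linarith
    rw [div_le_iff₀ hβ] at h3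
    linarith
  obtain ⟨fr⟩ := hn₁ V G U U' hnn1 hU1 hU2 hU'U hU' hdeg hdegU
  obtain ⟨G₂, B, hG₂, hBc, p1, p2, p3, p4, p5, p6⟩ := hn₂ V G U U' fr hnn2 hU2 hdeg
  rw [← hnV] at hBc p1 p2 p3 hU1 hU2
  rw [← hu] at hU1 hU2 hU'
  -- numbers
  have hQ : (0 : ℝ) < (q : ℝ) * (q + 1) := by positivity
  have hu0 : 0 < u := by
    have : 0 < η / 2 * n := by positivity
    linarith
  have hA : (3 * β + 2 / K) * n ≤ η * n / (20 * ((q : ℝ) * (q + 1))) := by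
    have e1 : 2 / (K : ℝ) ≤ η / (64 * ((q : ℝ) * (q + 1))) := by
      rw [div_le_iff₀ hη] at hKq
      rw [div_le_div_iff₀ hK0 (by positivity)]
      linarith
    have e2 : 3 * β ≤ 3 * η / (64000 * ((q : ℝ) * (q + 1))) := by
      calc 3 * β ≤ 3 * (σ / 64) := by linarith
        _ ≤ 3 * (η / (1000 * ((q : ℝ) * (q + 1))) / 64) := by linarith
        _ = 3 * η / (64000 * ((q : ℝ) * (q + 1))) := by
          field_simp; norm_num
    have e3 : 3 * β + 2 / K ≤ η / (20 * ((q : ℝ) * (q + 1))) := by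
      have : 3 * η / (64000 * ((q : ℝ) * (q + 1))) + η / (64 * ((q : ℝ) * (q + 1)))
          ≤ η / (20 * ((q : ℝ) * (q + 1))) := by
        have : η / (20 * ((q : ℝ) * (q + 1))) - (3 * η / (64000 * ((q : ℝ) * (q + 1)))
          + η / (64 * ((q : ℝ) * (q + 1)))) = η / ((q : ℝ) * (q + 1)) * (1 / 20 - 3 / 64000 - 1 / 64) := by
          field_simp; norm_num
        have h0 : 0 ≤ η / ((q : ℝ) * (q + 1)) * (1 / 20 - 3 / 64000 - 1 / 64) := by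
          apply mul_nonneg (by positivity); norm_num
        linarith
      linarith
    calc (3 * β + 2 / K) * n ≤ η / (20 * ((q : ℝ) * (q + 1))) * n := by gcongr
      _ = η * n / (20 * ((q : ℝ) * (q + 1))) := by ring
  -- a convenient unit: w = η n / q
  obtain ⟨w, hw⟩ : ∃ w : ℝ, w = η * n / q := ⟨_, rfl⟩
  have hw0 : 0 < w := by rw [hw]; positivity
  have hwn : w * q = η * n := by rw [hw]; field_simp
  have hA' : (3 * β + 2 / K) * n ≤ w / 2580 := by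
    refine hA.trans ?_
    have : η * n / (20 * ((q : ℝ) * (q + 1))) = w / (20 * (q + 1)) := by
      rw [hw]; field_simp
    rw [this]
    rw [div_le_div_iff₀ (by positivity) (by norm_num)]
    nlinarith
  have hσn : σ * n ≤ w / 129000 := by
    calc σ * n ≤ η / (1000 * ((q : ℝ) * (q + 1))) * n := by gcongr
      _ = w / (1000 * (q + 1)) := by rw [hw]; field_simp
      _ ≤ w / 129000 := by
        rw [div_le_div_iff₀ (by positivity) (by norm_num)]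
        nlinarith
  have hβσn : β * n ≤ σ * n / 64 := by
    have := mul_le_mul_of_nonneg_right hβσ (by linarith : (0 : ℝ) ≤ n)
    linarith
  have hwu : w / 2 ≤ u / q := by
    rw [hw, div_div, div_le_div_iff₀ (by positivity) hq0]
    nlinarith
  have hwu2 : w ≤ u := by
    have h1 : u / q ≤ u / 128 := by gcongr
    linarith
  have hKn : 0 ≤ (3 * β + 2 / K) * n := by positivity
  obtain ⟨Δ, hΔ⟩ : ∃ Δ : ℕ, Δ = ⌊(3 * β + 2 / K) * n⌋₊ := ⟨_, rfl⟩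
  have hΔ1 : (Δ : ℝ) ≤ (3 * β + 2 / K) * n := by rw [hΔ]; exact Nat.floor_le hKn
  obtain ⟨s1, hs1⟩ : ∃ s1 : ℕ, s1 = ⌊3 * β * n⌋₊ := ⟨_, rfl⟩
  have hs1R : (s1 : ℝ) ≤ 3 * β * n := by rw [hs1]; exact Nat.floor_le (by positivity)
  obtain ⟨Lam, hLam⟩ : ∃ Lam : ℕ, Lam = ⌈σ * n⌉₊ := ⟨_, rfl⟩
  have hLam1 : σ * n ≤ Lam := by rw [hLam]; exact Nat.le_ceil _
  have hLam2 : (Lam : ℝ) ≤ σ * n + 1 := by
    rw [hLam]; exact (Nat.ceil_lt_add_one (by positivity)).le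
  obtain ⟨s3, hs3⟩ : ∃ s3 : ℕ, s3 = ⌈3 * (σ * n)⌉₊ := ⟨_, rfl⟩
  have hs31 : 3 * (σ * n) ≤ s3 := by rw [hs3]; exact Nat.le_ceil _
  have hs32 : (s3 : ℝ) ≤ 3 * (σ * n) + 1 := by
    rw [hs3]; exact (Nat.ceil_lt_add_one (by positivity)).le
  have hσn0 : 0 < σ * n := by positivity
  have hLam0 : 0 < Lam := by
    have : (0 : ℝ) < Lam := by linarith
    exact_mod_cast this
  obtain ⟨bb, hbb⟩ : ∃ bb : ℕ, bb = ⌊β * n⌋₊ := ⟨_, rfl⟩
  have hbbR : (bb : ℝ) ≤ β * n := by rw [hbb]; exact Nat.floor_le (by positivity)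
  -- step C
  have hle2 : G₂ ≤ G := hG₂.le
  obtain ⟨H₁, r1, c1, c2, c3, c4⟩ := stC fr hε G₂ hle2 Δ
    (fun x hx => by
      rw [hΔ]
      exact Nat.le_floor (p1 x hx)) p4
    (by
      rw [← hu]
      have e1 : η * n / (20 * ((q : ℝ) * (q + 1))) ≤ u / (10 * ((q : ℝ) * (q + 1))) := by
        rw [div_le_div_iff₀ (by positivity) (by positivity)]
        nlinarith
      have e2 : 2 * (u / (10 * ((q : ℝ) * (q + 1)))) < u / (4 * ((q : ℝ) * (q + 1))) := by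
        have : u / (4 * ((q : ℝ) * (q + 1))) - 2 * (u / (10 * ((q : ℝ) * (q + 1))))
          = u / ((q : ℝ) * (q + 1)) * (1 / 20) := by
          field_simp; norm_num
        have h0 : 0 < u / ((q : ℝ) * (q + 1)) * (1 / 20) := by positivity
        linarith
      linarith)
  have hR1 : Red G H₁ := hG₂.trans r1
  have hle1 : H₁ ≤ G := hR1.le
  obtain ⟨Bw, hBw⟩ : ∃ Bw : Finset V, Bw = B.filter (fun b => b ∉ U) := ⟨_, rfl⟩
  have hBwU : ∀ b ∈ Bw, b ∉ U := by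
    intro b hb; rw [hBw, mem_filter] at hb; exact hb.2
  have hBwB : ∀ b ∈ Bw, b ∈ B := by
    intro b hb; rw [hBw, mem_filter] at hb; exact hb.1
  have hnB : ∀ x, x ∉ U → x ∉ Bw → x ∉ B := by
    intro x hx hxb hB
    apply hxb
    rw [hBw, mem_filter]
    exact ⟨hB, hx⟩
  have hBwc : (Bw.card : ℝ) ≤ β * n := by
    refine le_trans ?_ hBc
    rw [hBw]
    exact_mod_cast card_filter_le _ _
  have hBwbb : Bw.card ≤ bb := by rw [hbb]; exact Nat.le_floor hBwc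
  obtain ⟨H₂, r2, d1, d2, d3, d4⟩ := stD0 G H₁ U U' Bw hU'U hle1 hBwU Δ c1
    (fun u hu u' hu' h => c4 u hu u' hu' (p5 u hu u' hu' h))
    (fun b hb => by
      refine le_trans (card_le_card ?_) (c2 b (hBwU b hb))
      intro v hv
      unfold ls at hv ⊢
      rw [mem_filter] at hv ⊢
      exact ⟨hv.1, p6 b (hBwB b hb) (hBwU b hb) v hv.1 hv.2.1, hv.2.2⟩)
    (fun b hb => (hR1.even b).1 (hpar b (hBwU b hb)))
    (fun v => by
      refine le_trans ?_ (hdegU v)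
      rw [← hu]
      nlinarith)
    (by
      rw [← hu]
      nlinarith)
    (by
      rw [← hu]
      linarith)
  have hR2 : Red G H₂ := hR1.trans r2
  have hle2' : H₂ ≤ G := hR2.le
  have hle21 : H₂ ≤ H₁ := r2.le
  have hle12 : H₁ ≤ G₂ := r1.le
  have hls2 : ∀ x, x ∉ U → x ∉ Bw → (ls G H₂ (fr.Ul (fr.ln x)) x).card ≤ Δ := by
    intro x hx hxb
    refine le_trans (card_le_card ?_) (c2 x hx)
    intro r hr
    unfold ls Frame.Ul at hr
    unfold ls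
    rw [mem_filter, mem_filter] at hr
    rw [mem_filter]
    obtain ⟨⟨hrU, hinc⟩, hG, hH⟩ := hr
    refine ⟨hrU, p4 x hx r hrU hG hinc, fun h => hH (d2 x hx hxb r h)⟩
  have hlsU2 : ∀ v ∈ U, (ls G H₂ U v).card ≤ bb := by
    intro v hv
    refine le_trans (card_le_card ?_) ((d4 v hv).trans hBwbb)
    intro r hr
    unfold ls at hr ⊢
    rw [mem_filter] at hr ⊢
    exact ⟨hr.1, c4 v hv r hr.1 (p5 v hv r hr.1 hr.2.1), hr.2.2⟩
  have huq8 : u / (8 * (q : ℝ)) = u / q / 8 := by rw [div_div, mul_comm]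
  have huq16 : u / (16 * (q : ℝ)) = u / q / 16 := by rw [div_div, mul_comm]
  obtain ⟨H₃, r3, e1, e2, e3, e4⟩ := stD1 fr hε (by linarith) hU'U H₂ hle2' Bw s1 s3 Lam Δ bb hLam0 d1
    (fun x hx hxb => by
      rw [hs1]
      refine Nat.le_floor (le_trans ?_ (p3 x hx (hnB x hx hxb)))
      have : (U.filter fun e => H₂.Adj x e ∧ ¬ fr.R x e) ⊆
          (U.filter fun e => G₂.Adj x e ∧ ¬ fr.R x e) := by
        intro e he
        rw [mem_filter] at he ⊢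
        exact ⟨he.1, hle12 (hle21 he.2.1), he.2.2⟩
      exact_mod_cast card_le_card this)
    (fun e he => by
      rw [hs1]
      refine Nat.le_floor (le_trans ?_ (p2 e he))
      have : (Uᶜ.filter fun x => H₂.Adj e x ∧ ¬ fr.R x e) ⊆
          (Uᶜ.filter fun x => G₂.Adj e x ∧ ¬ fr.R x e) := by
        intro x hx
        rw [mem_filter] at hx ⊢
        exact ⟨hx.1, hle12 (hle21 hx.2.1), hx.2.2⟩
      exact_mod_cast card_le_card this)
    (by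
      have h1 : (Fintype.card V : ℝ) * s1 ≤ Lam * s3 := by
        rw [← hnV]
        calc n * s1 ≤ n * (3 * β * n) := by gcongr
          _ = (σ * n) * (3 * (σ * n)) := by rw [hβdef]; ring
          _ ≤ Lam * s3 := by gcongr
      exact_mod_cast h1)
    hls2 hlsU2
    (by
      rw [← hu, huq8]
      linarith)
  have hR3 : Red G H₃ := hR2.trans r3
  have hle3 : H₃ ≤ G := hR3.le
  have hle32 : H₃ ≤ H₂ := r3.le
  obtain ⟨H₄, r4, f1, f2, f3⟩ := stD2 fr hε (by linarith) hq128 hU'U H₃ hle3 Bw (Δ + s1)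
    (bb + s1 + Lam)
    (fun x y hx hy h => c1 x y hx hy (hle21 (hle32 h)))
    (fun b hb v h => d1 b hb v (hle32 h)) e1 e2 e3
    (fun x hx => (hR3.even x).1 (hpar x hx))
    (by
      rw [← hu, ← hnV, huq16]
      push_cast
      have h4 : 4 * n / (q : ℝ) ^ 2 ≤ w / 64 := by
        rw [hw, div_div, div_le_div_iff₀ (by positivity) (by positivity)]
        rw [div_le_iff₀ hη] at hqη
        have : 4 * n * (q * 64) = 256 * (n * q) := by ring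
        rw [this]
        have h5 : 256 * (n * q) ≤ q * η * (n * q) := by
          apply mul_le_mul_of_nonneg_right hqη; positivity
        calc 256 * (n * q) ≤ q * η * (n * q) := h5
          _ = η * n * q ^ 2 := by ring
      linarith)
  have hR4 : Red G H₄ := hR3.trans r4
  refine ⟨H₄, hR4, f1, ?_, ?_⟩
  · intro v hv v' hv' h
    exact f2 v hv v' hv' (e4 v hv v' hv' (d3 v hv v' hv'
      (c4 v (hU'U hv) v' (hU'U hv') (p5 v (hU'U hv) v' (hU'U hv') h))))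
  · intro v hv
    have hsub : ls G H₄ U v ⊆ ls G H₃ U v ∪ ls H₃ H₄ U v := by
      intro r hr
      unfold ls at hr ⊢
      rw [mem_union, mem_filter, mem_filter]
      rw [mem_filter] at hr
      by_cases h : H₃.Adj v r
      · exact Or.inr ⟨hr.1, h, hr.2.2⟩
      · exact Or.inl ⟨hr.1, hr.2.1, h⟩
    have hc1 : ((ls G H₄ U v).card : ℝ) ≤ (ls G H₃ U v).card + (ls H₃ H₄ U v).card := by
      exact_mod_cast (card_le_card hsub).trans (card_union_le _ _)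
    have hc2 : ((ls G H₃ U v).card : ℝ) ≤ bb + s1 + Lam := by exact_mod_cast e3 v hv
    have hc3 := f3 v hv
    rw [← hnV] at hc3
    rw [← hu]
    have h2 : 2 * n / (q : ℝ) ≤ μ * η * n / 8 := by
      rw [div_le_iff₀ (by positivity)] at hqμ
      rw [div_le_div_iff₀ hq0 (by norm_num)]
      nlinarith
    have h3 : σ * n ≤ μ * η * n / 100 := by
      have := mul_le_mul_of_nonneg_right hσμ (by linarith : (0 : ℝ) ≤ n)
      linarith
    have h4 : μ * (η / 2 * n) ≤ μ * u := by gcongr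
    have h5 : 0 < μ * η * n := by positivity
    linarith

end Pool.NSH
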