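import Pool.Agent.NSH.Cdl

/-!
MODULE CdlS (difficulty 3).  The cover-down lemma inside a finite set `S`.

RECIPE: apply `cdl` to the type `↥S`, the graph `H.comap Subtype.val` and the sets `U.subtype (· ∈ S)`, `U'.subtype (· ∈ S)`
(cardinalities unchanged as `U', U ⊆ S`; the neighbour sets correspond: `(nb (H.comap val) (U.subtype _) v).map val = nb H U v`;
parity because `On H S`).  If `P` is the packing of the comap, map it forward: `P' = P.image (·.map ⟨val, _⟩)` is a packing of `H`,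
and `H' = unc H P'`; `H'.Adj a b` iff `a, b ∈ S` and the comap of `H'` relates them (`On H S`).
-/

open Finset
open scoped Classical

namespace Pool.NSH

/-- the trace of a set on `S` -/
noncomputable def cdlS_t {V : Type} (S T : Finset V) : Finset S := univ.filter fun x => x.1 ∈ T

lemma cdlS_mem {V : Type} (S T : Finset V) (x : S) : x ∈ cdlS_t S T ↔ x.1 ∈ T := by
  unfold cdlS_t
  simp

lemma cdlS_tcard {V : Type} {S T : Finset V} (h : T ⊆ S) : (cdlS_t S T).card = T.card := by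
  rw [← Finset.card_image_of_injective _ Subtype.val_injective]
  congr 1
  ext v
  rw [Finset.mem_image]
  constructor
  · rintro ⟨x, h1, rfl⟩
    exact (cdlS_mem _ _ _).1 h1
  · intro h1
    exact ⟨⟨v, h h1⟩, (cdlS_mem _ _ _).2 h1, rfl⟩

lemma cdlS_nb {V : Type} (H : SimpleGraph V) {S T : Finset V} (h : T ⊆ S) (v : S) :
    (nb (H.comap (Subtype.val : S → V)) (cdlS_t S T) v).card = (nb H T v.1).card := by
  have h1 : nb (H.comap (Subtype.val : S → V)) (cdlS_t S T) v = cdlS_t S (nb H T v.1) := by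
    ext x
    rw [cdlS_mem]
    unfold nb
    rw [Finset.mem_filter, Finset.mem_filter, cdlS_mem]
    rfl
  rw [h1]
  apply cdlS_tcard
  unfold nb
  exact (Finset.filter_subset _ _).trans h

lemma cdlS_nbu {V : Type} [Fintype V] (H : SimpleGraph V) {S : Finset V} (v : S) :
    (nb (H.comap (Subtype.val : S → V)) univ v).card = (nb H S v.1).card := by
  rw [← cdlS_nb H (Finset.Subset.refl S) v]
  congr 2
  ext x
  rw [cdlS_mem]
  simp

theorem cdlS {ε η μ : ℝ} (hε : 0 < ε) (hε1 : ε ≤ 1 / 16) (hη : 0 < η) (hηε : η ≤ ε / 8)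
    (hμ : 0 < μ) :
    ∃ n₀ : ℕ, ∀ (V : Type) [Fintype V] (H : SimpleGraph V) (S U U' : Finset V), On H S →
      n₀ ≤ S.card → U ⊆ S → η / 2 * S.card ≤ U.card → U.card ≤ η * S.card →
      U' ⊆ U → U'.card ≤ η * U.card →
      (∀ v ∈ S, (3 / 4 + ε) * S.card ≤ ((nb H S v).card : ℝ)) →
      (∀ v ∈ S, (3 / 4 + ε) * U.card ≤ ((nb H U v).card : ℝ)) →
      (∀ v, Even (nb H univ v).card) →
      ∃ H' : SimpleGraph V, Red H H' ∧ On H' U ∧
        (∀ u ∈ U', ∀ u' ∈ U', H.Adj u u' → H'.Adj u u') ∧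
        (∀ u ∈ U, ((ls H H' U u).card : ℝ) ≤ μ * U.card) := by
  obtain ⟨n₀, hn₀⟩ := cdl hε hε1 hη hηε hμ
  refine ⟨n₀, fun V _ H S U U' hOn hS hUS hU1 hU2 hU'U hU' hd1 hd2 hev => ?_⟩
  have hU'S : U' ⊆ S := hU'U.trans hUS
  obtain ⟨H₀, ⟨P₀, hP₀, hH₀⟩, hOn₀, hin₀, hls₀⟩ := hn₀ S (H.comap (Subtype.val : S → V))
    (cdlS_t S U) (cdlS_t S U')
    (by rw [Fintype.card_coe]; exact hS)
    (by rw [Fintype.card_coe, cdlS_tcard hUS]; exact hU1)
    (by rw [Fintype.card_coe, cdlS_tcard hUS]; exact hU2)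
    (fun x hx => (cdlS_mem _ _ _).2 (hU'U ((cdlS_mem _ _ _).1 hx)))
    (by rw [cdlS_tcard hUS, cdlS_tcard hU'S]; exact hU')
    (fun v => by rw [Fintype.card_coe, cdlS_nbu H v]; exact hd1 v.1 v.2)
    (fun v => by rw [cdlS_tcard hUS, cdlS_nb H hUS v]; exact hd2 v.1 v.2)
    (fun v _ => by
      rw [cdlS_nbu H v]
      have h1 : nb H S v.1 = nb H univ v.1 := by
        unfold nb
        ext x
        rw [Finset.mem_filter, Finset.mem_filter]
        exact ⟨fun h => ⟨Finset.mem_univ _, h.2⟩, fun h => ⟨(hOn _ _ h.2).2, h.2⟩⟩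
      rw [h1]
      exact hev v.1)
  have hadj : ∀ a b : V, (unc H (P₀.image fun T => T.image Subtype.val)).Adj a b ↔
      ∃ (ha : a ∈ S) (hb : b ∈ S), H₀.Adj ⟨a, ha⟩ ⟨b, hb⟩ := by
    intro a b
    constructor
    · rintro ⟨h1, h2⟩
      obtain ⟨ha, hb⟩ := hOn a b h1
      refine ⟨ha, hb, ?_⟩
      rw [hH₀]
      refine ⟨h1, fun T hT h3 => ?_⟩
      exact h2 (T.image Subtype.val) (Finset.mem_image_of_mem _ hT)
        ⟨Finset.mem_image.2 ⟨⟨a, ha⟩, h3.1, rfl⟩, Finset.mem_image.2 ⟨⟨b, hb⟩, h3.2, rfl⟩⟩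
    · rintro ⟨ha, hb, h1⟩
      rw [hH₀] at h1
      refine ⟨h1.1, fun T hT h3 => ?_⟩
      obtain ⟨T₀, hT₀, rfl⟩ := Finset.mem_image.1 hT
      obtain ⟨⟨a', ha'⟩, h4, h5⟩ := Finset.mem_image.1 h3.1
      obtain ⟨⟨b', hb'⟩, h6, h7⟩ := Finset.mem_image.1 h3.2
      simp only at h5 h7
      subst h5 h7
      exact h1.2 T₀ hT₀ ⟨h4, h6⟩
  refine ⟨unc H (P₀.image fun T => T.image Subtype.val), ⟨_, ⟨?_, ?_⟩, rfl⟩, ?_, ?_, ?_⟩
  · intro T hT
    obtain ⟨T₀, hT₀, rfl⟩ := Finset.mem_image.1 hT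
    have h1 := hP₀.clique T₀ hT₀
    rw [SimpleGraph.isNClique_iff] at h1 ⊢
    refine ⟨?_, ?_⟩
    · intro a ha b hb hab
      obtain ⟨a', ha', rfl⟩ := Finset.mem_image.1 (Finset.mem_coe.1 ha)
      obtain ⟨b', hb', rfl⟩ := Finset.mem_image.1 (Finset.mem_coe.1 hb)
      exact h1.1 (Finset.mem_coe.2 ha') (Finset.mem_coe.2 hb') (fun h => hab (by rw [h]))
    · rw [Finset.card_image_of_injective _ Subtype.val_injective]
      exact h1.2
  · intro T hT T' hT' a b hab ha hb ha' hb'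
    obtain ⟨T₀, hT₀, rfl⟩ := Finset.mem_image.1 hT
    obtain ⟨T₀', hT₀', rfl⟩ := Finset.mem_image.1 hT'
    obtain ⟨a₁, ha₁, rfl⟩ := Finset.mem_image.1 ha
    obtain ⟨b₁, hb₁, rfl⟩ := Finset.mem_image.1 hb
    obtain ⟨a₂, ha₂, h1⟩ := Finset.mem_image.1 ha'
    obtain ⟨b₂, hb₂, h2⟩ := Finset.mem_image.1 hb'
    have h3 := Subtype.val_injective h1
    have h4 := Subtype.val_injective h2
    subst h3 h4
    rw [hP₀.disj T₀ hT₀ T₀' hT₀' a₂ b₂ (fun h => hab (by rw [h])) ha₁ hb₁ ha₂ hb₂]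
  · intro a b hab
    obtain ⟨ha, hb, h1⟩ := (hadj a b).1 hab
    have h2 := hOn₀ _ _ h1
    exact ⟨(cdlS_mem _ _ _).1 h2.1, (cdlS_mem _ _ _).1 h2.2⟩
  · intro u hu u' hu' huu
    rw [hadj]
    exact ⟨hU'S hu, hU'S hu', hin₀ ⟨u, hU'S hu⟩ ((cdlS_mem _ _ _).2 hu) ⟨u', hU'S hu'⟩
      ((cdlS_mem _ _ _).2 hu') huu⟩
  · intro u hu
    have h1 := hls₀ ⟨u, hUS hu⟩ ((cdlS_mem _ _ _).2 hu)
    rw [cdlS_tcard hUS] at h1
    refine le_trans ?_ h1
    have h2 : (ls H (unc H (P₀.image fun T => T.image Subtype.val)) U u)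
        ⊆ (ls (H.comap (Subtype.val : S → V)) H₀ (cdlS_t S U) ⟨u, hUS hu⟩).image Subtype.val := by
      intro x hx
      unfold ls at hx
      obtain ⟨h3, h4, h5⟩ := Finset.mem_filter.1 hx
      refine Finset.mem_image.2 ⟨⟨x, hUS h3⟩, ?_, rfl⟩
      unfold ls
      refine Finset.mem_filter.2 ⟨(cdlS_mem _ _ _).2 h3, h4, fun h6 => h5 ?_⟩
      rw [hadj]
      exact ⟨hUS hu, hUS h3, h6⟩
    exact_mod_cast (Finset.card_le_card h2).trans Finset.card_image_le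

end Pool.NSH
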