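import Mathlib

/-!
# Triangle decompositions of graphs of large minimum degree: definitions

(asymptotic Nash-Williams conjecture, `MP_9205ce_co`)
-/

open Finset
open scoped Classical

namespace Pool.NSH

variable {V : Type*}

/-- the neighbours of `a` inside the finite set `S` -/
noncomputable def nb (G : SimpleGraph V) (S : Finset V) (a : V) : Finset V :=
  S.filter fun b => G.Adj a b

/-- `P` is a family of pairwise edge-disjoint triangles of `G` -/
structure IsPacking (G : SimpleGraph V) (P : Finset (Finset V)) : Prop where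
  /-- the members are triangles of `G` -/
  clique : ∀ T ∈ P, G.IsNClique 3 T
  /-- two members with two common vertices are equal -/
  disj : ∀ T ∈ P, ∀ T' ∈ P, ∀ a b, a ≠ b → a ∈ T → b ∈ T → a ∈ T' → b ∈ T' → T = T'

/-- the graph of the edges of `G` which are in no member of `P` -/
def unc (G : SimpleGraph V) (P : Finset (Finset V)) : SimpleGraph V where
  Adj a b := G.Adj a b ∧ ∀ T ∈ P, ¬ (a ∈ T ∧ b ∈ T)
  symm := ⟨fun _ _ h => ⟨h.1.symm, fun T hT h' => h.2 T hT ⟨h'.2, h'.1⟩⟩⟩
  loopless := ⟨fun _ h => G.loopless.irrefl _ h.1⟩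

/-- `H` arises from `G` by deleting the edges of pairwise edge-disjoint triangles -/
def Red (G H : SimpleGraph V) : Prop := ∃ P, IsPacking G P ∧ H = unc G P

/-- `G` has a triangle decomposition -/
def HasDec (G : SimpleGraph V) : Prop := Red G ⊥

/-- total weight of the sets containing `a` and `b` -/
noncomputable def cv [Fintype V] (w : Finset V → ℝ) (a b : V) : ℝ :=
  ∑ T ∈ univ.filter (fun T : Finset V => a ∈ T ∧ b ∈ T), w T

/-- all edges of `G` have both ends in `S` -/
def On (G : SimpleGraph V) (S : Finset V) : Prop := ∀ a b, G.Adj a b → a ∈ S ∧ b ∈ S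

/-- the points of the plane structure -/
abbrev Pt (q : ℕ) : Type := (ZMod q × ZMod q) ⊕ ZMod q

/-- the lines of the plane structure -/
abbrev Ln (q : ℕ) : Type := ZMod q × ZMod q

/-- incidence: the line `(m, c)` has the points `(x, m x + c)` and the point at infinity `m` -/
def Inc {q : ℕ} (p : Pt q) (l : Ln q) : Prop :=
  match p with
  | Sum.inl a => a.2 = l.1 * a.1 + l.2
  | Sum.inr t => t = l.1

end Pool.NSH
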