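import Pool.Agent.NSH.Defs

/-!
# Triangle decompositions: definitions for the cover-down step
-/

open Finset
open scoped Classical

namespace Pool.NSH

variable {V : Type*}

/-- the neighbours of `a` in `G` inside `S` which are no longer neighbours in `H` -/
noncomputable def ls (G H : SimpleGraph V) (S : Finset V) (a : V) : Finset V :=
  S.filter fun b => G.Adj a b ∧ ¬ H.Adj a b

/-- twice the number of edges -/
noncomputable def ec [Fintype V] (G : SimpleGraph V) : ℕ :=
  (univ.filter fun p : V × V => G.Adj p.1 p.2).card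

/-- A frame: `U` is partitioned into parts indexed by the points, `V \ U` into parts indexed by the
lines and independently into `K` parts; all parts have about the right size and inherit the minimum degree. -/
structure Frame [Fintype V] (G : SimpleGraph V) (U U' : Finset V) (q K : ℕ) (ε η : ℝ) where
  /-- the point of a vertex of `U` -/
  pt : V → Pt q
  /-- the line of a vertex outside `U` -/
  ln : V → Ln q
  /-- the index of a vertex outside `U` -/
  ix : V → Fin K
  sizeU1 : ∀ p, (U.card : ℝ) / (2 * (q * (q + 1))) ≤ (U.filter fun v => pt v = p).card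
  sizeU2 : ∀ p, ((U.filter fun v => pt v = p).card : ℝ) ≤ 2 * U.card / (q * (q + 1))
  degU : ∀ p v, (3 / 4 + ε / 2) * ((U.filter fun v => pt v = p).card : ℝ)
    ≤ (nb G (U.filter fun v => pt v = p) v).card
  sizeU' : ∀ p, ((U'.filter fun v => pt v = p).card : ℝ)
    ≤ 4 * η * (U.filter fun v => pt v = p).card
  sizeW : ∀ l, ((Uᶜ.filter fun v => ln v = l).card : ℝ) ≤ 2 * Fintype.card V / (q : ℝ) ^ 2
  sizeV1 : ∀ i, (Fintype.card V : ℝ) / (2 * K) ≤ (Uᶜ.filter fun v => ix v = i).card
  sizeV2 : ∀ i, ((Uᶜ.filter fun v => ix v = i).card : ℝ) ≤ 2 * Fintype.card V / K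
  degV : ∀ i v, (3 / 4 + ε / 2) * ((Uᶜ.filter fun v => ix v = i).card : ℝ)
    ≤ (nb G (Uᶜ.filter fun v => ix v = i) v).card
  sizeWV : ∀ l i, ((Uᶜ.filter fun v => ln v = l ∧ ix v = i).card : ℝ)
    ≤ 4 / (q : ℝ) ^ 2 * (Uᶜ.filter fun v => ix v = i).card

namespace Frame

variable [Fintype V] {G : SimpleGraph V} {U U' : Finset V} {q K : ℕ} {ε η : ℝ}

/-- the reserved pairs `x u` (`x` outside `U`, `u` in `U`): the point of `u` is on the line of `x` -/
def R (fr : Frame G U U' q K ε η) (x u : V) : Prop := Inc (fr.pt u) (fr.ln x)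

/-- the part of `U` of the points on the line `l` -/
noncomputable def Ul (fr : Frame G U U' q K ε η) (l : Ln q) : Finset V :=
  U.filter fun u => Inc (fr.pt u) l

/-- the part of `V \ U` of the line `l` -/
noncomputable def Wl (fr : Frame G U U' q K ε η) (l : Ln q) : Finset V :=
  Uᶜ.filter fun x => fr.ln x = l

/-- the part of `V \ U` of the index `i` -/
noncomputable def Vi (fr : Frame G U U' q K ε η) (i : Fin K) : Finset V :=
  Uᶜ.filter fun x => fr.ix x = i

/-- the graph to be decomposed approximately: no edge inside `U`, no reserved pair, no edge inside a `Vi` -/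
def gd (fr : Frame G U U' q K ε η) : SimpleGraph V where
  Adj a b := G.Adj a b ∧ ¬ (a ∈ U ∧ b ∈ U) ∧ ¬ (a ∉ U ∧ b ∈ U ∧ fr.R a b) ∧
    ¬ (b ∉ U ∧ a ∈ U ∧ fr.R b a) ∧ ¬ (a ∉ U ∧ b ∉ U ∧ fr.ix a = fr.ix b)
  symm := ⟨fun _ _ h => ⟨h.1.symm, fun h' => h.2.1 ⟨h'.2, h'.1⟩, h.2.2.2.1, h.2.2.1,
    fun h' => h.2.2.2.2 ⟨h'.2.1, h'.1, h'.2.2.symm⟩⟩⟩
  loopless := ⟨fun _ h => G.loopless.irrefl _ h.1⟩

end Frame

end Pool.NSH
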