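import Pool.Agent.NSH.Defs2

/-!
MODULE Emb (difficulty 2).  Greedy embedding with at most four back neighbours.

RECIPE: for every `D : Finset N` which is closed (`i ∈ D`, `inr j ∈ back i` imply `j ∈ D`) there is `φ` injective on `D`, avoiding `Fb` and
satisfying the adjacencies for `i ∈ D`; induction on `D.card`: take `i ∈ D` with `rk i` maximal (`Finset.exists_max_image`); `D.erase i` is
closed (no `inr i ∈ back j` for `j ∈ D`, as `rk i < rk j` would follow).  The images of `back i` under `Sum.elim ρ φ` are at most
`4` vertices `S`; more than `Fb.card + card N` vertices are adjacent to all of `S`, so one of them, `v`, is not in `Fb` and not a value `φ j`.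
`Function.update φ i v`.
-/

open Finset
open scoped Classical

namespace Pool.NSH

theorem emb_aux {V R N : Type*} [Fintype V] [Fintype N] (G : SimpleGraph V) (Fb : Finset V)
    (ρ : R → V) (back : N → Finset (R ⊕ N)) (rk : N → ℕ) (hcard : ∀ i, (back i).card ≤ 4)
    (hrk : ∀ i j, Sum.inr j ∈ back i → rk j < rk i)
    (hcn : ∀ S : Finset V, S.card ≤ 4 →
      Fb.card + Fintype.card N < (univ.filter fun v => ∀ s ∈ S, G.Adj s v).card) (n : ℕ) :
    ∀ D : Finset N, D.card = n → (∀ i ∈ D, ∀ j, Sum.inr j ∈ back i → j ∈ D) →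
    ∃ φ : N → V, Set.InjOn φ D ∧ (∀ i ∈ D, φ i ∉ Fb) ∧
      ∀ i ∈ D, ∀ t ∈ back i, G.Adj (Sum.elim ρ φ t) (φ i) := by
  induction n with
  | zero =>
    intro D hD _
    have hD' : D = ∅ := Finset.card_eq_zero.1 hD
    have h0 := hcn ∅ (by simp)
    have hne : (univ.filter fun v : V => ∀ s ∈ (∅ : Finset V), G.Adj s v).Nonempty :=
      Finset.card_pos.1 (lt_of_le_of_lt (Nat.zero_le _) h0)
    obtain ⟨v, -⟩ := hne
    subst hD'
    exact ⟨fun _ => v, by simp, by simp, by simp⟩
  | succ n ih =>
    intro D hD hcl
    have hDne : D.Nonempty := Finset.card_pos.1 (by omega)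
    obtain ⟨i, hiD, himax⟩ := Finset.exists_max_image D rk hDne
    obtain ⟨φ, h1, h2, h3⟩ := ih (D.erase i) (by rw [Finset.card_erase_of_mem hiD, hD]; rfl) (by
      intro j hj k hk
      have hjD := Finset.mem_of_mem_erase hj
      refine Finset.mem_erase.2 ⟨?_, hcl j hjD k hk⟩
      rintro rfl
      have := hrk j k hk
      have := himax j hjD
      omega)
    have hS : ((back i).image (Sum.elim ρ φ)).card ≤ 4 := Finset.card_image_le.trans (hcard i)
    have h4 := hcn _ hS
    have h5 : (Fb ∪ univ.image φ).card ≤ Fb.card + Fintype.card N := by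
      refine (Finset.card_union_le _ _).trans ?_
      have : (univ.image φ).card ≤ Fintype.card N := Finset.card_image_le
      omega
    obtain ⟨v, hv1, hv2⟩ := Finset.exists_mem_notMem_of_card_lt_card (lt_of_le_of_lt h5 h4)
    have hv3 : ∀ s ∈ (back i).image (Sum.elim ρ φ), G.Adj s v := (Finset.mem_filter.1 hv1).2
    have hvFb : v ∉ Fb := fun h => hv2 (Finset.mem_union_left _ h)
    have hvim : ∀ j, φ j ≠ v := fun j h => hv2 (Finset.mem_union_right _ (Finset.mem_image.2 ⟨j, Finset.mem_univ _, h⟩))
    refine ⟨Function.update φ i v, ?_, ?_, ?_⟩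
    · intro j hj k hk hjk
      by_cases hji : j = i
      · by_cases hki : k = i
        · rw [hji, hki]
        · rw [hji, Function.update_self, Function.update_of_ne hki] at hjk
          exact absurd hjk.symm (hvim k)
      · by_cases hki : k = i
        · rw [hki, Function.update_self, Function.update_of_ne hji] at hjk
          exact absurd hjk (hvim j)
        · rw [Function.update_of_ne hji, Function.update_of_ne hki] at hjk
          exact h1 (Finset.mem_coe.2 (Finset.mem_erase.2 ⟨hji, hj⟩)) (Finset.mem_coe.2 (Finset.mem_erase.2 ⟨hki, hk⟩)) hjk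
    · intro j hj
      by_cases hji : j = i
      · rw [hji, Function.update_self]
        exact hvFb
      · rw [Function.update_of_ne hji]
        exact h2 j (Finset.mem_erase.2 ⟨hji, hj⟩)
    · intro j hj t ht
      have ht' : Sum.elim ρ (Function.update φ i v) t = Sum.elim ρ φ t := by
        rcases t with r | k
        · rfl
        · have hki : k ≠ i := by
            rintro rfl
            have := hrk j k ht
            have := himax j hj
            omega
          show Function.update φ i v k = φ k
          rw [Function.update_of_ne hki]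
      rw [ht']
      by_cases hji : j = i
      · rw [hji, Function.update_self]
        rw [hji] at ht
        exact hv3 _ (Finset.mem_image_of_mem _ ht)
      · rw [Function.update_of_ne hji]
        exact h3 j (Finset.mem_erase.2 ⟨hji, hj⟩) t ht

theorem emb {V R N : Type*} [Fintype V] [Fintype N] (G : SimpleGraph V) (Fb : Finset V)
    (ρ : R → V) (back : N → Finset (R ⊕ N)) (rk : N → ℕ) (hcard : ∀ i, (back i).card ≤ 4)
    (hrk : ∀ i j, Sum.inr j ∈ back i → rk j < rk i)
    (hcn : ∀ S : Finset V, S.card ≤ 4 →
      Fb.card + Fintype.card N < (univ.filter fun v => ∀ s ∈ S, G.Adj s v).card) :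
    ∃ φ : N → V, Function.Injective φ ∧ (∀ i, φ i ∉ Fb) ∧
      ∀ i, ∀ t ∈ back i, G.Adj (Sum.elim ρ φ t) (φ i) := by
  obtain ⟨φ, h1, h2, h3⟩ := emb_aux G Fb ρ back rk hcard hrk hcn _ univ rfl (fun _ _ _ _ => Finset.mem_univ _)
  exact ⟨φ, fun i j h => h1 (by simp) (by simp) h, fun i => h2 i (Finset.mem_univ _), fun i => h3 i (Finset.mem_univ _)⟩

end Pool.NSH
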