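import Pool.Agent.NSH.VStep

/-!
MODULE Vortex (difficulty 3).  The vortex.

RECIPE: `m₀` = the `n₀` of `vstep`, and with `√√m₀ ≥ 4 / ε` (e.g. `m₀ ≥ (4/ε) ^ 4`), `m₀ ≥ 1`.  Prove by strong induction on `S.card`: for
every `S` with `m ≤ S.card` and `(3/4 + 2 ε - 2 / √√|S|) |S| ≤ |nb G S v|` for `v ∈ S` there are `l, U` as in the statement with `U 0 = S`.
If `|S| ≤ 2 m / η` take `l = 0`, `U i = S`.  Otherwise `vstep` with `c = 3/4 + 2 ε - 2 / √√|S| ≤ 1` gives `U₁ ⊆ S`, `|U₁| ≥ η/2 |S| ≥ m`,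
`|U₁| ≤ |S| / 16`, so `√√|U₁| ≤ √√|S| / 2`, `1/√√|U₁| ≥ 2/√√|S|`, and `c - 2/√√|S| = 3/4 + 2 ε - 4/√√|S| ≥ 3/4 + 2 ε - 2/√√|U₁|`; also
`≥ 3/4 + ε`.  Apply the induction hypothesis to `U₁` (`nb G U₁ v` for `v ∈ U₁ ⊆ S`) and shift the sequence by one
(`U i = if i = 0 then S else U' (i - 1)`, or `Nat.casesOn`).  Start with `S = univ`.
-/

open Finset
open scoped Classical

namespace Pool.NSH

lemma vortex_x (n : ℕ) : (√(√(n : ℝ))) ^ 4 = (n : ℝ) := by
  have h1 : (√(√(n : ℝ))) ^ 2 = √(n : ℝ) := Real.sq_sqrt (Real.sqrt_nonneg _)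
  have h2 : (√(n : ℝ)) ^ 2 = (n : ℝ) := Real.sq_sqrt (Nat.cast_nonneg _)
  calc (√(√(n : ℝ))) ^ 4 = ((√(√(n : ℝ))) ^ 2) ^ 2 := by ring
    _ = _ := by rw [h1, h2]

lemma vortex_aux {ε η : ℝ} (hε : 0 < ε) (hε1 : ε ≤ 1 / 16) (hη : 0 < η) (hη1 : η ≤ 1 / 16)
    {n₀ m : ℕ} (hm : n₀ ≤ m) (hm1 : 1 ≤ m) (hmε : (4 / ε) ^ 4 ≤ (m : ℝ))
    (hn₀ : ∀ (V : Type) [Fintype V] (G : SimpleGraph V) (S : Finset V) (c : ℝ), c ≤ 1 →
      n₀ ≤ S.card → (∀ v ∈ S, c * S.card ≤ ((nb G S v).card : ℝ)) →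
      ∃ U ⊆ S, η / 2 * S.card ≤ U.card ∧ U.card ≤ η * S.card ∧
        ∀ v ∈ S, (c - 2 / √(√(S.card : ℝ))) * U.card ≤ ((nb G U v).card : ℝ))
    {V : Type} [Fintype V] (G : SimpleGraph V) :
    ∀ (k : ℕ) (S : Finset V), S.card ≤ k → m ≤ S.card →
      (∀ v ∈ S, (3 / 4 + 2 * ε - 2 / √(√(S.card : ℝ))) * S.card ≤ ((nb G S v).card : ℝ)) →
      ∃ (l : ℕ) (U : ℕ → Finset V), U 0 = S ∧
        (∀ i < l, U (i + 1) ⊆ U i ∧ η / 2 * (U i).card ≤ (U (i + 1)).card ∧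
          (U (i + 1)).card ≤ η * (U i).card ∧
          ∀ v ∈ U i, (3 / 4 + ε) * (U (i + 1)).card ≤ ((nb G (U (i + 1)) v).card : ℝ)) ∧
        m ≤ (U l).card ∧ ((U l).card : ℝ) ≤ 2 * m / η := by
  intro k
  induction k with
  | zero =>
    intro S hSk hmS _
    omega
  | succ k ih =>
    intro S hSk hmS hS
    by_cases hsmall : (S.card : ℝ) ≤ 2 * m / η
    · exact ⟨0, fun _ => S, rfl, fun i hi => absurd hi (by omega), hmS, hsmall⟩
    · push Not at hsmall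
      have hmS' : (m : ℝ) ≤ S.card := by exact_mod_cast hmS
      have hm1' : (1 : ℝ) ≤ m := by exact_mod_cast hm1
      have hx4 : (√(√(S.card : ℝ))) ^ 4 = (S.card : ℝ) := vortex_x _
      have hx0 : 0 ≤ √(√(S.card : ℝ)) := Real.sqrt_nonneg _
      obtain ⟨U₁, hU₁S, hU₁1, hU₁2, hU₁3⟩ := hn₀ V G S (3 / 4 + 2 * ε - 2 / √(√(S.card : ℝ)))
        (by
          have : 0 ≤ 2 / √(√(S.card : ℝ)) := by positivity
          linarith) (by omega) hS
      set x : ℝ := √(√(S.card : ℝ)) with hx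
      have hxε : 4 / ε ≤ x := by
        by_contra hcon
        push Not at hcon
        have h1 : x ^ 4 < (4 / ε) ^ 4 := pow_lt_pow_left₀ hcon hx0 (by norm_num)
        rw [hx4] at h1
        linarith
      have hεpos : 0 < 4 / ε := by positivity
      have hxpos : 0 < x := by linarith
      have hmU₁ : (m : ℝ) ≤ U₁.card := by
        have h1 : 2 * (m : ℝ) < S.card * η := by
          rwa [div_lt_iff₀ hη] at hsmall
        linarith
      have hmU₁' : m ≤ U₁.card := by exact_mod_cast hmU₁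
      have hSU₁ : (U₁.card : ℝ) ≤ 1 / 16 * S.card :=
        hU₁2.trans (mul_le_mul_of_nonneg_right hη1 (Nat.cast_nonneg _))
      have hlt : U₁.card < S.card := by
        have : (U₁.card : ℝ) < S.card := by linarith
        exact_mod_cast this
      have hy4 : (√(√(U₁.card : ℝ))) ^ 4 = (U₁.card : ℝ) := vortex_x _
      have hy0 : 0 ≤ √(√(U₁.card : ℝ)) := Real.sqrt_nonneg _
      set y : ℝ := √(√(U₁.card : ℝ)) with hy
      have hypos : 0 < y := by
        rcases hy0.lt_or_eq with h | h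
        · exact h
        · rw [← h] at hy4
          norm_num at hy4
          rw [← hy4] at hmU₁
          linarith
      have hyx : y ≤ x / 2 := by
        by_contra hcon
        push Not at hcon
        have h1 : (x / 2) ^ 4 < y ^ 4 := pow_lt_pow_left₀ hcon (by positivity) (by norm_num)
        rw [hy4, div_pow, hx4] at h1
        linarith
      have hxy : 4 / x ≤ 2 / y := by
        rw [div_le_div_iff₀ hxpos hypos]
        linarith
      have h4x : 4 / x ≤ ε := by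
        rw [div_le_iff₀ hxpos]
        rw [div_le_iff₀ hε] at hxε
        linarith
      have h2x : 2 / x + 2 / x = 4 / x := by ring
      obtain ⟨l, U', hU0, hUi, hUl1, hUl2⟩ := ih U₁ (by omega) hmU₁' (by
        intro v hv
        refine le_trans ?_ (hU₁3 v (hU₁S hv))
        apply mul_le_mul_of_nonneg_right _ (Nat.cast_nonneg _)
        linarith)
      refine ⟨l + 1, fun i => Nat.casesOn i S U', rfl, ?_, hUl1, hUl2⟩
      intro i hi
      cases i with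
      | zero =>
        simp only [Nat.rec_zero]
        rw [hU0]
        refine ⟨hU₁S, hU₁1, hU₁2, ?_⟩
        intro v hv
        refine le_trans ?_ (hU₁3 v hv)
        apply mul_le_mul_of_nonneg_right _ (Nat.cast_nonneg _)
        linarith
      | succ i =>
        exact hUi i (by omega)

theorem vortex {ε η : ℝ} (hε : 0 < ε) (hε1 : ε ≤ 1 / 16) (hη : 0 < η) (hη1 : η ≤ 1 / 16) :
    ∃ m₀ : ℕ, ∀ m ≥ m₀, ∀ (V : Type) [Fintype V] (G : SimpleGraph V), m ≤ Fintype.card V →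
      (∀ v, (3 / 4 + 2 * ε) * Fintype.card V ≤ ((nb G univ v).card : ℝ)) →
      ∃ (l : ℕ) (U : ℕ → Finset V), U 0 = univ ∧
        (∀ i < l, U (i + 1) ⊆ U i ∧ η / 2 * (U i).card ≤ (U (i + 1)).card ∧
          (U (i + 1)).card ≤ η * (U i).card ∧
          ∀ v ∈ U i, (3 / 4 + ε) * (U (i + 1)).card ≤ ((nb G (U (i + 1)) v).card : ℝ)) ∧
        m ≤ (U l).card ∧ ((U l).card : ℝ) ≤ 2 * m / η := by
  obtain ⟨n₀, hn₀⟩ := vstep hη (show η ≤ 1 by linarith)
  refine ⟨n₀ + ⌈(4 / ε) ^ 4⌉₊ + 1, ?_⟩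
  intro m hm V _ G hmV hG
  have hmε : (4 / ε) ^ 4 ≤ (m : ℝ) := by
    have h1 := Nat.le_ceil ((4 / ε) ^ 4)
    have h2 : ((⌈(4 / ε) ^ 4⌉₊ : ℕ) : ℝ) ≤ m := by
      have : ⌈(4 / ε) ^ 4⌉₊ ≤ m := by omega
      exact_mod_cast this
    exact h1.trans h2
  apply vortex_aux hε hε1 hη hη1 (by omega) (by omega) hmε hn₀ G (univ : Finset V).card univ le_rfl
    (by rw [card_univ]; exact hmV)
  intro v _
  refine le_trans ?_ (hG v)
  rw [card_univ]
  apply mul_le_mul_of_nonneg_right _ (Nat.cast_nonneg _)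
  have : 0 ≤ 2 / √(√(Fintype.card V : ℝ)) := by positivity
  linarith

end Pool.NSH
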