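import Pool.Agent.NSH.Run
import Pool.Agent.NSH.Vortex
import Pool.Agent.NSH.AbsF

/-!
MODULE Final (difficulty 4).  The asymptotic Nash-Williams conjecture.

RECIPE.  We may assume `ε ≤ 1/16` (replace `ε` by `min ε (1/16)`).  `ε₁ = ε/2`, `ε₂ = ε/4`, `η = ε₂ / 16`.  `m` = a natural number `≥` the `m₀` of `vortex` (for `ε₁, η`), `≥` the `n₀` of `run` (for
`ε₂, η`).  `M = ⌈2 m / η⌉`, `C = 2 ^ (M ^ 2) * (M ^ 2 + 16 M)`.  `n₀` large: `n₀ > M`, `n₀ ≥ m`, and `(M + C) ≤ (ε₂ η / 4) n₀`.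
`vortex` (with `2 ε₁ = ε`): `l, U`, `Z = U l`, `m ≤ |Z| ≤ M < n`, so `l ≥ 1`; `Z ⊆ U 1` (the sets decrease), `|U 1| ≤ η n`.
`absF` with `Fb = U 1`: at most `4` vertices `S` have at least `n - 4 (1/4 - ε) n = 4 ε n > η n + C` common neighbours.  Get `A, Nw`, `|Nw| ≤ C`.
`G₁ = G \ A`.  `Red G G₁` (`Red.of_sdiff`, `G \ G₁ = A`), so all degrees of `G₁` are even and `3 ∣ ec G₁`.
`G₁` agrees with `G` inside `U 1` (an edge of `A` has an end in `Nw`, outside `U 1`).  Degrees: `|nb G₁ univ v| ≥ |nb G univ v| - (C + M) ≥ (3/4 + ε₂) n` (the `A`-neighbours of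
`v` are in `Nw ∪ Z`); for `v ∈ U i`, `i < l`: if `i ≥ 1` then `nb G₁ (U (i+1)) v = nb G (U (i+1)) v`; if `i = 0`: `|nb G₁ (U 1) v| ≥ |nb G (U 1) v| - |Z| ≥ (3/4 + ε₁) |U 1| - M ≥ (3/4 + ε₂) |U 1|`
(`|U 1| ≥ η n / 2`).  `run` for `G₁` gives `L`, `Red G₁ L`, `On L Z`.  `L ≤ G₁ ≤ G`, degrees even, `3 ∣ ec L`.  So `HasDec (A ⊔ L)`, `HasDec (G₁ \ L)` (`Red.hasDec_sdiff`), and
`G = (A ⊔ L) ⊔ (G₁ \ L)`, disjoint.
-/

open Finset
open scoped Classical

namespace Pool.NSH

theorem final_common {V : Type*} [Fintype V] (G : SimpleGraph V) {δ : ℝ} (hδ1 : δ ≤ 1 / 4)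
    (hdeg : ∀ v, (3 / 4 + δ) * Fintype.card V ≤ ((nb G univ v).card : ℝ)) (S : Finset V)
    (hS : S.card ≤ 4) :
    4 * δ * Fintype.card V ≤ ((univ.filter fun v => ∀ s ∈ S, G.Adj s v).card : ℝ) := by
  have h1 : (univ : Finset V) ⊆ (univ.filter fun v => ∀ s ∈ S, G.Adj s v) ∪
      S.biUnion (fun s => univ.filter fun v => ¬ G.Adj s v) := by
    intro v _
    by_cases h : ∀ s ∈ S, G.Adj s v
    · exact mem_union_left _ (mem_filter.2 ⟨mem_univ _, h⟩)
    · push Not at h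
      obtain ⟨s, hs, hsv⟩ := h
      exact mem_union_right _ (mem_biUnion.2 ⟨s, hs, mem_filter.2 ⟨mem_univ _, hsv⟩⟩)
  have h2 : ∀ s ∈ S, (((univ.filter fun v => ¬ G.Adj s v).card : ℕ) : ℝ) ≤
      (1 / 4 - δ) * Fintype.card V := by
    intro s _
    have h3 : (univ.filter fun v => G.Adj s v).card + (univ.filter fun v => ¬ G.Adj s v).card =
        Fintype.card V := by
      rw [card_filter_add_card_filter_not, card_univ]
    have h4 := hdeg s
    unfold nb at h4
    have h5 : ((univ.filter fun v => G.Adj s v).card : ℝ) +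
        ((univ.filter fun v => ¬ G.Adj s v).card : ℝ) = Fintype.card V := by exact_mod_cast h3
    linarith
  have h6 : ((S.biUnion (fun s => univ.filter fun v => ¬ G.Adj s v)).card : ℝ) ≤
      4 * ((1 / 4 - δ) * Fintype.card V) := by
    have h7 : ((S.biUnion (fun s => univ.filter fun v => ¬ G.Adj s v)).card : ℝ) ≤
        ∑ s ∈ S, ((univ.filter fun v => ¬ G.Adj s v).card : ℝ) := by
      exact_mod_cast card_biUnion_le
    refine h7.trans ((sum_le_sum h2).trans ?_)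
    rw [sum_const, nsmul_eq_mul]
    apply mul_le_mul_of_nonneg_right _ (by
      apply mul_nonneg
      · linarith
      · positivity)
    exact_mod_cast hS
  have h8 := (card_le_card h1).trans (card_union_le _ _)
  rw [card_univ] at h8
  have h9 : (Fintype.card V : ℝ) ≤ ((univ.filter fun v => ∀ s ∈ S, G.Adj s v).card : ℝ) +
      ((S.biUnion (fun s => univ.filter fun v => ¬ G.Adj s v)).card : ℝ) := by exact_mod_cast h8
  linarith

theorem final_mem {V : Type*} (G : SimpleGraph V) (S : Finset V) (v x : V) :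
    x ∈ nb G S v ↔ x ∈ S ∧ G.Adj v x := by
  unfold nb
  exact mem_filter

theorem final_nb {V : Type*} [Fintype V] (G A : SimpleGraph V) (S T : Finset V) (v : V)
    (h : ∀ x ∈ S, A.Adj v x → x ∈ T) :
    ((nb G S v).card : ℝ) - T.card ≤ ((nb (G \ A) S v).card : ℝ) := by
  have h1 : nb G S v ⊆ nb (G \ A) S v ∪ T := by
    intro x hx
    obtain ⟨hx1, hx2⟩ := (final_mem _ _ _ _).1 hx
    by_cases hA : A.Adj v x
    · exact mem_union_right _ (h x hx1 hA)
    · exact mem_union_left _ ((final_mem _ _ _ _).2 ⟨hx1, hx2, hA⟩)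
  have h2 := (card_le_card h1).trans (card_union_le _ _)
  have h3 : ((nb G S v).card : ℝ) ≤ ((nb (G \ A) S v).card : ℝ) + T.card := by exact_mod_cast h2
  linarith

theorem final_core {δ : ℝ} (hδ : 0 < δ) (hδ1 : δ ≤ 1 / 16) :
    ∃ n₀ : ℕ, ∀ (V : Type) [Fintype V] (G : SimpleGraph V), n₀ ≤ Fintype.card V →
      (∀ v, (3 / 4 + δ) * Fintype.card V ≤ ((nb G univ v).card : ℝ)) →
      (∀ v, Even (nb G univ v).card) → 3 ∣ ec G → HasDec G := by
  obtain ⟨ε₂, hε₂⟩ : ∃ x : ℝ, x = δ / 4 := ⟨_, rfl⟩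
  obtain ⟨η, hη⟩ : ∃ x : ℝ, x = ε₂ / 16 := ⟨_, rfl⟩
  have hε₂0 : 0 < ε₂ := by rw [hε₂]; positivity
  have hη0 : 0 < η := by rw [hη]; positivity
  obtain ⟨n₁, hrun⟩ := run (ε := ε₂) (η := η) hε₂0 (by linarith) hη0 (by linarith)
  obtain ⟨m₀, hvor⟩ := vortex (ε := δ / 2) (η := η) (by positivity) (by linarith) hη0
    (by linarith)
  obtain ⟨m, hm⟩ : ∃ m : ℕ, m = max m₀ n₁ := ⟨_, rfl⟩
  obtain ⟨M, hM⟩ : ∃ M : ℕ, M = ⌈2 * (m : ℝ) / η⌉₊ := ⟨_, rfl⟩
  obtain ⟨C, hC⟩ : ∃ C : ℕ, C = 2 ^ (M ^ 2) * (M ^ 2 + 16 * M) := ⟨_, rfl⟩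
  refine ⟨max (max (M + 1) m) ⌈((M : ℝ) + C) / (ε₂ * η / 4)⌉₊, ?_⟩
  intro V _ G hn hdeg hev h3
  have hn1 : M < Fintype.card V := by
    have := (le_max_left _ _).trans ((le_max_left _ _).trans hn)
    omega
  have hn2 : m ≤ Fintype.card V := (le_max_right _ _).trans ((le_max_left _ _).trans hn)
  have hn3 : (M : ℝ) + C ≤ ε₂ * η / 4 * Fintype.card V := by
    have h1 : ((M : ℝ) + C) / (ε₂ * η / 4) ≤ Fintype.card V :=
      (Nat.le_ceil _).trans (by exact_mod_cast (le_max_right _ _).trans hn)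
    rw [div_le_iff₀ (by positivity)] at h1
    linarith
  obtain ⟨n, hnn⟩ : ∃ n : ℝ, n = Fintype.card V := ⟨_, rfl⟩
  have hn0 : 0 < n := by
    rw [hnn]
    exact_mod_cast lt_of_le_of_lt (Nat.zero_le _) hn1
  rw [← hnn] at hn3
  have hMnn : (0 : ℝ) ≤ M := Nat.cast_nonneg _
  have hCnn : (0 : ℝ) ≤ C := Nat.cast_nonneg _
  have hηn : ε₂ * η / 4 * n ≤ ε₂ * n := by
    apply mul_le_mul_of_nonneg_right _ hn0.le
    nlinarith
  obtain ⟨l, U, hU0, hU, hml, hlM⟩ := hvor m (by rw [hm]; exact le_max_left _ _) V G hn2 (by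
    intro v
    have := hdeg v
    have e : (3 / 4 + 2 * (δ / 2)) = 3 / 4 + δ := by ring
    rw [e]
    exact this)
  have hZM : (U l).card ≤ M := by
    have h1 : ((U l).card : ℝ) ≤ M := hlM.trans (by rw [hM]; exact Nat.le_ceil _)
    exact_mod_cast h1
  have hl : 1 ≤ l := by
    by_contra hl0
    have : l = 0 := by omega
    rw [this, hU0, card_univ] at hZM
    omega
  have hanti : ∀ j, j ≤ l → ∀ i, i ≤ j → U j ⊆ U i := by
    intro j
    induction j with
    | zero =>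
      intro _ i hi
      have : i = 0 := by omega
      rw [this]
    | succ j ih =>
      intro hj i hi
      rcases Nat.lt_or_ge i (j + 1) with h | h
      · exact (hU j (by omega)).1.trans (ih (by omega) i (by omega))
      · have : i = j + 1 := by omega
        rw [this]
  have hZ1 : U l ⊆ U 1 := hanti l (le_refl l) 1 hl
  have hU1 := hU 0 (by omega)
  rw [hU0, card_univ, ← hnn] at hU1
  have hU1a : η / 2 * n ≤ (U (0 + 1)).card := hU1.2.1
  have hU1b : ((U (0 + 1)).card : ℝ) ≤ η * n := hU1.2.2.1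
  rw [zero_add] at hU1a hU1b
  have hCZ : 2 ^ ((U l).card ^ 2) * ((U l).card ^ 2 + 16 * (U l).card) ≤ C := by
    rw [hC]
    gcongr
    norm_num
  obtain ⟨A, Nw, hAG, hNc, hNF, hAe, hAD, hAL⟩ := absF G (U l) (U 1) hZ1 (by
    intro S hS
    have h1 := final_common G (by linarith : δ ≤ 1 / 4) hdeg S hS
    rw [← hnn] at h1
    have h2 : ((U 1).card : ℝ) + C < 4 * δ * n := by
      have h5 : η * n ≤ δ * n := mul_le_mul_of_nonneg_right (by linarith) hn0.le
      have h6 : ε₂ * n ≤ δ * n := mul_le_mul_of_nonneg_right (by linarith) hn0.le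
      have h7 : 0 < δ * n := by positivity
      linarith
    have h4 : ((U 1).card : ℝ) + C < ((univ.filter fun v => ∀ s ∈ S, G.Adj s v).card : ℝ) := by
      linarith
    have h5 : (U 1).card + C < (univ.filter fun v => ∀ s ∈ S, G.Adj s v).card := by
      exact_mod_cast h4
    omega)
  have hNC : Nw.card ≤ C := hNc.trans hCZ
  have hNCr : (Nw.card : ℝ) ≤ C := by exact_mod_cast hNC
  have hZMr : ((U l).card : ℝ) ≤ M := by exact_mod_cast hZM
  have hA1 : ∀ x y, x ∈ U 1 → y ∈ U 1 → A.Adj x y → False := by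
    intro x y hx hy h
    rcases (hAe x y h).1 with h1 | h1
    · exact (disjoint_left.1 hNF h1) hx
    · exact (disjoint_left.1 hNF h1) hy
  have hred : Red G (G \ A) := by
    apply Red.of_sdiff sdiff_le
    rw [sdiff_sdiff_eq_self hAG]
    exact hAD
  have hev1 : ∀ v, Even (nb (G \ A) univ v).card := fun v => (Red.even hred v).1 (hev v)
  have h31 : 3 ∣ ec (G \ A) := (Red.dvd hred).1 h3
  obtain ⟨L, hL1, hL2⟩ := hrun V (G \ A) l U hU0 (by
    intro i hi
    obtain ⟨g1, g2, g3, g4⟩ := hU i hi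
    refine ⟨g1, g2, g3, ?_⟩
    intro v hv
    have g5 := g4 v hv
    have hUnn : (0 : ℝ) ≤ (U (i + 1)).card := Nat.cast_nonneg _
    rcases Nat.eq_zero_or_pos i with hi0 | hi0
    · subst hi0
      have h1 := final_nb G A (U (0 + 1)) (U l) v (by
        intro x hx hxA
        rcases (hAe v x hxA).2.2 with h | h
        · exact absurd hx (disjoint_left.1 hNF h)
        · exact h)
      rw [zero_add] at h1 g5 ⊢
      have h2 : (M : ℝ) ≤ ε₂ * (U 1).card := by
        have h5 : ε₂ * (η / 2 * n) ≤ ε₂ * (U 1).card := mul_le_mul_of_nonneg_left hU1a hε₂0.le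
        have h6 : 0 ≤ ε₂ * η * n := by positivity
        nlinarith
      have h7 : (3 / 4 + δ / 2) * ((U 1).card : ℝ) = (3 / 4 + ε₂) * ((U 1).card : ℝ) +
          ε₂ * (U 1).card := by rw [hε₂]; ring
      linarith
    · have h1 := final_nb G A (U (i + 1)) ∅ v (by
        intro x hx hxA
        exact (hA1 v x (hanti i (by omega) 1 hi0 hv) (hanti (i + 1) (by omega) 1 (by omega) hx)
          hxA).elim)
      rw [card_empty, Nat.cast_zero, sub_zero] at h1
      have h7 : (3 / 4 + ε₂) * ((U (i + 1)).card : ℝ) ≤ (3 / 4 + δ / 2) * ((U (i + 1)).card : ℝ) :=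
        mul_le_mul_of_nonneg_right (by linarith) hUnn
      linarith)
    (by
      intro v
      have h1 := final_nb G A univ (Nw ∪ U l) v (by
        intro x _ hxA
        rcases (hAe v x hxA).2.2 with h | h
        · exact mem_union_left _ h
        · exact mem_union_right _ h)
      have h2 : ((Nw ∪ U l).card : ℝ) ≤ Nw.card + (U l).card := by
        exact_mod_cast card_union_le _ _
      have h5 := hdeg v
      rw [← hnn] at h5 ⊢
      have h6 : (3 / 4 + δ) * n = (3 / 4 + ε₂) * n + 3 * ε₂ * n := by rw [hε₂]; ring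
      have h7 : 0 ≤ ε₂ * n := by positivity
      linarith)
    hev1 ((by rw [hm]; exact le_max_right _ _ : n₁ ≤ m).trans hml)
  have hLG1 : L ≤ G \ A := Red.le hL1
  have hLG : L ≤ G := hLG1.trans sdiff_le
  have hdecAL : HasDec (A ⊔ L) := hAL L hLG hL2 (fun v => (Red.even hL1 v).1 (hev1 v))
    ((Red.dvd hL1).1 h31)
  have hdec2 : HasDec ((G \ A) \ L) := Red.hasDec_sdiff hL1
  have hdisj : Disjoint (A ⊔ L) ((G \ A) \ L) := by
    rw [SimpleGraph.disjoint_left]
    intro x y h1 h2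
    rcases h1 with h1 | h1
    · exact h2.1.2 h1
    · exact h2.2 h1
  have heq : (A ⊔ L) ⊔ ((G \ A) \ L) = G := by
    rw [sup_assoc, sup_sdiff_cancel_right hLG1, sup_sdiff_cancel_right hAG]
  rw [← heq]
  exact hasDec_sup hdisj hdecAL hdec2

theorem final {ε : ℝ} (hε : 0 < ε) :
    ∃ n₀ : ℕ, ∀ (V : Type) [Fintype V] (G : SimpleGraph V), n₀ ≤ Fintype.card V →
      (∀ v, (3 / 4 + ε) * Fintype.card V ≤ ((nb G univ v).card : ℝ)) →
      (∀ v, Even (nb G univ v).card) → 3 ∣ ec G → HasDec G := by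
  obtain ⟨n₀, h⟩ := final_core (δ := min ε (1 / 16)) (lt_min hε (by norm_num)) (min_le_right _ _)
  refine ⟨n₀, ?_⟩
  intro V _ G hn hdeg hev h3
  apply h V G hn _ hev h3
  intro v
  refine le_trans (mul_le_mul_of_nonneg_right ?_ (Nat.cast_nonneg _)) (hdeg v)
  have := min_le_left ε (1 / 16)
  linarith

end Pool.NSH
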