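import Pool.Agent.NSH.Plane

/-!
MODULE FrB (difficulty 2).  Basic consequences of a frame.

RECIPE: `Ul l` is the disjoint union of the `U_p`, `p` on `l` (`q + 1` points, `points_on`; `Finset.card_eq_sum_card_fiberwise`);
sum `sizeU1`, `sizeU2`, `degU`, `sizeU'` over them: `|Ul| ≥ (q + 1) u / (2 q (q + 1)) = u / (2 q)`, `≤ 2 u / q`.
`up_le`: `|U_p| ≤ 2 u / (q (q + 1)) ≤ 4 |Ul| / (q + 1) ≤ 4 |Ul| / q`.
`through`: the `x ∉ U` with `R x u` are in the `Wl l` of the `q` lines through `pt u` (`lines_through`), each of size `≤ 2 n / q ^ 2`.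
`throughV`: same inside `V_i` with `sizeWV`: `≤ q * 4 / q ^ 2 * |V_i|`.
-/

open Finset
open scoped Classical

namespace Pool.NSH

variable {V : Type*} [Fintype V] {G : SimpleGraph V} {U U' : Finset V} {q K : ℕ} {ε η : ℝ}
  [Fact q.Prime] (fr : Frame G U U' q K ε η)

omit [Fact q.Prime] in
theorem frb_qpos (hq : q.Prime) : (0 : ℝ) < (q : ℝ) := by exact_mod_cast hq.pos

theorem frb_ul_sum (l : Ln q) : ((fr.Ul l).card : ℝ) =
    ∑ p ∈ univ.filter (fun p : Pt q => Inc p l), ((U.filter fun v => fr.pt v = p).card : ℝ) := by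
  have h : (fr.Ul l).card = ∑ p ∈ univ.filter (fun p : Pt q => Inc p l),
      ((fr.Ul l).filter (fun v => fr.pt v = p)).card := by
    apply Finset.card_eq_sum_card_fiberwise
    intro v hv
    simp only [Frame.Ul, coe_filter, Set.mem_setOf_eq, mem_univ, true_and] at hv ⊢
    exact hv.2
  rw [h]
  push_cast
  apply Finset.sum_congr rfl
  intro p hp
  congr 2
  ext v
  simp only [Frame.Ul, mem_filter]
  constructor
  · rintro ⟨⟨h1, h2⟩, h3⟩
    exact ⟨h1, h3⟩
  · rintro ⟨h1, h2⟩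
    refine ⟨⟨h1, ?_⟩, h2⟩
    rw [h2]
    exact (mem_filter.1 hp).2

theorem frb_const (l : Ln q) (c : ℝ) :
    ∑ _p ∈ univ.filter (fun p : Pt q => Inc p l), c = (q + 1) * c := by
  rw [Finset.sum_const, points_on, nsmul_eq_mul]
  push_cast
  ring

theorem Frame.ul_ge (l : Ln q) : (U.card : ℝ) / (2 * q) ≤ (fr.Ul l).card := by
  have hq := frb_qpos (Fact.out : q.Prime)
  rw [frb_ul_sum fr l]
  calc (U.card : ℝ) / (2 * q) = (q + 1) * ((U.card : ℝ) / (2 * (q * (q + 1)))) := by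
        field_simp
    _ = ∑ _p ∈ univ.filter (fun p : Pt q => Inc p l), ((U.card : ℝ) / (2 * (q * (q + 1)))) :=
        (frb_const l _).symm
    _ ≤ _ := Finset.sum_le_sum fun p _ => fr.sizeU1 p

theorem Frame.ul_le (l : Ln q) : ((fr.Ul l).card : ℝ) ≤ 2 * U.card / q := by
  have hq := frb_qpos (Fact.out : q.Prime)
  rw [frb_ul_sum fr l]
  calc _ ≤ ∑ _p ∈ univ.filter (fun p : Pt q => Inc p l), (2 * (U.card : ℝ) / (q * (q + 1))) :=
        Finset.sum_le_sum fun p _ => fr.sizeU2 p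
    _ = (q + 1) * (2 * (U.card : ℝ) / (q * (q + 1))) := frb_const l _
    _ = 2 * U.card / q := by
        field_simp

theorem Frame.deg_ul (l : Ln q) (v : V) :
    (3 / 4 + ε / 2) * ((fr.Ul l).card : ℝ) ≤ (nb G (fr.Ul l) v).card := by
  have h : (nb G (fr.Ul l) v).card = ∑ p ∈ univ.filter (fun p : Pt q => Inc p l),
      ((nb G (fr.Ul l) v).filter (fun w => fr.pt w = p)).card := by
    apply Finset.card_eq_sum_card_fiberwise
    intro w hw
    simp only [nb, Frame.Ul, coe_filter, Set.mem_setOf_eq, mem_univ, true_and, mem_filter] at hw ⊢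
    exact hw.1.2
  rw [h, frb_ul_sum fr l, Finset.mul_sum]
  push_cast
  apply Finset.sum_le_sum
  intro p hp
  refine (fr.degU p v).trans ?_
  have : nb G (U.filter fun v => fr.pt v = p) v ⊆ (nb G (fr.Ul l) v).filter (fun w => fr.pt w = p) := by
    intro w hw
    simp only [nb, Frame.Ul, mem_filter] at hw ⊢
    refine ⟨⟨⟨hw.1.1, ?_⟩, hw.2⟩, hw.1.2⟩
    rw [hw.1.2]
    exact (mem_filter.1 hp).2
  exact_mod_cast Finset.card_le_card this

theorem Frame.ul' (l : Ln q) : ((U' ∩ fr.Ul l).card : ℝ) ≤ 4 * η * (fr.Ul l).card := by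
  have h : (U' ∩ fr.Ul l).card = ∑ p ∈ univ.filter (fun p : Pt q => Inc p l),
      ((U' ∩ fr.Ul l).filter (fun w => fr.pt w = p)).card := by
    apply Finset.card_eq_sum_card_fiberwise
    intro w hw
    simp only [Frame.Ul, coe_inter, coe_filter, Set.mem_inter_iff, Set.mem_setOf_eq, mem_univ,
      true_and] at hw ⊢
    exact hw.2.2
  rw [h, frb_ul_sum fr l, Finset.mul_sum]
  push_cast
  apply Finset.sum_le_sum
  intro p hp
  refine le_trans ?_ (fr.sizeU' p)
  have : (U' ∩ fr.Ul l).filter (fun w => fr.pt w = p) ⊆ U'.filter fun v => fr.pt v = p := by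
    intro w hw
    simp only [mem_filter, mem_inter] at hw ⊢
    exact ⟨hw.1.1, hw.2⟩
  exact_mod_cast Finset.card_le_card this

theorem Frame.up_le (l : Ln q) (p : Pt q) :
    ((U.filter fun v => fr.pt v = p).card : ℝ) ≤ 4 / q * (fr.Ul l).card := by
  have hq := frb_qpos (Fact.out : q.Prime)
  have h1 := fr.sizeU2 p
  have h2 := fr.ul_ge l
  have hU : (0 : ℝ) ≤ U.card := by positivity
  have h3 : 2 * (U.card : ℝ) / (q * (q + 1)) ≤ 4 / q * ((U.card : ℝ) / (2 * q)) := by
    rw [div_mul_div_comm, div_le_div_iff₀ (by positivity) (by positivity)]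
    nlinarith [mul_nonneg hU hq.le, mul_nonneg (mul_nonneg hU hq.le) hq.le]
  have h4 : 4 / q * ((U.card : ℝ) / (2 * q)) ≤ 4 / q * (fr.Ul l).card :=
    mul_le_mul_of_nonneg_left h2 (by positivity)
  linarith

theorem Frame.through (u : V) :
    ∑ l ∈ univ.filter (fun l => Inc (fr.pt u) l), ((fr.Wl l).card : ℝ)
      ≤ 2 * Fintype.card V / q := by
  have hq := frb_qpos (Fact.out : q.Prime)
  calc ∑ l ∈ univ.filter (fun l => Inc (fr.pt u) l), ((fr.Wl l).card : ℝ)
      ≤ ∑ _l ∈ univ.filter (fun l : Ln q => Inc (fr.pt u) l), (2 * (Fintype.card V : ℝ) / (q : ℝ) ^ 2) :=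
        Finset.sum_le_sum fun l _ => fr.sizeW l
    _ = q * (2 * (Fintype.card V : ℝ) / (q : ℝ) ^ 2) := by
        rw [Finset.sum_const, lines_through, nsmul_eq_mul]
    _ = 2 * Fintype.card V / q := by
        field_simp

theorem Frame.throughR (u : V) :
    ((Uᶜ.filter fun x => fr.R x u).card : ℝ) ≤ 2 * Fintype.card V / q := by
  refine le_trans ?_ (fr.through u)
  have h : (Uᶜ.filter fun x => fr.R x u) ⊆
      (univ.filter (fun l => Inc (fr.pt u) l)).biUnion (fun l => fr.Wl l) := by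
    intro x hx
    simp only [mem_filter, mem_biUnion, mem_univ, true_and, Frame.Wl, Frame.R] at hx ⊢
    exact ⟨fr.ln x, hx.2, hx.1, rfl⟩
  have h2 := (Finset.card_le_card h).trans Finset.card_biUnion_le
  exact_mod_cast h2

theorem Frame.throughV (u : V) (i : Fin K) :
    (((fr.Vi i).filter fun x => fr.R x u).card : ℝ) ≤ 4 / q * (fr.Vi i).card := by
  have hq := frb_qpos (Fact.out : q.Prime)
  have h : ((fr.Vi i).filter fun x => fr.R x u) ⊆
      (univ.filter (fun l => Inc (fr.pt u) l)).biUnion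
        (fun l => Uᶜ.filter fun v => fr.ln v = l ∧ fr.ix v = i) := by
    intro x hx
    simp only [mem_filter, mem_biUnion, mem_univ, true_and, Frame.Vi, Frame.R] at hx ⊢
    exact ⟨fr.ln x, hx.2, hx.1.1, rfl, hx.1.2⟩
  have h2 : ((((fr.Vi i).filter fun x => fr.R x u).card : ℕ) : ℝ) ≤
      ∑ l ∈ univ.filter (fun l => Inc (fr.pt u) l),
        ((Uᶜ.filter fun v => fr.ln v = l ∧ fr.ix v = i).card : ℝ) := by
    exact_mod_cast (Finset.card_le_card h).trans Finset.card_biUnion_le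
  refine h2.trans ?_
  calc ∑ l ∈ univ.filter (fun l => Inc (fr.pt u) l),
        ((Uᶜ.filter fun v => fr.ln v = l ∧ fr.ix v = i).card : ℝ)
      ≤ ∑ _l ∈ univ.filter (fun l : Ln q => Inc (fr.pt u) l),
        (4 / (q : ℝ) ^ 2 * ((fr.Vi i).card : ℝ)) :=
        Finset.sum_le_sum fun l _ => fr.sizeWV l i
    _ = q * (4 / (q : ℝ) ^ 2 * ((fr.Vi i).card : ℝ)) := by
        rw [Finset.sum_const, lines_through, nsmul_eq_mul]
    _ = 4 / q * (fr.Vi i).card := by
        field_simp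

end Pool.NSH
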