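import Pool.Agent.NSH.Part

/-!
MODULE PartU (difficulty 2).  Uniform random labels.

RECIPE: `part` with `K = card Λ`, `p = fun _ => 1 / K`, transported along `Fintype.equivFin Λ`
(`f v = (Fintype.equivFin Λ).symm (f' v)`).  The condition of `part` is
`2 * K * card J * exp (-(τ ^ 2 * n / 4)) < 1`; with `card J ≤ n ^ 3` it follows from
`2 * K * n ^ 3 * exp (-(τ ^ 2 * n / 4)) → 0` (`Real.tendsto_pow_mul_exp_neg_atTop_nhds_zero`, or
`exp y ≥ y ^ 4 / 24` directly: `exp (τ ^ 2 n / 4) ≥ (τ ^ 2 n / 4) ^ 4 / 24 > 2 K n ^ 3` for large `n`).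
-/

open Finset
open scoped Classical

namespace Pool.NSH

lemma partU_bound {K : ℕ} (hK : 0 < K) {c : ℝ} (hc : 0 < c) :
    ∃ n₀ : ℕ, ∀ n : ℕ, n₀ ≤ n → 2 * (K : ℝ) * (n : ℝ) ^ 3 * Real.exp (-(c * n)) < 1 := by
  have hKr : (0 : ℝ) < K := Nat.cast_pos.2 hK
  have h1 := Real.tendsto_pow_mul_exp_neg_atTop_nhds_zero 3
  have h2 : Filter.Tendsto (fun n : ℕ => c * (n : ℝ)) Filter.atTop Filter.atTop :=
    Filter.Tendsto.const_mul_atTop hc tendsto_natCast_atTop_atTop
  have h3 := h1.comp h2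
  have h4 : (0 : ℝ) < c ^ 3 / (2 * K) := div_pos (pow_pos hc 3) (by linarith)
  have h5 := h3.eventually (gt_mem_nhds h4)
  obtain ⟨n₀, hn₀⟩ := Filter.eventually_atTop.1 h5
  refine ⟨n₀, fun n hn => ?_⟩
  have h6 := hn₀ n hn
  simp only [Function.comp] at h6
  rw [lt_div_iff₀ (by linarith)] at h6
  have h7 : c ^ 3 * (2 * (K : ℝ) * (n : ℝ) ^ 3 * Real.exp (-(c * n))) < c ^ 3 * 1 := by
    calc c ^ 3 * (2 * (K : ℝ) * (n : ℝ) ^ 3 * Real.exp (-(c * n)))
        = (c * (n : ℝ)) ^ 3 * Real.exp (-(c * n)) * (2 * K) := by ring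
      _ < c ^ 3 := h6
      _ = c ^ 3 * 1 := by ring
  exact lt_of_mul_lt_mul_left h7 (pow_pos hc 3).le

theorem partU {Λ : Type} [Fintype Λ] [Nonempty Λ] {τ : ℝ} (hτ : 0 < τ) :
    ∃ n₀ : ℕ, ∀ (V J : Type) [Fintype V] [Fintype J] (A : J → Finset V),
      n₀ ≤ Fintype.card V → Fintype.card J ≤ (Fintype.card V) ^ 3 →
      ∃ f : V → Λ, ∀ j l, |((((A j).filter fun v => f v = l).card : ℝ))
        - (A j).card / Fintype.card Λ| ≤ τ * Fintype.card V := by
  have hK : 0 < Fintype.card Λ := Fintype.card_pos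
  have hKr : (0 : ℝ) < Fintype.card Λ := Nat.cast_pos.2 hK
  have hτ' : 0 < min τ 2 := lt_min hτ (by norm_num)
  obtain ⟨n₀, hn₀⟩ := partU_bound (K := Fintype.card Λ) hK (c := (min τ 2) ^ 2 / 4)
    (div_pos (pow_pos hτ' 2) (by norm_num))
  refine ⟨n₀, fun V J _ _ A hn hJ => ?_⟩
  have h1 := hn₀ (Fintype.card V) hn
  obtain ⟨f, hf⟩ := part (K := Fintype.card Λ) (fun _ => 1 / (Fintype.card Λ : ℝ))
    (fun _ => (one_div_pos.2 hKr).le)
    (by rw [Finset.sum_const, Finset.card_univ, Fintype.card_fin, nsmul_eq_mul,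
          mul_one_div_cancel hKr.ne']) A hτ' (min_le_right _ _)
    (by
      have h2 : (Fintype.card J : ℝ) ≤ (Fintype.card V : ℝ) ^ 3 := by exact_mod_cast hJ
      refine lt_of_le_of_lt ?_ h1
      have h3 : Real.exp (-((min τ 2) ^ 2 * Fintype.card V / 4))
          = Real.exp (-((min τ 2) ^ 2 / 4 * Fintype.card V)) := by
        congr 1
        ring
      rw [h3]
      exact mul_le_mul_of_nonneg_right
        (mul_le_mul_of_nonneg_left h2 (by linarith)) (Real.exp_nonneg _))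
  refine ⟨fun v => (Fintype.equivFin Λ).symm (f v), fun j l => ?_⟩
  have h4 := hf j (Fintype.equivFin Λ l)
  have h5 : ((A j).filter fun v => (Fintype.equivFin Λ).symm (f v) = l)
      = ((A j).filter fun v => f v = Fintype.equivFin Λ l) := by
    apply Finset.filter_congr
    intro v _
    exact Equiv.symm_apply_eq _
  rw [h5]
  have h6 : ((A j).card : ℝ) / Fintype.card Λ = 1 / (Fintype.card Λ : ℝ) * (A j).card := by ring
  rw [h6]
  exact h4.trans (mul_le_mul_of_nonneg_right (min_le_left _ _) (Nat.cast_nonneg _))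

end Pool.NSH
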