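import Pool.Agent.NSH.Plane
import Pool.Agent.NSH.PartU

/-!
MODULE Fram (difficulty 4).  Existence of a frame.

RECIPE.  Let `Q = q (q + 1)` (number of points, `card_pt`), `q ^ 2` lines (`card_ln`), `Λ = Pt q × Ln q × Fin K`,
`L = card Λ = Q q ^ 2 K`.  Choose `δ > 0` with `8 δ L ≤ ε η ^ 2 / 4`-like smallness: `δ = ε * η ^ 2 / (64 * L)` is enough for all
inequalities below; `partU` with `τ = δ / L`.  Test sets (`J = V ⊕ V ⊕ Fin 3`, at most `n ^ 3` for `n ≥ 2`): `nb G U v`, `nb G Uᶜ v`, `U`, `Uᶜ`, `U'`.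
For a test set `A` and a set `Λ₀` of labels, `| |{v ∈ A : f v ∈ Λ₀}| - |A| |Λ₀| / L | ≤ |Λ₀| τ n ≤ δ n` (sum over the labels in `Λ₀`).
`pt v = (f v).1`, `ln v = (f v).2.1`, `ix v = (f v).2.2`.  With `u = |U|`, `η n / 2 ≤ u ≤ η n`:
* `sizeU`: `|U_p| = u / Q ± δ n`, and `δ n ≤ u / (2 Q)`.
* `degU`: `|nb G U_p v| ≥ (3/4 + ε) u / Q - δ n ≥ (3/4 + ε/2) (u / Q + δ n)` (`(ε/2) u / Q ≥ 2 δ n`); note `nb G U_p v = (nb G U v) ∩ {pt = p}`.
* `sizeU'`: `≤ η u / Q + δ n ≤ 2 η u / Q ≤ 4 η |U_p|`.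
* `sizeW`: `≤ n / q ^ 2 + δ n ≤ 2 n / q ^ 2`.
* `sizeV`: `|Uᶜ| ≥ (1 - η) n ≥ 3 n / 4`, so `|V_i| ≥ 3 n / (4 K) - δ n ≥ n / (2 K)` and `≤ n / K + δ n ≤ 2 n / K`.
* `degV`: `|nb G Uᶜ v| ≥ (3/4 + ε) n - u` and `(3/4 + ε) n - u - (3/4 + ε/2) (n - u) ≥ (ε/4) n` (as `u ≤ ε n`); and `(ε/4) n / K ≥ 2 δ n`.
* `sizeWV`: `≤ |Uᶜ| / (q ^ 2 K) + δ n ≤ 2 |Uᶜ| / (q ^ 2 K)` and `|V_i| ≥ |Uᶜ| / K - δ n ≥ |Uᶜ| / (2 K)`.
-/

open Finset
open scoped Classical

namespace Pool.NSH

theorem fram_dev {V Λ : Type} [Fintype Λ] (A : Finset V) (f : V → Λ) {t c : ℝ}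
    {dl : ∀ l, DecidablePred fun v => f v = l}
    (h : ∀ l, |(((@Finset.filter V (fun v => f v = l) (dl l) A).card : ℝ)) - c| ≤ t)
    (P : Λ → Prop) [DecidablePred P] :
    |(((A.filter fun v => P (f v)).card : ℝ)) - c * (univ.filter P).card|
      ≤ t * (univ.filter P).card := by
  have h1 : (A.filter fun v => P (f v)).card
      = ∑ l ∈ univ.filter P, (@Finset.filter V (fun v => f v = l) (dl l) A).card := by
    rw [Finset.card_eq_sum_card_fiberwise (f := f) (t := univ.filter P)]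
    · refine sum_congr rfl fun l hl => ?_
      congr 1
      ext v
      simp only [mem_filter, mem_univ, true_and] at hl ⊢
      constructor
      · rintro ⟨⟨h1, _⟩, h2⟩
        exact ⟨h1, h2⟩
      · rintro ⟨h1, h2⟩
        exact ⟨⟨h1, by rw [h2]; exact hl⟩, h2⟩
    · intro v hv
      rw [mem_coe, mem_filter] at hv
      rw [mem_coe, mem_filter]
      exact ⟨mem_univ _, hv.2⟩
  rw [h1]
  push_cast
  have h2 : (∑ l ∈ univ.filter P, ((@Finset.filter V (fun v => f v = l) (dl l) A).card : ℝ))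
      - c * (univ.filter P).card
      = ∑ l ∈ univ.filter P, (((@Finset.filter V (fun v => f v = l) (dl l) A).card : ℝ) - c) := by
    rw [sum_sub_distrib, sum_const, nsmul_eq_mul, mul_comm c]
  rw [h2]
  refine (abs_sum_le_sum_abs _ _).trans ?_
  refine (sum_le_card_nsmul _ _ t fun l _ => h l).trans ?_
  rw [nsmul_eq_mul, mul_comm]

theorem fram_card1 {α β γ : Type} [Fintype α] [Fintype β] [Fintype γ] [DecidableEq α] (p : α) :
    (univ.filter fun x : α × β × γ => x.1 = p).card = Fintype.card β * Fintype.card γ := by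
  have : (univ.filter fun x : α × β × γ => x.1 = p)
      = ({p} : Finset α) ×ˢ (univ : Finset (β × γ)) := by
    ext x; simp only [mem_filter, mem_univ, true_and, mem_product, mem_singleton, and_true]
  rw [this, card_product, card_singleton, card_univ, Fintype.card_prod, one_mul]

theorem fram_card2 {α β γ : Type} [Fintype α] [Fintype β] [Fintype γ] [DecidableEq β] (l : β) :
    (univ.filter fun x : α × β × γ => x.2.1 = l).card = Fintype.card α * Fintype.card γ := by
  have : (univ.filter fun x : α × β × γ => x.2.1 = l)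
      = (univ : Finset α) ×ˢ (({l} : Finset β) ×ˢ (univ : Finset γ)) := by
    ext x; simp only [mem_filter, mem_univ, true_and, mem_product, mem_singleton, and_true]
  rw [this, card_product, card_product, card_singleton, card_univ, card_univ, one_mul]

theorem fram_card3 {α β γ : Type} [Fintype α] [Fintype β] [Fintype γ] [DecidableEq γ] (i : γ) :
    (univ.filter fun x : α × β × γ => x.2.2 = i).card = Fintype.card α * Fintype.card β := by
  have : (univ.filter fun x : α × β × γ => x.2.2 = i)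
      = (univ : Finset α) ×ˢ ((univ : Finset β) ×ˢ ({i} : Finset γ)) := by
    ext x; simp only [mem_filter, mem_univ, true_and, mem_product, mem_singleton]
  rw [this, card_product, card_product, card_singleton, card_univ, card_univ, mul_one]

theorem fram_card4 {α β γ : Type} [Fintype α] [Fintype β] [Fintype γ] [DecidableEq β]
    [DecidableEq γ] (l : β) (i : γ) :
    (univ.filter fun x : α × β × γ => x.2.1 = l ∧ x.2.2 = i).card = Fintype.card α := by
  have : (univ.filter fun x : α × β × γ => x.2.1 = l ∧ x.2.2 = i)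
      = (univ : Finset α) ×ˢ (({l} : Finset β) ×ˢ ({i} : Finset γ)) := by
    ext x; simp only [mem_filter, mem_univ, true_and, mem_product, mem_singleton]
  rw [this, card_product, card_product, card_singleton, card_singleton, card_univ, mul_one, mul_one]

theorem fram_four {V α β γ : Type} [Fintype α] [Fintype β] [Fintype γ] [DecidableEq α]
    [DecidableEq β] [DecidableEq γ] (A : Finset V)
    (f : V → α × β × γ) {t : ℝ} (ha : 0 < Fintype.card α) (hb : 0 < Fintype.card β)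
    (hc : 0 < Fintype.card γ) (ht : 0 ≤ t) {dl : ∀ l, DecidablePred fun v => f v = l}
    (h : ∀ l, |(((@Finset.filter V (fun v => f v = l) (dl l) A).card : ℝ))
      - A.card / Fintype.card (α × β × γ)| ≤ t) :
    (∀ p, |(((A.filter fun v => (f v).1 = p).card : ℝ)) - A.card / Fintype.card α|
      ≤ t * Fintype.card (α × β × γ)) ∧
    (∀ l, |(((A.filter fun v => (f v).2.1 = l).card : ℝ)) - A.card / Fintype.card β|
      ≤ t * Fintype.card (α × β × γ)) ∧
    (∀ i, |(((A.filter fun v => (f v).2.2 = i).card : ℝ)) - A.card / Fintype.card γ|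
      ≤ t * Fintype.card (α × β × γ)) ∧
    (∀ l i, |(((A.filter fun v => (f v).2.1 = l ∧ (f v).2.2 = i).card : ℝ))
      - A.card / (Fintype.card β * Fintype.card γ)| ≤ t * Fintype.card (α × β × γ)) := by
  have ha' : (0 : ℝ) < Fintype.card α := by exact_mod_cast ha
  have hb' : (0 : ℝ) < Fintype.card β := by exact_mod_cast hb
  have hc' : (0 : ℝ) < Fintype.card γ := by exact_mod_cast hc
  have hL : (Fintype.card (α × β × γ) : ℝ)
      = Fintype.card α * (Fintype.card β * Fintype.card γ) := by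
    rw [Fintype.card_prod, Fintype.card_prod]; push_cast; ring
  have key : ∀ (P : α × β × γ → Prop) [DecidablePred P],
      t * (univ.filter P).card ≤ t * Fintype.card (α × β × γ) := by
    intro P _
    refine mul_le_mul_of_nonneg_left ?_ ht
    exact_mod_cast (card_filter_le _ _).trans (le_of_eq card_univ)
  refine ⟨fun p => ?_, fun l => ?_, fun i => ?_, fun l i => ?_⟩
  · have h1 := (fram_dev A f h (fun x => x.1 = p)).trans (key _)
    rw [fram_card1, hL] at h1
    have h2 : (A.card : ℝ) / (Fintype.card α * (Fintype.card β * Fintype.card γ))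
        * ((Fintype.card β * Fintype.card γ : ℕ) : ℝ) = A.card / Fintype.card α := by
      push_cast
      field_simp
    rw [h2] at h1
    rw [hL]
    exact h1
  · have h1 := (fram_dev A f h (fun x => x.2.1 = l)).trans (key _)
    rw [fram_card2, hL] at h1
    have h2 : (A.card : ℝ) / (Fintype.card α * (Fintype.card β * Fintype.card γ))
        * ((Fintype.card α * Fintype.card γ : ℕ) : ℝ) = A.card / Fintype.card β := by
      push_cast
      field_simp
    rw [h2] at h1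
    rw [hL]
    exact h1
  · have h1 := (fram_dev A f h (fun x => x.2.2 = i)).trans (key _)
    rw [fram_card3, hL] at h1
    have h2 : (A.card : ℝ) / (Fintype.card α * (Fintype.card β * Fintype.card γ))
        * ((Fintype.card α * Fintype.card β : ℕ) : ℝ) = A.card / Fintype.card γ := by
      push_cast
      field_simp
    rw [h2] at h1
    rw [hL]
    exact h1
  · have h1 := (fram_dev A f h (fun x => x.2.1 = l ∧ x.2.2 = i)).trans (key _)
    rw [fram_card4, hL] at h1
    have h2 : (A.card : ℝ) / (Fintype.card α * (Fintype.card β * Fintype.card γ))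
        * ((Fintype.card α : ℕ) : ℝ) = A.card / (Fintype.card β * Fintype.card γ) := by
      field_simp
    rw [h2] at h1
    rw [hL]
    exact h1

theorem fram_nb {V : Type} (G : SimpleGraph V) (S : Finset V) (P : V → Prop) [DecidablePred P]
    (v : V) : nb G (S.filter P) v = (nb G S v).filter P := by
  ext w
  simp only [nb, mem_filter]
  tauto

theorem exists_frame {q K : ℕ} [Fact q.Prime] (hK : 0 < K) {ε η : ℝ} (hε : 0 < ε)
    (hε1 : ε ≤ 1 / 8) (hη : 0 < η) (hηε : η ≤ ε) :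
    ∃ n₀ : ℕ, ∀ (V : Type) [Fintype V] (G : SimpleGraph V) (U U' : Finset V),
      n₀ ≤ Fintype.card V → η / 2 * Fintype.card V ≤ U.card → U.card ≤ η * Fintype.card V →
      U' ⊆ U → U'.card ≤ η * U.card →
      (∀ v, (3 / 4 + ε) * Fintype.card V ≤ ((nb G univ v).card : ℝ)) →
      (∀ v, (3 / 4 + ε) * U.card ≤ ((nb G U v).card : ℝ)) →
      Nonempty (Frame G U U' q K ε η) := by
  have hq : q.Prime := Fact.out
  have hq2 : 2 ≤ q := hq.two_le
  have : Nonempty (Fin K) := ⟨⟨0, hK⟩⟩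
  have : Nonempty (Pt q × Ln q × Fin K) := ⟨(Sum.inr 0, (0, 0), ⟨0, hK⟩)⟩
  have hLn : Fintype.card (Pt q × Ln q × Fin K) = q * (q + 1) * (q ^ 2 * K) := by
    rw [Fintype.card_prod, Fintype.card_prod, card_pt, card_ln, Fintype.card_fin]
  have hq' : (2 : ℝ) ≤ q := by exact_mod_cast hq2
  have hK' : (1 : ℝ) ≤ K := by exact_mod_cast hK
  have hQ0 : (0 : ℝ) < q * (q + 1) := by positivity
  have hR0 : (0 : ℝ) < (q : ℝ) ^ 2 * K := by positivity
  have hq4 : (4 : ℝ) ≤ (q : ℝ) ^ 2 := by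
    have h1 := mul_le_mul hq' hq' (by norm_num) (by positivity)
    linarith [sq (q : ℝ)]
  have hQ1 : (1 : ℝ) ≤ q * (q + 1) := by
    have h1 : (q : ℝ) * (q + 1) = (q : ℝ) ^ 2 + q := by ring
    rw [h1]
    linarith
  have hR1 : (1 : ℝ) ≤ (q : ℝ) ^ 2 * K := by
    have h1 := mul_le_mul hq4 hK' (by norm_num) (by positivity)
    linarith
  obtain ⟨L, hL⟩ : ∃ L : ℝ, L = q * (q + 1) * (q ^ 2 * K) := ⟨_, rfl⟩
  have hLn' : (Fintype.card (Pt q × Ln q × Fin K) : ℝ) = L := by
    rw [hLn, hL]; push_cast; ring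
  have hL0 : 0 < L := by rw [hL]; positivity
  obtain ⟨n₀, h⟩ := partU (Λ := Pt q × Ln q × Fin K) (τ := ε * η ^ 2 / (64 * L) / L)
    (by positivity)
  refine ⟨max n₀ 2, ?_⟩
  intro V _ G U U' hn hU1 hU2 hU'U hU' hdeg hdegU
  have hn2 : 2 ≤ Fintype.card V := (le_max_right _ _).trans hn
  obtain ⟨n, hnd⟩ : ∃ n : ℝ, n = Fintype.card V := ⟨_, rfl⟩
  have hn0 : 0 < n := by
    rw [hnd]
    exact_mod_cast (by omega : 0 < Fintype.card V)
  obtain ⟨f, hf⟩ := h V (V ⊕ V ⊕ Fin 3) (Sum.elim (fun v => nb G U v)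
    (Sum.elim (fun v => nb G Uᶜ v) ![U, Uᶜ, U'])) ((le_max_left _ _).trans hn) (by
      rw [Fintype.card_sum, Fintype.card_sum, Fintype.card_fin]
      have h1 : 2 * 2 ≤ Fintype.card V * Fintype.card V := Nat.mul_le_mul hn2 hn2
      have h2 : 2 * 2 * Fintype.card V ≤ Fintype.card V * Fintype.card V * Fintype.card V :=
        Nat.mul_le_mul_right _ h1
      have h3 : Fintype.card V ^ 3 = Fintype.card V * Fintype.card V * Fintype.card V := by ring
      rw [h3]
      omega)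
  rw [← hnd] at hU1 hU2 hdeg hf
  obtain ⟨a, ha⟩ : ∃ a : ℝ, a = ε * η ^ 2 / (64 * L) * n := ⟨_, rfl⟩
  have ha0 : 0 ≤ a := by rw [ha]; positivity
  have hta : ε * η ^ 2 / (64 * L) / L * n * L = a := by
    rw [ha]; field_simp
  have ht0 : 0 ≤ ε * η ^ 2 / (64 * L) / L * n := by positivity
  have hcp : 0 < Fintype.card (Pt q) := by rw [card_pt]; positivity
  have hcl : 0 < Fintype.card (Ln q) := by rw [card_ln]; positivity
  have hcK : 0 < Fintype.card (Fin K) := by rw [Fintype.card_fin]; exact hK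
  have hpt' : (Fintype.card (Pt q) : ℝ) = q * (q + 1) := by rw [card_pt]; push_cast; ring
  have hln' : (Fintype.card (Ln q) : ℝ) = (q : ℝ) ^ 2 := by rw [card_ln]; push_cast; ring
  have hKc' : (Fintype.card (Fin K) : ℝ) = K := by rw [Fintype.card_fin]
  have dev : ∀ (A : Finset V) (dl : ∀ l, DecidablePred fun v => f v = l)
      (_ : ∀ l, |(((@Finset.filter V (fun v => f v = l) (dl l) A).card : ℝ))
      - A.card / L| ≤ ε * η ^ 2 / (64 * L) / L * n),
      (∀ p, |(((A.filter fun v => (f v).1 = p).card : ℝ)) - A.card / (q * (q + 1))| ≤ a) ∧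
      (∀ l, |(((A.filter fun v => (f v).2.1 = l).card : ℝ)) - A.card / (q : ℝ) ^ 2| ≤ a) ∧
      (∀ i, |(((A.filter fun v => (f v).2.2 = i).card : ℝ)) - A.card / K| ≤ a) ∧
      (∀ l i, |(((A.filter fun v => (f v).2.1 = l ∧ (f v).2.2 = i).card : ℝ))
        - A.card / ((q : ℝ) ^ 2 * K)| ≤ a) := by
    intro A dl hA
    have := fram_four A f hcp hcl hcK ht0 (dl := dl) (by rw [hLn']; exact hA)
    rw [hLn', hpt', hln', hKc', hta] at this
    exact this
  rw [hLn'] at hf
  have dU := dev U _ (hf (Sum.inr (Sum.inr 0)))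
  have dW := dev Uᶜ _ (hf (Sum.inr (Sum.inr 1)))
  have dU' := dev U' _ (hf (Sum.inr (Sum.inr 2)))
  have dnU := fun v => dev (nb G U v) _ (hf (Sum.inl v))
  have dnW := fun v => dev (nb G Uᶜ v) _ (hf (Sum.inr (Sum.inl v)))
  clear dev hf h hcp hcl hcK
  obtain ⟨u, hu⟩ : ∃ u : ℝ, u = U.card := ⟨_, rfl⟩
  obtain ⟨w, hw⟩ : ∃ w : ℝ, w = Uᶜ.card := ⟨_, rfl⟩
  have huw : u + w = n := by
    rw [hu, hw, hnd]
    exact_mod_cast card_add_card_compl U
  rw [← hu] at hU1 hU2 hU' dU hdegU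
  rw [← hw] at dW
  have hu0 : 0 ≤ u := by rw [hu]; positivity
  have hw1 : 7 / 8 * n ≤ w := by
    have h1 : η * n ≤ 1 / 8 * n := mul_le_mul_of_nonneg_right (hηε.trans hε1) hn0.le
    linarith
  have hw2 : w ≤ n := by linarith
  -- bounds for `a`
  have ha1 : a ≤ ε * η / 32 * (u / (q * (q + 1))) := by
    have h1 : a = ε * η * (η * n) / (64 * L) := by rw [ha]; ring
    have h2 : ε * η / 32 * (u / (q * (q + 1))) = ε * η * (2 * u) / (64 * (q * (q + 1))) := by
      field_simp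
      ring
    rw [h1, h2]
    refine div_le_div₀ (by positivity) ?_ (by positivity) ?_
    · refine mul_le_mul_of_nonneg_left (by linarith) (by positivity)
    · rw [hL]
      have h3 := mul_le_mul_of_nonneg_left hR1 hQ0.le
      linarith
  have ha2 : a ≤ ε * η ^ 2 / 64 * (n / (q ^ 2 * K)) := by
    have h1 : a = ε * η ^ 2 * n / (64 * L) := by rw [ha]; ring
    have h2 : ε * η ^ 2 / 64 * (n / (q ^ 2 * K)) = ε * η ^ 2 * n / (64 * (q ^ 2 * K)) := by
      field_simp
    rw [h1, h2]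
    refine div_le_div_of_nonneg_left (by positivity) (by positivity) ?_
    rw [hL]
    have h3 := mul_le_mul_of_nonneg_right hQ1 hR0.le
    linarith
  obtain ⟨x1, hx1⟩ : ∃ x : ℝ, x = u / (q * (q + 1)) := ⟨_, rfl⟩
  obtain ⟨x2, hx2⟩ : ∃ x : ℝ, x = n / (q ^ 2 * K) := ⟨_, rfl⟩
  obtain ⟨x3, hx3⟩ : ∃ x : ℝ, x = n / K := ⟨_, rfl⟩
  obtain ⟨x4, hx4⟩ : ∃ x : ℝ, x = n / (q : ℝ) ^ 2 := ⟨_, rfl⟩
  obtain ⟨y2, hy2⟩ : ∃ x : ℝ, x = w / (q ^ 2 * K) := ⟨_, rfl⟩
  obtain ⟨y3, hy3⟩ : ∃ x : ℝ, x = w / K := ⟨_, rfl⟩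
  obtain ⟨y4, hy4⟩ : ∃ x : ℝ, x = w / (q : ℝ) ^ 2 := ⟨_, rfl⟩
  have hK0 : (0 : ℝ) < K := by linarith
  have hq20 : (0 : ℝ) < (q : ℝ) ^ 2 := by positivity
  have x10 : 0 ≤ x1 := by rw [hx1]; positivity
  have x20 : 0 ≤ x2 := by rw [hx2]; positivity
  have x23 : x2 ≤ x3 := by
    rw [hx2, hx3]
    refine div_le_div_of_nonneg_left hn0.le hK0 ?_
    have h3 := mul_le_mul_of_nonneg_right hq4 hK0.le
    linarith
  have x24 : x2 ≤ x4 := by
    rw [hx2, hx4]
    refine div_le_div_of_nonneg_left hn0.le hq20 ?_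
    have h3 := mul_le_mul_of_nonneg_left hK' hq20.le
    linarith
  have xy2 : 7 / 8 * x2 ≤ y2 := by
    rw [hx2, hy2, ← mul_div_assoc]
    exact div_le_div_of_nonneg_right hw1 hR0.le
  have xy3 : 7 / 8 * x3 ≤ y3 := by
    rw [hx3, hy3, ← mul_div_assoc]
    exact div_le_div_of_nonneg_right hw1 hK0.le
  have yx3 : y3 ≤ x3 := by
    rw [hx3, hy3]
    exact div_le_div_of_nonneg_right hw2 hK0.le
  have yx4 : y4 ≤ x4 := by
    rw [hx4, hy4]
    exact div_le_div_of_nonneg_right hw2 hq20.le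
  rw [← hx1] at ha1 dU
  rw [← hx2] at ha2
  rw [← hy2, ← hy3, ← hy4] at dW
  have hη1 : η ≤ 1 / 8 := hηε.trans hε1
  have a1 : a ≤ ε * x1 / 256 := by
    have : ε * η / 32 * x1 ≤ ε * (1 / 8) / 32 * x1 := by gcongr
    linarith
  have a2 : a ≤ η * x1 / 256 := by
    have : ε * η / 32 * x1 ≤ (1 / 8) * η / 32 * x1 := by gcongr
    linarith
  have a3 : a ≤ x1 / 2 := by
    have : η * x1 ≤ 1 / 8 * x1 := mul_le_mul_of_nonneg_right hη1 x10
    linarith
  have a4 : a ≤ ε * x2 / 64 := by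
    have : ε * η ^ 2 / 64 * x2 ≤ ε * 1 ^ 2 / 64 * x2 := by gcongr; linarith
    linarith
  have a5 : a ≤ x2 / 64 := by
    have : ε * x2 ≤ 1 / 8 * x2 := mul_le_mul_of_nonneg_right hε1 x20
    linarith
  have a6 : ε * x2 ≤ ε * x3 := mul_le_mul_of_nonneg_left x23 hε.le
  refine ⟨{ pt := fun v => (f v).1, ln := fun v => (f v).2.1, ix := fun v => (f v).2.2,
            sizeU1 := ?_, sizeU2 := ?_, degU := ?_, sizeU' := ?_, sizeW := ?_, sizeV1 := ?_,
            sizeV2 := ?_, degV := ?_, sizeWV := ?_ }⟩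
  · intro p
    have h1 := abs_le.1 (dU.1 p)
    have h2 : (U.card : ℝ) / (2 * (q * (q + 1))) = x1 / 2 := by
      rw [hx1, hu]; field_simp
    rw [h2]
    linarith [h1.1]
  · intro p
    have h1 := abs_le.1 (dU.1 p)
    have h2 : 2 * (U.card : ℝ) / (q * (q + 1)) = 2 * x1 := by
      rw [hx1, hu]; field_simp
    rw [h2]
    linarith [h1.2]
  · intro p v
    rw [fram_nb]
    have h1 := (abs_le.1 (dU.1 p)).2
    have h2 := (abs_le.1 ((dnU v).1 p)).1
    have h3 : (3 / 4 + ε) * x1 ≤ ((nb G U v).card : ℝ) / (q * (q + 1)) := by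
      rw [hx1, ← mul_div_assoc]
      exact div_le_div_of_nonneg_right (hdegU v) hQ0.le
    have h4 : (3 / 4 + ε / 2) * ((U.filter fun v => (f v).1 = p).card : ℝ)
        ≤ (3 / 4 + ε / 2) * (x1 + a) :=
      mul_le_mul_of_nonneg_left (by linarith) (by positivity)
    have h5 : (3 / 4 + ε / 2) * a ≤ 1 * a := mul_le_mul_of_nonneg_right (by linarith) ha0
    refine h4.trans ?_
    have h10 : (3 / 4 + ε / 2) * (x1 + a) = (3 / 4 + ε) * x1 - ε * x1 / 2 + (3 / 4 + ε / 2) * a := by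
      ring
    rw [h10]
    linarith
  · intro p
    have h1 := (abs_le.1 (dU.1 p)).1
    have h2 := (abs_le.1 (dU'.1 p)).2
    have h3 : (U'.card : ℝ) / (q * (q + 1)) ≤ η * x1 := by
      rw [hx1, ← mul_div_assoc]
      exact div_le_div_of_nonneg_right hU' hQ0.le
    have h4 : 4 * η * (x1 - a) ≤ 4 * η * ((U.filter fun v => (f v).1 = p).card : ℝ) :=
      mul_le_mul_of_nonneg_left (by linarith) (by positivity)
    have h5 : η * a ≤ 1 / 8 * a := mul_le_mul_of_nonneg_right hη1 ha0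
    refine le_trans ?_ h4
    have h6 : 0 ≤ η * x1 := by positivity
    have h7 : 4 * η * (x1 - a) = 4 * (η * x1) - 4 * (η * a) := by ring
    rw [h7]
    linarith
  · intro l
    have h1 := (abs_le.1 (dW.2.1 l)).2
    have h2 : 2 * (Fintype.card V : ℝ) / (q : ℝ) ^ 2 = 2 * x4 := by
      rw [hx4, hnd]; field_simp
    rw [h2]
    linarith
  · intro i
    have h1 := (abs_le.1 (dW.2.2.1 i)).1
    have h2 : (Fintype.card V : ℝ) / (2 * K) = x3 / 2 := by
      rw [hx3, hnd]; field_simp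
    rw [h2]
    linarith
  · intro i
    have h1 := (abs_le.1 (dW.2.2.1 i)).2
    have h2 : 2 * (Fintype.card V : ℝ) / K = 2 * x3 := by
      rw [hx3, hnd]; field_simp
    rw [h2]
    linarith
  · intro i v
    rw [fram_nb]
    have h1 := (abs_le.1 (dW.2.2.1 i)).2
    have h2 := (abs_le.1 ((dnW v).2.2.1 i)).1
    have h6 : ((nb G univ v).card : ℝ) ≤ u + (nb G Uᶜ v).card := by
      rw [hu]
      have h7 : nb G univ v ⊆ U ∪ nb G Uᶜ v := by
        intro x hx
        simp only [nb, mem_filter, mem_univ, true_and, mem_union, mem_compl] at hx ⊢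
        by_cases hxU : x ∈ U
        · exact Or.inl hxU
        · exact Or.inr ⟨hxU, hx⟩
      exact_mod_cast (card_le_card h7).trans (card_union_le _ _)
    have h7 := hdeg v
    have h8 : (3 / 4 + ε / 2) * w + ε / 4 * n ≤ (nb G Uᶜ v).card := by
      have h9 : u ≤ ε * n := hU2.trans (mul_le_mul_of_nonneg_right hηε hn0.le)
      have h10 : w = n - u := by linarith
      rw [h10]
      have h11 : 0 ≤ ε * u := by positivity
      have h12 : (3 / 4 + ε / 2) * (n - u) + ε / 4 * n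
          = (3 / 4 + ε) * n - ε * n / 4 - 3 / 4 * u - ε * u / 2 := by ring
      rw [h12]
      linarith
    have h3 : (3 / 4 + ε / 2) * y3 + ε / 4 * x3 ≤ ((nb G Uᶜ v).card : ℝ) / K := by
      have h9 : (3 / 4 + ε / 2) * y3 + ε / 4 * x3 = ((3 / 4 + ε / 2) * w + ε / 4 * n) / K := by
        rw [hx3, hy3]; ring
      rw [h9]
      exact div_le_div_of_nonneg_right h8 hK0.le
    have h4 : (3 / 4 + ε / 2) * ((Uᶜ.filter fun v => (f v).2.2 = i).card : ℝ)
        ≤ (3 / 4 + ε / 2) * (y3 + a) :=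
      mul_le_mul_of_nonneg_left (by linarith) (by positivity)
    have h5 : (3 / 4 + ε / 2) * a ≤ 1 * a := mul_le_mul_of_nonneg_right (by linarith) ha0
    refine h4.trans ?_
    have h10 : (3 / 4 + ε / 2) * (y3 + a) = (3 / 4 + ε / 2) * y3 + (3 / 4 + ε / 2) * a := by ring
    rw [h10]
    linarith
  · intro l i
    have h1 := (abs_le.1 (dW.2.2.1 i)).1
    have h2 := (abs_le.1 (dW.2.2.2 l i)).2
    have h4 : 4 / (q : ℝ) ^ 2 * (y3 - a)
        ≤ 4 / (q : ℝ) ^ 2 * ((Uᶜ.filter fun v => (f v).2.2 = i).card : ℝ) :=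
      mul_le_mul_of_nonneg_left (by linarith) (by positivity)
    have h5 : 4 / (q : ℝ) ^ 2 * (y3 - a) = 4 * y2 - 4 / (q : ℝ) ^ 2 * a := by
      rw [hy2, hy3]; field_simp
    have h6 : 4 / (q : ℝ) ^ 2 ≤ 1 := by
      rw [div_le_one hq20]; exact hq4
    have h7 : 4 / (q : ℝ) ^ 2 * a ≤ 1 * a := mul_le_mul_of_nonneg_right h6 ha0
    rw [h5] at h4
    refine le_trans ?_ h4
    linarith

end Pool.NSH
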