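import Pool.Agent.NSH.NDefs

/-!
MODULE NBasic (difficulty 3).  Basic facts on the weights.

RECIPE.  `w_le`: take `x ≠ y` in `S i` (`k ≥ 2`), `w i` is a term of the sum in `cod x y`.
`Dg_le`, `Dg_nonneg`: `thr` is a subset of `filter (x ∈ S i)`.
`pr_nonneg`, `pr_le`: unfold.
`sum_act`: double counting `∑_{y ∈ Y} ∑_{i ∈ thr y} w i = ∑_{i ∈ act} w i * |S i|` (`S i ⊆ Y`).
`tch_le`: every `j ∈ tch Z` contains a `z ∈ Z`; `∑_{z ∈ Z} ∑_{j ∈ thr z} pr j = ∑_{j ∈ act} pr j * |S j ∩ Z|`.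
`tch_ge`: for `m = |S j ∩ Z| ≥ 1`: `m - 1 ≤ m * (m - 1)` = number of ordered pairs `z ≠ z'` in `S j ∩ Z`; so
`∑_{z} a Dg z - ∑_{tch} pr ≤ ∑_{z ≠ z' in Z} a * cod ≤ a * κ * |Z| ^ 2`.
`tch_two`: a `j` touching `Z` and `Z'` has `z ∈ S j ∩ Z`, `z' ∈ S j ∩ Z'`: `∑ ≤ ∑_{z ∈ Z} ∑_{z' ∈ Z'} ∑_{j ∋ z, z'} a w j`,
which is `≤ a κ` if `z ≠ z'` and `≤ a` if `z = z' ∈ Z ∩ Z'`.
`switch`: `∑_{y ∈ Y} ∑_{i ∈ thr y} w i ∑_{z ∈ S i, z ≠ y} f z = ∑_{z ∈ Y} f z ∑_{i ∈ thr z} w i (k - 1)`.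
`pair`: `∑_{i ∈ thr y} w i ∑_{z ∈ S i \ y} ∑_{i' ∋ y, z} w i' ≤ ∑ w i * k * κ ≤ k κ`.
-/

open Finset
open scoped Classical

namespace Pool.NSH

variable {X ι : Type} [Fintype X] [Fintype ι] {S : ι → Finset X} {w : ι → ℝ} {k : ℕ} {κ : ℝ}

omit [Fintype X] in
theorem nbasic_act {Y : Finset X} {i : ι} : i ∈ act S Y ↔ S i ⊆ Y := by
  unfold act
  simp

omit [Fintype X] in
theorem nbasic_thr {Y : Finset X} {y : X} {i : ι} : i ∈ thr S Y y ↔ S i ⊆ Y ∧ y ∈ S i := by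
  unfold thr
  rw [Finset.mem_filter, nbasic_act]

omit [Fintype X] in
theorem nbasic_tch {Y Z : Finset X} {i : ι} : i ∈ tch S Y Z ↔ S i ⊆ Y ∧ ¬ Disjoint (S i) Z := by
  unfold tch
  rw [Finset.mem_filter, nbasic_act]

omit [Fintype X] in
/-- double counting -/
theorem nbasic_dc (Y Z : Finset X) (f : ι → ℝ) :
    ∑ z ∈ Z, ∑ i ∈ thr S Y z, f i = ∑ i ∈ act S Y, ((S i ∩ Z).card : ℝ) * f i := by
  unfold thr
  simp only [Finset.sum_filter]
  rw [Finset.sum_comm]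
  refine Finset.sum_congr rfl fun i _ => ?_
  rw [← Finset.sum_filter, Finset.sum_const, nsmul_eq_mul]
  congr 2
  congr 1
  ext z
  simp [and_comm]

omit [Fintype X] in
theorem nbasic_dcf (Y Z : Finset X) (f : ι → ℝ) (g : X → ℝ) :
    ∑ z ∈ Z, g z * ∑ i ∈ thr S Y z, f i = ∑ i ∈ act S Y, f i * ∑ z ∈ S i ∩ Z, g z := by
  unfold thr
  simp only [Finset.sum_filter, Finset.mul_sum]
  rw [Finset.sum_comm]
  refine Finset.sum_congr rfl fun i _ => ?_
  have h1 : S i ∩ Z = Z.filter (fun z => z ∈ S i) := by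
    ext z
    simp [and_comm]
  rw [h1, Finset.sum_filter]
  refine Finset.sum_congr rfl fun z _ => ?_
  by_cases hz : z ∈ S i
  · rw [if_pos hz, if_pos hz]; ring
  · rw [if_neg hz, if_neg hz]; ring

theorem Hyp.w_le (h : Hyp S w k κ) (i : ι) : w i ≤ κ := by
  have h1 : 1 < (S i).card := by rw [h.card i]; have := h.hk; omega
  obtain ⟨x, hx, y, hy, hxy⟩ := Finset.one_lt_card.mp h1
  refine le_trans ?_ (h.cod x y hxy)
  exact Finset.single_le_sum (f := w) (fun j _ => h.nonneg j)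
    (Finset.mem_filter.mpr ⟨Finset.mem_univ i, hx, hy⟩)

theorem Hyp.dg_nonneg (h : Hyp S w k κ) (Y : Finset X) (y : X) : 0 ≤ Dg S w Y y :=
  Finset.sum_nonneg fun i _ => h.nonneg i

theorem Hyp.dg_le (h : Hyp S w k κ) (Y : Finset X) (y : X) : Dg S w Y y ≤ 1 := by
  refine le_trans ?_ (h.deg y)
  refine Finset.sum_le_sum_of_subset_of_nonneg ?_ fun i _ _ => h.nonneg i
  intro i hi
  exact Finset.mem_filter.mpr ⟨Finset.mem_univ i, (nbasic_thr.mp hi).2⟩

theorem Hyp.pr_nonneg (h : Hyp S w k κ) (Y : Finset X) {a : ℝ} (ha : 0 ≤ a) (i : ι) :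
    0 ≤ pr S w Y a i := by
  unfold pr
  split
  · exact mul_nonneg ha (h.nonneg i)
  · exact le_rfl

theorem Hyp.pr_le (h : Hyp S w k κ) (Y : Finset X) {a : ℝ} (ha : 0 ≤ a) (i : ι) :
    pr S w Y a i ≤ a * κ := by
  unfold pr
  split
  · exact mul_le_mul_of_nonneg_left (h.w_le i) ha
  · exact mul_nonneg ha h.kap

theorem Hyp.sum_act (h : Hyp S w k κ) (Y : Finset X) :
    ∑ y ∈ Y, Dg S w Y y = k * ∑ i ∈ act S Y, w i := by
  unfold Dg
  rw [nbasic_dc, Finset.mul_sum]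
  refine Finset.sum_congr rfl fun i hi => ?_
  rw [Finset.inter_eq_left.mpr (nbasic_act.mp hi), h.card i]

theorem nbasic_rhs (h : Hyp S w k κ) (Y Z : Finset X) (a : ℝ) :
    ∑ z ∈ Z, a * Dg S w Y z = ∑ i ∈ act S Y, ((S i ∩ Z).card : ℝ) * (a * w i) := by
  rw [← nbasic_dc]
  refine Finset.sum_congr rfl fun z _ => ?_
  unfold Dg
  rw [Finset.mul_sum]

theorem nbasic_lhs (Y Z : Finset X) (a : ℝ) :
    ∑ j ∈ tch S Y Z, pr S w Y a j = ∑ j ∈ tch S Y Z, a * w j := by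
  refine Finset.sum_congr rfl fun j hj => ?_
  unfold pr
  rw [if_pos (nbasic_tch.mp hj).1]

theorem nbasic_tsub (Y Z : Finset X) : tch S Y Z ⊆ act S Y := Finset.filter_subset _ _

theorem Hyp.tch_le (h : Hyp S w k κ) (Y Z : Finset X) {a : ℝ} (ha : 0 ≤ a) :
    ∑ j ∈ tch S Y Z, pr S w Y a j ≤ ∑ z ∈ Z, a * Dg S w Y z := by
  rw [nbasic_rhs h, nbasic_lhs]
  calc ∑ j ∈ tch S Y Z, a * w j ≤ ∑ j ∈ tch S Y Z, ((S j ∩ Z).card : ℝ) * (a * w j) := by
        refine Finset.sum_le_sum fun j hj => ?_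
        have h1 : 1 ≤ (S j ∩ Z).card := by
          rw [Nat.one_le_iff_ne_zero]
          intro h0
          exact (nbasic_tch.mp hj).2 (Finset.disjoint_iff_inter_eq_empty.mpr (Finset.card_eq_zero.mp h0))
        have h2 : (1 : ℝ) ≤ ((S j ∩ Z).card : ℝ) := by exact_mod_cast h1
        exact le_mul_of_one_le_left (mul_nonneg ha (h.nonneg j)) h2
    _ ≤ _ := Finset.sum_le_sum_of_subset_of_nonneg (nbasic_tsub Y Z)
        fun j _ _ => mul_nonneg (Nat.cast_nonneg _) (mul_nonneg ha (h.nonneg j))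

theorem nbasic_cod (h : Hyp S w k κ) (Y : Finset X) {a : ℝ} (ha : 0 ≤ a) {x y : X} (hxy : x ≠ y) :
    ∑ j ∈ act S Y, (if x ∈ S j ∧ y ∈ S j then a * w j else 0) ≤ a * κ := by
  rw [← Finset.sum_filter, ← Finset.mul_sum]
  refine mul_le_mul_of_nonneg_left (le_trans ?_ (h.cod x y hxy)) ha
  refine Finset.sum_le_sum_of_subset_of_nonneg ?_ fun i _ _ => h.nonneg i
  intro i hi
  exact Finset.mem_filter.mpr ⟨Finset.mem_univ i, (Finset.mem_filter.mp hi).2⟩

theorem nbasic_cod1 (h : Hyp S w k κ) (Y : Finset X) {a : ℝ} (ha : 0 ≤ a) (x : X) :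
    ∑ j ∈ act S Y, (if x ∈ S j ∧ x ∈ S j then a * w j else 0) ≤ a := by
  rw [← Finset.sum_filter, ← Finset.mul_sum]
  refine le_trans (mul_le_mul_of_nonneg_left (le_trans ?_ (h.deg x)) ha) (le_of_eq (mul_one a))
  refine Finset.sum_le_sum_of_subset_of_nonneg ?_ fun i _ _ => h.nonneg i
  intro i hi
  exact Finset.mem_filter.mpr ⟨Finset.mem_univ i, (Finset.mem_filter.mp hi).2.1⟩

theorem Hyp.tch_ge (h : Hyp S w k κ) (Y Z : Finset X) {a : ℝ} (ha : 0 ≤ a) :
    ∑ z ∈ Z, a * Dg S w Y z - ∑ j ∈ tch S Y Z, pr S w Y a j ≤ a * κ * (Z.card : ℝ) ^ 2 := by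
  rw [nbasic_rhs h, nbasic_lhs]
  have e1 : ∑ j ∈ tch S Y Z, a * w j = ∑ j ∈ act S Y, (if ¬ Disjoint (S j) Z then a * w j else 0) := by
    unfold tch
    rw [Finset.sum_filter]
  rw [e1, ← Finset.sum_sub_distrib]
  have e2 : ∀ j ∈ act S Y, ((S j ∩ Z).card : ℝ) * (a * w j) - (if ¬ Disjoint (S j) Z then a * w j else 0) ≤
      ∑ p ∈ Z.offDiag, (if p.1 ∈ S j ∧ p.2 ∈ S j then a * w j else 0) := by
    intro j _
    have haw : 0 ≤ a * w j := mul_nonneg ha (h.nonneg j)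
    rw [← Finset.sum_filter, Finset.sum_const, nsmul_eq_mul]
    have e3 : Z.offDiag.filter (fun p => p.1 ∈ S j ∧ p.2 ∈ S j) = (S j ∩ Z).offDiag := by
      ext p
      simp only [Finset.mem_filter, Finset.mem_offDiag, Finset.mem_inter]
      tauto
    rw [e3, Finset.offDiag_card]
    by_cases hd : Disjoint (S j) Z
    · rw [if_neg (not_not.mpr hd), Finset.disjoint_iff_inter_eq_empty.mp hd]
      simp
    · rw [if_pos hd]
      have h1 : 1 ≤ (S j ∩ Z).card := by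
        rw [Nat.one_le_iff_ne_zero]
        intro h0
        exact hd (Finset.disjoint_iff_inter_eq_empty.mpr (Finset.card_eq_zero.mp h0))
      set m := (S j ∩ Z).card with hm
      have h2 : m ≤ m * m := Nat.le_mul_self m
      rw [Nat.cast_sub h2]
      push_cast
      have h3 : (1 : ℝ) ≤ m := by exact_mod_cast h1
      have h4 : (m : ℝ) - 1 ≤ (m : ℝ) * m - m := by nlinarith
      calc (m : ℝ) * (a * w j) - a * w j = ((m : ℝ) - 1) * (a * w j) := by ring
        _ ≤ ((m : ℝ) * m - m) * (a * w j) := mul_le_mul_of_nonneg_right h4 haw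
  refine (Finset.sum_le_sum e2).trans ?_
  rw [Finset.sum_comm]
  calc ∑ p ∈ Z.offDiag, ∑ j ∈ act S Y, (if p.1 ∈ S j ∧ p.2 ∈ S j then a * w j else 0)
      ≤ ∑ _p ∈ Z.offDiag, a * κ := by
        refine Finset.sum_le_sum fun p hp => ?_
        exact nbasic_cod h Y ha (Finset.mem_offDiag.mp hp).2.2
    _ = (Z.offDiag.card : ℝ) * (a * κ) := by rw [Finset.sum_const, nsmul_eq_mul]
    _ ≤ (Z.card : ℝ) ^ 2 * (a * κ) := by
        refine mul_le_mul_of_nonneg_right ?_ (mul_nonneg ha h.kap)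
        rw [Finset.offDiag_card]
        have h5 : Z.card * Z.card - Z.card ≤ Z.card ^ 2 := by
          rw [pow_two]
          exact Nat.sub_le _ _
        exact_mod_cast h5
    _ = a * κ * (Z.card : ℝ) ^ 2 := by ring

theorem Hyp.tch_two (h : Hyp S w k κ) (Y Z Z' : Finset X) {a : ℝ} (ha : 0 ≤ a) :
    ∑ j ∈ tch S Y Z ∩ tch S Y Z', pr S w Y a j
      ≤ a * κ * (Z.card : ℝ) * Z'.card + a * ((Z ∩ Z').card : ℝ) := by
  have haκ : 0 ≤ a * κ := mul_nonneg ha h.kap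
  calc ∑ j ∈ tch S Y Z ∩ tch S Y Z', pr S w Y a j
      ≤ ∑ j ∈ tch S Y Z ∩ tch S Y Z', ∑ z ∈ Z, ∑ z' ∈ Z', (if z ∈ S j ∧ z' ∈ S j then a * w j else 0) := by
        refine Finset.sum_le_sum fun j hj => ?_
        rw [Finset.mem_inter] at hj
        obtain ⟨hjY, hj1⟩ := nbasic_tch.mp hj.1
        obtain ⟨_, hj2⟩ := nbasic_tch.mp hj.2
        obtain ⟨z, hz1, hz2⟩ := Finset.not_disjoint_iff.mp hj1
        obtain ⟨z', hz1', hz2'⟩ := Finset.not_disjoint_iff.mp hj2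
        have hnn : ∀ u v : X, 0 ≤ (if u ∈ S j ∧ v ∈ S j then a * w j else 0) := by
          intro u v
          split
          · exact mul_nonneg ha (h.nonneg j)
          · exact le_rfl
        have h1 : pr S w Y a j = (if z ∈ S j ∧ z' ∈ S j then a * w j else 0) := by
          unfold pr
          rw [if_pos hjY, if_pos ⟨hz1, hz1'⟩]
        rw [h1]
        refine le_trans ?_ (Finset.single_le_sum
          (f := fun z => ∑ z' ∈ Z', (if z ∈ S j ∧ z' ∈ S j then a * w j else 0))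
          (fun u _ => Finset.sum_nonneg fun v _ => hnn u v) hz2)
        exact Finset.single_le_sum (f := fun z' => (if z ∈ S j ∧ z' ∈ S j then a * w j else 0))
          (fun v _ => hnn z v) hz2'
    _ ≤ ∑ j ∈ act S Y, ∑ z ∈ Z, ∑ z' ∈ Z', (if z ∈ S j ∧ z' ∈ S j then a * w j else 0) := by
        refine Finset.sum_le_sum_of_subset_of_nonneg
          (Finset.inter_subset_left.trans (nbasic_tsub Y Z)) fun j _ _ => ?_
        refine Finset.sum_nonneg fun u _ => Finset.sum_nonneg fun v _ => ?_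
        split
        · exact mul_nonneg ha (h.nonneg j)
        · exact le_rfl
    _ = ∑ z ∈ Z, ∑ z' ∈ Z', ∑ j ∈ act S Y, (if z ∈ S j ∧ z' ∈ S j then a * w j else 0) := by
        rw [Finset.sum_comm]
        refine Finset.sum_congr rfl fun z _ => ?_
        rw [Finset.sum_comm]
    _ ≤ ∑ z ∈ Z, ∑ z' ∈ Z', (a * κ + if z = z' then a else 0) := by
        refine Finset.sum_le_sum fun z _ => Finset.sum_le_sum fun z' _ => ?_
        by_cases hzz : z = z'
        · subst hzz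
          rw [if_pos rfl]
          have := nbasic_cod1 h Y ha z
          linarith
        · rw [if_neg hzz, add_zero]
          exact nbasic_cod h Y ha hzz
    _ = a * κ * (Z.card : ℝ) * Z'.card + a * ((Z ∩ Z').card : ℝ) := by
        have e1 : ∀ z ∈ Z, ∑ z' ∈ Z', (a * κ + if z = z' then a else 0) =
            (Z'.card : ℝ) * (a * κ) + if z ∈ Z' then a else 0 := by
          intro z _
          rw [Finset.sum_add_distrib, Finset.sum_const, nsmul_eq_mul, Finset.sum_ite_eq]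
        rw [Finset.sum_congr rfl e1, Finset.sum_add_distrib, Finset.sum_const, nsmul_eq_mul,
          ← Finset.sum_filter, Finset.sum_const, nsmul_eq_mul, Finset.filter_mem_eq_inter]
        ring

theorem Hyp.switch (h : Hyp S w k κ) (Y : Finset X) (f : X → ℝ) (hf : ∀ z, 0 ≤ f z) :
    ∑ y ∈ Y, ∑ i ∈ thr S Y y, w i * ∑ z ∈ (S i).erase y, f z ≤ k * ∑ z ∈ Y, f z := by
  calc ∑ y ∈ Y, ∑ i ∈ thr S Y y, w i * ∑ z ∈ (S i).erase y, f z
      ≤ ∑ y ∈ Y, ∑ i ∈ thr S Y y, w i * ∑ z ∈ S i, f z := by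
        refine Finset.sum_le_sum fun y _ => Finset.sum_le_sum fun i _ => ?_
        refine mul_le_mul_of_nonneg_left ?_ (h.nonneg i)
        exact Finset.sum_le_sum_of_subset_of_nonneg (Finset.erase_subset _ _) fun z _ _ => hf z
    _ = k * ∑ i ∈ act S Y, w i * ∑ z ∈ S i ∩ Y, f z := by
        rw [nbasic_dc, Finset.mul_sum]
        refine Finset.sum_congr rfl fun i hi => ?_
        rw [Finset.inter_eq_left.mpr (nbasic_act.mp hi), h.card i]
    _ = k * ∑ z ∈ Y, f z * Dg S w Y z := by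
        rw [← nbasic_dcf]
        rfl
    _ ≤ k * ∑ z ∈ Y, f z := by
        refine mul_le_mul_of_nonneg_left ?_ (Nat.cast_nonneg k)
        refine Finset.sum_le_sum fun z _ => ?_
        calc f z * Dg S w Y z ≤ f z * 1 := mul_le_mul_of_nonneg_left (h.dg_le Y z) (hf z)
          _ = f z := mul_one _

theorem Hyp.pair (h : Hyp S w k κ) (Y : Finset X) (y : X) :
    ∑ i ∈ thr S Y y, ∑ i' ∈ thr S Y y, w i * w i' *
      ((((S i).erase y ∩ (S i').erase y).card : ℕ) : ℝ) ≤ k * κ := by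
  have e1 : ∀ i ∈ thr S Y y, ∑ i' ∈ thr S Y y, w i * w i' *
      ((((S i).erase y ∩ (S i').erase y).card : ℕ) : ℝ) ≤ w i * (k * κ) := by
    intro i hi
    have e2 : ∀ i' ∈ thr S Y y, w i * w i' * ((((S i).erase y ∩ (S i').erase y).card : ℕ) : ℝ) =
        w i * ∑ z ∈ (S i).erase y, (if z ∈ (S i').erase y then w i' else 0) := by
      intro i' _
      rw [← Finset.sum_filter, Finset.sum_const, nsmul_eq_mul, Finset.filter_mem_eq_inter]
      ring
    rw [Finset.sum_congr rfl e2, ← Finset.mul_sum]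
    refine mul_le_mul_of_nonneg_left ?_ (h.nonneg i)
    rw [Finset.sum_comm]
    calc ∑ z ∈ (S i).erase y, ∑ i' ∈ thr S Y y, (if z ∈ (S i').erase y then w i' else 0)
        ≤ ∑ _z ∈ (S i).erase y, κ := by
          refine Finset.sum_le_sum fun z hz => ?_
          rw [← Finset.sum_filter]
          refine le_trans ?_ (h.cod y z (Finset.ne_of_mem_erase hz).symm)
          refine Finset.sum_le_sum_of_subset_of_nonneg ?_ fun i _ _ => h.nonneg i
          intro i' hi'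
          rw [Finset.mem_filter] at hi'
          exact Finset.mem_filter.mpr ⟨Finset.mem_univ i', (nbasic_thr.mp hi'.1).2,
            Finset.mem_of_mem_erase hi'.2⟩
      _ = (((S i).erase y).card : ℝ) * κ := by rw [Finset.sum_const, nsmul_eq_mul]
      _ ≤ (k : ℝ) * κ := by
          refine mul_le_mul_of_nonneg_right ?_ h.kap
          have h1 := Finset.card_erase_le (s := S i) (a := y)
          rw [h.card i] at h1
          exact_mod_cast h1
  refine (Finset.sum_le_sum e1).trans ?_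
  rw [← Finset.sum_mul]
  have h2 : ∑ i ∈ thr S Y y, w i ≤ 1 := h.dg_le Y y
  calc (∑ i ∈ thr S Y y, w i) * (k * κ) ≤ 1 * (k * κ) :=
        mul_le_mul_of_nonneg_right h2 (mul_nonneg (Nat.cast_nonneg k) h.kap)
    _ = k * κ := one_mul _

end Pool.NSH
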