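import Pool.Agent.NSH.NBasic

/-!
MODULE NVar (difficulty 3).  The variance of the new degree.

`Dn A y = ∑_{i ∈ thr y} w i [Disjoint A (T i)]`, `T i = tch ((S i).erase y)`.  So
`Ex Dn ^ 2 = ∑_{i, i'} w i w i' ∏_{T i ∪ T i'} (1 - pr)` (`Disjoint A F ∧ Disjoint A F' ↔ Disjoint A (F ∪ F')`) and
`(Ex Dn) ^ 2 = ∑_{i, i'} w i w i' ∏_{T i} (1 - pr) ∏_{T i'} (1 - pr)`.  With `P = ∏_{T i ∪ T i'}`, `Q = ∏_{T i ∩ T i'}` one has
`∏_{T i} ∏_{T i'} = P Q` (`Finset.prod_union_inter`), `Q ≥ 1 - ∑_{T i ∩ T i'} pr` (`prod_ge`), so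
`P - P Q ≤ ∑_{T i ∩ T i'} pr ≤ a κ k ^ 2 + a |(S i).erase y ∩ (S i').erase y|` (`tch_two`, `P ≤ 1`).
Sum: `∑ w i w i' ≤ 1` and `pair`: total `≤ k ^ 2 κ + k κ ≤ 2 k ^ 2 κ` (`a ≤ 1`).
-/

open Finset
open scoped Classical

namespace Pool.NSH

variable {X ι : Type} [Fintype X] [Fintype ι] {S : ι → Finset X} {w : ι → ℝ} {k : ℕ} {κ : ℝ}

theorem nvar_mean (S : ι → Finset X) (w : ι → ℝ) (Y : Finset X) (p : ι → ℝ) (y : X) :
    Ex p (fun A => Dn S w Y A y) =
      ∑ i ∈ thr S Y y, w i * ∏ j ∈ tch S Y ((S i).erase y), (1 - p j) := by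
  unfold Dn
  rw [ex_sum]
  refine Finset.sum_congr rfl fun i _ => ?_
  rw [ex_mul, ex_disj]

theorem nvar_sq (S : ι → Finset X) (w : ι → ℝ) (Y : Finset X) (p : ι → ℝ) (y : X) :
    Ex p (fun A => Dn S w Y A y ^ 2) =
      ∑ i ∈ thr S Y y, ∑ i' ∈ thr S Y y, w i * w i' *
        ∏ j ∈ tch S Y ((S i).erase y) ∪ tch S Y ((S i').erase y), (1 - p j) := by
  have h1 : (fun A => Dn S w Y A y ^ 2) = fun A => ∑ i ∈ thr S Y y, ∑ i' ∈ thr S Y y,
      (w i * w i') * (if Disjoint A (tch S Y ((S i).erase y) ∪ tch S Y ((S i').erase y)) then (1 : ℝ) else 0) := by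
    funext A
    unfold Dn
    rw [sq, Finset.sum_mul_sum]
    refine Finset.sum_congr rfl fun i _ => Finset.sum_congr rfl fun i' _ => ?_
    by_cases h2 : Disjoint A (tch S Y ((S i).erase y))
    · by_cases h3 : Disjoint A (tch S Y ((S i').erase y))
      · rw [if_pos h2, if_pos h3, if_pos (Finset.disjoint_union_right.2 ⟨h2, h3⟩)]
        ring
      · rw [if_pos h2, if_neg h3, if_neg (fun h => h3 (Finset.disjoint_union_right.1 h).2)]
        ring
    · rw [if_neg h2, if_neg (fun h => h2 (Finset.disjoint_union_right.1 h).1)]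
      ring
  rw [h1, ex_sum]
  refine Finset.sum_congr rfl fun i _ => ?_
  rw [ex_sum]
  refine Finset.sum_congr rfl fun i' _ => ?_
  rw [ex_mul, ex_disj]

theorem nvar (h : Hyp S w k κ) (Y : Finset X) {a : ℝ} (ha : 0 ≤ a) (ha1 : a ≤ 1)
    (haκ : a * κ ≤ 1) (y : X) :
    Ex (pr S w Y a) (fun A => Dn S w Y A y ^ 2) - (Ex (pr S w Y a) (fun A => Dn S w Y A y)) ^ 2
      ≤ 2 * k ^ 2 * κ := by
  have hp0 : ∀ i, 0 ≤ pr S w Y a i := fun i => h.pr_nonneg Y ha i
  have hp1 : ∀ i, pr S w Y a i ≤ 1 := fun i => (h.pr_le Y ha i).trans haκ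
  have hkap := h.kap
  have hk : (1 : ℝ) ≤ k := by
    have := h.hk
    exact_mod_cast (by omega : 1 ≤ k)
  -- the bound for one pair
  have hpair : ∀ i ∈ thr S Y y, ∀ i' ∈ thr S Y y,
      w i * w i' * ∏ j ∈ tch S Y ((S i).erase y) ∪ tch S Y ((S i').erase y), (1 - pr S w Y a j) -
        (w i * ∏ j ∈ tch S Y ((S i).erase y), (1 - pr S w Y a j)) *
        (w i' * ∏ j ∈ tch S Y ((S i').erase y), (1 - pr S w Y a j)) ≤
      (w i * w i') * (κ * k ^ 2) +
        w i * w i' * ((((S i).erase y ∩ (S i').erase y).card : ℕ) : ℝ) := by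
    intro i hi i' hi'
    have hP := prod_mem (pr S w Y a) (tch S Y ((S i).erase y) ∪ tch S Y ((S i').erase y))
      (fun j _ => hp0 j) (fun j _ => hp1 j)
    have hQ := prod_ge (pr S w Y a) (tch S Y ((S i).erase y) ∩ tch S Y ((S i').erase y))
      (fun j _ => hp0 j) (fun j _ => hp1 j)
    have hPQ := Finset.prod_union_inter (s₁ := tch S Y ((S i).erase y)) (s₂ := tch S Y ((S i').erase y))
      (f := fun j => 1 - pr S w Y a j)
    have hT := h.tch_two Y ((S i).erase y) ((S i').erase y) ha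
    have hsum0 : 0 ≤ ∑ j ∈ tch S Y ((S i).erase y) ∩ tch S Y ((S i').erase y), pr S w Y a j :=
      Finset.sum_nonneg fun j _ => hp0 j
    have hc : ((S i).erase y).card ≤ k := by
      rw [← h.card i]
      exact Finset.card_le_card (Finset.erase_subset _ _)
    have hc' : ((S i').erase y).card ≤ k := by
      rw [← h.card i']
      exact Finset.card_le_card (Finset.erase_subset _ _)
    have hcR : (((S i).erase y).card : ℝ) ≤ k := by exact_mod_cast hc
    have hcR' : (((S i').erase y).card : ℝ) ≤ k := by exact_mod_cast hc'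
    have hww : 0 ≤ w i * w i' := mul_nonneg (h.nonneg i) (h.nonneg i')
    have hI : (0 : ℝ) ≤ (((S i).erase y ∩ (S i').erase y).card : ℝ) := Nat.cast_nonneg _
    have c0 : (0 : ℝ) ≤ (((S i).erase y).card : ℝ) := Nat.cast_nonneg _
    have c0' : (0 : ℝ) ≤ (((S i').erase y).card : ℝ) := Nat.cast_nonneg _
    have hcc : (((S i).erase y).card : ℝ) * (((S i').erase y).card : ℝ) ≤ k * k :=
      mul_le_mul hcR hcR' c0' (by linarith)
    have haκ0 : 0 ≤ a * κ := mul_nonneg ha hkap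
    have haκκ : a * κ ≤ κ := by nlinarith
    have b1 : a * κ * (((S i).erase y).card : ℝ) * (((S i').erase y).card : ℝ) ≤ κ * k ^ 2 := by
      have e1 : a * κ * (((S i).erase y).card : ℝ) * (((S i').erase y).card : ℝ) =
        (a * κ) * ((((S i).erase y).card : ℝ) * (((S i').erase y).card : ℝ)) := by ring
      rw [e1]
      have e2 : (a * κ) * ((((S i).erase y).card : ℝ) * (((S i').erase y).card : ℝ)) ≤ (a * κ) * (k * k) :=
        mul_le_mul_of_nonneg_left hcc haκ0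
      have e3 : (a * κ) * ((k : ℝ) * k) ≤ κ * (k * k) :=
        mul_le_mul_of_nonneg_right haκκ (by positivity)
      have e4 : κ * ((k : ℝ) * k) = κ * k ^ 2 := by ring
      linarith
    have b2 : a * (((S i).erase y ∩ (S i').erase y).card : ℝ) ≤
        (((S i).erase y ∩ (S i').erase y).card : ℝ) := by
      have := mul_le_mul_of_nonneg_right ha1 hI
      linarith
    generalize hPd : ∏ j ∈ tch S Y ((S i).erase y) ∪ tch S Y ((S i').erase y), (1 - pr S w Y a j) = P at *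
    generalize hQd : ∏ j ∈ tch S Y ((S i).erase y) ∩ tch S Y ((S i').erase y), (1 - pr S w Y a j) = Q at *
    generalize hsd : ∑ j ∈ tch S Y ((S i).erase y) ∩ tch S Y ((S i').erase y), pr S w Y a j = s at *
    generalize hAd : ∏ j ∈ tch S Y ((S i).erase y), (1 - pr S w Y a j) = A at *
    generalize hBd : ∏ j ∈ tch S Y ((S i').erase y), (1 - pr S w Y a j) = B at *
    have d1 : P - A * B ≤ s := by
      rw [← hPQ]
      have : P * (1 - Q) ≤ 1 * s := by
        have g1 : P * (1 - Q) ≤ P * s := mul_le_mul_of_nonneg_left (by linarith) hP.1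
        have g2 : P * s ≤ 1 * s := mul_le_mul_of_nonneg_right hP.2 hsum0
        linarith
      linarith
    have d2 : P - A * B ≤ κ * k ^ 2 + (((S i).erase y ∩ (S i').erase y).card : ℝ) := by linarith
    have d3 := mul_le_mul_of_nonneg_left d2 hww
    have d4 : w i * w i' * P - w i * A * (w i' * B) = w i * w i' * (P - A * B) := by ring
    rw [d4]
    linarith
  rw [nvar_mean, nvar_sq, sq, Finset.sum_mul_sum, ← Finset.sum_sub_distrib]
  have hstep : ∑ i ∈ thr S Y y, (∑ i' ∈ thr S Y y, w i * w i' *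
        ∏ j ∈ tch S Y ((S i).erase y) ∪ tch S Y ((S i').erase y), (1 - pr S w Y a j) -
      ∑ i' ∈ thr S Y y, (w i * ∏ j ∈ tch S Y ((S i).erase y), (1 - pr S w Y a j)) *
        (w i' * ∏ j ∈ tch S Y ((S i').erase y), (1 - pr S w Y a j))) ≤
      ∑ i ∈ thr S Y y, ∑ i' ∈ thr S Y y, ((w i * w i') * (κ * k ^ 2) +
        w i * w i' * ((((S i).erase y ∩ (S i').erase y).card : ℕ) : ℝ)) := by
    refine Finset.sum_le_sum fun i hi => ?_
    rw [← Finset.sum_sub_distrib]
    exact Finset.sum_le_sum fun i' hi' => hpair i hi i' hi'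
  refine hstep.trans ?_
  have hsplit : ∑ i ∈ thr S Y y, ∑ i' ∈ thr S Y y, ((w i * w i') * (κ * k ^ 2) +
        w i * w i' * ((((S i).erase y ∩ (S i').erase y).card : ℕ) : ℝ)) =
      Dg S w Y y * Dg S w Y y * (κ * k ^ 2) + ∑ i ∈ thr S Y y, ∑ i' ∈ thr S Y y,
        w i * w i' * ((((S i).erase y ∩ (S i').erase y).card : ℕ) : ℝ) := by
    unfold Dg
    rw [Finset.sum_mul_sum, Finset.sum_mul, ← Finset.sum_add_distrib]
    refine Finset.sum_congr rfl fun i _ => ?_
    rw [Finset.sum_mul, ← Finset.sum_add_distrib]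
  rw [hsplit]
  have hd0 := h.dg_nonneg Y y
  have hd1 := h.dg_le Y y
  have hpr := h.pair Y y
  have hdd : Dg S w Y y * Dg S w Y y ≤ 1 := by nlinarith
  have hκk : 0 ≤ κ * (k : ℝ) ^ 2 := by positivity
  have m1 := mul_le_mul_of_nonneg_right hdd hκk
  have m2 : (k : ℝ) * κ ≤ κ * k ^ 2 := by
    have : (k : ℝ) * κ * 1 ≤ (k : ℝ) * κ * k := mul_le_mul_of_nonneg_left hk (by positivity)
    nlinarith
  linarith

end Pool.NSH
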