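import Pool.Agent.NSH.NMean
import Pool.Agent.NSH.NVar

/-!
MODULE NErr (difficulty 3).  The expected deviation after a bite.

RECIPE: pointwise `Err (Yn A) μ' ≤ ∑_{y ∈ Y} |Dn A y - μ'|`: for `y ∈ Yn A` one has `Dg (Yn A) y = Dn A y`, because for
`i ∈ thr Y y`: `S i ⊆ Yn A` iff `Disjoint A (tch ((S i).erase y))` (given `y ∈ Yn A`; a `j ∈ act Y` in `A` meets `(S i).erase y` iff it
is in `thr z` for some `z ∈ (S i).erase y`), and `thr (Yn A) y = (thr Y y).filter (S i ⊆ Yn A)`.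
Then `ex_mono`, `ex_sum`, `ex_abs` (`f = Dn · y`, `c = μ'`), `nmean_sum`, `nvar`:
`∑_y √(2 k ^ 2 κ) ≤ 2 k √κ |Y|`, `3 k ^ 2 κ ≤ 3 k ^ 2 √κ` (`κ ≤ 1`), `2 k ≤ k ^ 2`.
-/

open Finset
open scoped Classical

namespace Pool.NSH

variable {X ι : Type} [Fintype X] [Fintype ι] {S : ι → Finset X} {w : ι → ℝ} {k : ℕ} {κ : ℝ}

lemma nerr_thr (Y : Finset X) (A : Finset ι) (y : X) (hy : y ∈ Yn S Y A) :
    thr S (Yn S Y A) y
      = (thr S Y y).filter fun i => Disjoint A (tch S Y ((S i).erase y)) := by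
  ext i
  have hY : ∀ z, z ∈ Yn S Y A ↔ z ∈ Y ∧ Disjoint A (thr S Y z) := by
    intro z
    unfold Yn
    rw [Finset.mem_filter]
  have hthr : ∀ (Z : Finset X) (z : X) (j : ι), j ∈ thr S Z z ↔ S j ⊆ Z ∧ z ∈ S j := by
    intro Z z j
    unfold thr act
    rw [Finset.mem_filter, Finset.mem_filter]
    simp
  have htch : ∀ (Z : Finset X) (j : ι), j ∈ tch S Y Z ↔ S j ⊆ Y ∧ ¬ Disjoint (S j) Z := by
    intro Z j
    unfold tch act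
    rw [Finset.mem_filter, Finset.mem_filter]
    simp
  rw [Finset.mem_filter, hthr, hthr]
  constructor
  · rintro ⟨h1, h2⟩
    refine ⟨⟨fun z hz => ((hY z).1 (h1 hz)).1, h2⟩, ?_⟩
    rw [Finset.disjoint_left]
    intro j hjA hj
    rw [htch, Finset.not_disjoint_iff] at hj
    obtain ⟨hj1, z, hz1, hz2⟩ := hj
    have hz3 := (hY z).1 (h1 (Finset.mem_of_mem_erase hz2))
    exact Finset.disjoint_left.1 hz3.2 hjA ((hthr _ _ _).2 ⟨hj1, hz1⟩)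
  · rintro ⟨⟨h1, h2⟩, h3⟩
    refine ⟨fun z hz => ?_, h2⟩
    by_cases hzy : z = y
    · rw [hzy]
      exact hy
    · rw [hY]
      refine ⟨h1 hz, ?_⟩
      rw [Finset.disjoint_left]
      intro j hjA hj
      rw [hthr] at hj
      refine Finset.disjoint_left.1 h3 hjA ((htch _ _).2 ⟨hj.1, ?_⟩)
      rw [Finset.not_disjoint_iff]
      exact ⟨z, hj.2, Finset.mem_erase.2 ⟨hzy, hz⟩⟩

lemma nerr_dg (Y : Finset X) (A : Finset ι) (y : X) (hy : y ∈ Yn S Y A) :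
    Dg S w (Yn S Y A) y = Dn S w Y A y := by
  unfold Dg Dn
  rw [nerr_thr Y A y hy, Finset.sum_filter]
  apply Finset.sum_congr rfl
  intro i _
  split_ifs <;> simp

lemma nerr_point (Y : Finset X) (A : Finset ι) (ν : ℝ) :
    Err S w (Yn S Y A) ν ≤ ∑ y ∈ Y, |Dn S w Y A y - ν| := by
  unfold Err
  calc ∑ y ∈ Yn S Y A, |Dg S w (Yn S Y A) y - ν|
      = ∑ y ∈ Yn S Y A, |Dn S w Y A y - ν| := by
        apply Finset.sum_congr rfl
        intro y hy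
        rw [nerr_dg Y A y hy]
    _ ≤ ∑ y ∈ Y, |Dn S w Y A y - ν| := by
        apply Finset.sum_le_sum_of_subset_of_nonneg
        · unfold Yn
          exact Finset.filter_subset _ _
        · intro y _ _
          exact abs_nonneg _

lemma nerr_sqrt {k : ℕ} (hk : 2 ≤ k) {κ : ℝ} (hκ : 0 ≤ κ) (hκ1 : κ ≤ 1 / 2) :
    √(2 * (k : ℝ) ^ 2 * κ) + 3 * (k : ℝ) ^ 2 * κ ≤ 6 * (k : ℝ) ^ 2 * √κ := by
  have hk2 : (2 : ℝ) ≤ k := by exact_mod_cast hk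
  have hs0 : 0 ≤ √κ := Real.sqrt_nonneg κ
  have hsq : √κ * √κ = κ := Real.mul_self_sqrt hκ
  have hs1 : √κ ≤ 1 := by
    rw [← Real.sqrt_one]
    exact Real.sqrt_le_sqrt (by linarith)
  have h1 : κ ≤ √κ := by
    calc κ = √κ * √κ := hsq.symm
      _ ≤ √κ * 1 := mul_le_mul_of_nonneg_left hs1 hs0
      _ = √κ := mul_one _
  have hkk : (2 : ℝ) * k ≤ (k : ℝ) ^ 2 := by nlinarith
  have h2 : √(2 * (k : ℝ) ^ 2 * κ) ≤ 2 * k * √κ := by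
    rw [Real.sqrt_le_left (by nlinarith)]
    have h3 : (2 * (k : ℝ) * √κ) ^ 2 = 4 * (k : ℝ) ^ 2 * κ := by
      rw [mul_pow, sq (√κ), hsq]
      ring
    rw [h3]
    have h4 : 0 ≤ (k : ℝ) ^ 2 * κ := mul_nonneg (sq_nonneg _) hκ
    linarith
  have h5 : 3 * (k : ℝ) ^ 2 * κ ≤ 3 * (k : ℝ) ^ 2 * √κ :=
    mul_le_mul_of_nonneg_left h1 (by nlinarith)
  have h6 : 2 * (k : ℝ) * √κ ≤ (k : ℝ) ^ 2 * √κ := mul_le_mul_of_nonneg_right hkk hs0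
  have h7 : 0 ≤ (k : ℝ) ^ 2 * √κ := mul_nonneg (sq_nonneg _) hs0
  linarith

theorem nerr (h : Hyp S w k κ) (Y : Finset X) {a μ : ℝ} (ha : 0 ≤ a) (ha1 : a ≤ 1)
    (hκ : 0 ≤ κ) (hκ1 : κ ≤ 1 / 2) (hμ : 0 ≤ μ) (hμ1 : μ ≤ 1) :
    Ex (pr S w Y a) (fun A => Err S w (Yn S Y A) (Real.exp (-(((k : ℝ) - 1) * (a * μ))) * μ))
      ≤ (1 + k * a) * Err S w Y μ + 6 * k ^ 2 * √κ * Y.card := by
  have haκ : a * κ ≤ 1 / 2 := by
    calc a * κ ≤ 1 * κ := mul_le_mul_of_nonneg_right ha1 hκ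
      _ ≤ 1 / 2 := by linarith
  have h0 : ∀ i, 0 ≤ pr S w Y a i := fun i => h.pr_nonneg Y ha i
  have h1 : ∀ i, pr S w Y a i ≤ 1 := fun i => (h.pr_le Y ha i).trans (by linarith)
  set ν : ℝ := Real.exp (-(((k : ℝ) - 1) * (a * μ))) * μ with hν
  have h2 : Ex (pr S w Y a) (fun A => Err S w (Yn S Y A) ν)
      ≤ Ex (pr S w Y a) (fun A => ∑ y ∈ Y, |Dn S w Y A y - ν|) :=
    ex_mono h0 h1 fun A => nerr_point Y A ν
  have h3 : Ex (pr S w Y a) (fun A => ∑ y ∈ Y, |Dn S w Y A y - ν|)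
      = ∑ y ∈ Y, Ex (pr S w Y a) (fun A => |Dn S w Y A y - ν|) :=
    ex_sum (pr S w Y a) Y (fun y A => |Dn S w Y A y - ν|)
  have h4 : ∀ y ∈ Y, Ex (pr S w Y a) (fun A => |Dn S w Y A y - ν|)
      ≤ |Ex (pr S w Y a) (fun A => Dn S w Y A y) - ν| + √(2 * (k : ℝ) ^ 2 * κ) := by
    intro y _
    refine (ex_abs h0 h1 (fun A => Dn S w Y A y) ν).trans ?_
    have h5 := Real.sqrt_le_sqrt (nvar h Y ha ha1 (by linarith) y)
    linarith
  have h6 : ∑ y ∈ Y, Ex (pr S w Y a) (fun A => |Dn S w Y A y - ν|)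
      ≤ ∑ y ∈ Y, |Ex (pr S w Y a) (fun A => Dn S w Y A y) - ν|
        + Y.card * √(2 * (k : ℝ) ^ 2 * κ) := by
    calc ∑ y ∈ Y, Ex (pr S w Y a) (fun A => |Dn S w Y A y - ν|)
        ≤ ∑ y ∈ Y, (|Ex (pr S w Y a) (fun A => Dn S w Y A y) - ν|
          + √(2 * (k : ℝ) ^ 2 * κ)) := Finset.sum_le_sum h4
      _ = _ := by
        rw [Finset.sum_add_distrib, Finset.sum_const, nsmul_eq_mul]
  have h7 := nmean_sum h Y ha ha1 haκ hμ hμ1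
  have h8 := nerr_sqrt h.hk hκ hκ1
  have h9 := mul_le_mul_of_nonneg_right h8 (Nat.cast_nonneg (α := ℝ) Y.card)
  rw [← hν] at h7
  rw [h3] at h2
  linarith

end Pool.NSH
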