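import Pool.Agent.NSH.NWaste
import Pool.Agent.NSH.NErr

/-!
MODULE NBite (difficulty 2).  One bite.

RECIPE: `ex_exists` for the function `A ↦ (|Y| - |Yn A| - k |Acc A|) + c |Yn A| + b Err (Yn A) μ'` (`ex_add`, `ex_mul`, `nwaste`,
`nsize`, `nerr`); `M = Acc A`, `Y' = Yn A`.  `Acc A ⊆ act Y`; two different `i, j ∈ Acc A` have disjoint `S i, S j` (otherwise
`j ∈ (tch (S i)).erase i` and `j ∈ A`); `S i` is disjoint from `Yn A` for `i ∈ Acc A` (`i ∈ A`, `i ∈ thr z` for `z ∈ S i`).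
-/

open Finset
open scoped Classical

namespace Pool.NSH

variable {X ι : Type} [Fintype X] [Fintype ι] {S : ι → Finset X} {w : ι → ℝ} {k : ℕ} {κ : ℝ}

omit [Fintype X] in
theorem nbite_acc_disj (Y : Finset X) (A : Finset ι) :
    ∀ i ∈ Acc S Y A, ∀ j ∈ Acc S Y A, i ≠ j → Disjoint (S i) (S j) := by
  intro i hi j hj hij
  by_contra hd
  simp only [Acc, Finset.mem_filter] at hi hj
  have hjt : j ∈ (tch S Y (S i)).erase i := by
    refine Finset.mem_erase.2 ⟨fun h => hij h.symm, ?_⟩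
    simp only [tch, Finset.mem_filter]
    exact ⟨hj.1, fun h => hd h.symm⟩
  exact Finset.disjoint_left.1 hi.2.2 hj.2.1 hjt

omit [Fintype X] in
theorem nbite_acc_yn (Y : Finset X) (A : Finset ι) :
    ∀ i ∈ Acc S Y A, Disjoint (S i) (Yn S Y A) := by
  intro i hi
  simp only [Acc, Finset.mem_filter] at hi
  refine Finset.disjoint_left.2 fun z hz hzY => ?_
  simp only [Yn, Finset.mem_filter] at hzY
  refine Finset.disjoint_left.1 hzY.2 hi.2.1 ?_
  simp only [thr, Finset.mem_filter]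
  exact ⟨hi.1, hz⟩

theorem nbite (h : Hyp S w k κ) (Y : Finset X) {a μ : ℝ} (ha : 0 ≤ a) (ha1 : a ≤ 1)
    (hκ : 0 ≤ κ) (hκ1 : κ ≤ 1 / 2) (hμ : 0 ≤ μ) (hμ1 : μ ≤ 1) {b c : ℝ} (hb : 0 ≤ b) (hc : 0 ≤ c) :
    ∃ (M : Finset ι) (Y' : Finset X), M ⊆ act S Y ∧ Y' ⊆ Y ∧
      (∀ i ∈ M, ∀ j ∈ M, i ≠ j → Disjoint (S i) (S j)) ∧ (∀ i ∈ M, Disjoint (S i) Y') ∧
      ((Y.card : ℝ) - Y'.card - k * M.card) + c * Y'.card
          + b * Err S w Y' (Real.exp (-(((k : ℝ) - 1) * (a * μ))) * μ)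
        ≤ k * a ^ 2 * Y.card + c * (Real.exp (-(a * μ)) * (Y.card + 2 * a * Err S w Y μ))
          + b * ((1 + k * a) * Err S w Y μ + 6 * k ^ 2 * √κ * Y.card) := by
  have haκ : a * κ ≤ 1 := by nlinarith
  have hp0 : ∀ i, 0 ≤ pr S w Y a i := fun i => h.pr_nonneg Y ha i
  have hp1 : ∀ i, pr S w Y a i ≤ 1 := fun i => (h.pr_le Y ha i).trans haκ
  have e1 := nwaste h Y ha haκ
  have e2 := nsize h Y ha ha1 haκ hμ hμ1
  have e3 := nerr h Y ha ha1 hκ hκ1 hμ hμ1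
  have hE : Ex (pr S w Y a) (fun A => (((Y.card : ℝ) - (Yn S Y A).card - k * (Acc S Y A).card)
      + c * ((Yn S Y A).card : ℝ))
      + b * Err S w (Yn S Y A) (Real.exp (-(((k : ℝ) - 1) * (a * μ))) * μ))
      ≤ k * a ^ 2 * Y.card + c * (Real.exp (-(a * μ)) * (Y.card + 2 * a * Err S w Y μ))
          + b * ((1 + k * a) * Err S w Y μ + 6 * k ^ 2 * √κ * Y.card) := by
    have q1 := ex_add (pr S w Y a)
      (fun A => ((Y.card : ℝ) - (Yn S Y A).card - k * (Acc S Y A).card)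
        + c * ((Yn S Y A).card : ℝ))
      (fun A => b * Err S w (Yn S Y A) (Real.exp (-(((k : ℝ) - 1) * (a * μ))) * μ))
    have q2 := ex_add (pr S w Y a)
      (fun A => ((Y.card : ℝ) - (Yn S Y A).card - k * (Acc S Y A).card))
      (fun A => c * ((Yn S Y A).card : ℝ))
    have q3 := ex_mul (pr S w Y a) c (fun A => ((Yn S Y A).card : ℝ))
    have q4 := ex_mul (pr S w Y a) b
      (fun A => Err S w (Yn S Y A) (Real.exp (-(((k : ℝ) - 1) * (a * μ))) * μ))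
    rw [q1, q2, q3, q4]
    have r2 := mul_le_mul_of_nonneg_left e2 hc
    have r3 := mul_le_mul_of_nonneg_left e3 hb
    linarith
  obtain ⟨A, hA⟩ := ex_exists hp0 hp1 hE
  refine ⟨Acc S Y A, Yn S Y A, Finset.filter_subset _ _, Finset.filter_subset _ _,
    nbite_acc_disj Y A, nbite_acc_yn Y A, hA⟩

end Pool.NSH
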