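import Mathlib

/-!
MODULE NEst (difficulty 2).  Products of numbers near one.

RECIPE: induction on `F` for `prod_ge` (`(1 - p) * (1 - s) ≥ 1 - p - s`), `1 - p ≤ exp (-p)` (`Real.one_sub_le_exp_neg`,
`Real.add_one_le_exp`), and `exp (-p - p ^ 2) ≤ 1 - p` for `0 ≤ p ≤ 1 / 2` (for instance from
`Real.one_sub_inv_le_log_of_pos` : `log (1 - p) ≥ 1 - 1 / (1 - p) = - p / (1 - p) ≥ -p - 2 p ^ 2`: use the
constant `2`: `exp (-p - 2 p ^ 2) ≤ 1 - p`).  So `∏ (1 - p) ≥ exp (-s - 2 ∑ p ^ 2) ≥ exp (-s) * (1 - 2 ∑ p ^ 2) ≥ exp (-s) - 2 ∑ p ^ 2`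
and `∑ p ^ 2 ≤ δ * s`.
-/

open Finset
open scoped Classical

namespace Pool.NSH

variable {ι : Type*}

theorem prod_le (p : ι → ℝ) (F : Finset ι) (h1 : ∀ i ∈ F, p i ≤ 1) :
    ∏ i ∈ F, (1 - p i) ≤ Real.exp (-∑ i ∈ F, p i) := by
  rw [← Finset.sum_neg_distrib, Real.exp_sum]
  refine Finset.prod_le_prod (fun i hi => by linarith [h1 i hi]) fun i _ => ?_
  have := Real.add_one_le_exp (-p i)
  linarith

theorem prod_mem (p : ι → ℝ) (F : Finset ι) (h0 : ∀ i ∈ F, 0 ≤ p i) (h1 : ∀ i ∈ F, p i ≤ 1) :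
    0 ≤ ∏ i ∈ F, (1 - p i) ∧ ∏ i ∈ F, (1 - p i) ≤ 1 := by
  constructor
  · exact Finset.prod_nonneg fun i hi => by linarith [h1 i hi]
  · exact Finset.prod_le_one (fun i hi => by linarith [h1 i hi]) fun i hi => by
      linarith [h0 i hi]

theorem prod_ge (p : ι → ℝ) (F : Finset ι) (h0 : ∀ i ∈ F, 0 ≤ p i) (h1 : ∀ i ∈ F, p i ≤ 1) :
    1 - ∑ i ∈ F, p i ≤ ∏ i ∈ F, (1 - p i) := by
  revert h0 h1
  induction F using Finset.induction_on with
  | empty => intro _ _; simp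
  | insert a F ha ih =>
    intro h0 h1
    rw [Finset.sum_insert ha, Finset.prod_insert ha]
    have h0' : ∀ i ∈ F, 0 ≤ p i := fun i hi => h0 i (Finset.mem_insert_of_mem hi)
    have h1' : ∀ i ∈ F, p i ≤ 1 := fun i hi => h1 i (Finset.mem_insert_of_mem hi)
    have hI := ih h0' h1'
    have hm := prod_mem p F h0' h1'
    have ha0 := h0 a (Finset.mem_insert_self a F)
    have ha1 := h1 a (Finset.mem_insert_self a F)
    nlinarith [mul_nonneg ha0 (sub_nonneg.2 hm.2)]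

theorem nest_one {x : ℝ} (h0 : 0 ≤ x) (h1 : x ≤ 1 / 2) :
    Real.exp (-x - 2 * x ^ 2) ≤ 1 - x := by
  have hpos : 0 < 1 - x := by linarith
  have h2 : 1 - (1 - x)⁻¹ ≤ Real.log (1 - x) := Real.one_sub_inv_le_log_of_pos hpos
  have h3 : -x - 2 * x ^ 2 ≤ Real.log (1 - x) := by
    refine le_trans ?_ h2
    have h4 : (1 - x)⁻¹ ≤ 1 + x + 2 * x ^ 2 := by
      rw [inv_le_iff_one_le_mul₀ hpos]
      nlinarith [mul_nonneg (mul_nonneg h0 h0) (by linarith : (0 : ℝ) ≤ 1 - 2 * x)]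
    linarith
  calc Real.exp (-x - 2 * x ^ 2) ≤ Real.exp (Real.log (1 - x)) := Real.exp_le_exp.2 h3
    _ = 1 - x := Real.exp_log hpos

theorem prod_abs (p : ι → ℝ) (F : Finset ι) {δ : ℝ} (hδ : δ ≤ 1 / 2)
    (h0 : ∀ i ∈ F, 0 ≤ p i) (h1 : ∀ i ∈ F, p i ≤ δ) :
    |∏ i ∈ F, (1 - p i) - Real.exp (-∑ i ∈ F, p i)| ≤ 2 * δ * ∑ i ∈ F, p i := by
  have hle := prod_le p F fun i hi => by linarith [h1 i hi]
  have hs : 0 ≤ ∑ i ∈ F, p i := Finset.sum_nonneg h0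
  have hq : ∑ i ∈ F, p i ^ 2 ≤ δ * ∑ i ∈ F, p i := by
    rw [Finset.mul_sum]
    refine Finset.sum_le_sum fun i hi => ?_
    have := mul_le_mul_of_nonneg_right (h1 i hi) (h0 i hi)
    nlinarith
  have hge : Real.exp (-∑ i ∈ F, p i) - 2 * ∑ i ∈ F, p i ^ 2 ≤ ∏ i ∈ F, (1 - p i) := by
    have h2 : Real.exp (∑ i ∈ F, (-p i - 2 * p i ^ 2)) ≤ ∏ i ∈ F, (1 - p i) := by
      rw [Real.exp_sum]
      exact Finset.prod_le_prod (fun i _ => (Real.exp_pos _).le) fun i hi =>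
        nest_one (h0 i hi) ((h1 i hi).trans hδ)
    have h3 : ∑ i ∈ F, (-p i - 2 * p i ^ 2) = -∑ i ∈ F, p i + -(2 * ∑ i ∈ F, p i ^ 2) := by
      rw [Finset.sum_sub_distrib, Finset.sum_neg_distrib, Finset.mul_sum]
      ring
    rw [h3, Real.exp_add] at h2
    have h4 : 1 - 2 * ∑ i ∈ F, p i ^ 2 ≤ Real.exp (-(2 * ∑ i ∈ F, p i ^ 2)) := by
      have := Real.add_one_le_exp (-(2 * ∑ i ∈ F, p i ^ 2))
      linarith
    have h5 : Real.exp (-∑ i ∈ F, p i) ≤ 1 := Real.exp_le_one_iff.2 (by linarith)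
    have h6 : 0 ≤ ∑ i ∈ F, p i ^ 2 := Finset.sum_nonneg fun i _ => sq_nonneg _
    have h7 := mul_le_mul_of_nonneg_left h4 (Real.exp_pos (-∑ i ∈ F, p i)).le
    nlinarith [mul_nonneg (sub_nonneg.2 h5) h6]
  rw [abs_sub_comm, abs_of_nonneg (by linarith)]
  nlinarith

theorem exp_sub_le {a b : ℝ} (ha : 0 ≤ a) (hb : 0 ≤ b) :
    |Real.exp (-a) - Real.exp (-b)| ≤ |a - b| := by
  have key : ∀ a b : ℝ, 0 ≤ a → a ≤ b → |Real.exp (-a) - Real.exp (-b)| ≤ |a - b| := by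
    intro a b ha hab
    have h1 : Real.exp (-b) ≤ Real.exp (-a) := Real.exp_le_exp.2 (by linarith)
    rw [abs_of_nonneg (by linarith), abs_sub_comm, abs_of_nonneg (by linarith)]
    have h2 : Real.exp (-b) = Real.exp (-a) * Real.exp (-(b - a)) := by
      rw [← Real.exp_add]; congr 1; ring
    have h3 : 1 - (b - a) ≤ Real.exp (-(b - a)) := by
      have := Real.add_one_le_exp (-(b - a))
      linarith
    have h4 : Real.exp (-a) ≤ 1 := Real.exp_le_one_iff.2 (by linarith)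
    have h5 := mul_le_mul_of_nonneg_left h3 (Real.exp_pos (-a)).le
    rw [h2]
    nlinarith [mul_nonneg (sub_nonneg.2 h4) (sub_nonneg.2 hab)]
  rcases le_total a b with h | h
  · exact key a b ha h
  · rw [abs_sub_comm, abs_sub_comm a b]
    exact key b a hb h

theorem exp_le_two {x : ℝ} (hx : |x| ≤ 1) : Real.exp x ≤ 1 + 2 * |x| := by
  have h := Real.abs_exp_sub_one_le hx
  have := le_abs_self (Real.exp x - 1)
  linarith

end Pool.NSH
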