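import Pool.Agent.NSH.NProb
import Pool.Agent.NSH.NEst

/-!
Definitions for the weighted nibble.  `S i` are the hyperedges, `w i` their weights, `Y` the set of the
vertices which are still free, `α` the size of the bite, `μ` the expected degree.
-/

open Finset
open scoped Classical

namespace Pool.NSH

variable {X ι : Type} [Fintype X] [Fintype ι]

/-- the hyperedges inside `Y` -/
noncomputable def act (S : ι → Finset X) (Y : Finset X) : Finset ι :=
  univ.filter fun i => S i ⊆ Y

/-- the hyperedges inside `Y` through `y` -/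
noncomputable def thr (S : ι → Finset X) (Y : Finset X) (y : X) : Finset ι :=
  (act S Y).filter fun i => y ∈ S i

/-- the weighted degree of `y` in `Y` -/
noncomputable def Dg (S : ι → Finset X) (w : ι → ℝ) (Y : Finset X) (y : X) : ℝ :=
  ∑ i ∈ thr S Y y, w i

/-- the hyperedges inside `Y` meeting `Z` -/
noncomputable def tch (S : ι → Finset X) (Y Z : Finset X) : Finset ι :=
  (act S Y).filter fun j => ¬ Disjoint (S j) Z

/-- the deviation of the degrees from `μ` -/
noncomputable def Err (S : ι → Finset X) (w : ι → ℝ) (Y : Finset X) (μ : ℝ) : ℝ :=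
  ∑ y ∈ Y, |Dg S w Y y - μ|

/-- the selection probabilities -/
noncomputable def pr (S : ι → Finset X) (w : ι → ℝ) (Y : Finset X) (a : ℝ) (i : ι) : ℝ :=
  if S i ⊆ Y then a * w i else 0

/-- the vertices which are still free after selecting the hyperedges in `A` -/
noncomputable def Yn (S : ι → Finset X) (Y : Finset X) (A : Finset ι) : Finset X :=
  Y.filter fun y => Disjoint A (thr S Y y)

/-- the accepted hyperedges: selected, and meeting no other selected one -/
noncomputable def Acc (S : ι → Finset X) (Y : Finset X) (A : Finset ι) : Finset ι :=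
  (act S Y).filter fun i => i ∈ A ∧ Disjoint A ((tch S Y (S i)).erase i)

/-- the degree of `y` after the selection, not counting whether `y` itself is still free -/
noncomputable def Dn (S : ι → Finset X) (w : ι → ℝ) (Y : Finset X) (A : Finset ι) (y : X) : ℝ :=
  ∑ i ∈ thr S Y y, w i * (if Disjoint A (tch S Y ((S i).erase y)) then 1 else 0)

/-- the standing assumptions -/
structure Hyp (S : ι → Finset X) (w : ι → ℝ) (k : ℕ) (κ : ℝ) : Prop where
  hk : 2 ≤ k
  kap : 0 ≤ κ
  card : ∀ i, (S i).card = k
  nonneg : ∀ i, 0 ≤ w i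
  deg : ∀ x, ∑ i ∈ univ.filter (fun i => x ∈ S i), w i ≤ 1
  cod : ∀ x y, x ≠ y → ∑ i ∈ univ.filter (fun i => x ∈ S i ∧ y ∈ S i), w i ≤ κ

end Pool.NSH
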