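import Pool.Agent.NSH.NBite

/-!
MODULE NIter (difficulty 3).  Iteration of the bites.

RECIPE: induction on `r`, for all `Y, μ`.  `r = 0`: `M = ∅`, the right side is `≥ |Y|`.
Step `r + 1`: `m ≤ μ * exp (-((k-1) α (r+1))) ≤ μ`, so `a = α / μ` satisfies `0 ≤ a ≤ A ≤ 1`, `a * μ = α`.  Apply `nbite` with
`c = exp (-(α r))`, `b = (1 + (k+2) A) ^ r`, then the induction hypothesis to `Y'` and `μ' = exp (-((k-1) α)) * μ`
(`m ≤ μ' * exp (-((k-1) α r))`), giving `M'`.  Take `M ∪ M'`: `M' ⊆ act Y' ⊆ act Y`, and `S i` (`i ∈ M`) is disjoint from `Y'`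
hence from `S j` (`j ∈ M'`); `M, M'` are disjoint (`S i` nonempty), so `card` adds.
`|Y| - k |M ∪ M'| = (|Y| - |Y'| - k |M|) + (|Y'| - k |M'|)`; `|Y'| ≤ |Y|` in the last term of the induction hypothesis;
`exp (-(α r)) * exp (-α) = exp (-(α (r+1)))`; the coefficient of `Err` is
`exp (..) * 2 a + b (1 + k a) ≤ 2 A b + b (1 + k A) = b (1 + (k+2) A)` (`b ≥ 1`);
`k a ^ 2 ≤ k A ^ 2`, `b ≤ (1 + (k+2) A) ^ (r+1)`.
-/

open Finset
open scoped Classical

namespace Pool.NSH

variable {X ι : Type} [Fintype X] [Fintype ι] {S : ι → Finset X} {w : ι → ℝ} {k : ℕ} {κ : ℝ}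

lemma niter_exp {x : ℝ} (hx : 0 ≤ x) : Real.exp (-x) ≤ 1 :=
  Real.exp_le_one_iff.2 (neg_nonpos.2 hx)

lemma niter_arith {y y' n0 n1 e e' k a A b c d E ρ : ℝ}
    (h1 : (y - y' - k * n0) + c * y' + b * e'
      ≤ k * a ^ 2 * y + c * (d * (y + 2 * a * e)) + b * ((1 + k * a) * e + E * y))
    (h2 : y' - k * n1 ≤ c * y' + b * e' + ρ * (k * A ^ 2 + b * E) * y')
    (hy' : 0 ≤ y') (hyy : y' ≤ y) (he : 0 ≤ e) (ha : 0 ≤ a) (haA : a ≤ A) (hb : 1 ≤ b)
    (hc1 : c ≤ 1) (hd0 : 0 ≤ d) (hd1 : d ≤ 1) (hE : 0 ≤ E) (hρ : 0 ≤ ρ)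
    (hk : 0 ≤ k) :
    y - k * (n0 + n1) ≤ c * d * y + b * (1 + (k + 2) * A) * e
      + (ρ + 1) * (k * A ^ 2 + b * (1 + (k + 2) * A) * E) * y := by
  have hy : 0 ≤ y := hy'.trans hyy
  have hA : 0 ≤ A := ha.trans haA
  have hb0 : 0 ≤ b := by linarith
  have P1 : k * a ^ 2 * y ≤ k * A ^ 2 * y := by
    apply mul_le_mul_of_nonneg_right _ hy
    apply mul_le_mul_of_nonneg_left _ hk
    exact pow_le_pow_left₀ ha haA 2
  have P2 : c * d * (2 * a * e) ≤ 2 * A * b * e := by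
    have hcd : c * d ≤ b := by
      have : c * d ≤ 1 * 1 := mul_le_mul hc1 hd1 hd0 zero_le_one
      linarith
    have hae : a * e ≤ A * e := mul_le_mul_of_nonneg_right haA he
    have hae0 : 0 ≤ a * e := mul_nonneg ha he
    have := mul_le_mul hcd hae hae0 hb0
    nlinarith
  have P3 : b * ((1 + k * a) * e) ≤ b * ((1 + k * A) * e) := by
    apply mul_le_mul_of_nonneg_left _ hb0
    apply mul_le_mul_of_nonneg_right _ he
    have := mul_le_mul_of_nonneg_left haA hk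
    linarith
  have hF : b * E ≤ b * (1 + (k + 2) * A) * E := by
    apply mul_le_mul_of_nonneg_right _ hE
    have : 0 ≤ b * ((k + 2) * A) := mul_nonneg hb0 (mul_nonneg (by linarith) hA)
    linarith
  have P4 : b * (E * y) ≤ b * (1 + (k + 2) * A) * E * y := by
    have := mul_le_mul_of_nonneg_right hF hy
    linarith
  have P5 : ρ * (k * A ^ 2 + b * E) * y' ≤ ρ * (k * A ^ 2 + b * (1 + (k + 2) * A) * E) * y := by
    have h3 : 0 ≤ k * A ^ 2 + b * E := add_nonneg (mul_nonneg hk (sq_nonneg _)) (mul_nonneg hb0 hE)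
    apply mul_le_mul _ hyy hy' _
    · exact mul_le_mul_of_nonneg_left (by linarith) hρ
    · exact mul_nonneg hρ (by linarith)
  nlinarith

theorem niter (h : Hyp S w k κ) {α m : ℝ} (hα : 0 ≤ α) (hm : 0 < m) (hA : α / m ≤ 1)
    (hκ : 0 ≤ κ) (hκ1 : κ ≤ 1 / 2) (r : ℕ) :
    ∀ (Y : Finset X) (μ : ℝ), μ ≤ 1 → m ≤ μ * Real.exp (-(((k : ℝ) - 1) * α * r)) →
      ∃ M : Finset ι, M ⊆ act S Y ∧ (∀ i ∈ M, ∀ j ∈ M, i ≠ j → Disjoint (S i) (S j)) ∧
        (Y.card : ℝ) - k * M.card ≤ Real.exp (-(α * r)) * Y.card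
          + (1 + (k + 2) * (α / m)) ^ r * Err S w Y μ
          + r * (k * (α / m) ^ 2 + (1 + (k + 2) * (α / m)) ^ r * (6 * k ^ 2 * √κ)) * Y.card := by
  have herr : ∀ (Y : Finset X) (ν : ℝ), 0 ≤ Err S w Y ν := fun Y ν =>
    Finset.sum_nonneg fun y _ => abs_nonneg _
  have hk2 : (2 : ℝ) ≤ k := by exact_mod_cast h.hk
  have hkk : 0 < k := lt_of_lt_of_le (by norm_num) h.hk
  have hA0 : 0 ≤ α / m := div_nonneg hα hm.le
  induction r with
  | zero =>
    intro Y μ _ _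
    refine ⟨∅, Finset.empty_subset _, fun i hi => absurd hi (Finset.notMem_empty _), ?_⟩
    have := herr Y μ
    simp only [Finset.card_empty, Nat.cast_zero, mul_zero, neg_zero, Real.exp_zero, pow_zero,
      one_mul, zero_mul, add_zero, sub_zero]
    linarith
  | succ r ih =>
    intro Y μ hμ1 hmμ
    have hexp1 : Real.exp (-(((k : ℝ) - 1) * α * ((r + 1 : ℕ) : ℝ))) ≤ 1 := by
      exact niter_exp (mul_nonneg (mul_nonneg (by linarith) hα) (Nat.cast_nonneg _))
    have hexp0 := Real.exp_pos (-(((k : ℝ) - 1) * α * ((r + 1 : ℕ) : ℝ)))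
    have hμ0 : 0 < μ := by
      by_contra hcon
      have h1 : μ * Real.exp (-(((k : ℝ) - 1) * α * ((r + 1 : ℕ) : ℝ))) ≤ 0 :=
        mul_nonpos_of_nonpos_of_nonneg (not_lt.1 hcon) hexp0.le
      linarith
    have hmle : m ≤ μ := by
      have h1 := mul_le_mul_of_nonneg_left hexp1 hμ0.le
      linarith
    have ha0 : 0 ≤ α / μ := div_nonneg hα hμ0.le
    have haA : α / μ ≤ α / m := div_le_div_of_nonneg_left hα hm hmle
    have haμ : α / μ * μ = α := div_mul_cancel₀ α hμ0.ne'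
    have hb1 : 1 ≤ (1 + ((k : ℝ) + 2) * (α / m)) ^ r := by
      apply one_le_pow₀
      have : 0 ≤ ((k : ℝ) + 2) * (α / m) := mul_nonneg (by linarith) hA0
      linarith
    obtain ⟨M0, Y', hM0, hY', hdisj, hdisj', hineq⟩ := nbite h Y (a := α / μ) (μ := μ) ha0
      (haA.trans hA) hκ hκ1 hμ0.le hμ1 (b := (1 + ((k : ℝ) + 2) * (α / m)) ^ r)
      (c := Real.exp (-(α * r))) (by linarith) (Real.exp_nonneg _)
    rw [haμ] at hineq
    have hμ'1 : Real.exp (-(((k : ℝ) - 1) * α)) * μ ≤ 1 := by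
      have h1 : Real.exp (-(((k : ℝ) - 1) * α)) ≤ 1 := by
        exact niter_exp (mul_nonneg (by linarith) hα)
      have := mul_le_mul h1 hμ1 hμ0.le zero_le_one
      linarith
    have hmμ' : m ≤ Real.exp (-(((k : ℝ) - 1) * α)) * μ
        * Real.exp (-(((k : ℝ) - 1) * α * r)) := by
      have h1 : Real.exp (-(((k : ℝ) - 1) * α)) * μ * Real.exp (-(((k : ℝ) - 1) * α * r))
          = μ * Real.exp (-(((k : ℝ) - 1) * α * ((r + 1 : ℕ) : ℝ))) := by
        rw [mul_comm (Real.exp (-(((k : ℝ) - 1) * α))) μ, mul_assoc, ← Real.exp_add]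
        congr 2
        push_cast
        ring
      rw [h1]
      exact hmμ
    obtain ⟨M', hM', hdM', hineq'⟩ := ih Y' (Real.exp (-(((k : ℝ) - 1) * α)) * μ) hμ'1 hmμ'
    have hact : ∀ (Z : Finset X) (i : ι), i ∈ act S Z ↔ S i ⊆ Z := by
      intro Z i
      unfold act
      simp
    have hMM : Disjoint M0 M' := by
      rw [Finset.disjoint_left]
      intro i hi hi'
      have h1 := (hact _ _).1 (hM' hi')
      have h2 := hdisj' i hi
      have h3 : S i = ∅ := by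
        rw [Finset.eq_empty_iff_forall_notMem]
        intro z hz
        exact Finset.disjoint_left.1 h2 hz (h1 hz)
      have h4 := h.card i
      rw [h3, Finset.card_empty] at h4
      omega
    refine ⟨M0 ∪ M', ?_, ?_, ?_⟩
    · intro i hi
      rcases Finset.mem_union.1 hi with h1 | h1
      · exact hM0 h1
      · rw [hact]
        exact ((hact _ _).1 (hM' h1)).trans hY'
    · intro i hi j hj hij
      rcases Finset.mem_union.1 hi with h1 | h1 <;> rcases Finset.mem_union.1 hj with h2 | h2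
      · exact hdisj i h1 j h2 hij
      · exact (hdisj' i h1).mono_right ((hact _ _).1 (hM' h2))
      · exact ((hdisj' j h2).mono_right ((hact _ _).1 (hM' h1))).symm
      · exact hdM' i h1 j h2 hij
    · rw [Finset.card_union_of_disjoint hMM]
      have hexpr : Real.exp (-(α * ((r + 1 : ℕ) : ℝ)))
          = Real.exp (-(α * r)) * Real.exp (-α) := by
        rw [← Real.exp_add]
        congr 1
        push_cast
        ring
      have hpow : (1 + ((k : ℝ) + 2) * (α / m)) ^ (r + 1)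
          = (1 + ((k : ℝ) + 2) * (α / m)) ^ r * (1 + ((k : ℝ) + 2) * (α / m)) := pow_succ _ _
      rw [hexpr, hpow]
      push_cast
      have hc1 : Real.exp (-(α * r)) ≤ 1 := by
        exact niter_exp (mul_nonneg hα (Nat.cast_nonneg _))
      have hd1 : Real.exp (-α) ≤ 1 := by
        exact niter_exp hα
      have hE : 0 ≤ 6 * (k : ℝ) ^ 2 * √κ :=
        mul_nonneg (mul_nonneg (by norm_num) (sq_nonneg _)) (Real.sqrt_nonneg _)
      exact niter_arith (k := (k : ℝ)) hineq hineq' (Nat.cast_nonneg _)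
        (Nat.cast_le.2 (Finset.card_le_card hY')) (herr Y μ) ha0 haA hb1
        hc1 (Real.exp_nonneg _) hd1 hE (Nat.cast_nonneg _) (by linarith)

end Pool.NSH
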