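import Pool.Agent.NSH.NBasic

/-!
MODULE NMean (difficulty 3).  Survival probability of the rest of a hyperedge.
-/

open Finset
open scoped Classical

namespace Pool.NSH

variable {X ι : Type} [Fintype X] [Fintype ι] {S : ι → Finset X} {w : ι → ℝ} {k : ℕ} {κ : ℝ}

theorem nmean (h : Hyp S w k κ) (Y : Finset X) {a μ : ℝ} (ha : 0 ≤ a) (ha1 : a ≤ 1)
    (haκ : a * κ ≤ 1 / 2) (hμ : 0 ≤ μ) (hμ1 : μ ≤ 1) (y : X) (i : ι) (hi : i ∈ thr S Y y) :
    |∏ j ∈ tch S Y ((S i).erase y), (1 - pr S w Y a j) - Real.exp (-(((k : ℝ) - 1) * (a * μ)))|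
      ≤ a * ∑ z ∈ (S i).erase y, |Dg S w Y z - μ| + 3 * k ^ 2 * κ := by
  have hyS : y ∈ S i := (Finset.mem_filter.1 hi).2
  have hk2 : (2 : ℝ) ≤ k := by exact_mod_cast h.hk
  have hcard : (((S i).erase y).card : ℝ) = (k : ℝ) - 1 := by
    rw [Finset.card_erase_of_mem hyS, h.card i, Nat.cast_sub (by have := h.hk; omega)]
    simp
  have hκ := h.kap
  have h1 := prod_abs (pr S w Y a) (tch S Y ((S i).erase y)) haκ
    (fun j _ => h.pr_nonneg Y ha j) (fun j _ => h.pr_le Y ha j)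
  have h2 := h.tch_le Y ((S i).erase y) ha
  have h3 := h.tch_ge Y ((S i).erase y) ha
  have hs0 : 0 ≤ ∑ j ∈ tch S Y ((S i).erase y), pr S w Y a j :=
    Finset.sum_nonneg fun j _ => h.pr_nonneg Y ha j
  have h4 : ∑ z ∈ (S i).erase y, a * Dg S w Y z ≤ (k : ℝ) - 1 := by
    calc ∑ z ∈ (S i).erase y, a * Dg S w Y z ≤ ∑ z ∈ (S i).erase y, (1 : ℝ) :=
          Finset.sum_le_sum fun z _ => mul_le_one₀ ha1 (h.dg_nonneg Y z) (h.dg_le Y z)
      _ = (k : ℝ) - 1 := by rw [Finset.sum_const, nsmul_eq_mul, mul_one, hcard]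
  have h5 : |∑ z ∈ (S i).erase y, a * Dg S w Y z - ((k : ℝ) - 1) * (a * μ)| ≤
      a * ∑ z ∈ (S i).erase y, |Dg S w Y z - μ| := by
    have e : ∑ z ∈ (S i).erase y, a * Dg S w Y z - ((k : ℝ) - 1) * (a * μ) =
        a * ∑ z ∈ (S i).erase y, (Dg S w Y z - μ) := by
      rw [Finset.sum_sub_distrib, Finset.sum_const, nsmul_eq_mul, hcard, ← Finset.mul_sum]
      ring
    rw [e, abs_mul, abs_of_nonneg ha]
    exact mul_le_mul_of_nonneg_left (Finset.abs_sum_le_sum_abs _ _) ha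
  rw [hcard] at h3
  generalize ∏ j ∈ tch S Y ((S i).erase y), (1 - pr S w Y a j) = P at h1 ⊢
  generalize ∑ j ∈ tch S Y ((S i).erase y), pr S w Y a j = s at h1 h2 h3 hs0 ⊢
  generalize ∑ z ∈ (S i).erase y, a * Dg S w Y z = t at h2 h3 h4 h5
  generalize a * ∑ z ∈ (S i).erase y, |Dg S w Y z - μ| = E at h5 ⊢
  have hb : 0 ≤ ((k : ℝ) - 1) * (a * μ) := mul_nonneg (by linarith) (mul_nonneg ha hμ)
  have h6 := exp_sub_le hs0 hb
  have h7 : |s - ((k : ℝ) - 1) * (a * μ)| ≤ a * κ * ((k : ℝ) - 1) ^ 2 + E := by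
    have h8 : |s - t| ≤ a * κ * ((k : ℝ) - 1) ^ 2 := by
      rw [abs_le]
      constructor
      · linarith
      · have : 0 ≤ a * κ * ((k : ℝ) - 1) ^ 2 := by positivity
        linarith
    calc |s - ((k : ℝ) - 1) * (a * μ)| = |(s - t) + (t - ((k : ℝ) - 1) * (a * μ))| := by ring_nf
      _ ≤ |s - t| + |t - ((k : ℝ) - 1) * (a * μ)| := abs_add_le _ _
      _ ≤ _ := add_le_add h8 h5
  have h9 : a * κ * ((k : ℝ) - 1) ^ 2 ≤ κ * k ^ 2 := by
    have e1 : a * κ ≤ 1 * κ := mul_le_mul_of_nonneg_right ha1 hκ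
    have e2 : ((k : ℝ) - 1) ^ 2 ≤ (k : ℝ) ^ 2 := by nlinarith
    calc a * κ * ((k : ℝ) - 1) ^ 2 ≤ (1 * κ) * (k : ℝ) ^ 2 :=
          mul_le_mul e1 e2 (sq_nonneg _) (by linarith)
      _ = κ * k ^ 2 := by ring
  have h10 : 2 * (a * κ) * s ≤ κ * k ^ 2 := by
    have e1 : a * κ ≤ 1 * κ := mul_le_mul_of_nonneg_right ha1 hκ
    have e2 : s ≤ k := by linarith
    calc 2 * (a * κ) * s ≤ 2 * (1 * κ) * k :=
          mul_le_mul (by linarith) e2 hs0 (by linarith)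
      _ = κ * (2 * k) := by ring
      _ ≤ κ * k ^ 2 := mul_le_mul_of_nonneg_left (by nlinarith) hκ
  have h11 : |P - Real.exp (-(((k : ℝ) - 1) * (a * μ)))| ≤
      |P - Real.exp (-s)| + |Real.exp (-s) - Real.exp (-(((k : ℝ) - 1) * (a * μ)))| :=
    abs_sub_le _ _ _
  have h12 : 0 ≤ κ * (k : ℝ) ^ 2 := by positivity
  linarith

/-- the sum over all vertices -/
theorem nmean_sum (h : Hyp S w k κ) (Y : Finset X) {a μ : ℝ} (ha : 0 ≤ a) (ha1 : a ≤ 1)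
    (haκ : a * κ ≤ 1 / 2) (hμ : 0 ≤ μ) (hμ1 : μ ≤ 1) :
    ∑ y ∈ Y, |Ex (pr S w Y a) (fun A => Dn S w Y A y)
        - Real.exp (-(((k : ℝ) - 1) * (a * μ))) * μ|
      ≤ (1 + k * a) * Err S w Y μ + 3 * k ^ 2 * κ * Y.card := by
  have hk2 : (2 : ℝ) ≤ k := by exact_mod_cast h.hk
  have hκ := h.kap
  have hx0 : 0 ≤ Real.exp (-(((k : ℝ) - 1) * (a * μ))) := (Real.exp_pos _).le
  have hx1 : Real.exp (-(((k : ℝ) - 1) * (a * μ))) ≤ 1 := by
    rw [Real.exp_le_one_iff]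
    have : 0 ≤ ((k : ℝ) - 1) * (a * μ) := mul_nonneg (by linarith) (mul_nonneg ha hμ)
    linarith
  have hEx : ∀ y, Ex (pr S w Y a) (fun A => Dn S w Y A y) =
      ∑ i ∈ thr S Y y, w i * ∏ j ∈ tch S Y ((S i).erase y), (1 - pr S w Y a j) := by
    intro y
    unfold Dn
    rw [ex_sum]
    refine Finset.sum_congr rfl fun i _ => ?_
    rw [ex_mul, ex_disj]
  have hpt : ∀ y ∈ Y, |Ex (pr S w Y a) (fun A => Dn S w Y A y)
        - Real.exp (-(((k : ℝ) - 1) * (a * μ))) * μ| ≤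
      a * ∑ i ∈ thr S Y y, w i * ∑ z ∈ (S i).erase y, |Dg S w Y z - μ| +
        3 * k ^ 2 * κ * Dg S w Y y + |Dg S w Y y - μ| := by
    intro y _
    have hm := fun i (hi : i ∈ thr S Y y) => nmean h Y ha ha1 haκ hμ hμ1 y i hi
    rw [hEx y]
    generalize Real.exp (-(((k : ℝ) - 1) * (a * μ))) = e at hx0 hx1 hm ⊢
    have e1 : ∑ i ∈ thr S Y y, w i * ∏ j ∈ tch S Y ((S i).erase y), (1 - pr S w Y a j) - e * μ =
        ∑ i ∈ thr S Y y, w i * (∏ j ∈ tch S Y ((S i).erase y), (1 - pr S w Y a j) - e) +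
          e * (Dg S w Y y - μ) := by
      have : e * Dg S w Y y = ∑ i ∈ thr S Y y, w i * e := by
        rw [Dg, Finset.mul_sum]
        exact Finset.sum_congr rfl fun i _ => mul_comm _ _
      rw [mul_sub e, this]
      simp only [mul_sub, Finset.sum_sub_distrib]
      ring
    rw [e1]
    refine (abs_add_le _ _).trans (add_le_add ?_ ?_)
    · refine (Finset.abs_sum_le_sum_abs _ _).trans ?_
      have e2 : a * ∑ i ∈ thr S Y y, w i * ∑ z ∈ (S i).erase y, |Dg S w Y z - μ| +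
          3 * k ^ 2 * κ * Dg S w Y y = ∑ i ∈ thr S Y y,
            w i * (a * ∑ z ∈ (S i).erase y, |Dg S w Y z - μ| + 3 * k ^ 2 * κ) := by
        rw [Dg, Finset.mul_sum, Finset.mul_sum, ← Finset.sum_add_distrib]
        exact Finset.sum_congr rfl fun i _ => by ring
      rw [e2]
      refine Finset.sum_le_sum fun i hi => ?_
      rw [abs_mul, abs_of_nonneg (h.nonneg i)]
      exact mul_le_mul_of_nonneg_left (hm i hi) (h.nonneg i)
    · rw [abs_mul, abs_of_nonneg hx0]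
      exact mul_le_of_le_one_left (abs_nonneg _) hx1
  refine (Finset.sum_le_sum hpt).trans ?_
  rw [Finset.sum_add_distrib, Finset.sum_add_distrib, ← Finset.mul_sum, ← Finset.mul_sum]
  have h1 := h.switch Y (fun z => |Dg S w Y z - μ|) (fun z => abs_nonneg _)
  have h2 : ∑ y ∈ Y, Dg S w Y y ≤ Y.card := by
    calc ∑ y ∈ Y, Dg S w Y y ≤ ∑ y ∈ Y, (1 : ℝ) := Finset.sum_le_sum fun y _ => h.dg_le Y y
      _ = Y.card := by simp
  have h3 : 3 * (k : ℝ) ^ 2 * κ * ∑ y ∈ Y, Dg S w Y y ≤ 3 * k ^ 2 * κ * Y.card :=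
    mul_le_mul_of_nonneg_left h2 (by positivity)
  have h4 := mul_le_mul_of_nonneg_left h1 ha
  have h5 : Err S w Y μ = ∑ y ∈ Y, |Dg S w Y y - μ| := rfl
  rw [← h5] at h4 ⊢
  have h6 : a * (k * Err S w Y μ) = k * a * Err S w Y μ := by ring
  nlinarith

end Pool.NSH
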