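import Mathlib

/-!
MODULE NProb (difficulty 2).  Product probability on the subsets of a finite type.

RECIPE: `ex_one`: `Finset.prod_add` (or `Finset.prod_ite`, `Finset.prod_one_sub...`), i.e.
`∑ A, ∏ i, (if i ∈ A then p i else 1 - p i) = ∏ i, (p i + (1 - p i)) = 1` (`Finset.prod_add` with `s = univ`,
`Finset.powerset_univ`; the product over `univ` splits as `∏ i ∈ A` times `∏ i ∈ univ \ A`: `Finset.prod_ite`-type).
`ex_disj`: the same expansion with `q i = if i ∈ F then 0 else p i`: if `A` is disjoint from `F` then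
`Pw p A = (∏ i ∈ F, (1 - p i)) * ∏ i ∈ Fᶜ, ..`; i.e. `∑ A, Pw p A * [Disjoint A F] = ∏ i, ((if i ∈ F then 0 else p i) + (1 - p i))`.
`ex_acc`: same, with the factor `p i₀` alone at `i₀` (`∏ i, (u i + v i)` where at `i₀` `u = p, v = 0`; on `F`: `u = 0, v = 1 - p`).
`ex_exists`: otherwise `∑ A, Pw p A * (f A - c) > 0`-type contradiction: all `f A > c`, then
`Ex p f > c` since the weights are nonnegative with sum `1` (some weight is positive).
`ex_abs`: `(∑ W |g|) ^ 2 ≤ (∑ W) (∑ W g ^ 2)` (`Finset.inner_mul_le_norm_mul_norm`/ `Finset.sum_mul_sq_le_sq_mul_sq`, with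
`√W` and `√W |g|`), `g = f - c`, `Ex g ^ 2 = (Ex f - c) ^ 2 + (Ex f ^ 2 - (Ex f) ^ 2)`, `√(x ^ 2 + y) ≤ |x| + √y`.
-/

open Finset
open scoped Classical

namespace Pool.NSH

variable {ι : Type*} [Fintype ι]

/-- the probability of the subset `A` -/
noncomputable def Pw (p : ι → ℝ) (A : Finset ι) : ℝ := ∏ i, if i ∈ A then p i else 1 - p i

/-- expectation -/
noncomputable def Ex (p : ι → ℝ) (f : Finset ι → ℝ) : ℝ := ∑ A, Pw p A * f A

theorem pw_nonneg {p : ι → ℝ} (h0 : ∀ i, 0 ≤ p i) (h1 : ∀ i, p i ≤ 1) (A : Finset ι) :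
    0 ≤ Pw p A := by
  refine Finset.prod_nonneg fun i _ => ?_
  split_ifs
  · exact h0 i
  · linarith [h1 i]

theorem nprob_expand (a b : ι → ℝ) :
    ∑ A : Finset ι, ∏ i, (if i ∈ A then a i else b i) = ∏ i, (a i + b i) := by
  rw [Finset.prod_add, Finset.powerset_univ]
  refine Finset.sum_congr rfl fun A _ => ?_
  rw [Finset.prod_ite]
  refine congrArg₂ (· * ·) (Finset.prod_congr ?_ fun _ _ => rfl) (Finset.prod_congr ?_ fun _ _ => rfl)
  · ext i
    simp
  · ext i
    simp

theorem nprob_ite (F : Finset ι) (g : ι → ℝ) :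
    ∏ j, (if j ∈ F then g j else 1) = ∏ j ∈ F, g j := by
  rw [Finset.prod_ite, Finset.prod_const_one, mul_one]
  refine Finset.prod_congr ?_ fun _ _ => rfl
  ext i
  simp

theorem ex_one (p : ι → ℝ) : Ex p (fun _ => 1) = 1 := by
  unfold Ex Pw
  simp only [mul_one]
  rw [nprob_expand]
  refine Finset.prod_eq_one fun i _ => ?_
  ring

theorem ex_const (p : ι → ℝ) (c : ℝ) : Ex p (fun _ => c) = c := by
  have h := ex_one p
  unfold Ex at h ⊢
  simp only [mul_one] at h
  rw [← Finset.sum_mul, h, one_mul]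

theorem ex_add (p : ι → ℝ) (f g : Finset ι → ℝ) :
    Ex p (fun A => f A + g A) = Ex p f + Ex p g := by
  unfold Ex
  rw [← Finset.sum_add_distrib]
  exact Finset.sum_congr rfl fun A _ => mul_add _ _ _

theorem ex_mul (p : ι → ℝ) (c : ℝ) (f : Finset ι → ℝ) :
    Ex p (fun A => c * f A) = c * Ex p f := by
  unfold Ex
  rw [Finset.mul_sum]
  exact Finset.sum_congr rfl fun A _ => by ring

theorem ex_sum {κ : Type*} (p : ι → ℝ) (s : Finset κ) (f : κ → Finset ι → ℝ) :
    Ex p (fun A => ∑ k ∈ s, f k A) = ∑ k ∈ s, Ex p (f k) := by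
  unfold Ex
  simp_rw [Finset.mul_sum]
  exact Finset.sum_comm

theorem ex_mono {p : ι → ℝ} (h0 : ∀ i, 0 ≤ p i) (h1 : ∀ i, p i ≤ 1) {f g : Finset ι → ℝ}
    (h : ∀ A, f A ≤ g A) : Ex p f ≤ Ex p g := by
  exact Finset.sum_le_sum fun A _ => mul_le_mul_of_nonneg_left (h A) (pw_nonneg h0 h1 A)

theorem ex_exists {p : ι → ℝ} (h0 : ∀ i, 0 ≤ p i) (h1 : ∀ i, p i ≤ 1) {f : Finset ι → ℝ} {c : ℝ}
    (h : Ex p f ≤ c) : ∃ A, f A ≤ c := by
  obtain ⟨A, hA⟩ := Finite.exists_min f
  refine ⟨A, ?_⟩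
  have h2 := ex_mono h0 h1 (f := fun _ => f A) (g := f) hA
  rw [ex_const] at h2
  exact h2.trans h

theorem ex_disj (p : ι → ℝ) (F : Finset ι) :
    Ex p (fun A => if Disjoint A F then 1 else 0) = ∏ i ∈ F, (1 - p i) := by
  have h1 : Ex p (fun A => if Disjoint A F then 1 else 0) =
      ∑ A : Finset ι, ∏ i, (if i ∈ A then (if i ∈ F then 0 else p i) else 1 - p i) := by
    unfold Ex Pw
    refine Finset.sum_congr rfl fun A _ => ?_
    beta_reduce
    by_cases hd : Disjoint A F
    · rw [if_pos hd, mul_one]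
      refine Finset.prod_congr rfl fun i _ => ?_
      by_cases hi : i ∈ A
      · rw [if_pos hi, if_pos hi, if_neg (Finset.disjoint_left.1 hd hi)]
      · rw [if_neg hi, if_neg hi]
    · rw [if_neg hd, mul_zero]
      obtain ⟨i, hiA, hiF⟩ := Finset.not_disjoint_iff.1 hd
      symm
      refine Finset.prod_eq_zero (Finset.mem_univ i) ?_
      rw [if_pos hiA, if_pos hiF]
  rw [h1, nprob_expand]
  have h2 : ∀ i, (if i ∈ F then 0 else p i) + (1 - p i) = if i ∈ F then 1 - p i else 1 := by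
    intro i
    by_cases hi : i ∈ F
    · rw [if_pos hi, if_pos hi, zero_add]
    · rw [if_neg hi, if_neg hi]
      ring
  rw [Finset.prod_congr rfl fun i _ => h2 i, nprob_ite]

theorem ex_acc (p : ι → ℝ) (i : ι) (F : Finset ι) (hi : i ∉ F) :
    Ex p (fun A => if i ∈ A ∧ Disjoint A F then 1 else 0) = p i * ∏ j ∈ F, (1 - p j) := by
  have h1 : Ex p (fun A => if i ∈ A ∧ Disjoint A F then 1 else 0) =
      ∑ A : Finset ι, ∏ j, (if j ∈ A then (if j = i then p i else if j ∈ F then 0 else p j)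
        else (if j = i then 0 else 1 - p j)) := by
    unfold Ex Pw
    refine Finset.sum_congr rfl fun A _ => ?_
    beta_reduce
    by_cases hA : i ∈ A
    · by_cases hd : Disjoint A F
      · rw [if_pos ⟨hA, hd⟩, mul_one]
        refine Finset.prod_congr rfl fun j _ => ?_
        by_cases hj : j ∈ A
        · rw [if_pos hj, if_pos hj, if_neg (Finset.disjoint_left.1 hd hj)]
          by_cases hji : j = i
          · rw [if_pos hji, hji]
          · rw [if_neg hji]
        · rw [if_neg hj, if_neg hj, if_neg (fun hji : j = i => hj (hji ▸ hA))]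
      · rw [if_neg (fun h => hd h.2), mul_zero]
        obtain ⟨j, hjA, hjF⟩ := Finset.not_disjoint_iff.1 hd
        symm
        refine Finset.prod_eq_zero (Finset.mem_univ j) ?_
        rw [if_pos hjA, if_neg (fun hji : j = i => hi (hji ▸ hjF)), if_pos hjF]
    · rw [if_neg (fun h => hA h.1), mul_zero]
      symm
      refine Finset.prod_eq_zero (Finset.mem_univ i) ?_
      rw [if_neg hA, if_pos rfl]
  rw [h1, nprob_expand]
  have h2 : ∀ j, (if j = i then p i else if j ∈ F then 0 else p j) + (if j = i then 0 else 1 - p j)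
      = if j ∈ insert i F then (if j = i then p i else 1 - p j) else 1 := by
    intro j
    by_cases hji : j = i
    · rw [if_pos hji, if_pos hji, if_pos hji, if_pos (Finset.mem_insert.2 (Or.inl hji)), add_zero]
    · rw [if_neg hji, if_neg hji, if_neg hji]
      by_cases hjF : j ∈ F
      · rw [if_pos hjF, if_pos (Finset.mem_insert.2 (Or.inr hjF)), zero_add]
      · rw [if_neg hjF, if_neg (fun h => (Finset.mem_insert.1 h).elim hji hjF)]
        ring
  rw [Finset.prod_congr rfl fun j _ => h2 j, nprob_ite, Finset.prod_insert hi, if_pos rfl]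
  refine congrArg _ (Finset.prod_congr rfl fun j hj => ?_)
  rw [if_neg (fun hji : j = i => hi (hji ▸ hj))]

theorem nprob_sq {p : ι → ℝ} (h0 : ∀ i, 0 ≤ p i) (h1 : ∀ i, p i ≤ 1) (g : Finset ι → ℝ) :
    (Ex p g) ^ 2 ≤ Ex p (fun A => g A ^ 2) := by
  have h2 := ex_mono h0 h1 (f := fun _ => 0) (g := fun A => (g A - Ex p g) ^ 2)
    (fun A => sq_nonneg _)
  rw [ex_const] at h2
  have h5 : (fun A => (g A - Ex p g) ^ 2) =
      fun A => g A ^ 2 + ((-2 * Ex p g) * g A + (Ex p g) ^ 2) := by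
    funext A
    ring
  rw [h5, ex_add p (fun A => g A ^ 2) (fun A => (-2 * Ex p g) * g A + (Ex p g) ^ 2),
    ex_add p (fun A => (-2 * Ex p g) * g A) (fun _ => (Ex p g) ^ 2), ex_mul, ex_const] at h2
  nlinarith [h2]

theorem ex_abs {p : ι → ℝ} (h0 : ∀ i, 0 ≤ p i) (h1 : ∀ i, p i ≤ 1) (f : Finset ι → ℝ) (c : ℝ) :
    Ex p (fun A => |f A - c|) ≤ |Ex p f - c| + √(Ex p (fun A => f A ^ 2) - (Ex p f) ^ 2) := by
  have h2 : Ex p (fun A => |f A - c|) ≤
      Ex p (fun A => |f A - Ex p f|) + |Ex p f - c| := by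
    have h3 := ex_mono h0 h1 (f := fun A => |f A - c|)
      (g := fun A => |f A - Ex p f| + |Ex p f - c|) (fun A => by
        have := abs_add_le (f A - Ex p f) (Ex p f - c)
        rw [sub_add_sub_cancel] at this
        exact this)
    rw [ex_add p (fun A => |f A - Ex p f|) (fun _ => |Ex p f - c|), ex_const] at h3
    exact h3
  have h4 : Ex p (fun A => |f A - Ex p f|) ≤ √(Ex p (fun A => f A ^ 2) - (Ex p f) ^ 2) := by
    refine Real.le_sqrt_of_sq_le ?_
    refine (nprob_sq h0 h1 _).trans (le_of_eq ?_)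
    have h5 : (fun A => |f A - Ex p f| ^ 2) =
        fun A => f A ^ 2 + ((-2 * Ex p f) * f A + (Ex p f) ^ 2) := by
      funext A
      rw [sq_abs]
      ring
    rw [h5, ex_add p (fun A => f A ^ 2) (fun A => (-2 * Ex p f) * f A + (Ex p f) ^ 2),
      ex_add p (fun A => (-2 * Ex p f) * f A) (fun _ => (Ex p f) ^ 2), ex_mul, ex_const]
    ring
  linarith

end Pool.NSH
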