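import Pool.Agent.NSH.NBasic

/-!
MODULE NWaste (difficulty 3).  The expected waste and the expected number of free vertices after a bite.
-/

open Finset
open scoped Classical

namespace Pool.NSH

variable {X ι : Type} [Fintype X] [Fintype ι] {S : ι → Finset X} {w : ι → ℝ} {k : ℕ} {κ : ℝ}

theorem nwaste_sub {ι : Type*} [Fintype ι] (p : ι → ℝ) (f g : Finset ι → ℝ) :
    Ex p (fun A => f A - g A) = Ex p f - Ex p g := by
  unfold Ex
  simp only [mul_sub, Finset.sum_sub_distrib]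

theorem nwaste_thr (Y : Finset X) (a : ℝ) (y : X) :
    ∑ i ∈ thr S Y y, pr S w Y a i = a * Dg S w Y y := by
  rw [Dg, Finset.mul_sum]
  refine Finset.sum_congr rfl fun i hi => ?_
  have h1 : S i ⊆ Y := (Finset.mem_filter.1 (Finset.mem_filter.1 hi).1).2
  rw [pr, if_pos h1]

theorem nwaste_act (Y : Finset X) (a : ℝ) (i : ι) (hi : i ∈ act S Y) : pr S w Y a i = a * w i := by
  have h1 : S i ⊆ Y := (Finset.mem_filter.1 hi).2
  rw [pr, if_pos h1]

theorem nwaste_yn (Y : Finset X) (A : Finset ι) :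
    ((Yn S Y A).card : ℝ) = ∑ y ∈ Y, (if Disjoint A (thr S Y y) then (1 : ℝ) else 0) := by
  rw [Yn, Finset.card_filter]
  push_cast
  rfl

theorem nwaste_acc (Y : Finset X) (A : Finset ι) :
    ((Acc S Y A).card : ℝ) =
      ∑ i ∈ act S Y, (if i ∈ A ∧ Disjoint A ((tch S Y (S i)).erase i) then (1 : ℝ) else 0) := by
  rw [Acc, Finset.card_filter]
  push_cast
  rfl

theorem nwaste_exyn (Y : Finset X) (a : ℝ) :
    Ex (pr S w Y a) (fun A => ((Yn S Y A).card : ℝ)) = ∑ y ∈ Y, ∏ i ∈ thr S Y y, (1 - pr S w Y a i) := by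
  simp only [nwaste_yn]
  rw [ex_sum]
  exact Finset.sum_congr rfl fun y _ => ex_disj _ _

theorem nwaste_exacc (Y : Finset X) (a : ℝ) :
    Ex (pr S w Y a) (fun A => ((Acc S Y A).card : ℝ)) =
      ∑ i ∈ act S Y, pr S w Y a i * ∏ j ∈ (tch S Y (S i)).erase i, (1 - pr S w Y a j) := by
  simp only [nwaste_acc]
  rw [ex_sum]
  exact Finset.sum_congr rfl fun i _ => ex_acc _ _ _ (Finset.notMem_erase _ _)

theorem nwaste (h : Hyp S w k κ) (Y : Finset X) {a : ℝ} (ha : 0 ≤ a) (haκ : a * κ ≤ 1) :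
    Ex (pr S w Y a) (fun A => (Y.card : ℝ) - (Yn S Y A).card - k * (Acc S Y A).card)
      ≤ k * a ^ 2 * Y.card := by
  have hk0 : (0 : ℝ) ≤ k := Nat.cast_nonneg k
  have h0 : ∀ j, 0 ≤ pr S w Y a j := fun j => h.pr_nonneg Y ha j
  have h1 : ∀ j, pr S w Y a j ≤ 1 := fun j => (h.pr_le Y ha j).trans haκ
  rw [nwaste_sub, nwaste_sub, ex_const, ex_mul, nwaste_exyn, nwaste_exacc]
  -- lower bound of the free vertices
  have hY : (Y.card : ℝ) - a * ∑ y ∈ Y, Dg S w Y y ≤ ∑ y ∈ Y, ∏ i ∈ thr S Y y, (1 - pr S w Y a i) := by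
    have e : (Y.card : ℝ) - a * ∑ y ∈ Y, Dg S w Y y = ∑ y ∈ Y, (1 - a * Dg S w Y y) := by
      rw [Finset.sum_sub_distrib, Finset.mul_sum]
      simp
    rw [e]
    refine Finset.sum_le_sum fun y _ => ?_
    have := prod_ge (pr S w Y a) (thr S Y y) (fun j _ => h0 j) (fun j _ => h1 j)
    rwa [nwaste_thr] at this
  -- lower bound of the accepted hyperedges
  have hA : (a * ∑ i ∈ act S Y, w i) * (1 - k * a) ≤
      ∑ i ∈ act S Y, pr S w Y a i * ∏ j ∈ (tch S Y (S i)).erase i, (1 - pr S w Y a j) := by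
    rw [Finset.mul_sum, Finset.sum_mul]
    refine Finset.sum_le_sum fun i hi => ?_
    rw [← nwaste_act Y a i hi]
    refine mul_le_mul_of_nonneg_left ?_ (h0 i)
    have e1 := prod_ge (pr S w Y a) ((tch S Y (S i)).erase i) (fun j _ => h0 j) (fun j _ => h1 j)
    have e2 : ∑ j ∈ (tch S Y (S i)).erase i, pr S w Y a j ≤ ∑ j ∈ tch S Y (S i), pr S w Y a j :=
      Finset.sum_le_sum_of_subset_of_nonneg (Finset.erase_subset _ _) fun j _ _ => h0 j
    have e3 := h.tch_le Y (S i) ha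
    have e4 : ∑ z ∈ S i, a * Dg S w Y z ≤ k * a := by
      calc ∑ z ∈ S i, a * Dg S w Y z ≤ ∑ z ∈ S i, a :=
            Finset.sum_le_sum fun z _ => mul_le_of_le_one_right ha (h.dg_le Y z)
        _ = k * a := by rw [Finset.sum_const, nsmul_eq_mul, h.card i]
    linarith
  have hs := h.sum_act Y
  have hD : ∑ y ∈ Y, Dg S w Y y ≤ Y.card := by
    calc ∑ y ∈ Y, Dg S w Y y ≤ ∑ y ∈ Y, (1 : ℝ) := Finset.sum_le_sum fun y _ => h.dg_le Y y
      _ = Y.card := by simp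
  have hA2 := mul_le_mul_of_nonneg_left hA hk0
  have e5 : (k : ℝ) * ((a * ∑ i ∈ act S Y, w i) * (1 - k * a)) =
      a * (1 - k * a) * ∑ y ∈ Y, Dg S w Y y := by
    rw [hs]
    ring
  have e6 : (k : ℝ) * a ^ 2 * ∑ y ∈ Y, Dg S w Y y ≤ k * a ^ 2 * Y.card :=
    mul_le_mul_of_nonneg_left hD (by positivity)
  have e7 : a * (1 - k * a) * ∑ y ∈ Y, Dg S w Y y =
      a * ∑ y ∈ Y, Dg S w Y y - k * a ^ 2 * ∑ y ∈ Y, Dg S w Y y := by ring
  linarith

theorem nsize (h : Hyp S w k κ) (Y : Finset X) {a μ : ℝ} (ha : 0 ≤ a) (ha1 : a ≤ 1)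
    (haκ : a * κ ≤ 1) (hμ : 0 ≤ μ) (hμ1 : μ ≤ 1) :
    Ex (pr S w Y a) (fun A => ((Yn S Y A).card : ℝ))
      ≤ Real.exp (-(a * μ)) * (Y.card + 2 * a * Err S w Y μ) := by
  have h1 : ∀ j, pr S w Y a j ≤ 1 := fun j => (h.pr_le Y ha j).trans haκ
  rw [nwaste_exyn]
  have hpt : ∀ y ∈ Y, ∏ i ∈ thr S Y y, (1 - pr S w Y a i) ≤
      Real.exp (-(a * μ)) * (1 + 2 * a * |Dg S w Y y - μ|) := by
    intro y _
    have e1 := prod_le (pr S w Y a) (thr S Y y) (fun j _ => h1 j)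
    rw [nwaste_thr] at e1
    have d0 := h.dg_nonneg Y y
    have d1 := h.dg_le Y y
    have e2 : |a * (μ - Dg S w Y y)| ≤ 1 := by
      rw [abs_mul, abs_of_nonneg ha]
      refine mul_le_one₀ ha1 (abs_nonneg _) ?_
      rw [abs_le]
      constructor <;> linarith
    have e3 := exp_le_two e2
    have e4 : Real.exp (-(a * Dg S w Y y)) = Real.exp (-(a * μ)) * Real.exp (a * (μ - Dg S w Y y)) := by
      rw [← Real.exp_add]
      congr 1
      ring
    have e5 : |a * (μ - Dg S w Y y)| = a * |Dg S w Y y - μ| := by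
      rw [abs_mul, abs_of_nonneg ha, abs_sub_comm]
    rw [e5] at e3
    calc ∏ i ∈ thr S Y y, (1 - pr S w Y a i) ≤ Real.exp (-(a * Dg S w Y y)) := e1
      _ = Real.exp (-(a * μ)) * Real.exp (a * (μ - Dg S w Y y)) := e4
      _ ≤ Real.exp (-(a * μ)) * (1 + 2 * (a * |Dg S w Y y - μ|)) :=
        mul_le_mul_of_nonneg_left e3 (Real.exp_pos _).le
      _ = _ := by ring
  refine (Finset.sum_le_sum hpt).trans (le_of_eq ?_)
  rw [← Finset.mul_sum, Finset.sum_add_distrib, ← Finset.mul_sum]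
  simp [Err]

end Pool.NSH
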