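import Pool.Agent.NSH.Defs

/-!
MODULE Part (difficulty 3).  Random partition with few test sets (Hoeffding / Chernoff).

RECIPE (compare `Pool.Agent.ClusterPoset.Chernoff`, whose lemmas `sum_prod_eq`, `chernoff` have the same
proof; file `Pool/Agent/ClusterPoset/Chernoff.lean` in the graded repository): the weight of `f : V → Fin K` is `W f = ∏ v, p (f v)`, total
weight `1` (`Finset.prod_univ_sum` backwards).  For `j, i` and a sign `s = ±1` let
`ξ v c = s * ((if v ∈ A j ∧ c = i then 1 else 0) - (if v ∈ A j then p i else 0))`: `|ξ| ≤ 1`, `∑ c, p c * ξ v c = 0`.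
Markov with `λ = τ / 2 ≤ 1`: the weight of the `f` with `∑ v, ξ v (f v) > τ n` is at most
`exp (-λ τ n) * ∏ v, ∑ c, p c * exp (λ ξ v c) ≤ exp (-λ τ n) * exp (λ ^ 2 n) = exp (-τ ^ 2 n / 4)`
(`exp y ≤ 1 + y + y ^ 2` for `|y| ≤ 1`: `Real.abs_exp_sub_one_sub_id_le`).  Sum over the `2 * K * card J` triples `(j, i, s)`.
-/

open Finset
open scoped Classical

namespace Pool.NSH

lemma part_sum_prod {V : Type} [Fintype V] {K : ℕ} (g : V → Fin K → ℝ) :
    ∑ b : V → Fin K, ∏ z, g z (b z) = ∏ z, ∑ c, g z c := by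
  have h := Finset.prod_univ_sum (fun _ : V => (Finset.univ : Finset (Fin K))) g
  rw [Fintype.piFinset_univ] at h
  exact h.symm

lemma part_chernoff {V : Type} [Fintype V] {K : ℕ} (p : Fin K → ℝ) (hp : ∀ i, 0 ≤ p i)
    (hs : ∑ i, p i = 1) (ξ : V → Fin K → ℝ) (hξ : ∀ v c, |ξ v c| ≤ 1)
    (h0 : ∀ v, ∑ c, p c * ξ v c = 0) {τ : ℝ} (hτ0 : 0 ≤ τ) (hτ : τ ≤ 2)
    (B : Finset (V → Fin K)) (hB : ∀ b ∈ B, τ * Fintype.card V ≤ ∑ z, ξ z (b z)) :
    ∑ b ∈ B, ∏ z, p (b z) ≤ Real.exp (-(τ ^ 2 * Fintype.card V / 4)) := by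
  have h2nn : 0 ≤ τ / 2 := by linarith
  have h1 : ∀ b ∈ B, ∏ z, p (b z)
      ≤ (∏ z, p (b z) * Real.exp (τ / 2 * ξ z (b z)))
        * Real.exp (-(τ / 2 * (τ * Fintype.card V))) := by
    intro b hb
    rw [Finset.prod_mul_distrib, ← Real.exp_sum, mul_assoc, ← Real.exp_add]
    have h2 : 1 ≤ Real.exp (∑ z, τ / 2 * ξ z (b z) + -(τ / 2 * (τ * Fintype.card V))) := by
      apply Real.one_le_exp
      rw [← Finset.mul_sum]
      have := mul_le_mul_of_nonneg_left (hB b hb) h2nn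
      linarith
    exact le_mul_of_one_le_right (Finset.prod_nonneg fun z _ => hp _) h2
  have h3 : ∀ v, ∑ c, p c * Real.exp (τ / 2 * ξ v c) ≤ Real.exp ((τ / 2) ^ 2) := by
    intro v
    have h4 : ∀ c, Real.exp (τ / 2 * ξ v c) ≤ 1 + τ / 2 * ξ v c + (τ / 2) ^ 2 := by
      intro c
      have h5 : |τ / 2 * ξ v c| ≤ 1 := by
        rw [abs_mul, abs_of_nonneg h2nn]
        have := mul_le_mul (show τ / 2 ≤ 1 by linarith) (hξ v c) (abs_nonneg _) zero_le_one
        linarith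
      have h6 := Real.abs_exp_sub_one_sub_id_le h5
      have h7 : (τ / 2 * ξ v c) ^ 2 ≤ (τ / 2) ^ 2 := by
        rw [mul_pow]
        have h8 : ξ v c ^ 2 ≤ 1 := by
          rw [← sq_abs]
          exact pow_le_one₀ (abs_nonneg _) (hξ v c)
        nlinarith [sq_nonneg (τ / 2)]
      have h9 := (abs_le.1 h6).2
      linarith
    calc ∑ c, p c * Real.exp (τ / 2 * ξ v c)
        ≤ ∑ c, p c * (1 + τ / 2 * ξ v c + (τ / 2) ^ 2) :=
          Finset.sum_le_sum fun c _ => mul_le_mul_of_nonneg_left (h4 c) (hp c)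
      _ = ∑ c, p c + τ / 2 * (∑ c, p c * ξ v c) + (τ / 2) ^ 2 * ∑ c, p c := by
          rw [Finset.mul_sum, Finset.mul_sum, ← Finset.sum_add_distrib,
            ← Finset.sum_add_distrib]
          apply Finset.sum_congr rfl
          intro c _
          ring
      _ = 1 + (τ / 2) ^ 2 := by rw [h0, hs]; ring
      _ ≤ Real.exp ((τ / 2) ^ 2) := by
          linarith [Real.add_one_le_exp ((τ / 2) ^ 2)]
  have h10 : ∀ v c, 0 ≤ p c * Real.exp (τ / 2 * ξ v c) := fun v c =>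
    mul_nonneg (hp c) (Real.exp_nonneg _)
  calc ∑ b ∈ B, ∏ z, p (b z)
      ≤ ∑ b ∈ B, (∏ z, p (b z) * Real.exp (τ / 2 * ξ z (b z)))
          * Real.exp (-(τ / 2 * (τ * Fintype.card V))) := Finset.sum_le_sum h1
    _ = (∑ b ∈ B, ∏ z, p (b z) * Real.exp (τ / 2 * ξ z (b z)))
          * Real.exp (-(τ / 2 * (τ * Fintype.card V))) := by rw [Finset.sum_mul]
    _ ≤ (∑ b : V → Fin K, ∏ z, p (b z) * Real.exp (τ / 2 * ξ z (b z)))
          * Real.exp (-(τ / 2 * (τ * Fintype.card V))) := by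
        apply mul_le_mul_of_nonneg_right _ (Real.exp_nonneg _)
        exact Finset.sum_le_sum_of_subset_of_nonneg (Finset.subset_univ _)
          fun b _ _ => Finset.prod_nonneg fun z _ => h10 _ _
    _ = (∏ z, ∑ c, p c * Real.exp (τ / 2 * ξ z c))
          * Real.exp (-(τ / 2 * (τ * Fintype.card V))) := by
        rw [part_sum_prod (fun z c => p c * Real.exp (τ / 2 * ξ z c))]
    _ ≤ (∏ _z : V, Real.exp ((τ / 2) ^ 2)) * Real.exp (-(τ / 2 * (τ * Fintype.card V))) := by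
        apply mul_le_mul_of_nonneg_right _ (Real.exp_nonneg _)
        exact Finset.prod_le_prod (fun z _ => Finset.sum_nonneg fun c _ => h10 z c)
          fun z _ => h3 z
    _ = Real.exp (-(τ ^ 2 * Fintype.card V / 4)) := by
        rw [Finset.prod_const, Finset.card_univ, ← Real.exp_nat_mul, ← Real.exp_add]
        congr 1
        ring

lemma part_union {β : Type*} [DecidableEq β] (s t : Finset β) (f : β → ℝ)
    (hf : ∀ b, 0 ≤ f b) {M : ℝ} (hs : ∑ b ∈ s, f b ≤ M) (ht : ∑ b ∈ t, f b ≤ M) :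
    ∑ b ∈ s ∪ t, f b ≤ M + M := by
  have h1 : ∑ b ∈ s ∪ t, f b ≤ ∑ b ∈ s, f b + ∑ b ∈ t, f b := by
    rw [← Finset.sum_union_inter]
    have : 0 ≤ ∑ b ∈ s ∩ t, f b := Finset.sum_nonneg fun b _ => hf b
    linarith
  linarith

lemma part_biUnion {α β : Type*} [DecidableEq β] (s : Finset α) (t : α → Finset β) (f : β → ℝ)
    (hf : ∀ b, 0 ≤ f b) : ∑ b ∈ s.biUnion t, f b ≤ ∑ a ∈ s, ∑ b ∈ t a, f b := by
  induction s using Finset.induction_on with
  | empty => simp
  | insert a s ha ih =>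
    rw [Finset.biUnion_insert, Finset.sum_insert ha]
    have h1 : ∑ b ∈ t a ∪ s.biUnion t, f b ≤ ∑ b ∈ t a, f b + ∑ b ∈ s.biUnion t, f b := by
      rw [← Finset.sum_union_inter]
      have : 0 ≤ ∑ b ∈ t a ∩ s.biUnion t, f b := Finset.sum_nonneg fun b _ => hf b
      linarith
    linarith

theorem part {K : ℕ} (p : Fin K → ℝ) (hp : ∀ i, 0 ≤ p i) (hs : ∑ i, p i = 1)
    {V J : Type} [Fintype V] [Fintype J] (A : J → Finset V) {τ : ℝ} (hτ : 0 < τ) (hτ1 : τ ≤ 2)
    (h : 2 * K * Fintype.card J * Real.exp (-(τ ^ 2 * Fintype.card V / 4)) < 1) :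
    ∃ f : V → Fin K, ∀ j i, |((((A j).filter fun v => f v = i).card : ℝ))
      - p i * (A j).card| ≤ τ * Fintype.card V := by
  have hp1 : ∀ i, p i ≤ 1 := by
    intro i
    rw [← hs]
    exact Finset.single_le_sum (fun c _ => hp c) (Finset.mem_univ i)
  set M : ℝ := Real.exp (-(τ ^ 2 * Fintype.card V / 4)) with hM
  let ξ : J × Fin K → V → Fin K → ℝ := fun t v c =>
    (if v ∈ A t.1 ∧ c = t.2 then 1 else 0) - (if v ∈ A t.1 then p t.2 else 0)
  have hξ : ∀ t v c, |ξ t v c| ≤ 1 := by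
    intro t v c
    have h1 := hp t.2
    have h2 := hp1 t.2
    show |(if v ∈ A t.1 ∧ c = t.2 then (1 : ℝ) else 0) - (if v ∈ A t.1 then p t.2 else 0)| ≤ 1
    split_ifs <;> rw [abs_le] <;> constructor <;> linarith
  have hsum : ∀ t v, ∑ c, p c * ξ t v c = 0 := by
    intro t v
    show ∑ c, p c * ((if v ∈ A t.1 ∧ c = t.2 then (1 : ℝ) else 0)
      - (if v ∈ A t.1 then p t.2 else 0)) = 0
    by_cases hv : v ∈ A t.1
    · simp only [hv, true_and, if_true, mul_sub, Finset.sum_sub_distrib, ← Finset.sum_mul, hs,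
        one_mul, mul_ite, mul_one, mul_zero, Finset.sum_ite_eq', Finset.mem_univ, sub_self]
    · simp [hv]
  have hcount : ∀ t (b : V → Fin K), ∑ z, ξ t z (b z)
      = (((A t.1).filter fun v => b v = t.2).card : ℝ) - p t.2 * (A t.1).card := by
    intro t b
    show ∑ z, ((if z ∈ A t.1 ∧ b z = t.2 then (1 : ℝ) else 0)
      - (if z ∈ A t.1 then p t.2 else 0)) = _
    rw [Finset.sum_sub_distrib, Finset.sum_boole]
    congr 1
    · congr 2
      ext v
      simp
    · rw [← Finset.sum_filter, Finset.sum_const, nsmul_eq_mul, mul_comm]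
      congr 3
      ext v
      simp
  let B1 : J × Fin K → Finset (V → Fin K) := fun t =>
    univ.filter fun b => τ * Fintype.card V ≤ ∑ z, ξ t z (b z)
  let B2 : J × Fin K → Finset (V → Fin K) := fun t =>
    univ.filter fun b => τ * Fintype.card V ≤ ∑ z, -ξ t z (b z)
  have hB1 : ∀ t, ∑ b ∈ B1 t, ∏ z, p (b z) ≤ M := by
    intro t
    apply part_chernoff p hp hs (ξ t) (hξ t) (hsum t) hτ.le hτ1
    intro b hb
    exact (Finset.mem_filter.1 hb).2
  have hB2 : ∀ t, ∑ b ∈ B2 t, ∏ z, p (b z) ≤ M := by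
    intro t
    apply part_chernoff p hp hs (fun v c => -ξ t v c)
      (fun v c => by rw [abs_neg]; exact hξ t v c)
      (fun v => by simpa using hsum t v) hτ.le hτ1
    intro b hb
    exact (Finset.mem_filter.1 hb).2
  have hnn : ∀ b : V → Fin K, 0 ≤ ∏ z, p (b z) := fun b => Finset.prod_nonneg fun z _ => hp _
  by_contra hcon
  push Not at hcon
  have hsub : (univ : Finset (V → Fin K))
      ⊆ (univ : Finset (J × Fin K)).biUnion fun t => B1 t ∪ B2 t := by
    intro b _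
    obtain ⟨j, i, hji⟩ := hcon b
    rw [Finset.mem_biUnion]
    refine ⟨(j, i), Finset.mem_univ _, ?_⟩
    have hc := hcount (j, i) b
    simp only at hc
    rw [← hc] at hji
    rw [Finset.mem_union]
    rcases lt_abs.1 hji with h | h
    · left
      exact Finset.mem_filter.2 ⟨Finset.mem_univ _, h.le⟩
    · right
      refine Finset.mem_filter.2 ⟨Finset.mem_univ _, ?_⟩
      rw [Finset.sum_neg_distrib]
      exact h.le
  have htot : ∑ b : V → Fin K, ∏ z, p (b z) = 1 := by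
    rw [part_sum_prod (fun _ c => p c)]
    simp [hs]
  have hfin : (1 : ℝ) ≤ 2 * K * Fintype.card J * M := by
    calc (1 : ℝ) = ∑ b : V → Fin K, ∏ z, p (b z) := htot.symm
      _ ≤ ∑ b ∈ (univ : Finset (J × Fin K)).biUnion fun t => B1 t ∪ B2 t, ∏ z, p (b z) :=
          Finset.sum_le_sum_of_subset_of_nonneg hsub fun b _ _ => hnn b
      _ ≤ ∑ t : J × Fin K, ∑ b ∈ B1 t ∪ B2 t, ∏ z, p (b z) := part_biUnion _ _ _ hnn
      _ ≤ ∑ _t : J × Fin K, (M + M) :=
          Finset.sum_le_sum fun t _ => part_union _ _ _ hnn (hB1 t) (hB2 t)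
      _ = 2 * K * Fintype.card J * M := by
          rw [Finset.sum_const, Finset.card_univ, Fintype.card_prod, Fintype.card_fin,
            nsmul_eq_mul]
          push_cast
          ring
  linarith

end Pool.NSH
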