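import Pool.Agent.NSH.Defs2

/-!
MODULE Plane (difficulty 2).  The incidence structure (`q` prime).

RECIPE: `Inc (inl (x, y)) (m, c)` is `y = m x + c`, `Inc (inr t) (m, c)` is `t = m`.
`meet`: if `m = m'` take `inr m`, otherwise `x = (c' - c) / (m - m')`, `y = m x + c`.
`unique`: two different points on two lines: `inl, inl`: `y = m x + c = m' x + c'`, `y' = m x' + c = m' x' + c'`; if `x = x'` then
`y = y'`; otherwise `(m - m') (x - x') = 0`.  `inl, inr`: `m = t = m'`, then `c = c'`.  `inr, inr`: both `= m`, equal points.
`lines_through`: for `inl (x, y)`: `m` arbitrary, `c = y - m x`; for `inr t`: `m = t`, `c` arbitrary: `q` lines.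
`points_on`: `inl (x, m x + c)`, `x` arbitrary, and `inr m`: `q + 1` points.
-/

open Finset
open scoped Classical

namespace Pool.NSH

variable {q : ℕ} [Fact q.Prime]

theorem Inc.meet (l l' : Ln q) : ∃ p : Pt q, Inc p l ∧ Inc p l' := by
  obtain ⟨m, c⟩ := l
  obtain ⟨m', c'⟩ := l'
  by_cases h : m = m'
  · exact ⟨Sum.inr m, rfl, h⟩
  · have hne : m - m' ≠ 0 := sub_ne_zero.2 h
    refine ⟨Sum.inl ((c' - c) / (m - m'), m * ((c' - c) / (m - m')) + c), rfl, ?_⟩
    show m * ((c' - c) / (m - m')) + c = m' * ((c' - c) / (m - m')) + c'
    field_simp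
    ring

theorem Inc.unique {p p' : Pt q} (hp : p ≠ p') {l l' : Ln q} (h1 : Inc p l) (h2 : Inc p' l)
    (h3 : Inc p l') (h4 : Inc p' l') : l = l' := by
  obtain ⟨m, c⟩ := l
  obtain ⟨m', c'⟩ := l'
  rcases p with ⟨x, y⟩ | t <;> rcases p' with ⟨x', y'⟩ | t'
  · have e1 : y = m * x + c := h1
    have e2 : y' = m * x' + c := h2
    have e3 : y = m' * x + c' := h3
    have e4 : y' = m' * x' + c' := h4
    have e5 : (m - m') * (x - x') = 0 := by
      linear_combination (-1) * e1 + e2 + e3 - e4
    rcases mul_eq_zero.1 e5 with h | h
    · have hm : m = m' := sub_eq_zero.1 h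
      subst hm
      have hc : c = c' := by
        have := e1.symm.trans e3
        exact add_left_cancel this
      rw [hc]
    · exfalso
      have hx : x = x' := sub_eq_zero.1 h
      apply hp
      subst hx
      have : y = y' := by rw [e1, e2]
      rw [this]
  · have e1 : y = m * x + c := h1
    have e2 : t' = m := h2
    have e3 : y = m' * x + c' := h3
    have e4 : t' = m' := h4
    have hm : m = m' := e2.symm.trans e4
    subst hm
    have hc : c = c' := add_left_cancel (e1.symm.trans e3)
    rw [hc]
  · have e1 : t = m := h1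
    have e2 : y' = m * x' + c := h2
    have e3 : t = m' := h3
    have e4 : y' = m' * x' + c' := h4
    have hm : m = m' := e1.symm.trans e3
    subst hm
    have hc : c = c' := add_left_cancel (e2.symm.trans e4)
    rw [hc]
  · exfalso
    have e1 : t = m := h1
    have e2 : t' = m := h2
    apply hp
    rw [e1, e2]

theorem card_pt : Fintype.card (Pt q) = q * (q + 1) := by
  rw [Fintype.card_sum, Fintype.card_prod, ZMod.card]
  ring

theorem card_ln : Fintype.card (Ln q) = q ^ 2 := by
  rw [Fintype.card_prod, ZMod.card]
  ring

theorem lines_through (p : Pt q) : (univ.filter fun l : Ln q => Inc p l).card = q := by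
  rcases p with ⟨x, y⟩ | t
  · have h : (univ.filter fun l : Ln q => Inc (Sum.inl (x, y)) l) =
        (univ : Finset (ZMod q)).map ⟨fun m => ((m, y - m * x) : Ln q), fun a b hab => (Prod.ext_iff.1 hab).1⟩ := by
      ext ⟨m, c⟩
      simp only [mem_filter, mem_univ, true_and, mem_map, Function.Embedding.coeFn_mk]
      constructor
      · intro (h : y = m * x + c)
        refine ⟨m, ?_⟩
        rw [h]
        ext <;> simp
      · rintro ⟨a, ha⟩
        obtain ⟨h1, h2⟩ := Prod.ext_iff.1 ha
        simp only at h1 h2
        show y = m * x + c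
        rw [← h1, ← h2]
        ring
    rw [h, card_map, card_univ, ZMod.card]
  · have h : (univ.filter fun l : Ln q => Inc (Sum.inr t) l) =
        (univ : Finset (ZMod q)).map ⟨fun c => ((t, c) : Ln q), fun a b hab => (Prod.ext_iff.1 hab).2⟩ := by
      ext ⟨m, c⟩
      simp only [mem_filter, mem_univ, true_and, mem_map, Function.Embedding.coeFn_mk]
      constructor
      · intro (h : t = m)
        exact ⟨c, by rw [h]⟩
      · rintro ⟨a, ha⟩
        exact (Prod.ext_iff.1 ha).1
    rw [h, card_map, card_univ, ZMod.card]

theorem points_on (l : Ln q) : (univ.filter fun p : Pt q => Inc p l).card = q + 1 := by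
  obtain ⟨m, c⟩ := l
  have h : (univ.filter fun p : Pt q => Inc p (m, c)) =
      insert (Sum.inr m) ((univ : Finset (ZMod q)).map
        ⟨fun x => (Sum.inl (x, m * x + c) : Pt q), fun a b hab => by
          have := Sum.inl.inj hab
          exact (Prod.ext_iff.1 this).1⟩) := by
    ext p
    rcases p with ⟨x, y⟩ | t
    · simp only [mem_filter, mem_univ, true_and, mem_insert, mem_map, Function.Embedding.coeFn_mk]
      constructor
      · intro (h : y = m * x + c)
        right
        exact ⟨x, by rw [h]⟩
      · rintro (h | ⟨a, ha⟩)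
        · cases h
        · have := Sum.inl.inj ha
          obtain ⟨h1, h2⟩ := Prod.ext_iff.1 this
          simp only at h1 h2
          show y = m * x + c
          rw [← h1, ← h2]
    · simp only [mem_filter, mem_univ, true_and, mem_insert, mem_map, Function.Embedding.coeFn_mk]
      constructor
      · intro (h : t = m)
        left
        rw [h]
      · rintro (h | ⟨a, ha⟩)
        · exact Sum.inr.inj h
        · cases ha
  rw [h, card_insert_of_notMem, card_map, card_univ, ZMod.card]
  simp

end Pool.NSH
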