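import Pool.Agent.NSH.Defs2

/-!
MODULE RedB (difficulty 2).  Basic facts on deleting triangles.

RECIPE.  `refl`: `P = ∅`.  `trans`: `P ∪ Q`: a triangle `T' ∈ Q` of `H = unc G P` has all its pairs `H`-adjacent, so it
shares no pair with a `T ∈ P`.  `lift`: the same `P`; an edge of `G \ G'` is in no `T ∈ P` (the pairs of `T` are `G'`-edges).
`union`: if `P`, `Q` are packings of `G` and no pair is in a member of `P` and in a member of `Q`, then `P ∪ Q` is a packing.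
`hasDec_sup`: `P ∪ Q` again (or `lift` and `trans`).  `hasDec_sdiff`: the packing `P` of `G` is a packing of `G \ H`, covering it.
`of_sdiff`: a packing covering `G \ H` is a packing of `G`, and `unc G P = H` as `H ≤ G`.
`ls_unc`: `b ∈ ls G (unc G P) S a` iff `b ∈ S` and `G.Adj a b` and some `T ∈ P` contains both; each `T ∋ a` gives at most two `b`.
-/

open Finset
open scoped Classical

namespace Pool.NSH

variable {V : Type*} {G H K : SimpleGraph V}

theorem redB_adj {P : Finset (Finset V)} (hP : IsPacking G P) {T : Finset V} (hT : T ∈ P) {a b : V}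
    (ha : a ∈ T) (hb : b ∈ T) (hab : a ≠ b) : G.Adj a b :=
  (hP.clique T hT).isClique ha hb hab

theorem redB_unc_adj (G : SimpleGraph V) (P : Finset (Finset V)) (a b : V) :
    (unc G P).Adj a b ↔ G.Adj a b ∧ ∀ T ∈ P, ¬ (a ∈ T ∧ b ∈ T) := Iff.rfl

theorem Red.refl (G : SimpleGraph V) : Red G G := by
  refine ⟨∅, ⟨by simp, by simp⟩, ?_⟩
  ext a b
  rw [redB_unc_adj]
  simp

theorem Red.le (h : Red G H) : H ≤ G := by
  obtain ⟨P, -, rfl⟩ := h
  intro a b hab
  exact hab.1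

theorem IsPacking.mono {G' : SimpleGraph V} {P : Finset (Finset V)} (h : IsPacking G P)
    (hle : G ≤ G') : IsPacking G' P :=
  ⟨fun T hT => (h.clique T hT).mono hle, h.disj⟩

theorem IsPacking.union {P Q : Finset (Finset V)} (hP : IsPacking G P) (hQ : IsPacking G Q)
    (h : ∀ T ∈ P, ∀ T' ∈ Q, ∀ a b, a ≠ b → a ∈ T → b ∈ T → a ∈ T' → b ∈ T' → False) :
    IsPacking G (P ∪ Q) := by
  refine ⟨?_, ?_⟩
  · intro T hT
    rcases mem_union.1 hT with hT | hT
    · exact hP.clique T hT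
    · exact hQ.clique T hT
  · intro T hT T' hT' a b hab h1 h2 h3 h4
    rcases mem_union.1 hT with hT | hT <;> rcases mem_union.1 hT' with hT' | hT'
    · exact hP.disj T hT T' hT' a b hab h1 h2 h3 h4
    · exact (h T hT T' hT' a b hab h1 h2 h3 h4).elim
    · exact (h T' hT' T hT a b hab h3 h4 h1 h2).elim
    · exact hQ.disj T hT T' hT' a b hab h1 h2 h3 h4

/-- union of a family of packings which do not share a pair -/
theorem IsPacking.biUnion {ι : Type*} (I : Finset ι) (P : ι → Finset (Finset V))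
    (hP : ∀ i ∈ I, IsPacking G (P i))
    (h : ∀ i ∈ I, ∀ j ∈ I, i ≠ j → ∀ T ∈ P i, ∀ T' ∈ P j, ∀ a b, a ≠ b → a ∈ T → b ∈ T →
      a ∈ T' → b ∈ T' → False) :
    IsPacking G (I.biUnion P) := by
  refine ⟨?_, ?_⟩
  · intro T hT
    obtain ⟨i, hi, hT⟩ := mem_biUnion.1 hT
    exact (hP i hi).clique T hT
  · intro T hT T' hT' a b hab h1 h2 h3 h4
    obtain ⟨i, hi, hT⟩ := mem_biUnion.1 hT
    obtain ⟨j, hj, hT'⟩ := mem_biUnion.1 hT'
    by_cases hij : i = j
    · subst hij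
      exact (hP i hi).disj T hT T' hT' a b hab h1 h2 h3 h4
    · exact (h i hi j hj hij T hT T' hT' a b hab h1 h2 h3 h4).elim

theorem Red.trans (h : Red G H) (h' : Red H K) : Red G K := by
  have hle := h.le
  obtain ⟨P, hP, hH⟩ := h
  obtain ⟨Q, hQ, hK⟩ := h'
  refine ⟨P ∪ Q, hP.union (hQ.mono hle) ?_, ?_⟩
  · intro T hT T' hT' a b hab h1 h2 h3 h4
    have h5 := redB_adj hQ hT' h3 h4 hab
    rw [hH] at h5
    exact h5.2 T hT ⟨h1, h2⟩
  · rw [hK, hH]
    ext a b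
    simp only [redB_unc_adj, mem_union]
    constructor
    · rintro ⟨⟨h1, h2⟩, h3⟩
      refine ⟨h1, ?_⟩
      rintro T (hT | hT)
      · exact h2 T hT
      · exact h3 T hT
    · rintro ⟨h1, h2⟩
      exact ⟨⟨h1, fun T hT => h2 T (Or.inl hT)⟩, fun T hT => h2 T (Or.inr hT)⟩

theorem Red.lift {G' H' : SimpleGraph V} (hle : G' ≤ G) (h : Red G' H') :
    Red G (H' ⊔ (G \ G')) := by
  obtain ⟨P, hP, hH⟩ := h
  refine ⟨P, hP.mono hle, ?_⟩
  rw [hH]
  ext a b
  rw [SimpleGraph.sup_adj, SimpleGraph.sdiff_adj, redB_unc_adj, redB_unc_adj]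
  constructor
  · rintro (⟨h1, h2⟩ | ⟨h1, h2⟩)
    · exact ⟨hle h1, h2⟩
    · refine ⟨h1, ?_⟩
      rintro T hT ⟨h3, h4⟩
      exact h2 (redB_adj hP hT h3 h4 h1.ne)
  · rintro ⟨h1, h2⟩
    by_cases h3 : G'.Adj a b
    · exact Or.inl ⟨h3, h2⟩
    · exact Or.inr ⟨h1, h3⟩

theorem hasDec_bot : HasDec (⊥ : SimpleGraph V) := Red.refl _

theorem hasDec_sup {G₁ G₂ : SimpleGraph V} (hd : Disjoint G₁ G₂) (h₁ : HasDec G₁)
    (h₂ : HasDec G₂) : HasDec (G₁ ⊔ G₂) := by
  have h := Red.lift (G := G₁ ⊔ G₂) le_sup_left h₁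
  rw [bot_sup_eq, hd.sup_sdiff_cancel_left] at h
  exact h.trans h₂

theorem Red.hasDec (h : Red G H) (hH : HasDec H) : HasDec G := h.trans hH

theorem Red.hasDec_sdiff (h : Red G H) : HasDec (G \ H) := by
  obtain ⟨P, hP, hH⟩ := h
  refine ⟨P, ⟨?_, hP.disj⟩, ?_⟩
  · intro T hT
    refine ⟨?_, (hP.clique T hT).card_eq⟩
    intro a ha b hb hab
    rw [SimpleGraph.sdiff_adj, hH]
    exact ⟨redB_adj hP hT ha hb hab, fun h => h.2 T hT ⟨ha, hb⟩⟩
  · ext a b
    rw [redB_unc_adj, SimpleGraph.sdiff_adj, hH, redB_unc_adj]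
    constructor
    · intro h; exact h.elim
    · rintro ⟨⟨h1, h2⟩, h3⟩
      exact (h2 ⟨h1, h3⟩).elim

theorem Red.of_sdiff (hle : H ≤ G) (h : HasDec (G \ H)) : Red G H := by
  obtain ⟨P, hP, hH⟩ := h
  refine ⟨P, hP.mono sdiff_le, ?_⟩
  ext a b
  rw [redB_unc_adj]
  constructor
  · intro h1
    refine ⟨hle h1, ?_⟩
    rintro T hT ⟨h2, h3⟩
    have h4 := redB_adj hP hT h2 h3 h1.ne
    rw [SimpleGraph.sdiff_adj] at h4
    exact h4.2 h1
  · rintro ⟨h1, h2⟩
    by_contra h3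
    have h4 : (unc (G \ H) P).Adj a b := ⟨(SimpleGraph.sdiff_adj G H a b).2 ⟨h1, h3⟩, h2⟩
    rw [← hH] at h4
    exact h4

theorem ls_unc (G : SimpleGraph V) {P : Finset (Finset V)} (hP : IsPacking G P) (S : Finset V)
    (a : V) : (ls G (unc G P) S a).card ≤ 2 * (P.filter fun T => a ∈ T).card := by
  have h1 : ls G (unc G P) S a ⊆ (P.filter fun T => a ∈ T).biUnion fun T => T.erase a := by
    intro b hb
    unfold ls at hb
    rw [mem_filter, redB_unc_adj] at hb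
    obtain ⟨-, h2, h3⟩ := hb
    have h4 : ∃ T ∈ P, a ∈ T ∧ b ∈ T := by
      by_contra h5
      push Not at h5
      exact h3 ⟨h2, fun T hT h6 => h5 T hT h6.1 h6.2⟩
    obtain ⟨T, hT, ha, hb⟩ := h4
    exact mem_biUnion.2 ⟨T, mem_filter.2 ⟨hT, ha⟩, mem_erase.2 ⟨h2.ne', hb⟩⟩
  refine (card_le_card h1).trans (card_biUnion_le.trans ?_)
  have h2 : ∀ T ∈ P.filter (fun T => a ∈ T), (T.erase a).card = 2 := by
    intro T hT
    rw [mem_filter] at hT
    rw [card_erase_of_mem hT.2, (hP.clique T hT.1).card_eq]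
  rw [sum_congr rfl h2, sum_const, smul_eq_mul, mul_comm]

end Pool.NSH
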