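import Pool.Agent.NSH.CdlS
import Pool.Agent.NSH.RedPar

/-!
MODULE Run (difficulty 4).  Running the vortex.

RECIPE: `μ = η ε / 4`, `n₀` from `cdlS` with `ε/2, η, μ` (`η ≤ ε/16 = (ε/2)/8`).  Note `(U i).card ≥ (U l).card ≥ n₀` for `i ≤ l`.
Induction on `i ≤ l`: there is `H` with `Red G H`, `On H (U i)`, `∀ u, ∀ u' ∈ U (i+1), G.Adj u u' → H.Adj u u'` for `u, u' ∈ U (i+1)` if
`i < l`, and `|ls G H (U i) u| ≤ μ |U i|` for `u ∈ U i`.  `i = 0`: `H = G`.
Step (`i < l`): `cdlS` for `H`, `S = U i`, `U = U (i+1)`, `U' = U (i+2)` if `i + 1 < l`, otherwise `U' = ∅`.  For `v ∈ U i`: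
`|nb H (U i) v| ≥ |nb G (U i) v| - μ |U i| ≥ (3/4 + ε/2) |U i|` (`|nb G (U i) v| ≥ (3/4 + ε) |U i|`: for `i = 0` the hypothesis, for `i ≥ 1` the
vortex condition `i - 1`, `v ∈ U i ⊆ U (i-1)`); `|nb H (U (i+1)) v| ≥ |nb G (U (i+1)) v| - |ls G H (U i) v| ≥ (3/4 + ε) |U (i+1)| - μ |U i|
≥ (3/4 + ε/2) |U (i+1)|` as `μ |U i| ≤ (2 μ / η) |U (i+1)|`.  Parity: `Red.even`.  The new `H'`: `Red G H'`, `On H' (U (i+1))`; on `U (i+2)`
it agrees with `H`, which agrees with `G` (`U (i+2) ⊆ U (i+1)`); `ls G H' (U (i+1)) u = ls H H' (U (i+1)) u` for `u ∈ U (i+1)` as `H = G` there.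
-/

open Finset
open scoped Classical

namespace Pool.NSH

theorem run_nb {V : Type} {G H : SimpleGraph V} (S : Finset V) (v : V) :
    (nb G S v).card ≤ (nb H S v).card + (ls G H S v).card := by
  rw [← card_union_add_card_inter]
  refine le_trans (card_le_card ?_) (Nat.le_add_right _ _)
  intro b hb
  unfold nb at hb
  rw [mem_filter] at hb
  by_cases h : H.Adj v b
  · exact mem_union_left _ (by unfold nb; rw [mem_filter]; exact ⟨hb.1, h⟩)
  · exact mem_union_right _ (by unfold ls; rw [mem_filter]; exact ⟨hb.1, hb.2, h⟩)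

theorem run_ls {V : Type} {G H : SimpleGraph V} {S S' : Finset V} (hS : S' ⊆ S) (v : V) :
    (ls G H S' v).card ≤ (ls G H S v).card :=
  card_le_card (filter_subset_filter _ hS)

theorem run_sub {V : Type} (l : ℕ) (U : ℕ → Finset V) (h : ∀ i < l, U (i + 1) ⊆ U i) (i : ℕ)
    (j : ℕ) : i + j ≤ l → U (i + j) ⊆ U i := by
  induction j with
  | zero => intro _; exact Subset.refl _
  | succ j ih =>
    intro hl
    exact (h (i + j) (by omega)).trans (ih (by omega))

theorem run {ε η : ℝ} (hε : 0 < ε) (hε1 : ε ≤ 1 / 16) (hη : 0 < η) (hη1 : η ≤ ε / 16) :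
    ∃ n₀ : ℕ, ∀ (V : Type) [Fintype V] (G : SimpleGraph V) (l : ℕ) (U : ℕ → Finset V),
      U 0 = univ →
      (∀ i < l, U (i + 1) ⊆ U i ∧ η / 2 * (U i).card ≤ (U (i + 1)).card ∧
        (U (i + 1)).card ≤ η * (U i).card ∧
        ∀ v ∈ U i, (3 / 4 + ε) * (U (i + 1)).card ≤ ((nb G (U (i + 1)) v).card : ℝ)) →
      (∀ v, (3 / 4 + ε) * Fintype.card V ≤ ((nb G univ v).card : ℝ)) →
      (∀ v, Even (nb G univ v).card) → n₀ ≤ (U l).card →
      ∃ H : SimpleGraph V, Red G H ∧ On H (U l) := by
  have hμ : 0 < η * ε / 4 := by positivity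
  obtain ⟨n₀, hn₀⟩ := cdlS (ε := ε / 2) (η := η) (μ := η * ε / 4) (by linarith) (by linarith) hη
    (by linarith) hμ
  refine ⟨n₀, ?_⟩
  intro V _ G l U hU0 hU hdeg hev hl
  have hsub : ∀ i < l, U (i + 1) ⊆ U i := fun i hi => (hU i hi).1
  have hcard : ∀ i ≤ l, n₀ ≤ (U i).card := by
    intro i hi
    have h1 := run_sub l U hsub i (l - i) (by omega)
    rw [Nat.add_sub_cancel' hi] at h1
    exact hl.trans (card_le_card h1)
  have main : ∀ i ≤ l, ∃ H : SimpleGraph V, Red G H ∧ On H (U i) ∧
      (i < l → ∀ u ∈ U (i + 1), ∀ u' ∈ U (i + 1), G.Adj u u' → H.Adj u u') ∧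
      ∀ u ∈ U i, ((ls G H (U i) u).card : ℝ) ≤ η * ε / 4 * (U i).card := by
    intro i
    induction i with
    | zero =>
      intro _
      refine ⟨G, Red.refl G, ?_, fun _ u _ u' _ h => h, ?_⟩
      · intro a b _
        rw [hU0]
        exact ⟨mem_univ _, mem_univ _⟩
      · intro u _
        have h0 : ls G G (U 0) u = ∅ := by
          unfold ls
          rw [filter_eq_empty_iff]
          intro b _ hb
          exact hb.2 hb.1
        rw [h0]
        simp only [card_empty, Nat.cast_zero]
        positivity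
    | succ i ih =>
      intro hi
      obtain ⟨H, hred, hon, hkeep, hls⟩ := ih (by omega)
      have hil : i < l := by omega
      obtain ⟨hu1, hu2, hu3, hu4⟩ := hU i hil
      -- degrees of G into U i
      have hGi : ∀ v ∈ U i, (3 / 4 + ε) * (U i).card ≤ ((nb G (U i) v).card : ℝ) := by
        intro v hv
        rcases Nat.eq_zero_or_pos i with h0 | h0
        · subst h0
          rw [hU0]
          have := hdeg v
          rwa [← card_univ] at this
        · obtain ⟨i', rfl⟩ : ∃ i', i = i' + 1 := ⟨i - 1, by omega⟩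
          exact (hU i' (by omega)).2.2.2 v (hsub i' (by omega) hv)
      let U' : Finset V := if i + 1 < l then U (i + 2) else ∅
      have hU'1 : U' ⊆ U (i + 1) := by
        show (if i + 1 < l then U (i + 2) else ∅) ⊆ U (i + 1)
        split_ifs with h
        · exact hsub (i + 1) h
        · exact empty_subset _
      have hU'2 : (U'.card : ℝ) ≤ η * (U (i + 1)).card := by
        show (((if i + 1 < l then U (i + 2) else ∅) : Finset V).card : ℝ) ≤ η * (U (i + 1)).card
        split_ifs with h
        · exact (hU (i + 1) h).2.2.1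
        · simp only [card_empty, Nat.cast_zero]
          positivity
      have hci : (0 : ℝ) ≤ (U i).card := Nat.cast_nonneg _
      have hci1 : (0 : ℝ) ≤ (U (i + 1)).card := Nat.cast_nonneg _
      obtain ⟨H', h1, h2, h3, h4⟩ := hn₀ V H (U i) (U (i + 1)) U' hon (hcard i (by omega)) hu1 hu2
        hu3 hU'1 hU'2
        (by
          intro v hv
          have e1 : ((nb G (U i) v).card : ℝ) ≤ (nb H (U i) v).card + (ls G H (U i) v).card := by
            exact_mod_cast run_nb (G := G) (H := H) (U i) v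
          have e2 := hGi v hv
          have e3 := hls v hv
          have e4 : η * ε / 4 * ((U i).card : ℝ) ≤ ε / 2 * (U i).card := by
            refine mul_le_mul_of_nonneg_right ?_ hci
            nlinarith
          linarith)
        (by
          intro v hv
          have e1 : ((nb G (U (i + 1)) v).card : ℝ) ≤
              (nb H (U (i + 1)) v).card + (ls G H (U (i + 1)) v).card := by
            exact_mod_cast run_nb (G := G) (H := H) (U (i + 1)) v
          have e2 := hu4 v hv
          have e3 := hls v hv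
          have e5 : ((ls G H (U (i + 1)) v).card : ℝ) ≤ (ls G H (U i) v).card := by
            exact_mod_cast run_ls hu1 v
          have e4 : η * ε / 4 * ((U i).card : ℝ) ≤ ε / 2 * (U (i + 1)).card := by
            have : ε / 2 * (η / 2 * ((U i).card : ℝ)) ≤ ε / 2 * (U (i + 1)).card :=
              mul_le_mul_of_nonneg_left hu2 (by linarith)
            linarith
          linarith)
        (fun v => (hred.even v).mp (hev v))
      refine ⟨H', hred.trans h1, h2, ?_, ?_⟩
      · intro hil1 u hu u' hu' hadj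
        have hU'e : U' = U (i + 2) := if_pos hil1
        have hs := hsub (i + 1) hil1
        refine h3 u (by rw [hU'e]; exact hu) u' (by rw [hU'e]; exact hu') ?_
        exact hkeep hil u (hs hu) u' (hs hu') hadj
      · intro u hu
        refine le_trans ?_ (h4 u hu)
        have : ls G H' (U (i + 1)) u ⊆ ls H H' (U (i + 1)) u := by
          intro b hb
          unfold ls at hb ⊢
          rw [mem_filter] at hb ⊢
          exact ⟨hb.1, hkeep hil u hu b hb.1 hb.2.1, hb.2.2⟩
        exact_mod_cast card_le_card this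
  obtain ⟨H, h1, h2, -, -⟩ := main l le_rfl
  exact ⟨H, h1, h2⟩

end Pool.NSH
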