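import Pool.Agent.NSH.Defs
import Pool.Agent.FNW.Farkas
import Pool.Agent.OCY.Tail
import Pool.Agent.OCY.Const

/-!
MODULE Samp (difficulty 4).  Near-perfect fractional triangle decompositions with small weights, by averaging the
fractional Nash-Williams theorem over random `M`-tuples.

RECIPE.  We may assume `ε ≤ 1/8` (otherwise replace `ε` by `1/8`) and `η ≤ 1`.  `p = 1/4 - ε > 0`, `θ = p + ε/2 < 1/4`; `M, x` from
`OCY.exists_const` with `ρ = η`.  `n = card V`; number of non-neighbours of `u` (including `u`) `≤ p n`.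
For `U : Fin M → V` call `U` good if for all `v : Fin M` the number of `l` with `¬ G.Adj (U v) (U l)` is `≤ θ M`; then
`G.comap U` has all degrees `≥ (1-θ) M ≥ 3/4 M`, and `FNW.exists_weights` gives `wU : Finset (Fin M) → ℝ`, `wU ≥ 0`, supported on
the 3-cliques of `G.comap U`, `cov wU i j = 1` for adjacent `i j`.  For bad `U` put `wU = 0`.
Let `Z = M * (M-1) * n ^ M / n ^ 2` and `w T = Z⁻¹ * ∑ U, ∑ K, if K.image U = T then wU K else 0`.
* `w T ≥ 0`; if `w T ≠ 0` then `T = K.image U` for a 3-clique `K` of `G.comap U`, a 3-clique of `G` (`U` is injective on `K`: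
  adjacent vertices have different images).
* for `G.Adj a b`: `∑_{T ∋ a,b} w T = Z⁻¹ ∑ U ∑ K wU K [a, b ∈ K.image U]`, and for a clique `K` of the comap
  `[a, b ∈ K.image U] = ∑_{i,j ∈ K} [U i = a][U j = b]` (unique `i, j` by injectivity on `K`), so it is
  `Z⁻¹ ∑ U ∑_{i ≠ j} [U i = a, U j = b] cov wU i j`, and `cov wU i j = 1` for good `U` (`i, j` adjacent in the comap since `a, b` are).
  By `OCY.avg2`, `∑ U ∑_{i ≠ j} [U i = a, U j = b] = Z`; so `cv w a b ≤ 1`, and `1 - cv w a b = Z⁻¹ ∑_{U bad} ∑_{i ≠ j} [..]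
  ≤ Z⁻¹ ∑_{i ≠ j} ∑_v ∑_U (if θ M < #non-neighbours of U v then [U i = a, U j = b] else 0) ≤ M * (x ^ 3 * q ^ M) ≤ η` by `OCY.tail` with
  `F c d = if c = a ∧ d = b then 1 else 0`.
* `w T ≤ C / n`, `C = 4 M ^ 2` say: `wU K ≤ 1` (an edge `i j` of `K` has `cov = 1`); if `T = {a, b, c}` and `K.image U = T`, `|K| = 3`, then there are
  different `i, j, k` with `U i = a, U j = b, U k = c`, `K = {i, j, k}`; so `∑ U ∑ K [..] ≤ ∑_{i,j,k distinct} ∑ U [U i = a, U j = b, U k = c]
  ≤ M ^ 3 n ^ M / n ^ 3` (`OCY.avg3`); divide by `Z`, `M ≥ 2` so `M - 1 ≥ M / 2`.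
-/

open Finset
open scoped Classical

namespace Pool.NSH

open Pool.H34.Dec (cov)

theorem samp_coveq {M : ℕ} (w : Finset (Fin M) → ℝ) (i j : Fin M) :
    cov w i j = ∑ K : Finset (Fin M), if i ∈ K ∧ j ∈ K then w K else 0 := by
  unfold cov
  refine Finset.sum_congr rfl fun K _ => ?_
  by_cases h : i ∈ K ∧ j ∈ K
  · rw [if_pos h, if_pos h]
  · rw [if_neg h, if_neg h]

/-- indicator -/
noncomputable def samp_F {V : Type} (a b c d : V) : ℝ := if c = a ∧ d = b then 1 else 0

theorem samp_F_nonneg {V : Type} (a b c d : V) : 0 ≤ samp_F a b c d := by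
  unfold samp_F
  split_ifs <;> norm_num

theorem samp_F_sum {V : Type} [Fintype V] (a b : V) : ∑ c, ∑ d, samp_F a b c d = 1 := by
  rw [Finset.sum_eq_single a, Finset.sum_eq_single b]
  · simp [samp_F]
  · intro d _ hd
    simp [samp_F, hd]
  · intro h
    exact absurd (mem_univ _) h
  · intro c _ hc
    apply Finset.sum_eq_zero
    intro d _
    simp [samp_F, hc]
  · intro h
    exact absurd (mem_univ _) h

theorem samp_offdiag (M : ℕ) (c : ℝ) :
    ∑ i : Fin M, ∑ j : Fin M, (if i = j then 0 else c) = M * (M - 1) * c := by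
  have h1 : ∀ i : Fin M, ∑ j : Fin M, (if i = j then 0 else c) = (M - 1) * c := by
    intro i
    have h2 : ∑ j : Fin M, (if i = j then 0 else c) = ∑ j : Fin M, (c - if i = j then c else 0) := by
      refine Finset.sum_congr rfl fun j _ => ?_
      split_ifs <;> simp
    rw [h2, Finset.sum_sub_distrib, Finset.sum_const, card_univ, Fintype.card_fin, nsmul_eq_mul,
      Finset.sum_ite_eq]
    simp only [mem_univ, if_true]
    ring
  rw [Finset.sum_congr rfl fun i _ => h1 i, Finset.sum_const, card_univ, Fintype.card_fin, nsmul_eq_mul]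
  ring

theorem samp_cnt {V : Type} [Fintype V] {M : ℕ} {a b : V} (hab : a ≠ b) :
    (Fintype.card V : ℝ) ^ 2 * ∑ U : Fin M → V, ∑ i, ∑ j, samp_F a b (U i) (U j) =
      M * (M - 1) * (Fintype.card V : ℝ) ^ M := by
  rw [← samp_offdiag, Finset.sum_comm, Finset.mul_sum]
  refine Finset.sum_congr rfl fun i _ => ?_
  rw [Finset.sum_comm, Finset.mul_sum]
  refine Finset.sum_congr rfl fun j _ => ?_
  split_ifs with hij
  · subst hij
    have : ∑ U : Fin M → V, samp_F a b (U i) (U i) = 0 := by
      apply Finset.sum_eq_zero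
      intro U _
      unfold samp_F
      rw [if_neg]
      rintro ⟨h1, h2⟩
      exact hab (h1.symm.trans h2)
    rw [this, mul_zero]
  · rw [OCY.avg2 hij (samp_F a b), samp_F_sum, mul_one]

theorem samp_bad {V : Type} [Fintype V] (G : SimpleGraph V) {M : ℕ} {p θ x : ℝ} (hp : 0 ≤ p)
    (hG : ∀ u, ((univ.filter fun w => ¬ G.Adj u w).card : ℝ) ≤ p * Fintype.card V) (hx : 1 ≤ x)
    {a b : V} (hab : a ≠ b) :
    (Fintype.card V : ℝ) ^ 2 * ∑ U : Fin M → V,
      (if (∀ v, ((univ.filter fun l => ¬ G.Adj (U v) (U l)).card : ℝ) ≤ θ * M) then 0 else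
        ∑ i, ∑ j, samp_F a b (U i) (U j)) ≤
      M * (M - 1) * (M * (x ^ 3 * ((1 + (x - 1) * p) / x ^ θ) ^ M * (Fintype.card V : ℝ) ^ M)) := by
  have h1 : ∀ U : Fin M → V,
      (if (∀ v, ((univ.filter fun l => ¬ G.Adj (U v) (U l)).card : ℝ) ≤ θ * M) then 0 else
        ∑ i, ∑ j, samp_F a b (U i) (U j)) ≤
      ∑ i, ∑ j, ∑ v : Fin M, (if θ * M < ((univ.filter fun l => ¬ G.Adj (U v) (U l)).card : ℝ) then
        samp_F a b (U i) (U j) else 0) := by
    intro U
    have hnn : ∀ i j v, 0 ≤ (if θ * M < ((univ.filter fun l => ¬ G.Adj (U v) (U l)).card : ℝ) then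
        samp_F a b (U i) (U j) else 0) := by
      intro i j v
      split_ifs
      · exact samp_F_nonneg _ _ _ _
      · exact le_rfl
    split_ifs with hU
    · exact Finset.sum_nonneg fun i _ => Finset.sum_nonneg fun j _ => Finset.sum_nonneg fun v _ => hnn i j v
    · push Not at hU
      obtain ⟨v, hv⟩ := hU
      refine Finset.sum_le_sum fun i _ => Finset.sum_le_sum fun j _ => ?_
      have h2 := Finset.single_le_sum (f := fun v => (if θ * M <
        ((univ.filter fun l => ¬ G.Adj (U v) (U l)).card : ℝ) then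
        samp_F a b (U i) (U j) else 0)) (fun v _ => hnn i j v) (mem_univ v)
      simp only [if_pos hv] at h2
      exact h2
  have hn : (0 : ℝ) ≤ (Fintype.card V : ℝ) ^ 2 := by positivity
  refine (mul_le_mul_of_nonneg_left (Finset.sum_le_sum fun U _ => h1 U) hn).trans ?_
  rw [← samp_offdiag, Finset.sum_comm, Finset.mul_sum]
  refine Finset.sum_le_sum fun i _ => ?_
  rw [Finset.sum_comm, Finset.mul_sum]
  refine Finset.sum_le_sum fun j _ => ?_
  split_ifs with hij
  · subst hij
    have : ∑ U : Fin M → V, ∑ v : Fin M, (if θ * M < ((univ.filter fun l => ¬ G.Adj (U v) (U l)).card : ℝ) then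
        samp_F a b (U i) (U i) else 0) = 0 := by
      apply Finset.sum_eq_zero
      intro U _
      apply Finset.sum_eq_zero
      intro v _
      have : samp_F a b (U i) (U i) = 0 := by
        unfold samp_F
        rw [if_neg]
        rintro ⟨h1, h2⟩
        exact hab (h1.symm.trans h2)
      rw [this, ite_self]
    rw [this, mul_zero]
  · rw [Finset.sum_comm, Finset.mul_sum]
    have h3 : ∀ v : Fin M, (Fintype.card V : ℝ) ^ 2 * ∑ U : Fin M → V,
        (if θ * M < ((univ.filter fun l => ¬ G.Adj (U v) (U l)).card : ℝ) then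
        samp_F a b (U i) (U j) else 0) ≤
        x ^ 3 * ((1 + (x - 1) * p) / x ^ θ) ^ M * (Fintype.card V : ℝ) ^ M := by
      intro v
      have := OCY.tail hij v G (θ := θ) hp hG hx (samp_F a b) (samp_F_nonneg a b)
      rw [samp_F_sum, mul_one] at this
      exact this
    refine (Finset.sum_le_sum fun v _ => h3 v).trans ?_
    rw [Finset.sum_const, card_univ, Fintype.card_fin, nsmul_eq_mul]

/-- the averaged weighting -/
noncomputable def samp_w {V : Type} [Fintype V] {M : ℕ} (Z : ℝ) (W : (Fin M → V) → Finset (Fin M) → ℝ)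
    (T : Finset V) : ℝ :=
  Z⁻¹ * ∑ U : Fin M → V, ∑ K : Finset (Fin M), if K.image U = T then W U K else 0

theorem samp_inj {V : Type} {G : SimpleGraph V} {M : ℕ} {U : Fin M → V} {K : Finset (Fin M)}
    (h : (G.comap U).IsClique (K : Set (Fin M))) {i j : Fin M} (hi : i ∈ K) (hj : j ∈ K) (hU : U i = U j) :
    i = j := by
  by_contra hne
  have h1 : (G.comap U).Adj i j := h hi hj hne
  have h2 : G.Adj (U i) (U j) := h1
  rw [hU] at h2
  exact G.loopless.irrefl _ h2

theorem samp_cov {V : Type} [Fintype V] {G : SimpleGraph V} {M : ℕ} {U : Fin M → V}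
    {w : Finset (Fin M) → ℝ} (hw : ∀ K, w K ≠ 0 → (G.comap U).IsClique (K : Set (Fin M)) ∧ K.card = 3)
    (a b : V) :
    ∑ K : Finset (Fin M), (if a ∈ K.image U ∧ b ∈ K.image U then w K else 0) =
      ∑ i, ∑ j, samp_F a b (U i) (U j) * cov w i j := by
  have h1 : ∑ i, ∑ j, samp_F a b (U i) (U j) * cov w i j =
      ∑ K : Finset (Fin M), ∑ i, ∑ j, samp_F a b (U i) (U j) * (if i ∈ K ∧ j ∈ K then w K else 0) := by
    rw [Finset.sum_comm]
    have e1 : ∀ i j, samp_F a b (U i) (U j) * cov w i j =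
        ∑ K : Finset (Fin M), samp_F a b (U i) (U j) * (if i ∈ K ∧ j ∈ K then w K else 0) := by
      intro i j
      rw [samp_coveq, Finset.mul_sum]
    simp_rw [e1]
    rw [Finset.sum_comm]
    have e2 : ∀ i, ∑ j, ∑ K : Finset (Fin M), samp_F a b (U i) (U j) * (if i ∈ K ∧ j ∈ K then w K else 0) =
        ∑ K : Finset (Fin M), ∑ j, samp_F a b (U i) (U j) * (if i ∈ K ∧ j ∈ K then w K else 0) :=
      fun i => Finset.sum_comm
    simp_rw [e2]
    rw [Finset.sum_comm]
  rw [h1]
  refine Finset.sum_congr rfl fun K _ => ?_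
  by_cases hK : w K = 0
  · simp [hK]
  obtain ⟨hc, _⟩ := hw K hK
  by_cases hab : a ∈ K.image U ∧ b ∈ K.image U
  · rw [if_pos hab]
    obtain ⟨ha, hb⟩ := hab
    rw [mem_image] at ha hb
    obtain ⟨i₀, hi₀, hia⟩ := ha
    obtain ⟨j₀, hj₀, hjb⟩ := hb
    rw [Finset.sum_eq_single i₀, Finset.sum_eq_single j₀]
    · simp [samp_F, hia, hjb, hi₀, hj₀]
    · intro j _ hj
      by_cases hjK : j ∈ K
      · have : U j ≠ b := fun e => hj (samp_inj hc hjK hj₀ (e.trans hjb.symm))
        simp [samp_F, this]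
      · simp [hjK]
    · intro h
      exact absurd (mem_univ _) h
    · intro i _ hi
      apply Finset.sum_eq_zero
      intro j _
      by_cases hiK : i ∈ K
      · have : U i ≠ a := fun e => hi (samp_inj hc hiK hi₀ (e.trans hia.symm))
        simp [samp_F, this]
      · simp [hiK]
    · intro h
      exact absurd (mem_univ _) h
  · rw [if_neg hab]
    symm
    apply Finset.sum_eq_zero
    intro i _
    apply Finset.sum_eq_zero
    intro j _
    by_cases hij : i ∈ K ∧ j ∈ K
    · have : ¬ (U i = a ∧ U j = b) := by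
        rintro ⟨e1, e2⟩
        apply hab
        exact ⟨mem_image.mpr ⟨i, hij.1, e1⟩, mem_image.mpr ⟨j, hij.2, e2⟩⟩
      simp [samp_F, this]
    · simp [hij]

theorem samp_cv {V : Type} [Fintype V] {G : SimpleGraph V} {M : ℕ} (Z : ℝ)
    {W : (Fin M → V) → Finset (Fin M) → ℝ}
    (hW : ∀ U K, W U K ≠ 0 → (G.comap U).IsClique (K : Set (Fin M)) ∧ K.card = 3) (a b : V) :
    cv (samp_w Z W) a b = Z⁻¹ * ∑ U : Fin M → V, ∑ i, ∑ j, samp_F a b (U i) (U j) * cov (W U) i j := by
  unfold cv samp_w
  rw [← Finset.mul_sum, Finset.sum_comm]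
  congr 1
  refine Finset.sum_congr rfl fun U _ => ?_
  rw [← samp_cov (hW U), Finset.sum_comm]
  refine Finset.sum_congr rfl fun K _ => ?_
  rw [Finset.sum_ite_eq]
  simp only [mem_filter, mem_univ, true_and]

theorem samp_up {V : Type} [Fintype V] {G : SimpleGraph V} {M : ℕ}
    {W : (Fin M → V) → Finset (Fin M) → ℝ} (hW1 : ∀ U K, W U K ≤ 1)
    (hW : ∀ U K, W U K ≠ 0 → (G.comap U).IsClique (K : Set (Fin M)) ∧ K.card = 3) {a b c : V} (hab : a ≠ b)
    (hac : a ≠ c) (hbc : b ≠ c) :
    (Fintype.card V : ℝ) ^ 3 * ∑ U : Fin M → V, ∑ K : Finset (Fin M),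
      (if K.image U = {a, b, c} then W U K else 0) ≤ (M : ℝ) ^ 3 * (Fintype.card V : ℝ) ^ M := by
  let g : V → V → V → ℝ := fun a' b' c' => if a' = a ∧ b' = b ∧ c' = c then 1 else 0
  have hg0 : ∀ a' b' c', 0 ≤ g a' b' c' := by
    intro a' b' c'
    show 0 ≤ (if a' = a ∧ b' = b ∧ c' = c then (1 : ℝ) else 0)
    split_ifs <;> norm_num
  have hgs : ∑ a', ∑ b', ∑ c', g a' b' c' = 1 := by
    rw [Finset.sum_eq_single a, Finset.sum_eq_single b, Finset.sum_eq_single c]
    · simp [g]
    · intro d _ hd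
      simp [g, hd]
    · intro h
      exact absurd (mem_univ _) h
    · intro d _ hd
      apply Finset.sum_eq_zero
      intro e _
      simp [g, hd]
    · intro h
      exact absurd (mem_univ _) h
    · intro d _ hd
      apply Finset.sum_eq_zero
      intro e _
      apply Finset.sum_eq_zero
      intro f _
      simp [g, hd]
    · intro h
      exact absurd (mem_univ _) h
  have h1 : ∀ U : Fin M → V, ∑ K : Finset (Fin M), (if K.image U = {a, b, c} then W U K else 0) ≤
      ∑ i, ∑ j, ∑ k, g (U i) (U j) (U k) := by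
    intro U
    have h2 : ∀ K : Finset (Fin M), (if K.image U = {a, b, c} then W U K else 0) ≤
        ∑ i, ∑ j, ∑ k, if K = {i, j, k} then g (U i) (U j) (U k) else 0 := by
      intro K
      have hnn : ∀ i j k, 0 ≤ (if K = {i, j, k} then g (U i) (U j) (U k) else 0) := by
        intro i j k
        split_ifs
        · exact hg0 _ _ _
        · exact le_rfl
      by_cases hz : (if K.image U = {a, b, c} then W U K else 0) = 0
      · rw [hz]
        exact Finset.sum_nonneg fun i _ => Finset.sum_nonneg fun j _ => Finset.sum_nonneg fun k _ => hnn i j k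
      · have hKi : K.image U = {a, b, c} := by
          by_contra hn
          exact hz (if_neg hn)
        rw [if_pos hKi] at hz ⊢
        obtain ⟨hc, hcard⟩ := hW U K hz
        have ha : a ∈ K.image U := by rw [hKi]; simp
        have hb : b ∈ K.image U := by rw [hKi]; simp
        have hcc : c ∈ K.image U := by rw [hKi]; simp
        rw [mem_image] at ha hb hcc
        obtain ⟨i, hi, hia⟩ := ha
        obtain ⟨j, hj, hjb⟩ := hb
        obtain ⟨k, hk, hkc⟩ := hcc
        have hij : i ≠ j := fun e => hab (by rw [← hia, ← hjb, e])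
        have hik : i ≠ k := fun e => hac (by rw [← hia, ← hkc, e])
        have hjk : j ≠ k := fun e => hbc (by rw [← hjb, ← hkc, e])
        have hsub : ({i, j, k} : Finset (Fin M)) ⊆ K := by
          intro l hl
          simp only [mem_insert, mem_singleton] at hl
          rcases hl with rfl | rfl | rfl <;> assumption
        have hc3 : ({i, j, k} : Finset (Fin M)).card = 3 := by
          rw [card_eq_three]
          exact ⟨i, j, k, hij, hik, hjk, rfl⟩
        have hKe : K = {i, j, k} := (Finset.eq_of_subset_of_card_le hsub (by rw [hcard, hc3])).symm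
        have e1 := Finset.single_le_sum (f := fun i => ∑ j, ∑ k, if K = {i, j, k} then g (U i) (U j) (U k) else 0)
          (fun i _ => Finset.sum_nonneg fun j _ => Finset.sum_nonneg fun k _ => hnn i j k) (mem_univ i)
        have e2 := Finset.single_le_sum (f := fun j => ∑ k, if K = {i, j, k} then g (U i) (U j) (U k) else 0)
          (fun j _ => Finset.sum_nonneg fun k _ => hnn i j k) (mem_univ j)
        have e3 := Finset.single_le_sum (f := fun k => if K = {i, j, k} then g (U i) (U j) (U k) else 0)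
          (fun k _ => hnn i j k) (mem_univ k)
        have e4 : (if K = {i, j, k} then g (U i) (U j) (U k) else 0) = 1 := by
          rw [if_pos hKe]
          show (if U i = a ∧ U j = b ∧ U k = c then (1 : ℝ) else 0) = 1
          rw [if_pos ⟨hia, hjb, hkc⟩]
        rw [e4] at e3
        exact (hW1 U K).trans (e3.trans (e2.trans e1))
    refine (Finset.sum_le_sum fun K _ => h2 K).trans (le_of_eq ?_)
    rw [Finset.sum_comm]
    refine Finset.sum_congr rfl fun i _ => ?_
    rw [Finset.sum_comm]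
    refine Finset.sum_congr rfl fun j _ => ?_
    rw [Finset.sum_comm]
    refine Finset.sum_congr rfl fun k _ => ?_
    rw [Finset.sum_ite_eq']
    simp
  have hn : (0 : ℝ) ≤ (Fintype.card V : ℝ) ^ 3 := by positivity
  refine (mul_le_mul_of_nonneg_left (Finset.sum_le_sum fun U _ => h1 U) hn).trans ?_
  have h3 : ∀ i j k : Fin M, (Fintype.card V : ℝ) ^ 3 * ∑ U : Fin M → V, g (U i) (U j) (U k) ≤
      (Fintype.card V : ℝ) ^ M := by
    intro i j k
    have hz : (i = j ∨ i = k ∨ j = k) → ∑ U : Fin M → V, g (U i) (U j) (U k) = 0 := by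
      intro h
      apply Finset.sum_eq_zero
      intro U _
      show (if U i = a ∧ U j = b ∧ U k = c then (1 : ℝ) else 0) = 0
      rw [if_neg]
      rintro ⟨e1, e2, e3⟩
      rcases h with rfl | rfl | rfl
      · exact hab (e1.symm.trans e2)
      · exact hac (e1.symm.trans e3)
      · exact hbc (e2.symm.trans e3)
    by_cases hd : i = j ∨ i = k ∨ j = k
    · rw [hz hd, mul_zero]
      positivity
    · push Not at hd
      rw [OCY.avg3 hd.1 hd.2.1 hd.2.2 g, hgs, mul_one]
  rw [Finset.sum_comm, Finset.mul_sum]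
  have h4 : ∀ i : Fin M, (Fintype.card V : ℝ) ^ 3 * ∑ U : Fin M → V, ∑ j, ∑ k, g (U i) (U j) (U k) ≤
      (M : ℝ) ^ 2 * (Fintype.card V : ℝ) ^ M := by
    intro i
    rw [Finset.sum_comm, Finset.mul_sum]
    have h5 : ∀ j : Fin M, (Fintype.card V : ℝ) ^ 3 * ∑ U : Fin M → V, ∑ k, g (U i) (U j) (U k) ≤
        (M : ℝ) * (Fintype.card V : ℝ) ^ M := by
      intro j
      rw [Finset.sum_comm, Finset.mul_sum]
      refine (Finset.sum_le_sum fun k _ => h3 i j k).trans ?_
      rw [Finset.sum_const, card_univ, Fintype.card_fin, nsmul_eq_mul]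
    refine (Finset.sum_le_sum fun j _ => h5 j).trans ?_
    rw [Finset.sum_const, card_univ, Fintype.card_fin, nsmul_eq_mul]
    exact le_of_eq (by ring)
  refine (Finset.sum_le_sum fun i _ => h4 i).trans ?_
  rw [Finset.sum_const, card_univ, Fintype.card_fin, nsmul_eq_mul]
  exact le_of_eq (by ring)

theorem samp {ε η : ℝ} (hε : 0 < ε) (hη : 0 < η) :
    ∃ C : ℝ, 0 < C ∧ ∀ (V : Type) [Fintype V] (G : SimpleGraph V),
      (∀ v, (3 / 4 + ε) * Fintype.card V ≤ ((nb G univ v).card : ℝ)) →
      ∃ w : Finset V → ℝ, (∀ T, 0 ≤ w T) ∧ (∀ T, w T ≤ C / Fintype.card V) ∧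
        (∀ T, w T ≠ 0 → G.IsNClique 3 T) ∧
        (∀ a b, G.Adj a b → 1 - η ≤ cv w a b ∧ cv w a b ≤ 1) := by
  set ε' := min ε (1 / 8) with hε'
  have hε0 : 0 < ε' := lt_min hε (by norm_num)
  have hε1 : ε' ≤ 1 / 8 := min_le_right _ _
  have hε2 : ε' ≤ ε := min_le_left _ _
  set p := 1 / 4 - ε' with hp
  set θ := p + ε' / 2 with hθ
  have hp0 : 0 < p := by rw [hp]; linarith
  have hpθ : p < θ := by rw [hθ]; linarith
  have hθ4 : θ < 1 / 4 := by rw [hθ, hp]; linarith
  obtain ⟨M, hM, x, hx, hMx⟩ := OCY.exists_const hp0 hpθ hη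
  have hM2 : (2 : ℝ) ≤ M := by exact_mod_cast hM
  refine ⟨2 * M, by linarith, ?_⟩
  intro V _ G hG
  -- non-neighbours
  have hGn : ∀ u, ((univ.filter fun w => ¬ G.Adj u w).card : ℝ) ≤ p * Fintype.card V := by
    intro u
    have h1 : (univ.filter fun w => G.Adj u w).card + (univ.filter fun w => ¬ G.Adj u w).card =
        Fintype.card V := by
      rw [Finset.card_filter_add_card_filter_not, card_univ]
    have h2 : ((univ.filter fun w => G.Adj u w).card : ℝ) + (univ.filter fun w => ¬ G.Adj u w).card =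
        Fintype.card V := by exact_mod_cast h1
    have h3 : (3 / 4 + ε) * Fintype.card V ≤ ((univ.filter fun w => G.Adj u w).card : ℝ) := hG u
    have h4 : (0 : ℝ) ≤ Fintype.card V := Nat.cast_nonneg _
    have h5 : ε' * (Fintype.card V : ℝ) ≤ ε * Fintype.card V := mul_le_mul_of_nonneg_right hε2 h4
    rw [hp]
    linarith
  -- the weightings of the samples
  have hch : ∀ U : Fin M → V, ∃ w : Finset (Fin M) → ℝ, (∀ K, 0 ≤ w K) ∧
      (∀ K, w K ≠ 0 → (G.comap U).IsClique (K : Set (Fin M)) ∧ K.card = 3) ∧ (∀ K, w K ≤ 1) ∧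
      ((∀ v, ((univ.filter fun l => ¬ G.Adj (U v) (U l)).card : ℝ) ≤ θ * M) →
        ∀ i j, G.Adj (U i) (U j) → cov w i j = 1) ∧
      (¬ (∀ v, ((univ.filter fun l => ¬ G.Adj (U v) (U l)).card : ℝ) ≤ θ * M) → ∀ K, w K = 0) := by
    intro U
    by_cases hU : ∀ v, ((univ.filter fun l => ¬ G.Adj (U v) (U l)).card : ℝ) ≤ θ * M
    · obtain ⟨w, hw1, hw2, hw3⟩ := FNW.exists_weights (G := G.comap U) (by
        intro v
        have h1 : (univ.filter fun l => G.Adj (U v) (U l)).card +
            (univ.filter fun l => ¬ G.Adj (U v) (U l)).card = M := by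
          rw [Finset.card_filter_add_card_filter_not, card_univ, Fintype.card_fin]
        have h2 : ((univ.filter fun l => G.Adj (U v) (U l)).card : ℝ) +
            (univ.filter fun l => ¬ G.Adj (U v) (U l)).card = M := by exact_mod_cast h1
        rw [← SimpleGraph.card_neighborFinset_eq_degree, Fintype.card_fin]
        refine le_trans ?_ (Nat.cast_le.mpr (Finset.card_le_card
          (?_ : (univ.filter fun l => G.Adj (U v) (U l)) ⊆ _)))
        · have h4 := hU v
          have h5 : θ * M ≤ 1 / 4 * M := mul_le_mul_of_nonneg_right hθ4.le (by linarith)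
          linarith
        · intro l hl
          rw [SimpleGraph.mem_neighborFinset]
          exact (mem_filter.mp hl).2)
      refine ⟨w, hw1, hw2, ?_, fun _ => fun i j hij => hw3 i j hij, fun h => absurd hU h⟩
      intro K
      by_cases hK : w K = 0
      · rw [hK]
        exact zero_le_one
      · obtain ⟨hc, hcard⟩ := hw2 K hK
        obtain ⟨i, hi, j, hj, hij⟩ := Finset.one_lt_card.mp (by rw [hcard]; norm_num : 1 < K.card)
        have h1 := hw3 i j (hc hi hj hij)
        rw [← h1, samp_coveq]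
        have h2 := Finset.single_le_sum (f := fun K => if i ∈ K ∧ j ∈ K then w K else 0)
          (fun K _ => by
            show 0 ≤ (if i ∈ K ∧ j ∈ K then w K else 0)
            split_ifs
            · exact hw1 K
            · exact le_rfl) (mem_univ K)
        simp only [if_pos (And.intro hi hj)] at h2
        exact h2
    · exact ⟨fun _ => 0, fun _ => le_rfl, fun K h => absurd rfl h, fun _ => zero_le_one,
        fun h => absurd h hU, fun _ _ => rfl⟩
  choose W hW0 hWc hW1 hWg hWb using hch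
  set n : ℝ := (Fintype.card V : ℝ) with hn
  set Z : ℝ := M * (M - 1) * n ^ M / n ^ 2 with hZ
  have hn0 : 0 ≤ n := Nat.cast_nonneg _
  have hMM : 0 < (M : ℝ) * (M - 1) := mul_pos (by linarith) (by linarith)
  have hZ0 : 0 ≤ Z := div_nonneg (mul_nonneg hMM.le (pow_nonneg hn0 _)) (pow_nonneg hn0 _)
  have hinner : ∀ T : Finset V, ∀ (U : Fin M → V) (K : Finset (Fin M)),
      0 ≤ (if K.image U = T then W U K else 0) := by
    intro T U K
    split_ifs
    · exact hW0 U K
    · exact le_rfl
  have hw0 : ∀ T, 0 ≤ samp_w Z W T := by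
    intro T
    exact mul_nonneg (inv_nonneg.mpr hZ0) (Finset.sum_nonneg fun U _ => Finset.sum_nonneg fun K _ => hinner T U K)
  have hwc : ∀ T, samp_w Z W T ≠ 0 → G.IsNClique 3 T := by
    intro T hT
    have h1 : ∑ U : Fin M → V, ∑ K : Finset (Fin M), (if K.image U = T then W U K else 0) ≠ 0 := by
      intro h
      apply hT
      show Z⁻¹ * _ = 0
      rw [h, mul_zero]
    obtain ⟨U, _, hU⟩ := Finset.exists_ne_zero_of_sum_ne_zero h1
    obtain ⟨K, _, hK⟩ := Finset.exists_ne_zero_of_sum_ne_zero hU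
    have hKT : K.image U = T := by
      by_contra hne
      exact hK (if_neg hne)
    rw [if_pos hKT] at hK
    obtain ⟨hc, hcard⟩ := hWc U K hK
    rw [← hKT]
    constructor
    · intro a ha b hb hab
      rw [mem_coe, mem_image] at ha hb
      obtain ⟨i, hi, rfl⟩ := ha
      obtain ⟨j, hj, rfl⟩ := hb
      have hij : i ≠ j := fun e => hab (by rw [e])
      exact hc hi hj hij
    · rw [Finset.card_image_of_injOn, hcard]
      intro i hi j hj hij
      exact samp_inj hc hi hj hij
  refine ⟨samp_w Z W, hw0, ?_, hwc, ?_⟩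
  · intro T
    by_cases hT : samp_w Z W T = 0
    · rw [hT]
      exact div_nonneg (by linarith) hn0
    · have hcl := hwc T hT
      obtain ⟨a, b, c, hab, hac, hbc, rfl⟩ := card_eq_three.mp hcl.2
      have hpos : 0 < n := by
        have : 0 < Fintype.card V := Fintype.card_pos_iff.mpr ⟨a⟩
        rw [hn]
        exact_mod_cast this
      have h1 := samp_up hW1 hWc hab hac hbc
      rw [← hn] at h1
      set S := ∑ U : Fin M → V, ∑ K : Finset (Fin M), (if K.image U = {a, b, c} then W U K else 0) with hS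
      have hSw : samp_w Z W {a, b, c} = Z⁻¹ * S := rfl
      rw [hSw, le_div_iff₀ hpos]
      have hZp : 0 < Z := by
        rw [hZ]
        positivity
      rw [mul_assoc, inv_mul_le_iff₀ hZp, hZ]
      have hn3 : 0 < n ^ 2 := by positivity
      rw [div_mul_eq_mul_div, le_div_iff₀ hn3]
      have h2 : S * n * n ^ 2 = n ^ 3 * S := by ring
      rw [h2]
      refine h1.trans ?_
      have hnM : 0 < n ^ M := by positivity
      have h3 : (M : ℝ) ^ 3 ≤ M * (M - 1) * (2 * M) := by nlinarith
      calc (M : ℝ) ^ 3 * n ^ M ≤ M * (M - 1) * (2 * M) * n ^ M := mul_le_mul_of_nonneg_right h3 hnM.le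
        _ = _ := by ring
  · intro a b hab
    have hne : a ≠ b := hab.ne
    have hpos : 0 < n := by
      have : 0 < Fintype.card V := Fintype.card_pos_iff.mpr ⟨a⟩
      rw [hn]
      exact_mod_cast this
    have hn2 : 0 < n ^ 2 := by positivity
    have hnM : 0 < n ^ M := by positivity
    have hZp : 0 < Z := by
      rw [hZ]
      positivity
    rw [samp_cv Z hWc]
    -- good and bad samples
    have h1 : ∀ U : Fin M → V, ∑ i, ∑ j, samp_F a b (U i) (U j) * cov (W U) i j =
        ∑ i, ∑ j, samp_F a b (U i) (U j) -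
          (if (∀ v, ((univ.filter fun l => ¬ G.Adj (U v) (U l)).card : ℝ) ≤ θ * M) then 0 else
            ∑ i, ∑ j, samp_F a b (U i) (U j)) := by
      intro U
      by_cases hU : ∀ v, ((univ.filter fun l => ¬ G.Adj (U v) (U l)).card : ℝ) ≤ θ * M
      · rw [if_pos hU, sub_zero]
        refine Finset.sum_congr rfl fun i _ => Finset.sum_congr rfl fun j _ => ?_
        by_cases hF : U i = a ∧ U j = b
        · rw [hWg U hU i j (by rw [hF.1, hF.2]; exact hab), mul_one]
        · simp [samp_F, hF]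
      · rw [if_neg hU, sub_self]
        apply Finset.sum_eq_zero
        intro i _
        apply Finset.sum_eq_zero
        intro j _
        have : cov (W U) i j = 0 := by
          rw [samp_coveq]
          apply Finset.sum_eq_zero
          intro K _
          rw [hWb U hU K, ite_self]
        rw [this, mul_zero]
    rw [Finset.sum_congr rfl fun U _ => h1 U, Finset.sum_sub_distrib]
    have h2 := samp_cnt (M := M) hne
    have h3 := samp_bad (M := M) (θ := θ) G hp0.le hGn hx hne
    rw [← hn] at h2 h3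
    set S₁ := ∑ U : Fin M → V, ∑ i, ∑ j, samp_F a b (U i) (U j) with hS₁
    set S₂ := ∑ U : Fin M → V, (if (∀ v, ((univ.filter fun l => ¬ G.Adj (U v) (U l)).card : ℝ) ≤ θ * M) then 0 else
            ∑ i, ∑ j, samp_F a b (U i) (U j)) with hS₂
    have hS1 : S₁ = Z := by
      rw [hZ, eq_div_iff hn2.ne', ← h2]
      ring
    have hS2 : S₂ ≤ η * Z := by
      rw [hZ, mul_div_assoc', le_div_iff₀ hn2, mul_comm S₂]
      refine h3.trans ?_
      calc (M : ℝ) * (M - 1) * (M * (x ^ 3 * ((1 + (x - 1) * p) / x ^ θ) ^ M * n ^ M))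
          = (M * (x ^ 3 * ((1 + (x - 1) * p) / x ^ θ) ^ M)) * (M * (M - 1) * n ^ M) := by ring
        _ ≤ η * (M * (M - 1) * n ^ M) := mul_le_mul_of_nonneg_right hMx (by positivity)
    have hS20 : 0 ≤ S₂ := by
      apply Finset.sum_nonneg
      intro U _
      split_ifs
      · exact le_rfl
      · exact Finset.sum_nonneg fun i _ => Finset.sum_nonneg fun j _ => samp_F_nonneg _ _ _ _
    rw [hS1, mul_sub, inv_mul_cancel₀ hZp.ne']
    constructor
    · have : Z⁻¹ * S₂ ≤ η := by
        rw [inv_mul_le_iff₀ hZp]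
        linarith
      linarith
    · have : 0 ≤ Z⁻¹ * S₂ := mul_nonneg (inv_nonneg.mpr hZ0) hS20
      linarith

end Pool.NSH
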