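import Pool.Agent.NSH.FrB
import Pool.Agent.NSH.RedB
import Pool.Agent.NSH.Approx

/-!
MODULE StB1 (difficulty 3).  Approximate decomposition of `gd` with few bad vertices.

RECIPE.  Minimum degree of `gd`: for `v ∉ U` every `G`-neighbour which is no `gd`-neighbour is in `Ul (ln v)` or in `Vi (ix v)`
(`ul_le`, `sizeV2`): at most `2 u / q + 2 n / K ≤ (ε/2) n`; for `v ∈ U` it is in `U` or it is an `x ∉ U` with `R x v` (`throughR`):
at most `η n + 2 n / q ≤ (ε/2) n`.  So `|nb gd univ v| ≥ (3/4 + ε/2) n`.  `approx` with `ε/2` and `γ = β ^ 2` gives `P₀`,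
`∑ v, |nb (unc gd P₀) univ v| ≤ β ^ 2 n ^ 2`.  `B = {v : |nb (unc gd P₀) univ v| > β n}`: `|B| * β n ≤ β ^ 2 n ^ 2`, so `|B| ≤ β n`.
`P = P₀.filter (∀ b ∈ B, b ∉ T)`.  For `v ∉ B`: a new uncovered neighbour `w` of `v` is in a `T ∈ P₀`, `v, w ∈ T`, `T ∩ B` nonempty;
for each `b ∈ B` at most one `T ∈ P₀` contains `v` and `b` (`b ≠ v`), and it contributes at most two `w`: at most `2 |B|`.
-/

open Finset
open scoped Classical

namespace Pool.NSH

theorem stb1_mem {V : Type*} {G : SimpleGraph V} {S : Finset V} {a b : V} :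
    b ∈ nb G S a ↔ b ∈ S ∧ G.Adj a b := by
  unfold nb
  rw [mem_filter]

/-- minimum degree of `gd` -/
theorem stb1_deg {q K : ℕ} [Fact q.Prime] (hK : 0 < K) {ε η : ℝ}
    (h1 : η + 2 / q ≤ ε / 2) (h2 : 2 * η / q + 2 / K ≤ ε / 2) {V : Type} [Fintype V] {G : SimpleGraph V}
    {U U' : Finset V} (fr : Frame G U U' q K ε η) (hU : (U.card : ℝ) ≤ η * Fintype.card V)
    (hG : ∀ v, (3 / 4 + ε) * Fintype.card V ≤ ((nb G univ v).card : ℝ)) (v : V) :
    (3 / 4 + ε / 2) * Fintype.card V ≤ ((nb fr.gd univ v).card : ℝ) := by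
  have hn : (0 : ℝ) ≤ Fintype.card V := Nat.cast_nonneg _
  have hq : (0 : ℝ) < q := by exact_mod_cast (Fact.out : q.Prime).pos
  have hGv := hG v
  by_cases hv : v ∈ U
  · have hsub : nb G univ v ⊆ nb fr.gd univ v ∪ (U ∪ Uᶜ.filter fun x => fr.R x v) := by
      intro w hw
      rw [stb1_mem] at hw
      rw [mem_union, mem_union, stb1_mem, mem_filter, mem_compl]
      by_cases hwU : w ∈ U
      · exact Or.inr (Or.inl hwU)
      · by_cases hR : fr.R w v
        · exact Or.inr (Or.inr ⟨hwU, hR⟩)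
        · left
          refine ⟨mem_univ _, hw.2, fun h => hwU h.2, fun h => h.1 hv, fun h => hR h.2.2, fun h => h.1 hv⟩
    have h3 : ((nb G univ v).card : ℝ) ≤ (nb fr.gd univ v).card
        + ((U.card : ℝ) + (Uᶜ.filter fun x => fr.R x v).card) := by
      have h4 := (card_le_card hsub).trans ((card_union_le _ _).trans
        (Nat.add_le_add_left (card_union_le _ _) _))
      exact_mod_cast h4
    have h4 := fr.throughR v
    have h5 : η * Fintype.card V + 2 * Fintype.card V / q ≤ ε / 2 * Fintype.card V := by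
      have h6 := mul_le_mul_of_nonneg_right h1 hn
      have h7 : (η + 2 / (q : ℝ)) * Fintype.card V = η * Fintype.card V + 2 * Fintype.card V / q := by
        ring
      linarith
    linarith
  · have hsub : nb G univ v ⊆ nb fr.gd univ v ∪ (fr.Ul (fr.ln v) ∪ fr.Vi (fr.ix v)) := by
      intro w hw
      rw [stb1_mem] at hw
      rw [mem_union, mem_union, stb1_mem]
      unfold Frame.Ul Frame.Vi
      rw [mem_filter, mem_filter, mem_compl]
      by_cases hwU : w ∈ U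
      · by_cases hR : fr.R v w
        · exact Or.inr (Or.inl ⟨hwU, hR⟩)
        · left
          refine ⟨mem_univ _, hw.2, fun h => hv h.1, fun h => hR h.2.2, fun h => hv h.2.1, fun h => h.2.1 hwU⟩
      · by_cases hi : fr.ix w = fr.ix v
        · exact Or.inr (Or.inr ⟨hwU, hi⟩)
        · left
          refine ⟨mem_univ _, hw.2, fun h => hv h.1, fun h => hwU h.2.1, fun h => hv h.2.1, fun h => hi h.2.2.symm⟩
    have h3 : ((nb G univ v).card : ℝ) ≤ (nb fr.gd univ v).card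
        + (((fr.Ul (fr.ln v)).card : ℝ) + (fr.Vi (fr.ix v)).card) := by
      have h4 := (card_le_card hsub).trans ((card_union_le _ _).trans
        (Nat.add_le_add_left (card_union_le _ _) _))
      exact_mod_cast h4
    have h4 := fr.ul_le (fr.ln v)
    have h5 : ((fr.Vi (fr.ix v)).card : ℝ) ≤ 2 * Fintype.card V / K := fr.sizeV2 (fr.ix v)
    have h6 : 2 * (U.card : ℝ) / q ≤ 2 * (η * Fintype.card V) / q := by gcongr
    have h7 := mul_le_mul_of_nonneg_right h2 hn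
    have h8 : (2 * η / (q : ℝ) + 2 / (K : ℝ)) * Fintype.card V
        = 2 * (η * Fintype.card V) / q + 2 * Fintype.card V / K := by
      ring
    linarith

theorem stb1_two {V : Type} [Fintype V] {H : SimpleGraph V} {P₀ : Finset (Finset V)} (hP : IsPacking H P₀)
    {v b : V} (hb : v ≠ b) :
    (univ.filter fun w => w ≠ v ∧ ∃ T ∈ P₀, v ∈ T ∧ b ∈ T ∧ w ∈ T).card ≤ 2 := by
  by_cases h : ∃ T ∈ P₀, v ∈ T ∧ b ∈ T
  · obtain ⟨T, hT, hvT, hbT⟩ := h
    have hsub : (univ.filter fun w => w ≠ v ∧ ∃ T ∈ P₀, v ∈ T ∧ b ∈ T ∧ w ∈ T) ⊆ T.erase v := by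
      intro w hw
      rw [mem_filter] at hw
      obtain ⟨-, hwv, T', hT', hvT', hbT', hwT'⟩ := hw
      rw [mem_erase]
      refine ⟨hwv, ?_⟩
      rw [hP.disj T hT T' hT' v b hb hvT hbT hvT' hbT']
      exact hwT'
    refine (card_le_card hsub).trans ?_
    rw [card_erase_of_mem hvT, (hP.clique T hT).card_eq]
  · rw [filter_false_of_mem, card_empty]
    · exact Nat.zero_le _
    · rintro w - ⟨-, T, hT, hvT, hbT, -⟩
      exact h ⟨T, hT, hvT, hbT⟩

theorem stB1 {q K : ℕ} [Fact q.Prime] (hK : 0 < K) {ε η β : ℝ} (hε : 0 < ε) (hβ : 0 < β)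
    (h1 : η + 2 / q ≤ ε / 2) (h2 : 2 * η / q + 2 / K ≤ ε / 2) :
    ∃ n₀ : ℕ, ∀ (V : Type) [Fintype V] (G : SimpleGraph V) (U U' : Finset V)
      (fr : Frame G U U' q K ε η), n₀ ≤ Fintype.card V → U.card ≤ η * Fintype.card V →
      (∀ v, (3 / 4 + ε) * Fintype.card V ≤ ((nb G univ v).card : ℝ)) →
      ∃ (P : Finset (Finset V)) (B : Finset V), IsPacking fr.gd P ∧
        (B.card : ℝ) ≤ β * Fintype.card V ∧ (∀ T ∈ P, ∀ b ∈ B, b ∉ T) ∧
        ∀ v, v ∉ B → ((nb (unc fr.gd P) univ v).card : ℝ) ≤ 3 * β * Fintype.card V := by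
  obtain ⟨n₀, hn₀⟩ := approx (ε := ε / 2) (γ := β ^ 2) (by linarith) (by positivity)
  refine ⟨max n₀ 1, ?_⟩
  intro V _ G U U' fr hn hU hG
  have hn1 : n₀ ≤ Fintype.card V := (le_max_left _ _).trans hn
  have hn2 : 1 ≤ Fintype.card V := (le_max_right _ _).trans hn
  have hnp : (0 : ℝ) < Fintype.card V := by exact_mod_cast hn2
  obtain ⟨P₀, hP₀, hs⟩ := hn₀ V fr.gd hn1 (stb1_deg hK h1 h2 fr hU hG)
  let B : Finset V := univ.filter fun v => β * Fintype.card V < ((nb (unc fr.gd P₀) univ v).card : ℝ)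
  have hB : (B.card : ℝ) ≤ β * Fintype.card V := by
    have h3 : ∑ v ∈ B, (β * Fintype.card V : ℝ) ≤ ∑ v ∈ B, ((nb (unc fr.gd P₀) univ v).card : ℝ) := by
      apply sum_le_sum
      intro v hv
      exact (mem_filter.1 hv).2.le
    have h4 : ∑ v ∈ B, ((nb (unc fr.gd P₀) univ v).card : ℝ) ≤ ∑ v, ((nb (unc fr.gd P₀) univ v).card : ℝ) :=
      sum_le_sum_of_subset_of_nonneg (subset_univ _) (fun _ _ _ => Nat.cast_nonneg _)
    rw [sum_const, nsmul_eq_mul] at h3
    have h5 : (B.card : ℝ) * (β * Fintype.card V) ≤ (β * Fintype.card V) * (β * Fintype.card V) := by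
      calc (B.card : ℝ) * (β * Fintype.card V) ≤ β ^ 2 * (Fintype.card V : ℝ) ^ 2 := (h3.trans h4).trans hs
        _ = (β * Fintype.card V) * (β * Fintype.card V) := by ring
    exact le_of_mul_le_mul_right h5 (by positivity)
  refine ⟨P₀.filter (fun T => ∀ b ∈ B, b ∉ T), B, ?_, hB, ?_, ?_⟩
  · exact ⟨fun T hT => hP₀.clique T (mem_filter.1 hT).1,
      fun T hT T' hT' => hP₀.disj T (mem_filter.1 hT).1 T' (mem_filter.1 hT').1⟩
  · intro T hT b hb
    exact (mem_filter.1 hT).2 b hb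
  · intro v hv
    have h3 : ((nb (unc fr.gd P₀) univ v).card : ℝ) ≤ β * Fintype.card V := by
      by_contra h
      exact hv (mem_filter.2 ⟨mem_univ _, not_le.1 h⟩)
    have hsub : nb (unc fr.gd (P₀.filter (fun T => ∀ b ∈ B, b ∉ T))) univ v ⊆
        nb (unc fr.gd P₀) univ v ∪ B.biUnion fun b => univ.filter fun w => w ≠ v ∧ ∃ T ∈ P₀, v ∈ T ∧ b ∈ T ∧ w ∈ T := by
      intro w hw
      rw [stb1_mem] at hw
      obtain ⟨-, hadj, hunc⟩ := hw
      rw [mem_union, stb1_mem]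
      by_cases h4 : ∀ T ∈ P₀, ¬ (v ∈ T ∧ w ∈ T)
      · exact Or.inl ⟨mem_univ _, hadj, h4⟩
      · right
        push Not at h4
        obtain ⟨T, hT, hvT, hwT⟩ := h4
        have h5 : ¬ ∀ b ∈ B, b ∉ T := fun h6 => hunc T (mem_filter.2 ⟨hT, h6⟩) ⟨hvT, hwT⟩
        push Not at h5
        obtain ⟨b, hb, hbT⟩ := h5
        rw [mem_biUnion]
        exact ⟨b, hb, mem_filter.2 ⟨mem_univ _, hadj.ne', T, hT, hvT, hbT, hwT⟩⟩
    have h4 : (B.biUnion fun b => univ.filter fun w => w ≠ v ∧ ∃ T ∈ P₀, v ∈ T ∧ b ∈ T ∧ w ∈ T).card ≤ B.card * 2 := by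
      apply card_biUnion_le_card_mul
      intro b hb
      apply stb1_two hP₀
      rintro rfl
      exact hv hb
    have h5 : ((nb (unc fr.gd (P₀.filter (fun T => ∀ b ∈ B, b ∉ T))) univ v).card : ℝ)
        ≤ (nb (unc fr.gd P₀) univ v).card + (B.card : ℝ) * 2 := by
      have h6 := (card_le_card hsub).trans ((card_union_le _ _).trans (Nat.add_le_add_left h4 _))
      exact_mod_cast h6
    linarith

end Pool.NSH
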