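import Pool.Agent.H34.Dec.Copies
import Pool.Agent.FNW.NoDec
import Pool.Agent.NSH.Defs2

/-!
Bridges between the internal definitions and the definitions of the problem; the extremal example.
-/

open Finset
open scoped Classical

namespace Pool.NSH

open Pool.H34.Dec

/-- `D` is an `F`-decomposition of `G`: the members of `D` are subgraphs of `G` isomorphic to `F`,
and each edge of `G` is in exactly one member of `D`. -/
def IsDecomp {W V : Type} (F : SimpleGraph W) (G : SimpleGraph V) (D : Set G.Subgraph) : Prop :=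
  (∀ H ∈ D, Nonempty (F ≃g H.coe)) ∧ ∀ e ∈ G.edgeSet, ∃! H : G.Subgraph, H ∈ D ∧ e ∈ H.edgeSet

lemma inst_ef {V : Type} (G : SimpleGraph V) (i j : Fintype G.edgeSet) :
    (@SimpleGraph.edgeFinset V G i).card = (@SimpleGraph.edgeFinset V G j).card := by
  rw [Subsingleton.elim i j]

lemma inst_dg {V : Type} (G : SimpleGraph V) (v : V) (i j : Fintype (G.neighborSet v)) :
    @SimpleGraph.degree V G v i = @SimpleGraph.degree V G v j := by
  rw [Subsingleton.elim i j]

lemma card_top3 (i : Fintype (⊤ : SimpleGraph (Fin 3)).edgeSet) :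
    (@SimpleGraph.edgeFinset (Fin 3) ⊤ i).card = 3 := by
  exact (inst_ef _ i _).trans ((SimpleGraph.card_edgeFinset_top_eq_card_choose_two
    (V := Fin 3)).trans (by rw [Fintype.card_fin]; decide))

lemma deg_top3 (x : Fin 3) (i : Fintype ((⊤ : SimpleGraph (Fin 3)).neighborSet x)) :
    @SimpleGraph.degree (Fin 3) ⊤ x i = 2 := by
  exact (inst_dg _ x i _).trans ((SimpleGraph.complete_graph_degree (V := Fin 3) x).trans
    (by rw [Fintype.card_fin]))

/-- a decomposition is a fractional decomposition -/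
theorem frac_of_decomp {W V : Type} [Fintype W] [Fintype V] (F : SimpleGraph W)
    (G : SimpleGraph V) (D : Set G.Subgraph) (h : IsDecomp F G D) : ∃ w, IsFracDecomp F G w := by
  refine ⟨fun H => if H ∈ D then 1 else 0, ?_, ?_, ?_⟩
  · intro H
    dsimp only
    split_ifs <;> norm_num
  · intro H hH
    dsimp only at hH
    by_cases hD : H ∈ D
    · exact h.1 H hD
    · rw [if_neg hD] at hH
      exact absurd rfl hH
  · intro e he
    obtain ⟨H, ⟨hH1, hH2⟩, hu⟩ := h.2 e he
    rw [Finset.sum_eq_single H]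
    · rw [if_pos hH1]
    · intro H' hH' hne
      rw [if_neg]
      intro hD
      exact hne (hu H' ⟨hD, (Finset.mem_filter.1 hH').2⟩)
    · intro hH
      refine absurd ?_ hH
      rw [Finset.mem_filter]
      exact ⟨Finset.mem_univ _, hH2⟩

/-- a triangle decomposition in the internal sense gives a `K_3`-decomposition -/
theorem decomp_of_hasDec {V : Type} [Fintype V] (G : SimpleGraph V) (h : HasDec G) :
    ∃ D, IsDecomp (⊤ : SimpleGraph (Fin 3)) G D := by
  obtain ⟨P, hP, hun⟩ := h
  refine ⟨{H | ∃ T ∈ P, H = (⊤ : G.Subgraph).induce (T : Set V)}, ?_, ?_⟩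
  · rintro H ⟨T, hT, rfl⟩
    obtain ⟨hcl, hcard⟩ := (SimpleGraph.isNClique_iff G).1 (hP.clique T hT)
    have hc : Fintype.card (T : Set V) = 3 := by
      rw [← hcard]
      simp
    have e0 : Fintype.card (Fin 3) = Fintype.card (T : Set V) := by rw [hc, Fintype.card_fin]
    let e : Fin 3 ≃ (T : Set V) := Fintype.equivOfCardEq e0
    refine ⟨⟨e, ?_⟩⟩
    intro a b
    constructor
    · intro hab
      have h1 : ((⊤ : G.Subgraph).induce (T : Set V)).Adj (e a) (e b) := hab
      simp only [SimpleGraph.top_adj]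
      intro hab'
      rw [hab'] at h1
      exact ((⊤ : G.Subgraph).induce (T : Set V)).loopless.irrefl _ h1
    · intro hab
      have hab' : a ≠ b := by simpa using hab
      have hne : ((e a : (T : Set V)) : V) ≠ (e b : (T : Set V)) := by
        intro hh
        exact hab' (e.injective (Subtype.ext hh))
      have h1 : G.Adj (e a : (T : Set V)) (e b : (T : Set V)) := hcl (e a).2 (e b).2 hne
      change ((⊤ : G.Subgraph).induce (T : Set V)).Adj (e a) (e b)
      simp only [SimpleGraph.Subgraph.induce_adj, SimpleGraph.Subgraph.top_adj]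
      exact ⟨(e a).2, (e b).2, h1⟩
  · intro e he
    induction e with
    | _ a b =>
      have hab : G.Adj a b := (SimpleGraph.mem_edgeSet G).1 he
      have hT : ∃ T ∈ P, a ∈ T ∧ b ∈ T := by
        by_contra hcon
        push Not at hcon
        have : (unc G P).Adj a b := ⟨hab, fun T hT h' => hcon T hT h'.1 h'.2⟩
        rw [← hun] at this
        exact this
      obtain ⟨T, hT, ha, hb⟩ := hT
      refine ⟨(⊤ : G.Subgraph).induce (T : Set V), ⟨⟨T, hT, rfl⟩, ?_⟩, ?_⟩
      · rw [SimpleGraph.Subgraph.mem_edgeSet]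
        simp only [SimpleGraph.Subgraph.induce_adj, SimpleGraph.Subgraph.top_adj]
        exact ⟨ha, hb, hab⟩
      · rintro H ⟨⟨T', hT', rfl⟩, hH⟩
        rw [SimpleGraph.Subgraph.mem_edgeSet] at hH
        simp only [SimpleGraph.Subgraph.induce_adj, SimpleGraph.Subgraph.top_adj] at hH
        rw [hP.disj T' hT' T hT a b hab.ne hH.1 hH.2.1 ha hb]

lemma nb_univ_card {V : Type} [Fintype V] (G : SimpleGraph V) (v : V)
    (i : Fintype (G.neighborSet v)) : (nb G univ v).card = @SimpleGraph.degree V G v i := by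
  unfold SimpleGraph.degree
  congr 1
  ext u
  simp [nb]

lemma ec_eq {V : Type} [Fintype V] (G : SimpleGraph V) (i : Fintype G.edgeSet) :
    ec G = 2 * (@SimpleGraph.edgeFinset V G i).card := by
  have h1 := G.sum_degrees_eq_twice_card_edges
  have h2 : ec G = ∑ v, (nb G univ v).card := by
    unfold ec
    rw [← Finset.univ_product_univ, Finset.card_filter, Finset.sum_product]
    refine Finset.sum_congr rfl fun v _ => ?_
    rw [nb, Finset.card_filter]
  rw [h2, inst_ef G i _]
  refine Eq.trans ?_ h1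
  exact Finset.sum_congr rfl fun v _ => nb_univ_card G v _

/-- the extremal examples: blow-ups of a four-cycle by cliques -/
theorem example_lower {δ : ℝ} (hδ : δ < 3 / 4) (n₀ : ℕ) :
    ∃ n ≥ n₀, ∃ G : SimpleGraph (Fin n),
      (∀ i : Fintype G.edgeSet, 3 ∣ (@SimpleGraph.edgeFinset _ G i).card) ∧
      (∀ v, ∀ i : Fintype (G.neighborSet v), 2 ∣ @SimpleGraph.degree _ G v i) ∧
      (∀ v, ∀ i : Fintype (G.neighborSet v), δ * n ≤ @SimpleGraph.degree _ G v i) ∧
      ¬ ∃ w, IsFracDecomp (⊤ : SimpleGraph (Fin 3)) G w := by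
  -- the size of the example
  obtain ⟨k, hk⟩ := exists_nat_ge (1 / (3 / 4 - δ))
  set K : ℕ := max n₀ k with hK
  set m : ℕ := 6 * K + 3 with hm
  have hn₀ : m * 4 ≥ n₀ := by
    have : n₀ ≤ K := le_max_left _ _
    omega
  have hkm : (k : ℝ) ≤ ((m * 4 : ℕ) : ℝ) := by
    have : k ≤ K := le_max_right _ _
    have : k ≤ m * 4 := by omega
    exact_mod_cast this
  have hgap : 1 ≤ (3 / 4 - δ) * ((m * 4 : ℕ) : ℝ) := by
    have h1 : 1 / (3 / 4 - δ) ≤ ((m * 4 : ℕ) : ℝ) := hk.trans hkm
    rwa [div_le_iff₀ (by linarith), mul_comm] at h1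
  let e : Fin m × Fin 4 ≃ Fin (m * 4) := finProdFinEquiv
  let G : SimpleGraph (Fin (m * 4)) := (Pool.FNW.blow m).comap e.symm
  let φ : G ≃g Pool.FNW.blow m := SimpleGraph.Iso.comap e.symm (Pool.FNW.blow m)
  have hdeg : ∀ v [Fintype (G.neighborSet v)], G.degree v + 1 = 3 * m := by
    intro v _
    rw [← Pool.FNW.blow_degree m (φ v)]
    congr 1
    exact (φ.degree_eq v).symm
  refine ⟨m * 4, hn₀, G, ?_, ?_, ?_, ?_⟩
  · intro i
    have h2 := G.sum_degrees_eq_twice_card_edges
    have h3 : ∑ v, G.degree v = (m * 4) * (3 * m - 1) := by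
      have : ∀ v, G.degree v = 3 * m - 1 := fun v => by have := hdeg v; omega
      rw [Finset.sum_congr rfl fun v _ => this v, Finset.sum_const, Finset.card_univ,
        Fintype.card_fin, smul_eq_mul]
    rw [h3] at h2
    have h5 : (m * 4) * (3 * m - 1) = 2 * (3 * ((2 * K + 1) * 2 * (3 * m - 1))) := by
      rw [hm]; ring
    rw [h5] at h2
    have h4 := Nat.eq_of_mul_eq_mul_left (by norm_num : 0 < 2) h2
    rw [inst_ef G i _, ← h4]
    exact Dvd.intro _ rfl
  · intro v i
    have := @hdeg v i
    have h4 : @SimpleGraph.degree _ G v i = 2 * (9 * K + 4) := by omega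
    rw [h4]
    exact Dvd.intro _ rfl
  · intro v i
    have h1 : (@SimpleGraph.degree _ G v i : ℝ) + 1 = 3 * m := by exact_mod_cast @hdeg v i
    have h2 : ((m * 4 : ℕ) : ℝ) = 4 * m := by push_cast; ring
    rw [h2] at hgap ⊢
    linarith
  · refine Pool.FNW.no_dec (G := G) (F := fun u v => Pool.FNW.tf (e.symm u).2 (e.symm v).2)
      ?_ ?_ ?_
    · intro a b
      unfold Pool.FNW.tf
      simp only [eq_comm]
    · intro a b c h1 h2 h3
      exact Pool.FNW.blow_tri h1 h2 h3
    · refine lt_of_lt_of_eq (b := ∑ u, ∑ v, (if (Pool.FNW.blow m).Adj u v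
        then Pool.FNW.tf u.2 v.2 else 0)) ?_ ?_
      · rw [Pool.FNW.blow_sum]
        have : 0 < m := by omega
        positivity
      · rw [← Equiv.sum_comp e.symm]
        refine Finset.sum_congr rfl fun a _ => ?_
        rw [← Equiv.sum_comp e.symm]
        refine Finset.sum_congr rfl fun b _ => ?_
        by_cases h : (Pool.FNW.blow m).Adj (e.symm a) (e.symm b)
        · rw [if_pos h, if_pos (show G.Adj a b from h)]
        · rw [if_neg h, if_neg (show ¬ G.Adj a b from h)]

end Pool.NSH
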