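import Pool.Agent.NSH.Part

/-!
MODULE VStep (difficulty 3).  One step of the vortex.

RECIPE: `part` for the type `↥S`, `K = 2`, `p = ![3 η / 4, 1 - 3 η / 4]`, test sets (`J = Option ↥S`): `univ` and the neighbourhoods
`univ.filter (G.Adj v ·)`, with `τ = (η / 2) / √√n`, `n = |S|`.  The condition `2 * 2 * (n + 1) * exp (-(τ ^ 2 n / 4)) < 1` holds for large
`n`: `τ ^ 2 n = η ^ 2 √n / 4`, and `exp y ≥ y ^ 4 / 24`.  `U = ` the (image of the) vertices with label `0`.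
`|U| = (3 η / 4 ± τ) n`, `τ ≤ η / 4` if `√√n ≥ 2`.  With `e = 1 / √√n`: `|nb G U v| ≥ (3 η / 4) c n - τ n`, and if `c - 2 e > 0`
`(c - 2 e) |U| ≤ (c - 2 e) (3 η / 4 + τ) n ≤ (3 η / 4) c n + τ n - (3/2) η e n ≤ (3 η / 4) c n - τ n` as `2 τ = η e` (`c ≤ 1`).
-/

open Finset
open scoped Classical

namespace Pool.NSH

lemma vstep_exp {y : ℝ} (hy : 0 ≤ y) : y ^ 4 / 24 ≤ Real.exp y := by
  have h := Real.sum_le_exp_of_nonneg hy 5
  simp only [Finset.sum_range_succ, Finset.sum_range_zero, Nat.factorial] at h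
  norm_num at h
  have h2 : 0 ≤ y ^ 2 := by positivity
  have h3 : 0 ≤ y ^ 3 := by positivity
  linarith

lemma vstep_x (n : ℕ) : (√(√(n : ℝ))) ^ 4 = (n : ℝ) := by
  have h1 : (√(√(n : ℝ))) ^ 2 = √(n : ℝ) := Real.sq_sqrt (Real.sqrt_nonneg _)
  have h2 : (√(n : ℝ)) ^ 2 = (n : ℝ) := Real.sq_sqrt (Nat.cast_nonneg _)
  calc (√(√(n : ℝ))) ^ 4 = ((√(√(n : ℝ))) ^ 2) ^ 2 := by ring
    _ = _ := by rw [h1, h2]

lemma vstep_cond {η x n : ℝ} (hη : 0 < η) (hx : 0 < x) (hxn : x ^ 4 = n) (hn1 : 1 ≤ n)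
    (hn : 8 * 24 * 16 ^ 4 / η ^ 8 < n) :
    2 * 2 * (n + 1) * Real.exp (-((η / 2 / x) ^ 2 * n / 4)) < 1 := by
  have hy : (η / 2 / x) ^ 2 * n / 4 = η ^ 2 * x ^ 2 / 16 := by
    rw [← hxn]
    field_simp
    ring
  rw [hy, Real.exp_neg]
  have h1 := vstep_exp (y := η ^ 2 * x ^ 2 / 16) (by positivity)
  have h2 : (η ^ 2 * x ^ 2 / 16) ^ 4 / 24 = η ^ 8 * n ^ 2 / (16 ^ 4 * 24) := by
    rw [← hxn]
    ring
  rw [h2] at h1
  have hη8 : 0 < η ^ 8 := by positivity
  have h3 : 8 * 24 * 16 ^ 4 < n * η ^ 8 := by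
    rw [div_lt_iff₀ hη8] at hn
    exact hn
  have h4 : 2 * 2 * (n + 1) < η ^ 8 * n ^ 2 / (16 ^ 4 * 24) := by
    rw [lt_div_iff₀ (by positivity)]
    nlinarith [mul_lt_mul_of_pos_left h3 (show 0 < n by linarith)]
  have h5 : 0 < Real.exp (η ^ 2 * x ^ 2 / 16) := Real.exp_pos _
  rw [← div_eq_mul_inv, div_lt_one h5]
  linarith

theorem vstep {η : ℝ} (hη : 0 < η) (hη1 : η ≤ 1) :
    ∃ n₀ : ℕ, ∀ (V : Type) [Fintype V] (G : SimpleGraph V) (S : Finset V) (c : ℝ), c ≤ 1 →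
      n₀ ≤ S.card → (∀ v ∈ S, c * S.card ≤ ((nb G S v).card : ℝ)) →
      ∃ U ⊆ S, η / 2 * S.card ≤ U.card ∧ U.card ≤ η * S.card ∧
        ∀ v ∈ S, (c - 2 / √(√(S.card : ℝ))) * U.card ≤ ((nb G U v).card : ℝ) := by
  refine ⟨⌊(8 * 24 * 16 ^ 4 / η ^ 8 : ℝ)⌋₊ + 17, ?_⟩
  intro V _ G S c hc hn hd
  set n : ℝ := (S.card : ℝ) with hndef
  have hn16 : (16 : ℝ) ≤ n := by
    have : (16 : ℕ) ≤ S.card := by omega
    rw [hndef]
    exact_mod_cast this
  have hnη : 8 * 24 * 16 ^ 4 / η ^ 8 < n := by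
    have h1 := Nat.lt_floor_add_one (8 * 24 * 16 ^ 4 / η ^ 8 : ℝ)
    have h2 : ((⌊(8 * 24 * 16 ^ 4 / η ^ 8 : ℝ)⌋₊ + 17 : ℕ) : ℝ) ≤ n := by
      rw [hndef]
      exact Nat.cast_le.2 hn
    push_cast at h2
    linarith
  set x : ℝ := √(√n) with hxdef
  have hxn : x ^ 4 = n := vstep_x S.card
  have hx0 : 0 ≤ x := Real.sqrt_nonneg _
  have hx2 : 2 ≤ x := by
    by_contra hcon
    push Not at hcon
    have h1 : x ^ 4 < 2 ^ 4 := pow_lt_pow_left₀ hcon hx0 (by norm_num)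
    rw [hxn] at h1
    linarith
  have hxpos : 0 < x := by linarith
  set τ : ℝ := η / 2 / x with hτdef
  have hτpos : 0 < τ := by positivity
  have hτ4 : τ ≤ η / 4 := by
    rw [hτdef, div_le_iff₀ hxpos]
    nlinarith
  let A : Option ↥S → Finset ↥S := fun j => j.elim univ (fun v => univ.filter fun w => G.Adj v w)
  have hcardS : (Fintype.card ↥S : ℝ) = n := by
    rw [Fintype.card_coe]
  have hcardJ : (Fintype.card (Option ↥S) : ℝ) = n + 1 := by
    rw [Fintype.card_option, Fintype.card_coe]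
    push_cast
    rfl
  obtain ⟨f, hf⟩ := part (K := 2) ![3 * η / 4, 1 - 3 * η / 4]
    (by
      intro i
      fin_cases i
      · simp
        positivity
      · simp
        linarith)
    (by
      rw [Fin.sum_univ_two]
      simp) A hτpos (by linarith)
    (by
      rw [hcardS, hcardJ]
      have := vstep_cond hη hxpos hxn (by linarith) hnη
      push_cast
      exact this)
  rw [hcardS] at hf
  set U : Finset V := S.filter (fun v => ∃ h : v ∈ S, f ⟨v, h⟩ = 0) with hUdef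
  have hUmem : ∀ v : ↥S, (v : V) ∈ U ↔ f v = 0 := by
    intro v
    rw [hUdef, mem_filter]
    constructor
    · rintro ⟨_, h, h'⟩
      exact h'
    · intro h'
      exact ⟨v.2, v.2, h'⟩
  have hUS : U ⊆ S := filter_subset _ _
  have hcard : ∀ (B : Finset ↥S) (C : Finset V), C ⊆ S → (∀ v : ↥S, v ∈ B ↔ (v : V) ∈ C) →
      B.card = C.card := by
    intro B C hC hBC
    apply Finset.card_bij (fun (v : ↥S) _ => (v : V))
    · intro a ha
      exact (hBC a).1 ha
    · intro a _ b _ h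
      exact Subtype.ext h
    · intro b hb
      exact ⟨⟨b, hC hb⟩, (hBC ⟨b, hC hb⟩).2 hb, rfl⟩
  have hU1 := hf none 0
  have hA0 : ((A none).filter (fun v => f v = 0)).card = U.card := by
    apply hcard _ _ hUS
    intro v
    rw [hUmem]
    simp only [A, Option.elim, mem_filter, mem_univ, true_and]
  rw [hA0] at hU1
  have hA0c : ((A none).card : ℝ) = n := by
    simp only [A, Option.elim]
    rw [card_univ]
    exact hcardS
  rw [hA0c] at hU1
  simp only [Matrix.cons_val_zero] at hU1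
  have hU2 := abs_le.1 hU1
  have hτn : τ * n ≤ η / 4 * n := mul_le_mul_of_nonneg_right hτ4 (by linarith)
  refine ⟨U, hUS, by linarith [hU2.1], by linarith [hU2.2], ?_⟩
  intro v hv
  have hN1 := hf (some ⟨v, hv⟩) 0
  have hA1 : ((A (some ⟨v, hv⟩)).filter (fun w => f w = 0)).card = (nb G U v).card := by
    apply hcard _ _ ((filter_subset _ _).trans hUS)
    intro w
    rw [mem_filter, mem_filter, hUmem]
    simp only [A, Option.elim, mem_filter, mem_univ, true_and]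
    exact and_comm
  have hA1c : (A (some ⟨v, hv⟩)).card = (nb G S v).card := by
    apply hcard _ _ (filter_subset _ _)
    intro w
    rw [mem_filter]
    simp only [A, Option.elim, mem_filter, mem_univ, true_and]
    exact ⟨fun h => ⟨w.2, h⟩, fun h => h.2⟩
  rw [hA1, hA1c] at hN1
  simp only [Matrix.cons_val_zero] at hN1
  have hN2 := (abs_le.1 hN1).1
  have hdv := hd v hv
  have hUc : (U.card : ℝ) ≤ (3 * η / 4 + τ) * n := by linarith [hU2.2]
  have hnbn : 3 * η / 4 * (c * n) ≤ 3 * η / 4 * ((nb G S v).card : ℝ) :=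
    mul_le_mul_of_nonneg_left hdv (by positivity)
  have hnb : 3 * η / 4 * (c * n) - τ * n ≤ ((nb G U v).card : ℝ) := by linarith
  rcases le_or_gt (c - 2 / x) 0 with h0 | h0
  · have h1 : (c - 2 / x) * (U.card : ℝ) ≤ 0 := mul_nonpos_of_nonpos_of_nonneg h0 (Nat.cast_nonneg _)
    exact h1.trans (Nat.cast_nonneg _)
  · have h1 : (c - 2 / x) * (U.card : ℝ) ≤ (c - 2 / x) * ((3 * η / 4 + τ) * n) :=
      mul_le_mul_of_nonneg_left hUc h0.le
    have h2 : 2 * τ = η * (1 / x) := by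
      rw [hτdef]
      ring
    set e : ℝ := 1 / x with hedef
    have he : 2 / x = 2 * e := by
      rw [hedef]
      ring
    have hepos : 0 < e := by positivity
    rw [he] at h1 h0 ⊢
    refine h1.trans (le_trans ?_ hnb)
    have hnpos : 0 ≤ n := by linarith
    have h3 : (c - 2 * e) * (3 * η / 4 + τ) ≤ 3 * η / 4 * c - τ := by
      have h4 : c * τ ≤ 1 * τ := mul_le_mul_of_nonneg_right hc hτpos.le
      have h5 : 0 ≤ e * τ := by positivity
      have h6 : 0 < η * e := by positivity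
      nlinarith
    calc (c - 2 * e) * ((3 * η / 4 + τ) * n) = ((c - 2 * e) * (3 * η / 4 + τ)) * n := by ring
      _ ≤ (3 * η / 4 * c - τ) * n := mul_le_mul_of_nonneg_right h3 hnpos
      _ = 3 * η / 4 * (c * n) - τ * n := by ring

end Pool.NSH
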